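import Pool.Agent.Lib.MP_ce949a_lc.Numerics

section

set_option autoImplicit false
set_option linter.unusedSectionVars false
set_option linter.unusedVariables false

namespace Pool.Agent.Lib.MP_ce949a_lc

open Finset Classical

section BadP

variable {b : ℕ} {κ : Type*} [Fintype κ] [DecidableEq κ] [Nonempty κ]

/-- some subcube of dimension `r + 1` has `k` odd points mapped into `Z` -/
def BadP (r k : ℕ) (Z : Finset κ) (h : Pt b → κ) (Q : Cube b) : Prop :=
  ∃ Q', level Q' = r + 1 ∧ Sub Q' Q ∧ ∃ A : Finset (Pt b),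
    A ⊆ (pts Q').filter (fun x => IsOdd x) ∧ A.card = k ∧ ∀ x ∈ A, h x ∈ Z

lemma BadP_loc (r k : ℕ) (Z : Finset κ) : LocBad (b := b) (BadP r k Z) := by
  have key : ∀ (Q : Cube b) (h h' : Pt b → κ), (∀ x ∈ pts Q, h x = h' x) →
      BadP r k Z h Q → BadP r k Z h' Q := by
    rintro Q h h' hh ⟨Q', h1, h2, A, h3, h4, h5⟩
    refine ⟨Q', h1, h2, A, h3, h4, ?_⟩
    intro x hx
    rw [← hh x (pts_sub h2 (Finset.mem_filter.mp (h3 hx)).1)]
    exact h5 x hx
  intro Q h h' hh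
  exact ⟨key Q h h' hh, key Q h' h (fun x hx => (hh x hx).symm)⟩

lemma Ev_maps {A : Finset (Pt b)} (Z : Finset κ) :
    Ev (fun h : Pt b → κ => if ∀ x ∈ A, h x ∈ Z then (1 : ℝ) else 0) =
      ((Z.card : ℝ) / Fintype.card κ) ^ A.card := by
  unfold Ev
  rw [← Finset.sum_filter, Finset.sum_const, nsmul_eq_mul, mul_one,
    cnt_fun A Z _ (by intro f; simp)]
  have h1 := card_pos' (ι := Pt b) (κ := κ)
  have h2 : (Fintype.card (Pt b → κ) : ℝ) = (Fintype.card κ : ℝ) ^ Fintype.card (Pt b) := by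
    rw [Fintype.card_fun]; push_cast; rfl
  rw [← h2]
  field_simp

lemma Ev_BadP {q : ℕ} (r k : ℕ) (Z : Finset κ) {Q : Cube b} (hQ : level Q = q) :
    Ev (ind (BadP r k Z) Q) ≤
      3 ^ q * ((2 ^ r).choose k : ℝ) * ((Z.card : ℝ) / Fintype.card κ) ^ k := by
  have h1 : ∀ h : Pt b → κ, ind (BadP r k Z) Q h ≤
      ∑ Q' ∈ subs (r + 1) Q, ∑ A ∈ ((pts Q').filter (fun x => IsOdd x)).powersetCard k,
        if ∀ x ∈ A, h x ∈ Z then (1 : ℝ) else 0 := by
    intro h
    have hnn : ∀ Q' ∈ subs (r + 1) Q,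
        (0 : ℝ) ≤ ∑ A ∈ ((pts Q').filter (fun x => IsOdd x)).powersetCard k,
        if ∀ x ∈ A, h x ∈ Z then (1 : ℝ) else 0 := by
      intro Q' _
      apply Finset.sum_nonneg
      intro A _
      split_ifs <;> norm_num
    unfold ind
    split_ifs with hb
    · obtain ⟨Q', h1, h2, A, h3, h4, h5⟩ := hb
      calc (1 : ℝ) = if ∀ x ∈ A, h x ∈ Z then (1 : ℝ) else 0 := by rw [if_pos h5]
        _ ≤ ∑ A ∈ ((pts Q').filter (fun x => IsOdd x)).powersetCard k,
            if ∀ x ∈ A, h x ∈ Z then (1 : ℝ) else 0 :=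
          Finset.single_le_sum (f := fun A : Finset (Pt b) =>
            if ∀ x ∈ A, h x ∈ Z then (1 : ℝ) else 0)
            (fun A _ => by show (0 : ℝ) ≤ if ∀ x ∈ A, h x ∈ Z then (1 : ℝ) else 0
                           split_ifs <;> norm_num)
            (Finset.mem_powersetCard.mpr ⟨h3, h4⟩)
        _ ≤ _ := Finset.single_le_sum (f := fun Q' : Cube b =>
            ∑ A ∈ ((pts Q').filter (fun x => IsOdd x)).powersetCard k,
            if ∀ x ∈ A, h x ∈ Z then (1 : ℝ) else 0) hnn (mem_subs.mpr ⟨h1, h2⟩)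
    · exact Finset.sum_nonneg hnn
  refine (Ev_mono h1).trans ?_
  rw [Ev_sum]
  have h2 : ∀ Q' ∈ subs (r + 1) Q,
      Ev (fun h : Pt b → κ => ∑ A ∈ ((pts Q').filter (fun x => IsOdd x)).powersetCard k,
        if ∀ x ∈ A, h x ∈ Z then (1 : ℝ) else 0) =
      ((2 ^ r).choose k : ℝ) * ((Z.card : ℝ) / Fintype.card κ) ^ k := by
    intro Q' hQ'
    rw [Ev_sum]
    have h3 : ∀ A ∈ ((pts Q').filter (fun x => IsOdd x)).powersetCard k,
        Ev (fun h : Pt b → κ => if ∀ x ∈ A, h x ∈ Z then (1 : ℝ) else 0) =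
        ((Z.card : ℝ) / Fintype.card κ) ^ k := by
      intro A hA
      rw [Ev_maps, (Finset.mem_powersetCard.mp hA).2]
    rw [Finset.sum_congr rfl h3, Finset.sum_const, nsmul_eq_mul, Finset.card_powersetCard,
      card_odd_pts Q' (mem_subs.mp hQ').1]
  rw [Finset.sum_congr rfl h2, Finset.sum_const, nsmul_eq_mul, mul_assoc]
  apply mul_le_mul_of_nonneg_right _ (by positivity)
  rw [← hQ]
  exact_mod_cast card_subs_le (r + 1) Q

lemma Xf_mono {Bad Bad' : Cube b → Prop} (h : ∀ Q, Bad Q → Bad' Q) :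
    ∀ (k : ℕ) (Q : Cube b), Xf Bad k Q ≤ Xf Bad' k Q := by
  intro k
  induction k with
  | zero =>
    intro Q
    rw [Xf_zero, Xf_zero]
    split_ifs with h1 h2
    · exact le_rfl
    · exact absurd (h Q h1) h2
    · omega
    · exact le_rfl
  | succ k ih =>
    intro Q
    rw [Xf_succ, Xf_succ]
    apply Finset.sup_mono_fun
    intro a _
    exact add_le_add (ih _) (ih _)

/-- product over independent pigeons -/
lemma Ev_prod {ι : Type*} [Fintype ι] [DecidableEq ι] (φ : κ → ℝ) (I : Finset ι) :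
    Ev (fun g : ι → κ => ∏ i ∈ I, φ (g i)) =
      ((∑ x, φ x) / Fintype.card κ) ^ I.card := by
  have h1 : ∀ g : ι → κ, ∏ i ∈ I, φ (g i) = ∏ i, if i ∈ I then φ (g i) else 1 := by
    intro g
    rw [Finset.prod_ite_mem, Finset.univ_inter]
  unfold Ev
  rw [Finset.sum_congr rfl (fun g _ => h1 g)]
  have h2 : ∑ g : ι → κ, ∏ i, (if i ∈ I then φ (g i) else 1) =
      ∏ i : ι, ∑ x : κ, if i ∈ I then φ x else 1 := by
    rw [Finset.prod_univ_sum, Fintype.piFinset_univ]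
  rw [h2]
  have h3 : ∀ i : ι, (∑ x : κ, if i ∈ I then φ x else 1) =
      if i ∈ I then ∑ x, φ x else (Fintype.card κ : ℝ) := by
    intro i
    split_ifs with h
    · rfl
    · simp
  rw [Finset.prod_congr rfl (fun i _ => h3 i), Finset.prod_ite]
  simp only [Finset.prod_const]
  have hI : (univ.filter (fun i => i ∈ I)).card = I.card := by
    congr 1; ext i; simp
  have hI' : (univ.filter (fun i => ¬ i ∈ I)).card + I.card = Fintype.card ι := by
    have := Finset.card_filter_add_card_filter_not (s := (univ : Finset ι)) (fun i => i ∈ I)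
    rw [Finset.card_univ] at this
    omega
  rw [hI, Fintype.card_fun, ← hI', div_pow]
  have hκ : (Fintype.card κ : ℝ) ≠ 0 := by exact_mod_cast Fintype.card_ne_zero
  push_cast
  rw [pow_add]
  field_simp

end BadP

section Root

variable {b M : ℕ} (P : Prm)

/-- the value of the game for one random map -/
noncomputable def phi (b M : ℕ) (P : Prm) (j k : ℕ) (Z : Finset (Fin M)) (h : Pt b → Fin M) : ℝ :=
  (Xf (BadP (P.R j - 2) k Z h) (b - P.q j) (fun _ => none) : ℝ) / 2 ^ (b - P.q j)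

lemma rich_BadP {j : ℕ} (hR : 2 ≤ P.R j) {g : Fin (M + 1) → Pt b → Fin M}
    {Y : Finset (Fin (M + 1))} {i : Fin (M + 1)} {Q : Cube b}
    (h : RichAt P (tmap g) i j Q Y) : BadP (P.R j - 2) (P.τ j) (inT Y) (g i) Q := by
  obtain ⟨Q', h1, h2, h3⟩ := h
  obtain ⟨A, hA, hAc⟩ := Finset.exists_subset_card_eq h3
  refine ⟨Q', by omega, h2, A, ?_, hAc, ?_⟩
  · intro x hx
    have := hA hx
    simp only [opts, Finset.mem_filter, Finset.mem_univ, true_and] at this
    simp only [Finset.mem_filter, mem_pts]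
    exact ⟨this.1, this.2.1⟩
  · intro x hx
    have := hA hx
    simp only [opts, Finset.mem_filter, Finset.mem_univ, true_and] at this
    simp only [inT, Finset.mem_filter, Finset.mem_univ, true_and]
    exact this.2.2

lemma poor_BadP {j : ℕ} (hR : 2 ≤ P.R j) {g : Fin (M + 1) → Pt b → Fin M}
    {S : Finset (Fin (M + 1))} {i : Fin (M + 1)} {Q : Cube b}
    (h : PoorAt P (tmap g) i j Q S) :
    BadP (P.R j - 2) (2 ^ (P.R j - 2) - P.τ j) (outT S) (g i) Q := by
  obtain ⟨Q', h1, h2, h3⟩ := h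
  have hl : level Q' = (P.R j - 2) + 1 := by omega
  set Z := ((pts Q').filter (fun x => IsOdd x)) \ opts (tmap g) i Q' S with hZ
  have hsub : opts (tmap g) i Q' S ⊆ (pts Q').filter (fun x => IsOdd x) := by
    intro x hx
    simp only [opts, Finset.mem_filter, Finset.mem_univ, true_and] at hx
    simp only [Finset.mem_filter, mem_pts]
    exact ⟨hx.1, hx.2.1⟩
  have hZc : 2 ^ (P.R j - 2) - P.τ j ≤ Z.card := by
    have := Finset.card_sdiff_add_card_eq_card hsub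
    rw [card_odd_pts Q' hl, ← hZ] at this
    omega
  obtain ⟨A, hA, hAc⟩ := Finset.exists_subset_card_eq hZc
  refine ⟨Q', hl, h2, A, hA.trans Finset.sdiff_subset, hAc, ?_⟩
  intro x hx
  have hx' := hA hx
  simp only [hZ, opts, Finset.mem_sdiff, Finset.mem_filter, Finset.mem_univ, true_and,
    mem_pts] at hx'
  simp only [outT, Finset.mem_filter, Finset.mem_univ, true_and]
  intro hS
  exact hx'.2 ⟨hx'.1.1, hx'.1.2, hS⟩

/-- the expected failure functional at the root -/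
theorem Ev_FF_root (hM : 0 < M) (hP : P.Ok b (M + 1)) (v1 : ℕ → ℕ → ℝ) (v2 : ℕ → ℝ)
    (hv1 : ∀ j ≤ P.J, ∀ Y : Finset (Fin (M + 1)), Y.Nonempty → Y.card ≤ P.Yb j →
      Ev (phi b M P j (P.τ j) (inT Y)) ≤ v1 j Y.card)
    (hv2 : ∀ j ≤ P.J, ∀ S : Finset (Fin (M + 1)), P.Sg j ≤ S.card →
      Ev (phi b M P j (2 ^ (P.R j - 2) - P.τ j) (outT S)) ≤ v2 j)
    (hs1 : ∀ j ≤ P.J, ∑ XY ∈ Fam1 (Fin (M + 1)) P j, v1 j XY.2.card ^ XY.1.card ≤
      (1 / 2) ^ (j + 3))
    (hs2 : ∀ j ≤ P.J, ∑ SI ∈ Fam2 (Fin (M + 1)) P j, v2 j ^ P.Bt j ≤ (1 / 2) ^ (j + 3)) :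
    ∃ g : Fin (M + 1) → Pt b → Fin M, FF P (tmap g) (root (Fin (M + 1)) P b) ≤ 1 / 2 := by
  have : Nonempty (Fin M) := ⟨⟨0, hM⟩⟩
  have hphi0 : ∀ j k Z h, 0 ≤ phi b M P j k Z h := by
    intro j k Z h; unfold phi; positivity
  have hR : ∀ j, 2 ≤ P.R j := fun j => hP.R0.trans (hP.Rmono.monotone (Nat.zero_le j))
  -- pointwise bound
  have h1 : ∀ g : Fin (M + 1) → Pt b → Fin M, FF P (tmap g) (root (Fin (M + 1)) P b) ≤
      ∑ j ∈ Finset.range (P.J + 1),
        (∑ XY ∈ Fam1 (Fin (M + 1)) P j, ∏ i ∈ XY.1, phi b M P j (P.τ j) (inT XY.2) (g i) +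
         ∑ SI ∈ Fam2 (Fin (M + 1)) P j, ∏ i ∈ SI.2,
          phi b M P j (2 ^ (P.R j - 2) - P.τ j) (outT SI.1) (g i)) := by
    intro g
    unfold FF
    apply Finset.sum_le_sum
    intro j hj
    have hj' : j ≤ P.J := by have := Finset.mem_range.mp hj; omega
    apply add_le_add
    · apply Finset.sum_le_sum
      intro XY _
      apply Finset.prod_le_prod (fun i _ => Vl_nonneg P _ j _ i)
      intro i _
      rw [root_Vl P hP hj']
      unfold phi
      apply div_le_div_of_nonneg_right _ (by positivity)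
      exact_mod_cast Xf_mono (fun Q hQ => rich_BadP P (hR j) hQ) _ _
    · apply Finset.sum_le_sum
      intro XY _
      apply Finset.prod_le_prod (fun i _ => Vl_nonneg P _ j _ i)
      intro i _
      rw [root_Vl P hP hj']
      unfold phi
      apply div_le_div_of_nonneg_right _ (by positivity)
      exact_mod_cast Xf_mono (fun Q hQ => poor_BadP P (hR j) hQ) _ _
  have h2 : Ev (fun g : Fin (M + 1) → Pt b → Fin M =>
      FF P (tmap g) (root (Fin (M + 1)) P b)) ≤ 1 / 2 := by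
    refine (Ev_mono h1).trans ?_
    rw [Ev_sum]
    have h3 : ∀ j ∈ Finset.range (P.J + 1), Ev (fun g : Fin (M + 1) → Pt b → Fin M =>
        (∑ XY ∈ Fam1 (Fin (M + 1)) P j, ∏ i ∈ XY.1, phi b M P j (P.τ j) (inT XY.2) (g i) +
         ∑ SI ∈ Fam2 (Fin (M + 1)) P j, ∏ i ∈ SI.2,
          phi b M P j (2 ^ (P.R j - 2) - P.τ j) (outT SI.1) (g i))) ≤ (1 / 2) ^ (j + 2) := by
      intro j hj
      have hj' : j ≤ P.J := by have := Finset.mem_range.mp hj; omega
      rw [Ev_add, Ev_sum, Ev_sum]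
      have e1 : ∑ XY ∈ Fam1 (Fin (M + 1)) P j, Ev (fun g : Fin (M + 1) → Pt b → Fin M =>
          ∏ i ∈ XY.1, phi b M P j (P.τ j) (inT XY.2) (g i)) ≤
          ∑ XY ∈ Fam1 (Fin (M + 1)) P j, v1 j XY.2.card ^ XY.1.card := by
        apply Finset.sum_le_sum
        intro XY hXY
        simp only [Fam1, Finset.mem_filter, Finset.mem_univ, true_and] at hXY
        rw [Ev_prod]
        apply pow_le_pow_left₀
        · exact Ev_nonneg (hphi0 j _ _)
        · exact hv1 j hj' XY.2 (hXY.2.1.mono hXY.1) hXY.2.2.1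
      have e2 : ∑ SI ∈ Fam2 (Fin (M + 1)) P j, Ev (fun g : Fin (M + 1) → Pt b → Fin M =>
          ∏ i ∈ SI.2, phi b M P j (2 ^ (P.R j - 2) - P.τ j) (outT SI.1) (g i)) ≤
          ∑ SI ∈ Fam2 (Fin (M + 1)) P j, v2 j ^ P.Bt j := by
        apply Finset.sum_le_sum
        intro SI hSI
        simp only [Fam2, Finset.mem_filter, Finset.mem_univ, true_and] at hSI
        rw [Ev_prod, hSI.2]
        apply pow_le_pow_left₀
        · exact Ev_nonneg (hphi0 j _ _)
        · exact hv2 j hj' SI.1 hSI.1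
      have e3 := hs1 j hj'
      have e4 := hs2 j hj'
      have e5 : (1 / 2 : ℝ) ^ (j + 2) = (1 / 2) ^ (j + 3) + (1 / 2) ^ (j + 3) := by
        rw [pow_succ (1 / 2 : ℝ) (j + 2)]; ring
      linarith
    refine (Finset.sum_le_sum h3).trans ?_
    have h4 : ∀ n : ℕ, ∑ j ∈ Finset.range n, (1 / 2 : ℝ) ^ (j + 2) = 1 / 2 - (1 / 2) ^ (n + 1) := by
      intro n
      induction n with
      | zero => norm_num
      | succ n ih => rw [Finset.sum_range_succ, ih, pow_succ (1 / 2 : ℝ) (n + 1)]; ring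
    rw [h4]
    have : (0 : ℝ) ≤ (1 / 2) ^ (P.J + 1 + 1) := by positivity
    linarith
  by_contra hcon
  push Not at hcon
  have h5 : Ev (fun g : Fin (M + 1) → Pt b → Fin M =>
      FF P (tmap g) (root (Fin (M + 1)) P b)) > 1 / 2 := by
    unfold Ev
    rw [gt_iff_lt, lt_div_iff₀ card_pos']
    calc (1 / 2 : ℝ) * Fintype.card (Fin (M + 1) → Pt b → Fin M) =
          ∑ g : Fin (M + 1) → Pt b → Fin M, (1 / 2 : ℝ) := by
          rw [Finset.sum_const, nsmul_eq_mul, Finset.card_univ]; ring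
      _ < _ := Finset.sum_lt_sum_of_nonempty Finset.univ_nonempty (fun g _ => hcon g)
  linarith

end Root

end Pool.Agent.Lib.MP_ce949a_lc
end

section

set_option autoImplicit false
set_option linter.unusedSectionVars false
set_option linter.unusedVariables false

namespace Pool.Agent.Lib.MP_ce949a_lc

open Finset Classical

/-- the concrete parameters -/
def prm (b N : ℕ) : Prm where
  J := (b - 32) / 8
  R := fun j => 32 + 8 * j
  q := fun j => min (39 + 8 * j) b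
  τ := fun j => 2 ^ (20 + 6 * j)
  A := fun j => N / 2 ^ j
  Wd := fun g => if g = 0 then N + 1 else N / 2 ^ (g - 1)
  Sg := fun j => N / 2 ^ (j + 1)
  Bt := fun j => N / 2 ^ (3 * j + 19)
  Yb := fun j => N / 2 ^ (2 * j + 15)
  K := Nat.clog 2 N
  Wc := Nat.clog 2 N + b * ((Nat.clog 2 N + 1) * ((b - 32) / 8 + 1))

/-- `N` is large enough in terms of `b` -/
def Big (b N : ℕ) : Prop := 2 ^ (4 * b + 10) * (Nat.clog 2 N + 2) ≤ N

lemma big_of_large {b N : ℕ} (h : 2 ^ (2 * (4 * b + 10) + 12) ≤ N) : Big b N := by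
  unfold Big
  set c := 4 * b + 10 with hc
  set K := Nat.clog 2 N with hK
  have hN1 : 1 < N := lt_of_lt_of_le (Nat.one_lt_two_pow (by omega)) h
  have h1 : 2 ^ (K - 1) < N := by
    have := Nat.pow_pred_clog_lt_self (b := 2) (by norm_num) (x := N) hN1
    simpa [hK] using this
  have h2 : N ≤ 2 ^ K := Nat.le_pow_clog (by norm_num) N
  have h3 : 2 * c + 12 ≤ K := by
    by_contra hcon
    push Not at hcon
    have : 2 ^ K < 2 ^ (2 * c + 12) := Nat.pow_lt_pow_right (by norm_num) hcon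
    omega
  obtain ⟨m, hm⟩ : ∃ m, K = 2 * c + 12 + m := ⟨K - (2 * c + 12), by omega⟩
  have h4 : K + 2 ≤ 2 ^ (c + 11 + m) := by
    have := Nat.lt_two_pow_self (n := c + 10 + m)
    rw [show c + 11 + m = (c + 10 + m) + 1 by ring, pow_succ]
    omega
  calc 2 ^ c * (K + 2) ≤ 2 ^ c * 2 ^ (c + 11 + m) := Nat.mul_le_mul_left _ h4
    _ = 2 ^ (K - 1) := by rw [← pow_add]; congr 1; omega
    _ ≤ N := h1.le

section

variable {b N : ℕ}

lemma Big.N_ge (h : Big b N) : 2 ^ (4 * b + 11) ≤ N := by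
  unfold Big at h
  calc 2 ^ (4 * b + 11) = 2 ^ (4 * b + 10) * 2 := by rw [← pow_succ]
    _ ≤ 2 ^ (4 * b + 10) * (Nat.clog 2 N + 2) := Nat.mul_le_mul_left _ (by omega)
    _ ≤ N := h

lemma div_ge (h : Big b N) {e : ℕ} (he : e ≤ 4 * b + 8) : 8 ≤ N / 2 ^ e := by
  rw [Nat.le_div_iff_mul_le (by positivity)]
  calc 8 * 2 ^ e = 2 ^ (e + 3) := by rw [pow_add]; ring
    _ ≤ 2 ^ (4 * b + 11) := Nat.pow_le_pow_right (by norm_num) (by omega)
    _ ≤ N := h.N_ge

lemma div_pow_add (N e k : ℕ) : N / 2 ^ (e + k) = N / 2 ^ e / 2 ^ k := by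
  rw [pow_add, Nat.div_div_eq_div_mul]

lemma sum_Icc_head {f : ℕ → ℕ} {g J : ℕ} (h : g ≤ J) :
    ∑ j ∈ Finset.Icc g J, f j = f g + ∑ j ∈ Finset.Icc (g + 1) J, f j := by
  have h1 : Finset.Icc g J = insert g (Finset.Icc (g + 1) J) := by
    ext x
    simp only [Finset.mem_Icc, Finset.mem_insert]
    omega
  rw [h1, Finset.sum_insert (by simp)]

lemma prm_Bp_aux (J : ℕ) : ∀ (n g : ℕ), g + n = J + 1 →
    ∑ j ∈ Finset.Icc g J, N / 2 ^ (3 * j + 19) ≤ N / 2 ^ (3 * g + 18) := by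
  intro n
  induction n with
  | zero =>
    intro g hg
    rw [Finset.Icc_eq_empty (by omega)]
    simp
  | succ n ih =>
    intro g hg
    have h1 := ih (g + 1) (by omega)
    rw [sum_Icc_head (show g ≤ J by omega)]
    have h3 : N / 2 ^ (3 * g + 19) = (N / 2 ^ (3 * g + 18)) / 2 ^ 1 := by
      rw [← div_pow_add]
    have h4 : N / 2 ^ (3 * (g + 1) + 18) = (N / 2 ^ (3 * g + 18)) / 2 ^ 3 := by
      rw [← div_pow_add]
      have : 3 * (g + 1) + 18 = 3 * g + 18 + 3 := by ring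
      rw [this]
    rw [h3]
    rw [h4] at h1
    have h5 : (2 : ℕ) ^ 1 = 2 := by norm_num
    have h6 : (2 : ℕ) ^ 3 = 8 := by norm_num
    rw [h5]
    rw [h6] at h1
    omega

lemma prm_Bp {g : ℕ} (hg : g ≤ (prm b N).J) : (prm b N).Bp g ≤ N / 2 ^ (3 * g + 18) :=
  prm_Bp_aux (prm b N).J ((prm b N).J + 1 - g) g (by omega)

lemma prm_Bp' {g : ℕ} (hg : g ≤ (prm b N).J + 1) : (prm b N).Bp g ≤ N / 2 ^ (3 * g + 18) :=
  prm_Bp_aux (prm b N).J ((prm b N).J + 1 - g) g (by omega)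

lemma succ_le_two_pow (b : ℕ) : b + 1 ≤ 2 ^ b := Nat.lt_two_pow_self

lemma prm_Lam (hB : Big b N) (hb : 32 ≤ b) : (prm b N).Lam ≤ N / 2 ^ ((prm b N).J + 3) := by
  have hJ : (prm b N).J = (b - 32) / 8 := rfl
  have hK : (prm b N).K = Nat.clog 2 N := rfl
  unfold Prm.Lam
  rw [hK, Nat.le_div_iff_mul_le (by positivity)]
  have h1 : (prm b N).J + 1 ≤ 2 ^ b :=
    le_trans (by rw [hJ]; omega) (succ_le_two_pow b)
  calc (Nat.clog 2 N + 1) * ((prm b N).J + 1) * 2 ^ ((prm b N).J + 3)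
      ≤ (Nat.clog 2 N + 2) * 2 ^ b * 2 ^ ((prm b N).J + 3) := by gcongr; omega
    _ = 2 ^ (b + ((prm b N).J + 3)) * (Nat.clog 2 N + 2) := by rw [pow_add]; ring
    _ ≤ 2 ^ (4 * b + 10) * (Nat.clog 2 N + 2) := by
        apply Nat.mul_le_mul_right
        apply Nat.pow_le_pow_right (by norm_num)
        rw [hJ]; omega
    _ ≤ N := hB

theorem prm_ok (hB : Big b N) (hb : 32 ≤ b) : (prm b N).Ok b N := by
  have hJ : (prm b N).J = (b - 32) / 8 := rfl
  have hR : ∀ j, (prm b N).R j = 32 + 8 * j := fun _ => rfl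
  have hq : ∀ j, (prm b N).q j = min (39 + 8 * j) b := fun _ => rfl
  have hA : ∀ j, (prm b N).A j = N / 2 ^ j := fun _ => rfl
  have hSg : ∀ j, (prm b N).Sg j = N / 2 ^ (j + 1) := fun _ => rfl
  have hYb : ∀ j, (prm b N).Yb j = N / 2 ^ (2 * j + 15) := fun _ => rfl
  have hJb : (prm b N).J ≤ b := by rw [hJ]; omega
  have hpow : ∀ {e e' : ℕ}, e ≤ e' → N / 2 ^ e' ≤ N / 2 ^ e := by
    intro e e' h
    exact Nat.div_le_div_left (Nat.pow_le_pow_right (by norm_num) h) (by positivity)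
  refine ⟨?_, ?_, ?_, ?_, ?_, ?_, ?_, ?_, ?_, ?_, ?_, ?_, ?_, ?_, ?_, ?_, ?_, ?_, ?_, ?_⟩
  · rw [hR]; omega
  · intro i j hij
    rw [hR, hR]; omega
  · intro j
    rw [hR, hq]
    have := min_le_left (39 + 8 * j) b
    omega
  · intro i j hij
    rw [hq, hq]
    exact min_le_min_right _ (by omega)
  · intro l h0 hlb
    rw [hR] at h0
    refine ⟨(l - 32) / 8, ?_, ?_, ?_⟩
    · rw [hJ]; exact Nat.div_le_div_right (by omega)
    · rw [hR]; omega
    · rw [hq, le_min_iff]; omega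
  · rw [hR, hJ]; omega
  · intro j _
    rw [hq]; exact min_le_right _ _
  · rw [hq, hJ]
    apply min_eq_right; omega
  · intro j hj
    rw [hJ] at hj
    rw [hq, hR, le_min_iff]; omega
  · intro j
    show 0 < 2 ^ (20 + 6 * j)
    positivity
  · rfl
  · intro g
    show (if g + 1 = 0 then N + 1 else N / 2 ^ (g + 1 - 1)) = N / 2 ^ g
    rw [if_neg (by omega)]
    rfl
  · intro i j hij
    rw [hA, hA]
    exact hpow hij
  · rw [hA]; simp
  · intro i j hij
    rw [hSg, hSg]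
    exact hpow (by omega)
  · intro g hg
    rw [hSg, hA]
    have h1 := prm_Bp (b := b) (N := N) hg
    have h2 : N / 2 ^ (3 * g + 18) ≤ N / 2 ^ (g + 3) := hpow (by omega)
    have h3 : 8 ≤ N / 2 ^ g := div_ge hB (by omega)
    rw [div_pow_add N g 1]
    rw [div_pow_add N g 3] at h2
    have h5 : (2 : ℕ) ^ 1 = 2 := by norm_num
    have h6 : (2 : ℕ) ^ 3 = 8 := by norm_num
    rw [h5]
    rw [h6] at h2
    omega
  · intro g hg
    rw [hSg, hA]
    unfold Prm.slack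
    have h1 := prm_Bp' (b := b) (N := N) (g := g + 1) (by omega)
    have h2 : N / 2 ^ (3 * (g + 1) + 18) ≤ N / 2 ^ (g + 4) := hpow (by omega)
    have h3 : 8 ≤ N / 2 ^ g := div_ge hB (by omega)
    have h4 := prm_Lam hB hb
    have h4' : N / 2 ^ ((prm b N).J + 3) ≤ N / 2 ^ (g + 3) := hpow (by omega)
    rw [div_pow_add N g 1]
    rw [div_pow_add N g 4] at h2
    rw [div_pow_add N g 3] at h4'
    have h5 : (2 : ℕ) ^ 1 = 2 := by norm_num
    have h6 : (2 : ℕ) ^ 3 = 8 := by norm_num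
    have h7 : (2 : ℕ) ^ 4 = 16 := by norm_num
    rw [h5]
    rw [h6] at h4'
    rw [h7] at h2
    omega
  · intro j hj
    rw [hYb]
    have h1 := prm_Bp (b := b) (N := N) hj
    have hj' : j ≤ (b - 32) / 8 := hj
    have h2 : 8 ≤ N / 2 ^ (3 * j + 18) := div_ge hB (by omega)
    rw [Nat.le_div_iff_mul_le (by positivity)]
    calc 2 ^ (j + 2) * ((prm b N).Bp j + 1) * 2 ^ (2 * j + 15)
        ≤ 2 ^ (j + 2) * (2 * (N / 2 ^ (3 * j + 18))) * 2 ^ (2 * j + 15) := by
          apply Nat.mul_le_mul_right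
          apply Nat.mul_le_mul_left
          omega
      _ = (N / 2 ^ (3 * j + 18)) * 2 ^ (3 * j + 18) := by
          have : (2 : ℕ) ^ (3 * j + 18) = 2 ^ (j + 2) * 2 * 2 ^ (2 * j + 15) := by
            rw [← pow_succ, ← pow_add]; congr 1; ring
          rw [this]; ring
      _ ≤ N := Nat.div_mul_le_self _ _
  · exact Nat.le_pow_clog (by norm_num) N
  · show Nat.clog 2 N + b * ((Nat.clog 2 N + 1) * ((b - 32) / 8 + 1)) ≤ _
    exact le_rfl

lemma sum_div_le (N : ℕ) : ∀ n : ℕ,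
    ∑ g ∈ Finset.range n, N / 2 ^ g + 2 * (N / 2 ^ n) ≤ 2 * N := by
  intro n
  induction n with
  | zero => simp
  | succ n ih =>
    rw [Finset.sum_range_succ, div_pow_add N n 1, pow_one]
    omega

lemma sum_div_le2 (N : ℕ) : ∀ n : ℕ,
    ∑ g ∈ Finset.range n, (40 + 8 * g) * (N / 2 ^ g) + (96 + 16 * n) * (N / 2 ^ n) ≤
      96 * N := by
  intro n
  induction n with
  | zero => simp
  | succ n ih =>
    rw [Finset.sum_range_succ, div_pow_add N n 1, pow_one]
    set x := N / 2 ^ n with hx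
    have h1 : 2 * (x / 2) ≤ x := Nat.mul_div_le x 2
    have h2 : (96 + 16 * (n + 1)) * (x / 2) = (56 + 8 * n) * (2 * (x / 2)) := by ring
    have h3 : (56 + 8 * n) * (2 * (x / 2)) ≤ (56 + 8 * n) * x := Nat.mul_le_mul_left _ h1
    have h4 : (40 + 8 * n) * x + (56 + 8 * n) * x = (96 + 16 * n) * x := by ring
    omega

lemma lin_le_pow (j : ℕ) : 40 + 8 * j ≤ 2 ^ (j + 6) := by
  induction j with
  | zero => norm_num
  | succ j ih =>
    rw [show j + 1 + 6 = (j + 6) + 1 by ring, pow_succ]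
    omega

lemma prm_cap_aux (J : ℕ) : ∀ (n g : ℕ), g + n = J + 1 →
    ∑ j ∈ Finset.Icc g J, N / 2 ^ (2 * j + 13) ≤ N / 2 ^ (2 * g + 12) := by
  intro n
  induction n with
  | zero =>
    intro g hg
    rw [Finset.Icc_eq_empty (by omega)]
    simp
  | succ n ih =>
    intro g hg
    have h1 := ih (g + 1) (by omega)
    rw [sum_Icc_head (show g ≤ J by omega)]
    have h3 : N / 2 ^ (2 * g + 13) = (N / 2 ^ (2 * g + 12)) / 2 ^ 1 := by
      rw [← div_pow_add]
    have h4 : N / 2 ^ (2 * (g + 1) + 12) = (N / 2 ^ (2 * g + 12)) / 2 ^ 2 := by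
      rw [← div_pow_add]
      have : 2 * (g + 1) + 12 = 2 * g + 12 + 2 := by ring
      rw [this]
    rw [h3]
    rw [h4] at h1
    have h5 : (2 : ℕ) ^ 1 = 2 := by norm_num
    have h6 : (2 : ℕ) ^ 2 = 4 := by norm_num
    rw [h5]
    rw [h6] at h1
    omega

lemma prm_cap {g : ℕ} (hg : g ≤ (prm b N).J) : (prm b N).cap g ≤ N / 2 ^ g := by
  have h1 : (prm b N).cap g ≤ ∑ j ∈ Finset.Icc g (prm b N).J, N / 2 ^ (2 * j + 13) := by
    unfold Prm.cap
    apply Finset.sum_le_sum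
    intro j _
    show (min (39 + 8 * j) b + 1) * (N / 2 ^ (3 * j + 19)) ≤ N / 2 ^ (2 * j + 13)
    rw [Nat.le_div_iff_mul_le (by positivity)]
    have h2 : min (39 + 8 * j) b + 1 ≤ 2 ^ (j + 6) := by
      have h3 := lin_le_pow j
      have h4 := min_le_left (39 + 8 * j) b
      omega
    calc (min (39 + 8 * j) b + 1) * (N / 2 ^ (3 * j + 19)) * 2 ^ (2 * j + 13)
        ≤ 2 ^ (j + 6) * (N / 2 ^ (3 * j + 19)) * 2 ^ (2 * j + 13) := by gcongr
      _ = (N / 2 ^ (3 * j + 19)) * 2 ^ (3 * j + 19) := by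
          have : (2 : ℕ) ^ (3 * j + 19) = 2 ^ (j + 6) * 2 ^ (2 * j + 13) := by
            rw [← pow_add]; congr 1; ring
          rw [this]; ring
      _ ≤ N := Nat.div_mul_le_self _ _
  refine h1.trans ((prm_cap_aux (N := N) (prm b N).J ((prm b N).J + 1 - g) g (by omega)).trans ?_)
  exact Nat.div_le_div_left (Nat.pow_le_pow_right (by norm_num) (by omega)) (by positivity)

theorem prm_TT2 (hB : Big b N) (hb : 32 ≤ b) : TT2 (prm b N) N + 1 ≤ 310 * N := by
  unfold TT2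
  set J := (prm b N).J with hJ
  have hJ' : J = (b - 32) / 8 := rfl
  have e0 : (prm b N).R 0 = 32 := rfl
  have e1 : ∑ g ∈ Finset.range (J + 1), ((prm b N).R (g + 1) - (prm b N).R g) * (prm b N).A g ≤
      16 * N := by
    have h1 : ∀ g ∈ Finset.range (J + 1),
        ((prm b N).R (g + 1) - (prm b N).R g) * (prm b N).A g = 8 * (N / 2 ^ g) := by
      intro g _
      show ((32 + 8 * (g + 1)) - (32 + 8 * g)) * (N / 2 ^ g) = _
      congr 1; omega
    rw [Finset.sum_congr rfl h1, ← Finset.mul_sum]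
    have h2 := sum_div_le N (J + 1)
    omega
  have e2 : ∑ g ∈ Finset.range (J + 1), ((prm b N).cap g + (prm b N).R g * (prm b N).Wd g) ≤
      130 * N + 32 := by
    rw [Finset.sum_add_distrib]
    have h1 : ∑ g ∈ Finset.range (J + 1), (prm b N).cap g ≤ 2 * N := by
      have h2 := sum_div_le N (J + 1)
      calc ∑ g ∈ Finset.range (J + 1), (prm b N).cap g ≤ ∑ g ∈ Finset.range (J + 1), N / 2 ^ g := by
            apply Finset.sum_le_sum
            intro g hg
            exact prm_cap (by have := Finset.mem_range.mp hg; omega)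
        _ ≤ 2 * N := by omega
    have h2 : ∑ g ∈ Finset.range (J + 1), (prm b N).R g * (prm b N).Wd g ≤
        32 * (N + 1) + 96 * N := by
      rw [Finset.sum_range_succ']
      have h3 : (prm b N).R 0 * (prm b N).Wd 0 = 32 * (N + 1) := rfl
      have h4 : ∀ g ∈ Finset.range J, (prm b N).R (g + 1) * (prm b N).Wd (g + 1) =
          (40 + 8 * g) * (N / 2 ^ g) := by
        intro g _
        show (32 + 8 * (g + 1)) * (if g + 1 = 0 then N + 1 else N / 2 ^ (g + 1 - 1)) = _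
        rw [if_neg (by omega), Nat.add_sub_cancel]
        congr 1; ring
      rw [h3, Finset.sum_congr rfl h4]
      have h5 := sum_div_le2 N J
      omega
    omega
  have e3 : (prm b N).Wc * (2 * (J + 1)) * 2 + 65 ≤ N := by
    set K := Nat.clog 2 N with hK
    have hWc : (prm b N).Wc = K + b * ((K + 1) * (J + 1)) := rfl
    have h1 : J + 1 ≤ 2 ^ b := le_trans (by rw [hJ']; omega) (succ_le_two_pow b)
    have h2 : b ≤ 2 ^ b := Nat.lt_two_pow_self.le
    have h3 : (prm b N).Wc ≤ (K + 2) * (2 ^ b * 2 ^ b * 2) := by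
      rw [hWc]
      have h4 : b * ((K + 1) * (J + 1)) ≤ 2 ^ b * ((K + 1) * 2 ^ b) := by gcongr
      have h5 : 1 ≤ 2 ^ b * 2 ^ b := Nat.mul_pos (by positivity) (by positivity)
      have h6 : K ≤ K * (2 ^ b * 2 ^ b) := Nat.le_mul_of_pos_right _ (by positivity)
      calc K + b * ((K + 1) * (J + 1)) ≤ K * (2 ^ b * 2 ^ b) + 2 ^ b * ((K + 1) * 2 ^ b) := by
            omega
        _ = (2 * K + 1) * (2 ^ b * 2 ^ b) := by ring
        _ ≤ ((K + 2) * 2) * (2 ^ b * 2 ^ b) := by gcongr; omega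
        _ = _ := by ring
    have h4 : (prm b N).Wc * (2 * (J + 1)) * 2 ≤ (K + 2) * 2 ^ (3 * b + 3) := by
      calc (prm b N).Wc * (2 * (J + 1)) * 2
          ≤ ((K + 2) * (2 ^ b * 2 ^ b * 2)) * (2 * 2 ^ b) * 2 := by gcongr
        _ = (K + 2) * 2 ^ (3 * b + 3) := by
            rw [show 3 * b + 3 = b + b + b + 3 by ring, pow_add, pow_add, pow_add]; ring
    have h5 : (K + 2) * 2 ^ (3 * b + 3) + (K + 2) * 2 ^ (3 * b + 6) ≤ N := by
      have h6 : 2 ^ (3 * b + 3) + 2 ^ (3 * b + 6) ≤ 2 ^ (4 * b + 10) := by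
        have a1 : 2 ^ (3 * b + 3) ≤ 2 ^ (3 * b + 6) := Nat.pow_le_pow_right (by norm_num) (by omega)
        have a2 : 2 ^ (3 * b + 6) * 2 ≤ 2 ^ (4 * b + 10) := by
          rw [← pow_succ]; exact Nat.pow_le_pow_right (by norm_num) (by omega)
        omega
      calc (K + 2) * 2 ^ (3 * b + 3) + (K + 2) * 2 ^ (3 * b + 6)
          = (2 ^ (3 * b + 3) + 2 ^ (3 * b + 6)) * (K + 2) := by ring
        _ ≤ 2 ^ (4 * b + 10) * (K + 2) := Nat.mul_le_mul_right _ h6
        _ ≤ N := hB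
    have h6 : 65 ≤ (K + 2) * 2 ^ (3 * b + 6) := by
      have a1 : 2 ^ 6 ≤ 2 ^ (3 * b + 6) := Nat.pow_le_pow_right (by norm_num) (by omega)
      have a2 : 2 * 2 ^ (3 * b + 6) ≤ (K + 2) * 2 ^ (3 * b + 6) :=
        Nat.mul_le_mul_right _ (by omega)
      have a3 : (2 : ℕ) ^ 6 = 64 := by norm_num
      omega
    omega
  rw [e0]
  have e4 : (prm b N).Wc * (2 * (J + 1)) * 2 = 2 * ((prm b N).Wc * (2 * (J + 1))) := by ring
  omega

end

end Pool.Agent.Lib.MP_ce949a_lc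
end

section

set_option autoImplicit false
set_option linter.unusedSectionVars false
set_option linter.unusedVariables false

namespace Pool.Agent.Lib.MP_ce949a_lc

open Finset Classical

lemma const_bound (q j : ℕ) (hq : q ≤ 39 + 8 * j) :
    ((q : ℝ) + 5) ^ 4 * 3 ^ (q + 1) * 3 ^ q ≤ 2 ^ (334 + 64 * j) := by
  have h1 : ((q : ℝ) + 5) ≤ 2 ^ (q + 5) := by
    have : q + 5 ≤ 2 ^ (q + 5) := Nat.lt_two_pow_self.le
    exact_mod_cast this
  have h2 : ((q : ℝ) + 5) ^ 4 ≤ 2 ^ (4 * q + 20) := by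
    calc ((q : ℝ) + 5) ^ 4 ≤ (2 ^ (q + 5)) ^ 4 := pow_le_pow_left₀ (by positivity) h1 4
      _ = 2 ^ (4 * q + 20) := by rw [← pow_mul]; congr 1; ring
  have h3 : (3 : ℝ) ^ (q + 1) ≤ 2 ^ (2 * (q + 1)) := by
    rw [pow_mul]; exact pow_le_pow_left₀ (by norm_num) (by norm_num) _
  have h4 : (3 : ℝ) ^ q ≤ 2 ^ (2 * q) := by
    rw [pow_mul]; exact pow_le_pow_left₀ (by norm_num) (by norm_num) _
  calc ((q : ℝ) + 5) ^ 4 * 3 ^ (q + 1) * 3 ^ q
      ≤ 2 ^ (4 * q + 20) * 2 ^ (2 * (q + 1)) * 2 ^ (2 * q) := by gcongr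
    _ = 2 ^ (4 * q + 20 + 2 * (q + 1) + 2 * q) := by rw [← pow_add, ← pow_add]
    _ ≤ 2 ^ (334 + 64 * j) := pow_le_pow_right₀ (by norm_num) (by omega)

lemma pow_aux1 (j : ℕ) : 334 + 64 * j ≤ 2 ^ (j + 9) := by
  induction j with
  | zero => norm_num
  | succ j ih =>
    rw [show j + 1 + 9 = (j + 9) + 1 by ring, pow_succ]
    omega

lemma pow_aux2 (j : ℕ) : 3 * j + 22 ≤ 2 ^ (j + 5) := by
  induction j with
  | zero => norm_num
  | succ j ih =>
    rw [show j + 1 + 5 = (j + 5) + 1 by ring, pow_succ]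
    omega

lemma exp_rich (j : ℕ) :
    (334 + 64 * j) + (3 * j + 22) * 2 ^ (j + 4) ≤ 2 * 2 ^ (20 + 6 * j) := by
  have h1 := pow_aux1 j
  have h2 := pow_aux2 j
  have h3 : (3 * j + 22) * 2 ^ (j + 4) ≤ 2 ^ (2 * j + 9) := by
    calc (3 * j + 22) * 2 ^ (j + 4) ≤ 2 ^ (j + 5) * 2 ^ (j + 4) := Nat.mul_le_mul_right _ h2
      _ = 2 ^ (2 * j + 9) := by rw [← pow_add]; congr 1; ring
  have h4 : 2 ^ (j + 9) ≤ 2 ^ (20 + 6 * j) := Nat.pow_le_pow_right (by norm_num) (by omega)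
  have h5 : 2 ^ (2 * j + 9) ≤ 2 ^ (20 + 6 * j) := Nat.pow_le_pow_right (by norm_num) (by omega)
  omega

lemma pow_four_aux (e : ℕ) : 2 ^ e * 4 = 2 ^ (e + 2) := by
  rw [pow_add]; norm_num

lemma half_two (e : ℕ) : (2 : ℝ) ^ e * (1 / 2) ^ e = 1 := by
  rw [← mul_pow]; norm_num

lemma rich_num {j y N M q : ℕ} {v : ℝ} (hv : 0 ≤ v) (hN : N = M + 1) (hM : 1 ≤ M)
    (hy1 : 1 ≤ y) (hy : y ≤ N / 2 ^ (2 * j + 15)) (hq : q ≤ 39 + 8 * j)
    (h : v ^ 4 ≤ ((q : ℝ) + 5) ^ 4 * 3 ^ (q + 1) * (3 ^ q *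
      ((2 ^ (30 + 8 * j)).choose (2 ^ (20 + 6 * j)) : ℝ) * ((y : ℝ) / M) ^ (2 ^ (20 + 6 * j)))) :
    v ≤ (((y : ℝ) / N) * (1 / 2) ^ (j + 7)) ^ (2 ^ (j + 2)) := by
  have hMpos : (0 : ℝ) < M := by exact_mod_cast hM
  have hNpos : (0 : ℝ) < N := by
    have : 0 < N := by omega
    exact_mod_cast this
  have hypos : (0 : ℝ) < y := by exact_mod_cast hy1
  set τ := 2 ^ (20 + 6 * j) with hτ
  have hτ1 : 1 ≤ τ := Nat.one_le_two_pow
  set ω : ℝ := (y : ℝ) / N * 2 ^ (2 * j + 15) with hω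
  have hω0 : 0 ≤ ω := by positivity
  have hω1 : ω ≤ 1 := by
    rw [hω, div_mul_eq_mul_div, div_le_one hNpos]
    rw [Nat.le_div_iff_mul_le (by positivity)] at hy
    exact_mod_cast hy
  have hchoose := choose_le_three (2 ^ (30 + 8 * j)) τ hτ1
  have e1 : (3 * ((2 ^ (30 + 8 * j) : ℕ) : ℝ) / (τ : ℝ)) = 3 * 2 ^ (10 + 2 * j) := by
    rw [hτ]
    push_cast
    rw [show 30 + 8 * j = (10 + 2 * j) + (20 + 6 * j) by ring, pow_add]
    field_simp
  rw [e1] at hchoose
  have e2 : (y : ℝ) / M ≤ 2 * ((y : ℝ) / N) := by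
    rw [← mul_div_assoc, div_le_div_iff₀ hMpos hNpos]
    have : (N : ℝ) ≤ 2 * M := by
      have : N ≤ 2 * M := by omega
      exact_mod_cast this
    nlinarith
  have e3 : ((2 ^ (30 + 8 * j)).choose τ : ℝ) * ((y : ℝ) / M) ^ τ ≤ (1 / 4) ^ τ * ω ^ τ := by
    calc ((2 ^ (30 + 8 * j)).choose τ : ℝ) * ((y : ℝ) / M) ^ τ
        ≤ (3 * 2 ^ (10 + 2 * j)) ^ τ * (2 * ((y : ℝ) / N)) ^ τ := by gcongr
      _ = (3 / 16 * ω) ^ τ := by
          rw [← mul_pow]
          congr 1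
          rw [hω, show 2 * j + 15 = (10 + 2 * j) + 5 by ring, pow_add]
          ring
      _ ≤ (1 / 4 * ω) ^ τ := by
          apply pow_le_pow_left₀ (by positivity)
          linarith
      _ = _ := mul_pow _ _ _
  have e4 : v ^ 4 ≤ 2 ^ (334 + 64 * j) * ((1 / 4) ^ τ * ω ^ τ) := by
    refine h.trans ?_
    calc ((q : ℝ) + 5) ^ 4 * 3 ^ (q + 1) * (3 ^ q *
          ((2 ^ (30 + 8 * j)).choose τ : ℝ) * ((y : ℝ) / M) ^ τ)
        = (((q : ℝ) + 5) ^ 4 * 3 ^ (q + 1) * 3 ^ q) *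
          (((2 ^ (30 + 8 * j)).choose τ : ℝ) * ((y : ℝ) / M) ^ τ) := by ring
      _ ≤ _ := by
          apply mul_le_mul (const_bound q j hq) e3 (by positivity) (by positivity)
  have e5 : (1 / 4 : ℝ) ^ τ = (1 / 2) ^ (2 * τ) := by rw [pow_mul]; norm_num
  have e6 : (2 : ℝ) ^ (334 + 64 * j) * (1 / 4) ^ τ ≤ (1 / 2) ^ ((3 * j + 22) * 2 ^ (j + 4)) := by
    rw [e5]
    calc (2 : ℝ) ^ (334 + 64 * j) * (1 / 2) ^ (2 * τ)
        ≤ 2 ^ (334 + 64 * j) * (1 / 2) ^ ((334 + 64 * j) + (3 * j + 22) * 2 ^ (j + 4)) := by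
          apply mul_le_mul_of_nonneg_left _ (by positivity)
          exact pow_le_pow_of_le_one (by norm_num) (by norm_num) (exp_rich j)
      _ = (1 / 2) ^ ((3 * j + 22) * 2 ^ (j + 4)) := by
          rw [pow_add (1 / 2 : ℝ), ← mul_assoc, half_two, one_mul]
  have e7 : ω ^ τ ≤ ω ^ (2 ^ (j + 4)) := by
    apply pow_le_pow_of_le_one hω0 hω1
    exact Nat.pow_le_pow_right (by norm_num) (by omega)
  have e8 : v ^ 4 ≤ ((((y : ℝ) / N) * (1 / 2) ^ (j + 7)) ^ (2 ^ (j + 2))) ^ 4 := by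
    calc v ^ 4 ≤ 2 ^ (334 + 64 * j) * ((1 / 4) ^ τ * ω ^ τ) := e4
      _ = (2 ^ (334 + 64 * j) * (1 / 4) ^ τ) * ω ^ τ := by ring
      _ ≤ (1 / 2) ^ ((3 * j + 22) * 2 ^ (j + 4)) * ω ^ (2 ^ (j + 4)) := by
          apply mul_le_mul e6 e7 (by positivity) (by positivity)
      _ = _ := by
          rw [pow_mul (1 / 2 : ℝ) (3 * j + 22), ← mul_pow, ← pow_mul]
          have e9 : 2 ^ (j + 2) * 4 = 2 ^ (j + 4) := by
            rw [show j + 4 = (j + 2) + 2 by ring, pow_add 2 (j + 2) 2]; norm_num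
          rw [e9]
          congr 1
          rw [hω]
          have e10 : (2 : ℝ) ^ (2 * j + 15) * (1 / 2) ^ (3 * j + 22) = (1 / 2) ^ (j + 7) := by
            rw [show 3 * j + 22 = (2 * j + 15) + (j + 7) by ring, pow_add (1 / 2 : ℝ),
              ← mul_assoc, half_two, one_mul]
          rw [← e10]; ring
  exact le_of_pow_le_pow_left₀ (by norm_num) (by positivity) e8

lemma poor_num {j s z N M q : ℕ} {v : ℝ} (hv : 0 ≤ v) (hN : N = M + 1) (hM : 1 ≤ M)
    (hs : N / 2 ^ (j + 1) ≤ s) (h8 : 8 ≤ N / 2 ^ (j + 1)) (hz : z + s ≤ N)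
    (hq : q ≤ 39 + 8 * j)
    (h : v ^ 4 ≤ ((q : ℝ) + 5) ^ 4 * 3 ^ (q + 1) * (3 ^ q *
      ((2 ^ (30 + 8 * j)).choose (2 ^ (30 + 8 * j) - 2 ^ (20 + 6 * j)) : ℝ) *
      ((z : ℝ) / M) ^ (2 ^ (30 + 8 * j) - 2 ^ (20 + 6 * j)))) :
    v ≤ (1 / 2) ^ (2 ^ (3 * j + 22)) := by
  have hMpos : (0 : ℝ) < M := by exact_mod_cast hM
  set w := 2 ^ (j + 2) with hw
  have hw1 : 1 ≤ w := Nat.one_le_two_pow
  have hwpos : (0 : ℝ) < w := by exact_mod_cast hw1
  set n := 2 ^ (30 + 8 * j) with hn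
  set τ := 2 ^ (20 + 6 * j) with hτ
  set m := 2 ^ (27 + 7 * j) with hm
  have hτn : τ ≤ 2 ^ (29 + 8 * j) := Nat.pow_le_pow_right (by norm_num) (by omega)
  have hn2 : n = 2 * 2 ^ (29 + 8 * j) := by rw [hn, ← pow_succ']; congr 1; ring
  have hwm : w * m ≤ n - τ := by
    have : w * m = 2 ^ (29 + 8 * j) := by rw [hw, hm, ← pow_add]; congr 1; ring
    omega
  -- the base
  have hbase : (z : ℝ) / M ≤ 1 - 1 / (w : ℝ) := by
    set x := N / 2 ^ (j + 1) with hx
    have h1 : N < (x + 1) * 2 ^ (j + 1) := by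
      have h := Nat.div_add_mod N (2 ^ (j + 1))
      have h' := Nat.mod_lt N (show 2 ^ (j + 1) > 0 by positivity)
      rw [← hx] at h
      rw [add_mul, one_mul, mul_comm x]; omega
    have h2 : 2 * N ≤ (x + 1) * w := by
      have : w = 2 * 2 ^ (j + 1) := by rw [hw, ← pow_succ']
      rw [this, ← mul_assoc, mul_comm (x + 1) 2, mul_assoc]; omega
    have h3 : z + x ≤ M + 1 := by omega
    rw [div_le_iff₀ hMpos]
    have h2R : 2 * ((M : ℝ) + 1) ≤ ((x : ℝ) + 1) * w := by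
      have : 2 * (M + 1) ≤ (x + 1) * w := by rw [← hN]; exact h2
      exact_mod_cast this
    have h3R : (z : ℝ) + x ≤ M + 1 := by exact_mod_cast h3
    have h8R : (8 : ℝ) ≤ x := by exact_mod_cast h8
    have h4 : (M : ℝ) / w ≤ ((x : ℝ) + 1) / 2 := by
      rw [div_le_div_iff₀ hwpos (by norm_num)]; linarith
    have h5 : (1 - 1 / (w : ℝ)) * M = M - M / w := by ring
    rw [h5]; linarith
  have hbase0 : (0 : ℝ) ≤ (z : ℝ) / M := by positivity
  have hb1 : 1 - 1 / (w : ℝ) ≤ 1 := by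
    have : 0 ≤ 1 / (w : ℝ) := by positivity
    linarith
  have hb0 : 0 ≤ 1 - 1 / (w : ℝ) := hbase0.trans hbase
  have e1 : ((z : ℝ) / M) ^ (n - τ) ≤ (1 / 2) ^ m := by
    calc ((z : ℝ) / M) ^ (n - τ) ≤ (1 - 1 / (w : ℝ)) ^ (n - τ) :=
          pow_le_pow_left₀ hbase0 hbase _
      _ ≤ (1 - 1 / (w : ℝ)) ^ (w * m) := pow_le_pow_of_le_one hb0 hb1 hwm
      _ = ((1 - 1 / (w : ℝ)) ^ w) ^ m := pow_mul _ _ _
      _ ≤ (1 / 2) ^ m := pow_le_pow_left₀ (pow_nonneg hb0 _) (one_sub_pow_le hw1) _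
  have hτn' : τ ≤ n := by omega
  have e2 : (n.choose (n - τ) : ℝ) ≤ 2 ^ (2 ^ (26 + 7 * j)) := by
    rw [Nat.choose_symm hτn']
    have h1 : n.choose τ ≤ n ^ τ := Nat.choose_le_pow _ _
    have h2 : n ^ τ ≤ 2 ^ (2 ^ (26 + 7 * j)) := by
      rw [hn, ← pow_mul]
      apply Nat.pow_le_pow_right (by norm_num)
      have h3 := lin_le_pow j
      calc (30 + 8 * j) * τ ≤ 2 ^ (j + 6) * τ := Nat.mul_le_mul_right _ (by omega)
        _ = 2 ^ (26 + 7 * j) := by rw [hτ, ← pow_add]; congr 1; ring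
    exact_mod_cast h1.trans h2
  have hm2 : m = 2 ^ (26 + 7 * j) + 2 ^ (26 + 7 * j) := by
    rw [hm, ← two_mul, ← pow_succ']; congr 1; ring
  have e3 : v ^ 4 ≤ 2 ^ (334 + 64 * j) * (1 / 2) ^ (2 ^ (26 + 7 * j)) := by
    refine h.trans ?_
    calc ((q : ℝ) + 5) ^ 4 * 3 ^ (q + 1) * (3 ^ q * (n.choose (n - τ) : ℝ) *
          ((z : ℝ) / M) ^ (n - τ))
        = (((q : ℝ) + 5) ^ 4 * 3 ^ (q + 1) * 3 ^ q) *
          ((n.choose (n - τ) : ℝ) * ((z : ℝ) / M) ^ (n - τ)) := by ring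
      _ ≤ 2 ^ (334 + 64 * j) * (2 ^ (2 ^ (26 + 7 * j)) * (1 / 2) ^ m) := by
          apply mul_le_mul (const_bound q j hq) _ (by positivity) (by positivity)
          exact mul_le_mul e2 e1 (by positivity) (by positivity)
      _ = _ := by
          rw [hm2, pow_add (1 / 2 : ℝ), ← mul_assoc ((2 : ℝ) ^ (2 ^ (26 + 7 * j))), half_two,
            one_mul]
  have e4 : (334 + 64 * j) + 2 ^ (3 * j + 24) ≤ 2 ^ (26 + 7 * j) := by
    have h1 := pow_aux1 j
    have h2 : 2 ^ (j + 9) ≤ 2 ^ (24 + 7 * j) := Nat.pow_le_pow_right (by norm_num) (by omega)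
    have h3 : 2 ^ (3 * j + 24) ≤ 2 ^ (24 + 7 * j) := Nat.pow_le_pow_right (by norm_num) (by omega)
    have h4 : 2 ^ (26 + 7 * j) = 4 * 2 ^ (24 + 7 * j) := by
      rw [show 26 + 7 * j = (24 + 7 * j) + 2 by ring, pow_add]; ring
    omega
  have e5 : v ^ 4 ≤ ((1 / 2) ^ (2 ^ (3 * j + 22))) ^ 4 := by
    calc v ^ 4 ≤ 2 ^ (334 + 64 * j) * (1 / 2) ^ (2 ^ (26 + 7 * j)) := e3
      _ ≤ 2 ^ (334 + 64 * j) * (1 / 2) ^ ((334 + 64 * j) + 2 ^ (3 * j + 24)) := by
          apply mul_le_mul_of_nonneg_left _ (by positivity)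
          exact pow_le_pow_of_le_one (by norm_num) (by norm_num) e4
      _ = (1 / 2) ^ (2 ^ (3 * j + 24)) := by
          rw [pow_add (1 / 2 : ℝ), ← mul_assoc, half_two, one_mul]
      _ = _ := by
          rw [← pow_mul, pow_four_aux]
  exact le_of_pow_le_pow_left₀ (by norm_num) (by positivity) e5

/-- the rich value -/
noncomputable def v1f (N j y : ℕ) : ℝ := (((y : ℝ) / N) * (1 / 2) ^ (j + 7)) ^ (2 ^ (j + 2))

lemma sum_fam1 {b M : ℕ} (j : ℕ) :
    ∑ XY ∈ Fam1 (Fin (M + 1)) (prm b (M + 1)) j, v1f (M + 1) j XY.2.card ^ XY.1.card ≤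
      (1 / 2) ^ (j + 3) := by
  set u : ℕ → ℝ := fun y => ((y : ℝ) / ((M + 1 : ℕ) : ℝ)) * (1 / 2) ^ (j + 7) with hu
  have hu0 : ∀ y, 0 ≤ u y := fun y => by rw [hu]; positivity
  have hMpos : (0 : ℝ) < ((M + 1 : ℕ) : ℝ) := by positivity
  -- termwise
  have h1 : ∀ XY ∈ Fam1 (Fin (M + 1)) (prm b (M + 1)) j,
      v1f (M + 1) j XY.2.card ^ XY.1.card ≤ u XY.2.card ^ XY.2.card := by
    intro XY hXY
    simp only [Fam1, Finset.mem_filter, Finset.mem_univ, true_and] at hXY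
    have hle : (XY.2.card : ℝ) ≤ ((M + 1 : ℕ) : ℝ) := by
      have := Finset.card_le_univ XY.2
      rw [Fintype.card_fin] at this
      exact_mod_cast this
    have hu1 : u XY.2.card ≤ 1 := by
      rw [hu]
      have a1 : (XY.2.card : ℝ) / ((M + 1 : ℕ) : ℝ) ≤ 1 := by rw [div_le_one hMpos]; exact hle
      have a2 : (1 / 2 : ℝ) ^ (j + 7) ≤ 1 := pow_le_one₀ (by norm_num) (by norm_num)
      exact mul_le_one₀ a1 (by positivity) a2
    show ((u XY.2.card) ^ (2 ^ (j + 2))) ^ XY.1.card ≤ _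
    rw [← pow_mul]
    exact pow_le_pow_of_le_one (hu0 _) hu1 hXY.2.2.2
  refine (Finset.sum_le_sum h1).trans ?_
  have h2 : ∑ XY ∈ Fam1 (Fin (M + 1)) (prm b (M + 1)) j, u XY.2.card ^ XY.2.card ≤
      ∑ Y : Finset (Fin (M + 1)), if 1 ≤ Y.card then (2 * u Y.card) ^ Y.card else 0 := by
    calc ∑ XY ∈ Fam1 (Fin (M + 1)) (prm b (M + 1)) j, u XY.2.card ^ XY.2.card
        ≤ ∑ XY ∈ (univ : Finset (Finset (Fin (M + 1)) × Finset (Fin (M + 1)))).filter
            (fun XY => XY.1 ⊆ XY.2 ∧ 1 ≤ XY.2.card), u XY.2.card ^ XY.2.card := by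
          apply Finset.sum_le_sum_of_subset_of_nonneg
          · intro XY hXY
            simp only [Fam1, Finset.mem_filter, Finset.mem_univ, true_and] at hXY ⊢
            exact ⟨hXY.1, Finset.card_pos.mpr (hXY.2.1.mono hXY.1)⟩
          · intro XY _ _
            exact pow_nonneg (hu0 _) _
      _ = ∑ Y : Finset (Fin (M + 1)), ∑ X : Finset (Fin (M + 1)),
            if X ⊆ Y ∧ 1 ≤ Y.card then u Y.card ^ Y.card else 0 := by
          rw [Finset.sum_filter, ← Finset.univ_product_univ, Finset.sum_product_right]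
      _ = _ := by
          apply Finset.sum_congr rfl
          intro Y _
          split_ifs with hY
          · have e1 : ∀ X : Finset (Fin (M + 1)), (if X ⊆ Y ∧ 1 ≤ Y.card then
                u Y.card ^ Y.card else 0) = if X ⊆ Y then u Y.card ^ Y.card else 0 := by
              intro X
              simp only [hY, and_true]
            rw [Finset.sum_congr rfl (fun X _ => e1 X), ← Finset.sum_filter, Finset.sum_const]
            have e2 : (univ.filter (fun X : Finset (Fin (M + 1)) => X ⊆ Y)) = Y.powerset := by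
              ext X; simp
            rw [e2, Finset.card_powerset, nsmul_eq_mul, mul_pow 2 (u Y.card), Nat.cast_pow,
              Nat.cast_ofNat]
          · apply Finset.sum_eq_zero
            intro X _
            rw [if_neg (fun h => hY h.2)]
  refine h2.trans ?_
  have h3 : ∑ Y : Finset (Fin (M + 1)), (if 1 ≤ Y.card then (2 * u Y.card) ^ Y.card else 0) =
      ∑ y ∈ Finset.range (M + 1 + 1), (M + 1).choose y •
        (if 1 ≤ y then (2 * u y) ^ y else (0 : ℝ)) := by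
    rw [← Finset.powerset_univ, Finset.sum_powerset_apply_card
      (fun y => if 1 ≤ y then (2 * u y) ^ y else (0 : ℝ))]
    simp only [Finset.card_univ, Fintype.card_fin]
  rw [h3]
  set a : ℝ := (1 / 2) ^ (j + 4) with ha
  have ha0 : 0 ≤ a := by positivity
  have h4 : ∀ y ∈ Finset.range (M + 1 + 1), (M + 1).choose y •
        (if 1 ≤ y then (2 * u y) ^ y else (0 : ℝ)) ≤ if 1 ≤ y then a ^ y else 0 := by
    intro y _
    split_ifs with hy
    · rw [nsmul_eq_mul]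
      have hypos : (0 : ℝ) < y := by exact_mod_cast hy
      calc ((M + 1).choose y : ℝ) * (2 * u y) ^ y
          ≤ (3 * ((M + 1 : ℕ) : ℝ) / y) ^ y * (2 * u y) ^ y := by
            have := hu0 y
            apply mul_le_mul_of_nonneg_right (choose_le_three (M + 1) y hy) (by positivity)
        _ = (6 * (1 / 2) ^ (j + 7)) ^ y := by
            rw [← mul_pow]
            congr 1
            rw [hu]
            field_simp
            ring
        _ ≤ a ^ y := by
            apply pow_le_pow_left₀ (by positivity)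
            rw [ha, show j + 7 = (j + 4) + 3 by ring, pow_add (1 / 2 : ℝ) (j + 4) 3]
            have : (0 : ℝ) ≤ (1 / 2) ^ (j + 4) := by positivity
            nlinarith
    · simp
  refine (Finset.sum_le_sum h4).trans ?_
  have h5 : ∀ m : ℕ, ∑ y ∈ Finset.range (m + 1), (if 1 ≤ y then a ^ y else 0) ≤
      2 * a - 2 * a ^ (m + 1) := by
    intro m
    have ha1 : a ≤ 1 / 2 := by
      rw [ha, show j + 4 = (j + 3) + 1 by ring, pow_succ]
      have : (1 / 2 : ℝ) ^ (j + 3) ≤ 1 := pow_le_one₀ (by norm_num) (by norm_num)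
      linarith
    induction m with
    | zero => simp
    | succ m ih =>
      rw [Finset.sum_range_succ, if_pos (by omega)]
      have h6 : a ^ (m + 1 + 1) ≤ a ^ (m + 1) * (1 / 2) := by
        rw [pow_succ]
        exact mul_le_mul_of_nonneg_left ha1 (by positivity)
      linarith
  refine (h5 (M + 1)).trans ?_
  have h6 : (0 : ℝ) ≤ a ^ (M + 1 + 1) := by positivity
  have h7 : 2 * a = (1 / 2) ^ (j + 3) := by
    rw [ha, show j + 4 = (j + 3) + 1 by ring, pow_succ]; ring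
  linarith

lemma sum_fam2 {b M : ℕ} (hB : Big b (M + 1)) {j : ℕ} (hj : j ≤ (prm b (M + 1)).J)
    (hb : 32 ≤ b) :
    ∑ SI ∈ Fam2 (Fin (M + 1)) (prm b (M + 1)) j,
      ((1 / 2 : ℝ) ^ (2 ^ (3 * j + 22))) ^ (prm b (M + 1)).Bt j ≤ (1 / 2) ^ (j + 3) := by
  have hJ : (prm b (M + 1)).J = (b - 32) / 8 := rfl
  have hBt : (prm b (M + 1)).Bt j = (M + 1) / 2 ^ (3 * j + 19) := rfl
  rw [Finset.sum_const, nsmul_eq_mul, ← pow_mul, hBt]
  have h1 : ((Fam2 (Fin (M + 1)) (prm b (M + 1)) j).card : ℝ) ≤ 4 ^ (M + 1) := by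
    have : (Fam2 (Fin (M + 1)) (prm b (M + 1)) j).card ≤ 4 ^ (M + 1) := by
      calc _ ≤ (univ : Finset (Finset (Fin (M + 1)) × Finset (Fin (M + 1)))).card :=
            Finset.card_filter_le _ _
        _ = 4 ^ (M + 1) := by
            simp only [Fintype.card_prod, Fintype.card_finset, Fintype.card_fin, Finset.card_univ]
            rw [← mul_pow]
            norm_num
    exact_mod_cast this
  have h2 : 2 * (M + 1) + (j + 3) ≤ 2 ^ (3 * j + 22) * ((M + 1) / 2 ^ (3 * j + 19)) := by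
    set w := 2 ^ (3 * j + 19) with hw
    have e1 : 2 ^ (3 * j + 22) = 8 * w := by
      rw [hw, show 3 * j + 22 = (3 * j + 19) + 3 by ring, pow_add]; ring
    have e2 : 8 ≤ (M + 1) / w := div_ge hB (by omega)
    have e3 := Nat.div_add_mod (M + 1) w
    have e4 := Nat.mod_lt (M + 1) (show w > 0 by positivity)
    have e5 : w * 8 ≤ w * ((M + 1) / w) := Nat.mul_le_mul_left _ e2
    have e6 : j + 3 ≤ w := by
      have : 3 * j + 19 < 2 ^ (3 * j + 19) := Nat.lt_two_pow_self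
      omega
    rw [e1, mul_assoc]
    omega
  calc ((Fam2 (Fin (M + 1)) (prm b (M + 1)) j).card : ℝ) *
        (1 / 2) ^ (2 ^ (3 * j + 22) * ((M + 1) / 2 ^ (3 * j + 19)))
      ≤ 4 ^ (M + 1) * (1 / 2) ^ (2 * (M + 1) + (j + 3)) := by
        apply mul_le_mul h1 _ (by positivity) (by positivity)
        exact pow_le_pow_of_le_one (by norm_num) (by norm_num) h2
    _ = (1 / 2) ^ (j + 3) := by
        rw [pow_add (1 / 2 : ℝ), ← mul_assoc, pow_mul (1 / 2 : ℝ), ← mul_pow]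
        norm_num

lemma full_level (b : ℕ) : level (fun _ : Fin b => (none : Option Bool)) = b := by
  simp [level]

/-- existence of the maps -/
theorem exists_good {b M : ℕ} (hB : Big b (M + 1)) (hb : 32 ≤ b) (hM : 1 ≤ M) :
    ∃ g : Fin (M + 1) → Pt b → Fin M,
      FF (prm b (M + 1)) (tmap g) (root (Fin (M + 1)) (prm b (M + 1)) b) ≤ 1 / 2 := by
  have : Nonempty (Fin M) := ⟨⟨0, hM⟩⟩
  have hJ : (prm b (M + 1)).J = (b - 32) / 8 := rfl
  have hR : ∀ j, (prm b (M + 1)).R j - 2 = 30 + 8 * j := by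
    intro j
    show 32 + 8 * j - 2 = _
    omega
  have hτ : ∀ j, (prm b (M + 1)).τ j = 2 ^ (20 + 6 * j) := fun _ => rfl
  have hq : ∀ j, (prm b (M + 1)).q j = min (39 + 8 * j) b := fun _ => rfl
  apply Ev_FF_root (prm b (M + 1)) (by omega) (prm_ok hB hb) (v1f (M + 1))
    (fun j => (1 / 2 : ℝ) ^ (2 ^ (3 * j + 22)))
  · intro j hj Y hYne hY
    have hqb : (prm b (M + 1)).q j ≤ b := (prm_ok hB hb).qb j hj
    have hq' : (prm b (M + 1)).q j ≤ 39 + 8 * j := by rw [hq]; exact min_le_left _ _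
    unfold phi
    rw [hR, hτ]
    set q := (prm b (M + 1)).q j with hqdef
    have hst := steering (b := b) (κ := Fin M)
      (BadP_loc (30 + 8 * j) (2 ^ (20 + 6 * j)) (inT Y)) (q := q)
      (p := 3 ^ q * ((2 ^ (30 + 8 * j)).choose (2 ^ (20 + 6 * j)) : ℝ) *
        (((inT Y).card : ℝ) / Fintype.card (Fin M)) ^ (2 ^ (20 + 6 * j))) (by positivity)
      (fun R hR => Ev_BadP (30 + 8 * j) (2 ^ (20 + 6 * j)) (inT Y) hR)
      (k := b - q) (Q := fun _ => none) (by rw [full_level]; omega)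
    apply rich_num (M := M) (q := q) (Ev_nonneg (fun h => by positivity)) rfl hM
      (Finset.card_pos.mpr hYne) hY hq'
    refine hst.trans ?_
    rw [Fintype.card_fin]
    have hc : ((inT Y).card : ℝ) ≤ Y.card := by exact_mod_cast card_inT Y
    gcongr
  · intro j hj S hS
    have hqb : (prm b (M + 1)).q j ≤ b := (prm_ok hB hb).qb j hj
    have hq' : (prm b (M + 1)).q j ≤ 39 + 8 * j := by rw [hq]; exact min_le_left _ _
    unfold phi
    rw [hR, hτ]
    set q := (prm b (M + 1)).q j with hqdef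
    have hst := steering (b := b) (κ := Fin M)
      (BadP_loc (30 + 8 * j) (2 ^ (30 + 8 * j) - 2 ^ (20 + 6 * j)) (outT S)) (q := q)
      (p := 3 ^ q * ((2 ^ (30 + 8 * j)).choose (2 ^ (30 + 8 * j) - 2 ^ (20 + 6 * j)) : ℝ) *
        (((outT S).card : ℝ) / Fintype.card (Fin M)) ^ (2 ^ (30 + 8 * j) - 2 ^ (20 + 6 * j)))
      (by positivity)
      (fun R hR => Ev_BadP (30 + 8 * j) (2 ^ (30 + 8 * j) - 2 ^ (20 + 6 * j)) (outT S) hR)
      (k := b - q) (Q := fun _ => none) (by rw [full_level]; omega)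
    rw [Fintype.card_fin] at hst
    apply poor_num (s := S.card) (z := (outT S).card) (N := M + 1) (M := M) (q := q)
      (Ev_nonneg (fun h => by positivity)) rfl hM hS (div_ge hB (by omega)) (card_outT S) hq' hst
  · intro j hj
    exact sum_fam1 j
  · intro j hj
    exact sum_fam2 hB hj hb

end Pool.Agent.Lib.MP_ce949a_lc
end

section

set_option autoImplicit false
set_option linter.unusedSectionVars false
set_option linter.unusedVariables false

namespace Pool.Agent.Lib.MP_ce949a_lc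

open Finset Classical

/-- the lower bound for a block length `b` and `M + 1` blocks. -/
theorem lower_bound2 {b M n : ℕ} (hB : Big b (M + 1)) (hb : 32 ≤ b) (hM : 1 ≤ M)
    (hn : (M + 1) * b ≤ n) :
    ∃ F : Finset (Finset (Fin n × Bool)),
        (∀ C ∈ F, C.card ≤ 2 * b) ∧
        (∀ α : Fin n → Bool, ∃ C ∈ F, ∀ l ∈ C, α l.1 ≠ l.2) ∧
        ∀ s : ℕ,
          (∀ P : Finset (Fin n × Bool) → ℕ → Prop,
            (∀ C ∈ F, P C 1) →
            (∀ (C D : Finset (Fin n × Bool)) (x : Fin n) (a b : ℕ),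
              P C a → P D b → (x, true) ∈ C → (x, false) ∈ D →
              P (C.erase (x, true) ∪ D.erase (x, false)) (a + b + 1)) →
            P ∅ s) →
          (2 : ℝ) ^ (b * (M + 1)) ≤ s * 2 ^ (310 * (M + 1)) := by
  obtain ⟨g, hg⟩ := exists_good hB hb hM
  refine ⟨Frm (tmap g) 0 (emb hn), fun C hC => Frm_width _ _ _ hC,
    Frm_unsat _ _ _ (fun i x => Fin.succ_ne_zero _), ?_⟩
  intro s hs
  have h := refutation_bound3 (prm b (M + 1)) (tmap g) 0 (emb hn) (prm_ok hB hb)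
    (by rw [Fintype.card_fin])
    (by
      intro j _
      show 2 ^ (20 + 6 * j) ≤ 2 ^ (32 + 8 * j - 2)
      exact Nat.pow_le_pow_right (by norm_num) (by omega))
    (emb_injective hn) s hs hg
  refine h.trans ?_
  apply mul_le_mul_of_nonneg_left _ (by positivity)
  exact pow_le_pow_right₀ (by norm_num) (prm_TT2 hB hb)

/-- the final form -/
theorem full_bound :
    ∃ c : ℝ, 0 < c ∧ ∀ k : ℕ, 1 ≤ k → ∃ N : ℕ, ∀ n : ℕ, N ≤ n →
      ∃ F : Finset (Finset (Fin n × Bool)),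
        (∀ C ∈ F, C.card ≤ k) ∧
        (∀ α : Fin n → Bool, ∃ C ∈ F, ∀ l ∈ C, α l.1 ≠ l.2) ∧
        ∀ s : ℕ,
          (∀ P : Finset (Fin n × Bool) → ℕ → Prop,
            (∀ C ∈ F, P C 1) →
            (∀ (C D : Finset (Fin n × Bool)) (x : Fin n) (a b : ℕ),
              P C a → P D b → (x, true) ∈ C → (x, false) ∈ D →
              P (C.erase (x, true) ∪ D.erase (x, false)) (a + b + 1)) →
            P ∅ s) →
          (1 - c / (k : ℝ)) * (n : ℝ) ≤ Real.logb 2 (s : ℝ) := by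
  refine ⟨1000, by norm_num, ?_⟩
  intro k hk
  have hkpos : (0 : ℝ) < k := by exact_mod_cast hk
  by_cases hsmall : k < 64
  · refine ⟨0, fun n _ => ⟨{∅}, by simp, by simp, ?_⟩⟩
    intro s _
    have h1 : 1 - 1000 / (k : ℝ) ≤ 0 := by
      rw [sub_nonpos, le_div_iff₀ hkpos, one_mul]
      have : (k : ℝ) ≤ 64 := by exact_mod_cast hsmall.le
      linarith
    have h2 : 0 ≤ Real.logb 2 (s : ℝ) := by
      rcases Nat.eq_zero_or_pos s with h | h
      · subst h; simp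
      · exact Real.logb_nonneg (by norm_num) (by exact_mod_cast h)
    exact (mul_nonpos_of_nonpos_of_nonneg h1 (by positivity)).trans h2
  · push Not at hsmall
    set b := k / 2 with hb
    have hb1 : 32 ≤ b := by omega
    have hbpos : 0 < b := by omega
    refine ⟨(2 ^ (2 * (4 * b + 10) + 12)) * b, ?_⟩
    intro n hn
    set N' := n / b with hN'
    have hN1 : 2 ^ (2 * (4 * b + 10) + 12) ≤ N' := by
      rw [hN', Nat.le_div_iff_mul_le hbpos]
      exact hn
    have hN2 : 2 ≤ N' := by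
      calc 2 = 2 ^ 1 := by norm_num
        _ ≤ 2 ^ (2 * (4 * b + 10) + 12) := Nat.pow_le_pow_right (by norm_num) (by omega)
        _ ≤ N' := hN1
    obtain ⟨M, hM⟩ : ∃ M, N' = M + 1 := ⟨N' - 1, by omega⟩
    have hMb : (M + 1) * b ≤ n := by
      rw [← hM, hN']; exact Nat.div_mul_le_self _ _
    have hbig : Big b (M + 1) :=
      big_of_large (by rw [← hM]; exact hN1)
    obtain ⟨F, hF1, hF2, hF3⟩ := lower_bound2
      (b := b) (M := M) (n := n) hbig hb1 (by omega) hMb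
    refine ⟨F, fun C hC => (hF1 C hC).trans (by omega), hF2, ?_⟩
    intro s hs
    have hR := hF3 s hs
    have hspos : 0 < s := by
      rcases Nat.eq_zero_or_pos s with h0 | h0
      · subst h0
        simp only [Nat.cast_zero, zero_mul] at hR
        have : (0 : ℝ) < (2 : ℝ) ^ (b * (M + 1)) := by positivity
        linarith
      · exact h0
    have hsR : (0 : ℝ) < s := by exact_mod_cast hspos
    have hlogb : ((b * (M + 1) : ℕ) : ℝ) ≤ Real.logb 2 s + ((310 * (M + 1) : ℕ) : ℝ) := by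
      have h1 := Real.logb_le_logb_of_le (b := 2) (by norm_num) (by positivity) hR
      rw [Real.logb_mul (by positivity) (by positivity), Real.logb_pow, Real.logb_pow,
        Real.logb_self_eq_one (by norm_num), mul_one, mul_one] at h1
      exact h1
    have hbR : (0 : ℝ) < b := by exact_mod_cast hbpos
    have hnR : (n : ℝ) ≤ (b : ℝ) * (M + 1) + b := by
      have h1 := Nat.div_add_mod n b
      have h2 := Nat.mod_lt n hbpos
      have h3 : n ≤ b * (M + 1) + b := by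
        rw [← hM, hN']; omega
      exact_mod_cast h3
    have hMn : ((M : ℝ) + 1) * b ≤ n := by exact_mod_cast hMb
    have hbn : (b : ℝ) * b ≤ n := by
      have h1 : b ≤ 2 ^ (2 * (4 * b + 10) + 12) := by
        calc b ≤ 2 ^ b := Nat.lt_two_pow_self.le
          _ ≤ _ := Nat.pow_le_pow_right (by norm_num) (by omega)
      have h2 : b * b ≤ n := (Nat.mul_le_mul_right b h1).trans hn
      exact_mod_cast h2
    have hkb : (k : ℝ) ≤ 3 * b := by
      have : k ≤ 3 * b := by omega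
      exact_mod_cast this
    push_cast at hlogb
    have hloss : (n : ℝ) - 311 * (n / b) ≤ Real.logb 2 s := by
      have h1 : (M : ℝ) + 1 ≤ n / b := by rw [le_div_iff₀ hbR]; exact hMn
      have h2 : (b : ℝ) ≤ n / b := by rw [le_div_iff₀ hbR]; exact hbn
      linarith
    refine le_trans ?_ hloss
    have h7 : (311 : ℝ) * (n / b) ≤ 1000 / k * n := by
      have hnn : (0 : ℝ) ≤ n := by positivity
      rw [mul_div_assoc', div_mul_eq_mul_div, div_le_div_iff₀ hbR hkpos]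
      have h8 : (n : ℝ) * k ≤ n * (3 * b) := mul_le_mul_of_nonneg_left hkb hnn
      nlinarith [mul_nonneg hnn hbR.le]
    linarith

end Pool.Agent.Lib.MP_ce949a_lc
end
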