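import Pool.Agent.Lib.MP_ce949a_lc.Update

section

set_option autoImplicit false
set_option linter.unusedSectionVars false
set_option linter.unusedVariables false

namespace Pool.Agent.Lib.MP_ce949a_lc

open Finset Classical

section Mode

variable {V : Type*} [Fintype V] [DecidableEq V] {b : ℕ}
variable (P : Prm) (t : V → Pt b → V)

def Win (σ : St V b) (g : ℕ) : Prop :=
  P.A g ≤ (LS P σ g).card ∧ (LS P σ g).card < P.Wd g

def Stable (σ : St V b) (h : ℕ) : Prop :=
  Win P σ h ∧ ∀ g, h < g → g ≤ P.J → ¬ Win P σ g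

def InvUp (σ : St V b) (h : ℕ) : Prop :=
  ∀ g, h < g → g ≤ P.J → P.Wd g ≤ (LS P σ g).card + P.slack g ∨
    ∀ g', g ≤ g' → g' ≤ P.J → (LS P σ g').card < P.A g'

noncomputable def nterm (σ : St V b) (g : ℕ) : ℕ :=
  (if (LS P σ g).card < P.Wd g then 1 else 0) + (if (LS P σ g).card < P.A g then 1 else 0)

noncomputable def nsw (σ : St V b) : ℕ := ∑ g ∈ Finset.range (P.J + 1), nterm P σ g

lemma nsw_le (σ : St V b) : nsw P σ ≤ 2 * (P.J + 1) := by
  unfold nsw
  calc ∑ g ∈ Finset.range (P.J + 1), nterm P σ g ≤ ∑ g ∈ Finset.range (P.J + 1), 2 := by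
        apply Finset.sum_le_sum
        intro g _
        unfold nterm
        split_ifs <;> omega
    _ = 2 * (P.J + 1) := by rw [Finset.sum_const, Finset.card_range, smul_eq_mul, mul_comm]

lemma nterm_mono {σ σ' : St V b} (h : Later σ σ') (g : ℕ) : nterm P σ g ≤ nterm P σ' g := by
  have := Finset.card_le_card (LS_mono P h g)
  unfold nterm
  apply add_le_add
  · split_ifs <;> omega
  · split_ifs <;> omega

lemma nsw_mono {σ σ' : St V b} (h : Later σ σ') : nsw P σ ≤ nsw P σ' :=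
  Finset.sum_le_sum (fun g _ => nterm_mono P h g)

lemma nsw_lift {σ σ' : St V b} (h : Later σ σ') {g : ℕ} (hg : g ≤ P.J)
    (hd : nterm P σ g + 1 ≤ nterm P σ' g) : nsw P σ + 1 ≤ nsw P σ' := by
  unfold nsw
  have hm : g ∈ Finset.range (P.J + 1) := Finset.mem_range.mpr (by omega)
  rw [← Finset.add_sum_erase _ _ hm, ← Finset.add_sum_erase _ _ hm]
  have := Finset.sum_le_sum (s := (Finset.range (P.J + 1)).erase g)
    (fun g' _ => nterm_mono P h g')
  omega

lemma nsw_lt {σ σ' : St V b} {h : ℕ} (hh : h ≤ P.J) (hS : Stable P σ h) (hL : Later σ σ')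
    (hS' : ¬ Stable P σ' h) : nsw P σ + 1 ≤ nsw P σ' := by
  by_cases hw : Win P σ' h
  · have : ∃ g, h < g ∧ g ≤ P.J ∧ Win P σ' g := by
      by_contra hcon
      push Not at hcon
      exact hS' ⟨hw, hcon⟩
    obtain ⟨g, hg1, hg2, hg3⟩ := this
    apply nsw_lift P hL hg2
    have h1 := hS.2 g hg1 hg2
    have h2 := Finset.card_le_card (LS_mono P hL g)
    unfold Win at h1 hg3
    unfold nterm
    split_ifs <;> omega
  · apply nsw_lift P hL hh
    have h1 := hS.1
    have h2 := Finset.card_le_card (LS_mono P hL h)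
    unfold Win at h1 hw
    unfold nterm
    split_ifs <;> omega

/-- dichotomy above the largest window -/
lemma dich {N : ℕ} (hP : P.Ok b N) {σ : St V b} {h : ℕ}
    (hS : ∀ g, h < g → g ≤ P.J → ¬ Win P σ g) :
    ∀ g, h < g → g ≤ P.J → P.Wd g ≤ (LS P σ g).card ∨
      ∀ g', g ≤ g' → g' ≤ P.J → (LS P σ g').card < P.A g' := by
  intro g hg hgJ
  by_cases hc : P.Wd g ≤ (LS P σ g).card
  · left; exact hc
  · right
    push Not at hc
    intro g' hgg'
    induction g', hgg' using Nat.le_induction with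
    | base =>
      intro _
      by_contra hcon
      push Not at hcon
      exact hS g hg hgJ ⟨hcon, hc⟩
    | succ g' hgg' ih =>
      intro hg'
      have h1 := ih (by omega)
      have h2 := Finset.card_le_card (LS_anti P hP.Rmono.monotone σ (Nat.le_succ g'))
      have h3 := hP.WdS g'
      by_contra hcon
      push Not at hcon
      refine hS (g' + 1) (by omega) hg' ⟨hcon, ?_⟩
      simp only [Nat.succ_eq_add_one] at h2
      omega

/-- no window at all -/
lemma no_win {N : ℕ} (hP : P.Ok b N) (hN : Fintype.card V ≤ N) {σ : St V b}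
    (hS : ∀ g ≤ P.J, ¬ Win P σ g) : ∀ g ≤ P.J, (LS P σ g).card < P.A g := by
  intro g
  induction g with
  | zero =>
    intro h0
    by_contra hcon
    push Not at hcon
    refine hS 0 h0 ⟨hcon, ?_⟩
    rw [hP.Wd0]
    have := Finset.card_le_univ (LS P σ 0)
    omega
  | succ g ih =>
    intro hg
    have h1 := ih (by omega)
    have h2 := Finset.card_le_card (LS_anti P hP.Rmono.monotone σ (Nat.le_succ g))
    have h3 := hP.WdS g
    by_contra hcon
    push Not at hcon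
    refine hS (g + 1) hg ⟨hcon, ?_⟩
    simp only [Nat.succ_eq_add_one] at h2
    omega

/-- the full potential -/
noncomputable def Psi2 (s : V) (σ : St V b) (h c : ℕ) : ℕ :=
  Ps t s σ.ρ (KK P t σ h) σ.B * 2 ^ (comp P t σ + P.Wc * c)

structure Valid (σ : St V b) (h c : ℕ) : Prop where
  wf : WF P σ
  hJ : h ≤ P.J
  up : InvUp P σ h
  c1 : c ≤ nsw P σ
  c2 : ¬ Stable P σ h → c + 1 ≤ nsw P σ
  BL : ∑ i ∈ σ.B, level (σ.ρ i) ≤ comp P t σ + P.Wc * c

/-- final exponent -/
noncomputable def TT2 (P : Prm) (N : ℕ) : ℕ :=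
  N + P.R 0 * N + ∑ g ∈ Finset.range (P.J + 1), (P.R (g + 1) - P.R g) * P.A g +
    2 * (∑ g ∈ Finset.range (P.J + 1), (P.cap g + P.R g * P.Wd g) + P.Wc * (2 * (P.J + 1)))

variable {P t}

lemma level_sum_le {N : ℕ} (hP : P.Ok b N) (hN : Fintype.card V ≤ N) (σ : St V b) :
    ∑ i ∈ univ.filter (fun i => i ∉ σ.B), level (σ.ρ i) ≤
      P.R 0 * N + ∑ g ∈ Finset.range (P.J + 1), (P.R (g + 1) - P.R g) * (LS P σ g).card := by
  have key : ∀ l n : ℕ, min l (P.R n) ≤ P.R 0 +
      ∑ g ∈ Finset.range n, if P.R g ≤ l then P.R (g + 1) - P.R g else 0 := by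
    intro l n
    induction n with
    | zero => simp
    | succ n ih =>
      rw [Finset.sum_range_succ]
      have hm := hP.Rmono (Nat.lt_succ_self n)
      simp only [Nat.succ_eq_add_one] at hm
      split_ifs with hc
      · rw [min_eq_right hc] at ih
        have := min_le_right l (P.R (n + 1))
        omega
      · push Not at hc
        rw [min_eq_left hc.le] at ih
        have := min_le_left l (P.R (n + 1))
        omega
  have h1 : ∀ i : V, level (σ.ρ i) ≤ P.R 0 +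
      ∑ g ∈ Finset.range (P.J + 1),
        if P.R g ≤ level (σ.ρ i) then P.R (g + 1) - P.R g else 0 := by
    intro i
    have h2 := key (level (σ.ρ i)) (P.J + 1)
    rwa [min_eq_left ((level_le (σ.ρ i)).trans hP.top.le)] at h2
  calc ∑ i ∈ univ.filter (fun i => i ∉ σ.B), level (σ.ρ i)
      ≤ ∑ i ∈ univ.filter (fun i => i ∉ σ.B), (P.R 0 +
        ∑ g ∈ Finset.range (P.J + 1),
          if P.R g ≤ level (σ.ρ i) then P.R (g + 1) - P.R g else 0) :=
        Finset.sum_le_sum (fun i _ => h1 i)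
    _ = (univ.filter (fun i => i ∉ σ.B)).card * P.R 0 +
        ∑ g ∈ Finset.range (P.J + 1), ∑ i ∈ univ.filter (fun i => i ∉ σ.B),
          (if P.R g ≤ level (σ.ρ i) then P.R (g + 1) - P.R g else 0) := by
        rw [Finset.sum_add_distrib, Finset.sum_const, smul_eq_mul, Finset.sum_comm]
    _ ≤ _ := by
        apply add_le_add
        · rw [mul_comm]
          exact Nat.mul_le_mul_left _ ((Finset.card_le_univ _).trans hN)
        · apply Finset.sum_le_sum
          intro g _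
          rw [← Finset.sum_filter, Finset.sum_const, smul_eq_mul, mul_comm]
          apply Nat.mul_le_mul_left
          apply Finset.card_le_card
          intro i hi
          simp only [Finset.mem_filter, Finset.mem_univ, true_and] at hi
          rw [mem_LS]
          exact hi

lemma terminal {N : ℕ} (s : V) (hP : P.Ok b N) (hN : Fintype.card V ≤ N) {σ : St V b} {h c : ℕ}
    (hV : Valid P t σ h c) (hS : ∀ g ≤ P.J, ¬ Win P σ g) :
    Psi2 P t s σ h c ≤ 2 ^ TT2 P N := by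
  have h1 := no_win P hP hN hS
  have h2 := Ps_le t s σ.ρ (KK P t σ h) σ.B
  have h3 : ∑ i, level (σ.ρ i) = ∑ i ∈ σ.B, level (σ.ρ i) +
      ∑ i ∈ univ.filter (fun i => i ∉ σ.B), level (σ.ρ i) := by
    rw [← Finset.sum_filter_add_sum_filter_not univ (fun i => i ∈ σ.B)]
    congr 1
    apply Finset.sum_congr _ (fun _ _ => rfl)
    ext i; simp
  have h4 := level_sum_le hP hN σ
  have h5 : ∑ g ∈ Finset.range (P.J + 1), (P.R (g + 1) - P.R g) * (LS P σ g).card ≤
      ∑ g ∈ Finset.range (P.J + 1), (P.R (g + 1) - P.R g) * P.A g := by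
    apply Finset.sum_le_sum
    intro g hg
    exact Nat.mul_le_mul_left _ (h1 g (by have := Finset.mem_range.mp hg; omega)).le
  have h6 := comp_le P t σ
  have h7 : P.Wc * c ≤ P.Wc * (2 * (P.J + 1)) :=
    Nat.mul_le_mul_left _ (hV.c1.trans (nsw_le P σ))
  have h8 := hV.BL
  unfold Psi2
  calc Ps t s σ.ρ (KK P t σ h) σ.B * 2 ^ (comp P t σ + P.Wc * c)
      ≤ 2 ^ (Fintype.card V + ∑ i, level (σ.ρ i)) * 2 ^ (comp P t σ + P.Wc * c) :=
        Nat.mul_le_mul_right _ h2
    _ = 2 ^ (Fintype.card V + ∑ i, level (σ.ρ i) + (comp P t σ + P.Wc * c)) := by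
        rw [← pow_add]
    _ ≤ _ := by
        apply Nat.pow_le_pow_right (by norm_num)
        unfold TT2
        omega

/-- upward switch -/
lemma sw_core {N : ℕ} (s : V) (hP : P.Ok b N) (hN : Fintype.card V ≤ N) {σ : St V b} {h h' : ℕ}
    (hW : WF P σ) (hUp : InvUp P σ h) (hT1 : Typ1 P t σ) (hT2 : Typ2 P t σ) (hh : h < h')
    (hJ : h' ≤ P.J) (hw : Win P σ h') :
    ∃ B', σ.B ⊆ B' ∧ Disjoint (B' \ σ.B) (KK P t σ h') ∧ (B' \ σ.B).card ≤ P.Lam ∧
      Ps t s σ.ρ (KK P t σ h) σ.B ≤ 2 ^ P.Wc * Ps t s σ.ρ (KK P t σ h') B' := by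
  rcases Finset.eq_empty_or_nonempty (KK P t σ h) with hE | hne
  · refine ⟨σ.B, subset_rfl, by simp, by simp, ?_⟩
    rw [hE]
    have : Ps t s σ.ρ ∅ σ.B = 0 := by
      have := Ps_le_sum t s σ.ρ ∅ σ.B
      simpa using this
    rw [this]; exact Nat.zero_le _
  · obtain ⟨n, rfl⟩ : ∃ n, h' = h + n := ⟨h' - h, by omega⟩
    have hS : ∀ g, h ≤ g → g < h + n → P.Sg g ≤ (KK P t σ (g + 1)).card := by
      intro g hg1 hg2
      have h1 := hUp (g + 1) (by omega) (by omega)
      have h2 := hP.s2 g (by omega)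
      have h3 := hP.WdS g
      rcases h1 with h1 | h1
      · have h4 : P.Sg (g + 1) ≤ P.Sg g := hP.Sganti (Nat.le_succ g)
        have h5 := KK_card hP hW hT2 (g := g + 1) (by omega) (by omega)
        omega
      · have h4 := h1 (h + n) (by omega) (by omega)
        have h5 := hw.1
        omega
    have hlay := chain hP hN hW hT1 hT2 n hJ hS
    have hsub : KK P t σ (h + n) ⊆ KK P t σ h :=
      KK_nested P t hP.Rmono.monotone σ (Nat.le_add_right _ _)
    have hun : KK P t σ h ∪ KK P t σ (h + n) = KK P t σ h := Finset.union_eq_left.mpr hsub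
    have hdis : Disjoint σ.B (KK P t σ h ∪ KK P t σ (h + n)) := by
      rw [hun, Finset.disjoint_right]
      intro i hi
      exact ((mem_LS P).mp (KK_sub P t σ h hi)).1
    obtain ⟨B', h1, h2, h3, h4⟩ := best_end s σ.ρ hlay hdis hne
    have hcard : (B' \ σ.B).card ≤ P.Lam := by
      refine h3.trans ?_
      unfold Prm.Lam
      exact Nat.mul_le_mul_left _ (by omega)
    refine ⟨B', h1, Finset.disjoint_of_subset_left h2 Finset.sdiff_disjoint, hcard, ?_⟩
    have hC : (KK P t σ h).card ≤ 2 ^ P.K :=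
      ((Finset.card_le_univ _).trans hN).trans hP.KN
    have hlev : ∑ i ∈ B' \ σ.B, level (σ.ρ i) ≤ b * P.Lam := by
      calc ∑ i ∈ B' \ σ.B, level (σ.ρ i) ≤ ∑ i ∈ B' \ σ.B, b :=
            Finset.sum_le_sum (fun i _ => level_le _)
        _ = b * (B' \ σ.B).card := by rw [Finset.sum_const, smul_eq_mul, mul_comm]
        _ ≤ b * P.Lam := Nat.mul_le_mul_left _ hcard
    calc Ps t s σ.ρ (KK P t σ h) σ.B ≤ ∑ e ∈ KK P t σ h, Ps t s σ.ρ {e} σ.B :=
          Ps_le_sum t s σ.ρ _ _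
      _ ≤ (KK P t σ h).card * (2 ^ (∑ i ∈ B' \ σ.B, level (σ.ρ i)) *
          Ps t s σ.ρ (KK P t σ (h + n)) B') := h4
      _ ≤ 2 ^ P.K * (2 ^ (b * P.Lam) * Ps t s σ.ρ (KK P t σ (h + n)) B') := by
          apply Nat.mul_le_mul hC
          apply Nat.mul_le_mul_right
          exact Nat.pow_le_pow_right (by norm_num) hlev
      _ = 2 ^ (P.K + b * P.Lam) * Ps t s σ.ρ (KK P t σ (h + n)) B' := by
          rw [pow_add]; ring
      _ ≤ _ := by
          apply Nat.mul_le_mul_right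
          exact Nat.pow_le_pow_right (by norm_num) hP.WcOk

lemma grow_later {σ : St V b} {B' : Finset V} (hB : σ.B ⊆ B') :
    Later σ ⟨σ.ρ, σ.cp, B'⟩ := ⟨fun _ => Sub.refl _, fun _ _ _ h => h, hB⟩

lemma WF_grow {σ : St V b} {B' : Finset V} (hB : σ.B ⊆ B') (hW : WF P σ) :
    WF P (⟨σ.ρ, σ.cp, B'⟩ : St V b) :=
  ⟨fun i hi => hW.sub i (fun h => hi (hB h)), fun i hi => hW.iff i (fun h => hi (hB h))⟩

lemma card_LS_grow (σ : St V b) (B' : Finset V) (g : ℕ) :
    (LS P σ g).card ≤ (LS P ⟨σ.ρ, σ.cp, B'⟩ g).card + (B' \ σ.B).card := by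
  have h : LS P σ g ⊆ LS P ⟨σ.ρ, σ.cp, B'⟩ g ∪ (B' \ σ.B) := by
    intro i hi
    rw [mem_LS] at hi
    rw [Finset.mem_union, mem_LS, Finset.mem_sdiff]
    by_cases hiB : i ∈ B'
    · right; exact ⟨hiB, hi.1⟩
    · left; exact ⟨hiB, hi.2⟩
  exact (Finset.card_le_card h).trans (Finset.card_union_le _ _)

/-- one mode switch -/
lemma sw_step {N : ℕ} (s : V) (hP : P.Ok b N) (hN : Fintype.card V ≤ N) {σ : St V b}
    {h h' c : ℕ} (hV : Valid P t σ h c) (hT1 : Typ1 P t σ) (hT2 : Typ2 P t σ)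
    (hne : h' ≠ h) (hJ : h' ≤ P.J) (hSt : Stable P σ h') (hc : c + 1 ≤ nsw P σ) :
    ∃ B', σ.B ⊆ B' ∧ Valid P t ⟨σ.ρ, σ.cp, B'⟩ h' (c + 1) ∧
      Psi2 P t s σ h c ≤ Psi2 P t s ⟨σ.ρ, σ.cp, B'⟩ h' (c + 1) := by
  have hd := dich P hP hSt.2
  rcases Nat.lt_or_gt_of_ne hne with hlt | hgt
  · -- downward
    refine ⟨σ.B, subset_rfl, ?_, ?_⟩
    · refine ⟨hV.wf, hJ, ?_, hc, ?_, ?_⟩
      · intro g hg1 hg2
        rcases hd g hg1 hg2 with h1 | h1
        · left; exact h1.trans (Nat.le_add_right _ _)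
        · right; exact h1
      · intro h1; exact absurd hSt h1
      · refine hV.BL.trans ?_
        rw [mul_add]
        have : comp P t σ = comp P t ⟨σ.ρ, σ.cp, σ.B⟩ := rfl
        omega
    · unfold Psi2
      apply Nat.mul_le_mul
      · apply Ps_mono
        exact KK_nested P t hP.Rmono.monotone σ hlt.le
      · apply Nat.pow_le_pow_right (by norm_num)
        have : comp P t σ = comp P t ⟨σ.ρ, σ.cp, σ.B⟩ := rfl
        rw [mul_add]; omega
  · obtain ⟨B', h1, h2, h3, h4⟩ := sw_core s hP hN hV.wf hV.up hT1 hT2 hgt hJ hSt.1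
    have hL := grow_later h1
    have hcm := comp_mono P t hL
    have hWc : b * P.Lam ≤ P.Wc := by have := hP.WcOk; omega
    refine ⟨B', h1, ?_, ?_⟩
    · refine ⟨WF_grow h1 hV.wf, hJ, ?_, hc.trans (nsw_mono P hL), ?_, ?_⟩
      · intro g hg1 hg2
        rcases hd g hg1 hg2 with h5 | h5
        · left
          have h6 := card_LS_grow (P := P) σ B' g
          unfold Prm.slack
          omega
        · right
          intro g' hg'1 hg'2
          exact lt_of_le_of_lt (Finset.card_le_card (LS_mono P hL g')) (h5 g' hg'1 hg'2)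
      · intro h5
        have := nsw_lt P hJ hSt hL h5
        omega
      · have h6 : ∑ i ∈ B', level (σ.ρ i) = ∑ i ∈ B' \ σ.B, level (σ.ρ i) +
            ∑ i ∈ σ.B, level (σ.ρ i) := (Finset.sum_sdiff h1).symm
        have hlev : ∑ i ∈ B' \ σ.B, level (σ.ρ i) ≤ b * P.Lam := by
          calc ∑ i ∈ B' \ σ.B, level (σ.ρ i) ≤ ∑ i ∈ B' \ σ.B, b :=
                Finset.sum_le_sum (fun i _ => level_le _)
            _ = b * (B' \ σ.B).card := by rw [Finset.sum_const, smul_eq_mul, mul_comm]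
            _ ≤ b * P.Lam := Nat.mul_le_mul_left _ h3
        have h7 := hV.BL
        show ∑ i ∈ B', level (σ.ρ i) ≤ _
        rw [mul_add]; omega
    · unfold Psi2
      rw [KK_grow h1 h2]
      calc Ps t s σ.ρ (KK P t σ h) σ.B * 2 ^ (comp P t σ + P.Wc * c)
          ≤ (2 ^ P.Wc * Ps t s σ.ρ (KK P t σ h') B') * 2 ^ (comp P t σ + P.Wc * c) :=
            Nat.mul_le_mul_right _ h4
        _ = Ps t s σ.ρ (KK P t σ h') B' * 2 ^ (comp P t σ + P.Wc * (c + 1)) := by
            rw [mul_add, mul_one, ← add_assoc, pow_add 2 (comp P t σ + P.Wc * c)]; ring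
        _ ≤ _ := by
            apply Nat.mul_le_mul_left
            apply Nat.pow_le_pow_right (by norm_num)
            omega

lemma Win_iff_max {σ : St V b} (h : ∃ g ≤ P.J, Win P σ g) : ∃ g ≤ P.J, Stable P σ g := by
  obtain ⟨g0, hg0, hw0⟩ := h
  obtain ⟨g, hg, hmax⟩ := Finset.exists_max_image
    ((Finset.range (P.J + 1)).filter (fun g => Win P σ g)) id
    ⟨g0, Finset.mem_filter.mpr ⟨Finset.mem_range.mpr (by omega), hw0⟩⟩
  rw [Finset.mem_filter, Finset.mem_range] at hg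
  refine ⟨g, by omega, hg.2, ?_⟩
  intro g' h1 h2 h3
  have := hmax g' (Finset.mem_filter.mpr ⟨Finset.mem_range.mpr (by omega), h3⟩)
  simp only [id] at this
  omega

/-- stabilisation -/
lemma stabilise {N : ℕ} (s : V) (hP : P.Ok b N) (hN : Fintype.card V ≤ N) : ∀ (n : ℕ)
    (σ : St V b) (h c : ℕ), Valid P t σ h c → Typ1 P t σ → Typ2 P t σ →
    2 * (P.J + 1) ≤ c + n →
    Psi2 P t s σ h c ≤ 2 ^ TT2 P N ∨
    ∃ B' h' c', σ.B ⊆ B' ∧ Valid P t ⟨σ.ρ, σ.cp, B'⟩ h' c' ∧ Stable P ⟨σ.ρ, σ.cp, B'⟩ h' ∧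
      Psi2 P t s σ h c ≤ Psi2 P t s ⟨σ.ρ, σ.cp, B'⟩ h' c' := by
  intro n
  induction n with
  | zero =>
    intro σ h c hV hT1 hT2 hn
    right
    have hst : Stable P σ h := by
      by_contra hcon
      have h1 := hV.c2 hcon
      have h2 := nsw_le P σ
      omega
    exact ⟨σ.B, h, c, subset_rfl, hV, hst, le_rfl⟩
  | succ n ih =>
    intro σ h c hV hT1 hT2 hn
    by_cases hst : Stable P σ h
    · right
      exact ⟨σ.B, h, c, subset_rfl, hV, hst, le_rfl⟩
    · by_cases hw : ∃ g ≤ P.J, Win P σ g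
      · obtain ⟨h', hJ', hSt'⟩ := Win_iff_max hw
        have hne : h' ≠ h := by rintro rfl; exact hst hSt'
        obtain ⟨B', h1, h2, h3⟩ := sw_step s hP hN hV hT1 hT2 hne hJ' hSt' (hV.c2 hst)
        rcases ih ⟨σ.ρ, σ.cp, B'⟩ h' (c + 1) h2 (Typ1_congr P t (by rfl) hT1)
          (Typ2_congr P t (by rfl) hT2) (by omega) with h4 | ⟨B'', h'', c'', h5, h6, h7, h8⟩
        · left; exact h3.trans h4
        · right
          exact ⟨B'', h'', c'', h1.trans h5, h6, h7, h3.trans h8⟩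
      · left
        push Not at hw
        exact terminal s hP hN hV hw

/-- the query step -/
lemma query_step {N : ℕ} (s : V) (hP : P.Ok b N) (hN : Fintype.card V ≤ N) {σ σ' : St V b}
    {p : V} {h c : ℕ} (hQ : Qry σ σ' p) (hV : Valid P t σ h c) (hSt : Stable P σ h)
    (hW' : WF P σ') (hT1 : Typ1 P t σ') (hT2 : Typ2 P t σ') :
    Ps t s σ'.ρ (KK P t σ h) σ.B * 2 ^ (comp P t σ + P.Wc * c) ≤ 2 ^ TT2 P N ∨
    ∃ B' h' c', σ.B ⊆ B' ∧ Valid P t ⟨σ'.ρ, σ'.cp, B'⟩ h' c' ∧
      Stable P ⟨σ'.ρ, σ'.cp, B'⟩ h' ∧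
      Ps t s σ'.ρ (KK P t σ h) σ.B * 2 ^ (comp P t σ + P.Wc * c) ≤
        Psi2 P t s ⟨σ'.ρ, σ'.cp, B'⟩ h' c' := by
  obtain ⟨B', h1, h2, h3, h4⟩ := ord_step s hP hN hQ hV.wf hW' hT1 hT2 hV.hJ hSt.1.1 hSt.1.2
  have hL' := grow_later h1
  have hL := hQ.later.trans hL'
  have hd := dich P hP hSt.2
  have hV' : Valid P t ⟨σ'.ρ, σ'.cp, B'⟩ h c := by
    refine ⟨WF_grow h1 hW', hV.hJ, ?_, hV.c1.trans (nsw_mono P hL), ?_, ?_⟩
    · intro g hg1 hg2
      rcases hd g hg1 hg2 with h5 | h5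
      · left
        have h6 := ord_drop hP hQ hW' hT2 hV.hJ hSt.1.1 h2 hg2 hg1.le
        unfold Prm.slack
        omega
      · right
        intro g' hg'1 hg'2
        exact lt_of_le_of_lt (Finset.card_le_card (LS_mono P hL g')) (h5 g' hg'1 hg'2)
    · intro h5
      have h6 := nsw_lt P hV.hJ hSt hL h5
      have h7 := hV.c1
      omega
    · have h6 : ∑ i ∈ B', level (σ'.ρ i) = ∑ i ∈ B' \ σ'.B, level (σ'.ρ i) +
            ∑ i ∈ σ'.B, level (σ'.ρ i) := (Finset.sum_sdiff h1).symm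
      have h7 : ∑ i ∈ σ'.B, level (σ'.ρ i) ≤ ∑ i ∈ σ.B, level (σ.ρ i) := by
        rw [hQ.B]
        exact Finset.sum_le_sum (fun i _ => (hQ.later.ρ i).level_le)
      have h8 := hV.BL
      show ∑ i ∈ B', level (σ'.ρ i) ≤ _
      omega
  have h5 : Ps t s σ'.ρ (KK P t σ h) σ.B * 2 ^ (comp P t σ + P.Wc * c) ≤
      Psi2 P t s ⟨σ'.ρ, σ'.cp, B'⟩ h c := by
    unfold Psi2
    rw [pow_add, pow_add, ← mul_assoc, ← mul_assoc]
    exact Nat.mul_le_mul_right _ h3
  have hT1' : Typ1 P t (⟨σ'.ρ, σ'.cp, B'⟩ : St V b) := Typ1_congr P t (by rfl) hT1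
  have hT2' : Typ2 P t (⟨σ'.ρ, σ'.cp, B'⟩ : St V b) := Typ2_congr P t (by rfl) hT2
  rcases stabilise s hP hN (2 * (P.J + 1)) _ h c hV' hT1' hT2' (by omega) with
    h6 | ⟨B'', h'', c'', h7, h8, h9, h10⟩
  · left; exact h5.trans h6
  · right
    refine ⟨B'', h'', c'', ?_, h8, h9, h5.trans h10⟩
    have h11 : σ'.B ⊆ B'' := h1.trans h7
    rwa [hQ.B] at h11

end Mode

end Pool.Agent.Lib.MP_ce949a_lc
end

section

set_option autoImplicit false
set_option linter.unusedSectionVars false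
set_option linter.unusedVariables false

namespace Pool.Agent.Lib.MP_ce949a_lc

open Finset Classical

section Game

variable {b : ℕ}

/-- the number of bad leaves in the best decision tree of depth `k` -/
noncomputable def Xf (Bad : Cube b → Prop) : ℕ → Cube b → ℕ
  | 0, Q => if Bad Q then 1 else 0
  | k + 1, Q => (univ.filter (fun a => Q a = none)).sup
      (fun a => Xf Bad k (Function.update Q a (some false)) +
        Xf Bad k (Function.update Q a (some true)))

lemma Xf_zero (Bad : Cube b → Prop) (Q : Cube b) : Xf Bad 0 Q = if Bad Q then 1 else 0 := rfl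

lemma Xf_succ (Bad : Cube b → Prop) (k : ℕ) (Q : Cube b) :
    Xf Bad (k + 1) Q = (univ.filter (fun a => Q a = none)).sup
      (fun a => Xf Bad k (Function.update Q a (some false)) +
        Xf Bad k (Function.update Q a (some true))) := rfl

lemma Xf_step (Bad : Cube b → Prop) (k : ℕ) {Q : Cube b} {a : Fin b} (ha : Q a = none) :
    Xf Bad k (Function.update Q a (some false)) + Xf Bad k (Function.update Q a (some true)) ≤
      Xf Bad (k + 1) Q := by
  rw [Xf_succ]
  exact Finset.le_sup (f := fun a => Xf Bad k (Function.update Q a (some false)) +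
        Xf Bad k (Function.update Q a (some true))) (by simp [ha])

end Game

section Val

variable {V : Type*} [Fintype V] [DecidableEq V] {b : ℕ}
variable (P : Prm) (t : V → Pt b → V)

/-- value of the game for pigeon `i` at stage `j` -/
noncomputable def Vl (σ : St V b) (j : ℕ) (Bad : Cube b → Prop) (i : V) : ℝ :=
  match σ.cp i j with
  | some Q => if Bad Q then 1 else 0
  | none => if i ∈ σ.B then 0 else
      (Xf Bad (level (σ.ρ i) - P.q j) (σ.ρ i) : ℝ) / 2 ^ (level (σ.ρ i) - P.q j)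

lemma Vl_some {σ : St V b} {j : ℕ} {Bad : Cube b → Prop} {i : V} {Q : Cube b}
    (h : σ.cp i j = some Q) : Vl P σ j Bad i = if Bad Q then 1 else 0 := by
  unfold Vl; rw [h]

lemma Vl_none {σ : St V b} {j : ℕ} {Bad : Cube b → Prop} {i : V}
    (h : σ.cp i j = none) : Vl P σ j Bad i = if i ∈ σ.B then 0 else
      (Xf Bad (level (σ.ρ i) - P.q j) (σ.ρ i) : ℝ) / 2 ^ (level (σ.ρ i) - P.q j) := by
  unfold Vl; rw [h]

lemma Vl_nonneg (σ : St V b) (j : ℕ) (Bad : Cube b → Prop) (i : V) : 0 ≤ Vl P σ j Bad i := by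
  cases h : σ.cp i j with
  | some Q => rw [Vl_some P h]; split_ifs <;> norm_num
  | none => rw [Vl_none P h]; split_ifs <;> positivity

/-- the index families -/
noncomputable def Fam1 (V : Type*) [Fintype V] [DecidableEq V] (P : Prm) (j : ℕ) :
    Finset (Finset V × Finset V) :=
  univ.filter (fun XY => XY.1 ⊆ XY.2 ∧ XY.1.Nonempty ∧ XY.2.card ≤ P.Yb j ∧
    XY.2.card ≤ 2 ^ (j + 2) * XY.1.card)

noncomputable def Fam2 (V : Type*) [Fintype V] [DecidableEq V] (P : Prm) (j : ℕ) :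
    Finset (Finset V × Finset V) :=
  univ.filter (fun SI => P.Sg j ≤ SI.1.card ∧ SI.2.card = P.Bt j)

/-- the failure functional -/
noncomputable def FF (σ : St V b) : ℝ :=
  ∑ j ∈ Finset.range (P.J + 1),
    (∑ XY ∈ Fam1 V P j, ∏ i ∈ XY.1, Vl P σ j (fun Q => RichAt P t i j Q XY.2) i +
     ∑ SI ∈ Fam2 V P j, ∏ i ∈ SI.2, Vl P σ j (fun Q => PoorAt P t i j Q SI.1) i)

lemma prod_Vl_nonneg (σ : St V b) (j : ℕ) (Bad : V → Cube b → Prop) (I : Finset V) :
    0 ≤ ∏ i ∈ I, Vl P σ j (Bad i) i :=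
  Finset.prod_nonneg (fun i _ => Vl_nonneg P σ j _ i)

lemma FF_ge1 (σ : St V b) {j : ℕ} (hj : j ≤ P.J) {XY : Finset V × Finset V}
    (h : XY ∈ Fam1 V P j) :
    ∏ i ∈ XY.1, Vl P σ j (fun Q => RichAt P t i j Q XY.2) i ≤ FF P t σ := by
  have h1 : ∏ i ∈ XY.1, Vl P σ j (fun Q => RichAt P t i j Q XY.2) i ≤
      ∑ XY ∈ Fam1 V P j, ∏ i ∈ XY.1, Vl P σ j (fun Q => RichAt P t i j Q XY.2) i :=
    Finset.single_le_sum
      (f := fun XY : Finset V × Finset V =>
        ∏ i ∈ XY.1, Vl P σ j (fun Q => RichAt P t i j Q XY.2) i)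
      (fun XY _ => prod_Vl_nonneg P σ j _ _) h
  have h2 : (0 : ℝ) ≤ ∑ SI ∈ Fam2 V P j, ∏ i ∈ SI.2, Vl P σ j (fun Q => PoorAt P t i j Q SI.1) i :=
    Finset.sum_nonneg (fun SI _ => prod_Vl_nonneg P σ j _ _)
  have h3 : (∑ XY ∈ Fam1 V P j, ∏ i ∈ XY.1, Vl P σ j (fun Q => RichAt P t i j Q XY.2) i +
     ∑ SI ∈ Fam2 V P j, ∏ i ∈ SI.2, Vl P σ j (fun Q => PoorAt P t i j Q SI.1) i) ≤ FF P t σ := by
    unfold FF
    exact Finset.single_le_sum (f := fun j =>
      (∑ XY ∈ Fam1 V P j, ∏ i ∈ XY.1, Vl P σ j (fun Q => RichAt P t i j Q XY.2) i +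
     ∑ SI ∈ Fam2 V P j, ∏ i ∈ SI.2, Vl P σ j (fun Q => PoorAt P t i j Q SI.1) i))
      (fun j _ => add_nonneg (Finset.sum_nonneg (fun SI _ => prod_Vl_nonneg P σ j _ _))
        (Finset.sum_nonneg (fun SI _ => prod_Vl_nonneg P σ j _ _)))
      (Finset.mem_range.mpr (by omega))
  linarith

lemma FF_ge2 (σ : St V b) {j : ℕ} (hj : j ≤ P.J) {SI : Finset V × Finset V}
    (h : SI ∈ Fam2 V P j) :
    ∏ i ∈ SI.2, Vl P σ j (fun Q => PoorAt P t i j Q SI.1) i ≤ FF P t σ := by
  have h1 : ∏ i ∈ SI.2, Vl P σ j (fun Q => PoorAt P t i j Q SI.1) i ≤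
      ∑ SI ∈ Fam2 V P j, ∏ i ∈ SI.2, Vl P σ j (fun Q => PoorAt P t i j Q SI.1) i :=
    Finset.single_le_sum
      (f := fun SI : Finset V × Finset V =>
        ∏ i ∈ SI.2, Vl P σ j (fun Q => PoorAt P t i j Q SI.1) i)
      (fun XY _ => prod_Vl_nonneg P σ j _ _) h
  have h2 : (0 : ℝ) ≤ ∑ XY ∈ Fam1 V P j, ∏ i ∈ XY.1, Vl P σ j (fun Q => RichAt P t i j Q XY.2) i :=
    Finset.sum_nonneg (fun SI _ => prod_Vl_nonneg P σ j _ _)
  have h3 : (∑ XY ∈ Fam1 V P j, ∏ i ∈ XY.1, Vl P σ j (fun Q => RichAt P t i j Q XY.2) i +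
     ∑ SI ∈ Fam2 V P j, ∏ i ∈ SI.2, Vl P σ j (fun Q => PoorAt P t i j Q SI.1) i) ≤ FF P t σ := by
    unfold FF
    exact Finset.single_le_sum (f := fun j =>
      (∑ XY ∈ Fam1 V P j, ∏ i ∈ XY.1, Vl P σ j (fun Q => RichAt P t i j Q XY.2) i +
     ∑ SI ∈ Fam2 V P j, ∏ i ∈ SI.2, Vl P σ j (fun Q => PoorAt P t i j Q SI.1) i))
      (fun j _ => add_nonneg (Finset.sum_nonneg (fun SI _ => prod_Vl_nonneg P σ j _ _))
        (Finset.sum_nonneg (fun SI _ => prod_Vl_nonneg P σ j _ _)))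
      (Finset.mem_range.mpr (by omega))
  linarith

lemma Typ1_of_FF {σ : St V b} (h : FF P t σ < 1) : Typ1 P t σ := by
  intro j hj X Y h1 h2 h3 h4
  by_contra hcon
  push Not at hcon
  have h5 := FF_ge1 P t σ hj (XY := (X, Y)) (by
    simp only [Fam1, Finset.mem_filter, Finset.mem_univ, true_and]
    exact ⟨h1, h2, h3, h4⟩)
  have h6 : ∏ i ∈ X, Vl P σ j (fun Q => RichAt P t i j Q Y) i = 1 := by
    apply Finset.prod_eq_one
    intro i hi
    obtain ⟨Q, hQ, hR⟩ := hcon i hi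
    rw [Vl_some P hQ, if_pos hR]
  simp only at h5
  rw [h6] at h5
  linarith

lemma Typ2_of_FF {σ : St V b} (h : FF P t σ < 1) : Typ2 P t σ := by
  intro j hj S hS
  by_contra hcon
  push Not at hcon
  obtain ⟨I, hI, hIc⟩ := Finset.exists_subset_card_eq hcon
  have h5 := FF_ge2 P t σ hj (SI := (S, I)) (by
    simp only [Fam2, Finset.mem_filter, Finset.mem_univ, true_and]
    exact ⟨hS, hIc⟩)
  have h6 : ∏ i ∈ I, Vl P σ j (fun Q => PoorAt P t i j Q S) i = 1 := by
    apply Finset.prod_eq_one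
    intro i hi
    obtain ⟨Q, hQ, hR⟩ := (mem_ExJ P t).mp (hI hi)
    rw [Vl_some P hQ, if_pos hR]
  simp only at h5
  rw [h6] at h5
  linarith

lemma Vl_grow {σ : St V b} {B' : Finset V} (hB : σ.B ⊆ B') (j : ℕ) (Bad : Cube b → Prop)
    (i : V) : Vl P ⟨σ.ρ, σ.cp, B'⟩ j Bad i ≤ Vl P σ j Bad i := by
  cases h : σ.cp i j with
  | some Q => rw [Vl_some P h, Vl_some P (σ := ⟨σ.ρ, σ.cp, B'⟩) h]
  | none =>
    by_cases hi : i ∈ B'
    · have : Vl P ⟨σ.ρ, σ.cp, B'⟩ j Bad i = 0 := by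
        rw [Vl_none P (σ := ⟨σ.ρ, σ.cp, B'⟩) h, if_pos hi]
      rw [this]; exact Vl_nonneg P σ j Bad i
    · rw [Vl_none P (σ := ⟨σ.ρ, σ.cp, B'⟩) h, Vl_none P h, if_neg hi,
        if_neg (fun h' => hi (hB h'))]

lemma FF_le {σ σ' : St V b}
    (h : ∀ j ≤ P.J, ∀ (Bad : Cube b → Prop) (i : V), Vl P σ j Bad i ≤ Vl P σ' j Bad i) :
    FF P t σ ≤ FF P t σ' := by
  unfold FF
  apply Finset.sum_le_sum
  intro j hj
  have hj' : j ≤ P.J := by have := Finset.mem_range.mp hj; omega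
  apply add_le_add
  · apply Finset.sum_le_sum
    intro XY _
    exact Finset.prod_le_prod (fun i _ => Vl_nonneg P σ j _ i) (fun i _ => h j hj' _ i)
  · apply Finset.sum_le_sum
    intro XY _
    exact Finset.prod_le_prod (fun i _ => Vl_nonneg P σ j _ i) (fun i _ => h j hj' _ i)

lemma FF_grow {σ : St V b} {B' : Finset V} (hB : σ.B ⊆ B') :
    FF P t ⟨σ.ρ, σ.cp, B'⟩ ≤ FF P t σ :=
  FF_le P t (fun j _ Bad i => Vl_grow P hB j Bad i)

/-- child state -/
noncomputable def chl (σ : St V b) (p : V) (a : Fin b) (v : Bool) : St V b where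
  ρ := setv σ.ρ p a v
  cp := fun i j => if i = p ∧ p ∉ σ.B ∧ σ.cp p j = none ∧ level (setv σ.ρ p a v p) ≤ P.q j then
    some (setv σ.ρ p a v p) else σ.cp i j
  B := σ.B

lemma chl_cp (σ : St V b) (p : V) (a : Fin b) (v : Bool) (i : V) (j : ℕ) :
    (chl P σ p a v).cp i j =
      if i = p ∧ p ∉ σ.B ∧ σ.cp p j = none ∧ level (setv σ.ρ p a v p) ≤ P.q j then
      some (setv σ.ρ p a v p) else σ.cp i j := rfl

lemma chl_ρ (σ : St V b) (p : V) (a : Fin b) (v : Bool) :
    (chl P σ p a v).ρ = setv σ.ρ p a v := rfl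

lemma sub_setv {ρ : Par V b} {p : V} {a : Fin b} (v : Bool) (h : ρ p a = none) (i : V) :
    Sub (setv ρ p a v i) (ρ i) := by
  by_cases hi : i = p
  · subst hi
    simp only [setv, Function.update_self]
    exact sub_set v h
  · simp only [setv, Function.update_of_ne hi]
    exact Sub.refl _

lemma chl_later {σ : St V b} {p : V} {a : Fin b} (v : Bool) (h : σ.ρ p a = none) :
    Later σ (chl P σ p a v) := by
  refine ⟨fun i => sub_setv v h i, ?_, subset_rfl⟩
  intro i j Q hQ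
  simp only [chl]
  rw [if_neg]
  · exact hQ
  · rintro ⟨rfl, _, h2, _⟩
    rw [h2] at hQ; cases hQ

lemma chl_qry {σ : St V b} {p : V} {a : Fin b} (v : Bool) (h : σ.ρ p a = none) :
    Qry σ (chl P σ p a v) p := by
  refine ⟨chl_later P v h, rfl, ?_, ?_⟩
  · intro i hi
    simp only [chl, setv, Function.update_of_ne hi]
  · simp only [chl]
    rw [level_setv_self v h]

lemma chl_WF {σ : St V b} {p : V} {a : Fin b} (v : Bool) (h : σ.ρ p a = none)
    (hW : WF P σ) : WF P (chl P σ p a v) := by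
  refine ⟨?_, ?_⟩
  · intro i hi j Q hQ
    have hi' : i ∉ σ.B := hi
    simp only [chl] at hQ ⊢
    split_ifs at hQ with hc
    · obtain ⟨rfl, _⟩ := hc
      cases hQ
      exact Sub.refl _
    · exact (sub_setv v h i).trans (hW.sub i hi' j Q hQ)
  · intro i hi j hj
    have hi' : i ∉ σ.B := hi
    have h0 := hW.iff i hi' j hj
    by_cases hip : i = p
    · subst hip
      have hl : level (setv σ.ρ i a v i) + 1 = level (σ.ρ i) := level_setv_self v h
      rw [chl_cp, chl_ρ]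
      by_cases hc : i = i ∧ i ∉ σ.B ∧ σ.cp i j = none ∧ level (setv σ.ρ i a v i) ≤ P.q j
      · rw [if_pos hc]
        simp [hc.2.2.2]
      · rw [if_neg hc, h0]
        constructor
        · intro h1; omega
        · intro h1
          rw [← h0]
          by_contra hcon
          push Not at hcon
          apply hc
          refine ⟨rfl, hi', ?_, h1⟩
          cases h2 : σ.cp i j with
          | none => rfl
          | some Q => exact absurd h2 (hcon Q)
    · have e1 : (chl P σ p a v).cp i j = σ.cp i j := by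
        simp only [chl]
        rw [if_neg (fun h => hip h.1)]
      have e2 : (chl P σ p a v).ρ i = σ.ρ i := (chl_qry P v h).ne i hip
      rw [e1, e2]; exact h0

lemma Vl_chl_ne {σ : St V b} {p : V} {a : Fin b} (v : Bool) (h : σ.ρ p a = none) (j : ℕ)
    (Bad : Cube b → Prop) {i : V} (hi : i ≠ p) :
    Vl P (chl P σ p a v) j Bad i = Vl P σ j Bad i := by
  have e1 : (chl P σ p a v).cp i j = σ.cp i j := by
    simp only [chl]
    rw [if_neg (fun h => hi h.1)]
  have e2 : (chl P σ p a v).ρ i = σ.ρ i := (chl_qry P v h).ne i hi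
  have e3 : (chl P σ p a v).B = σ.B := rfl
  unfold Vl
  rw [e1, e2, e3]

lemma Vl_chl_B {σ : St V b} {p : V} {a : Fin b} (v : Bool) (j : ℕ)
    (Bad : Cube b → Prop) (hp : p ∈ σ.B) :
    Vl P (chl P σ p a v) j Bad p = Vl P σ j Bad p := by
  have e1 : (chl P σ p a v).cp p j = σ.cp p j := by
    simp only [chl]
    rw [if_neg (fun h => h.2.1 hp)]
  have e3 : (chl P σ p a v).B = σ.B := rfl
  cases hc : σ.cp p j with
  | some Q => rw [Vl_some P hc, Vl_some P (e1.trans hc)]
  | none => rw [Vl_none P hc, Vl_none P (e1.trans hc), e3, if_pos hp, if_pos hp]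

lemma Vl_chl_some {σ : St V b} {p : V} {a : Fin b} (v : Bool) (h : σ.ρ p a = none) (j : ℕ)
    (Bad : Cube b → Prop) {Q : Cube b} (hQ : σ.cp p j = some Q) :
    Vl P (chl P σ p a v) j Bad p = Vl P σ j Bad p := by
  rw [Vl_some P hQ, Vl_some P ((chl_later P v h).cp p j Q hQ)]

/-- averaging at the queried pigeon -/
lemma Vl_chl_avg {σ : St V b} {p : V} {a : Fin b} (h : σ.ρ p a = none) {j : ℕ}
    (hj : j ≤ P.J) (hW : WF P σ) (Bad : Cube b → Prop) :
    Vl P (chl P σ p a false) j Bad p + Vl P (chl P σ p a true) j Bad p ≤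
      2 * Vl P σ j Bad p := by
  by_cases hp : p ∈ σ.B
  · rw [Vl_chl_B P _ _ _ hp, Vl_chl_B P _ _ _ hp]; linarith
  · cases hc : σ.cp p j with
    | some Q =>
      rw [Vl_chl_some P _ h _ _ hc, Vl_chl_some P _ h _ _ hc]; linarith
    | none =>
      have hlev : P.q j < level (σ.ρ p) := by
        by_contra hcon
        push Not at hcon
        obtain ⟨Q, hQ⟩ := (hW.iff p hp j hj).mpr hcon
        rw [hc] at hQ; cases hQ
      obtain ⟨k, hk⟩ : ∃ k, level (σ.ρ p) = P.q j + (k + 1) := ⟨level (σ.ρ p) - P.q j - 1, by omega⟩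
      have hv : ∀ v, Vl P (chl P σ p a v) j Bad p =
          (Xf Bad k (Function.update (σ.ρ p) a (some v)) : ℝ) / 2 ^ k := by
        intro v
        have e0 : setv σ.ρ p a v p = Function.update (σ.ρ p) a (some v) := by simp [setv]
        have e1 : level (setv σ.ρ p a v p) + 1 = level (σ.ρ p) := level_setv_self v h
        by_cases hk0 : k = 0
        · have e2 : (chl P σ p a v).cp p j = some (setv σ.ρ p a v p) := by
            rw [chl_cp, if_pos ⟨rfl, hp, hc, by omega⟩]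
          rw [Vl_some P e2, hk0, Xf_zero, e0]
          split_ifs <;> simp
        · have e2 : (chl P σ p a v).cp p j = none := by
            simp only [chl]
            rw [if_neg (fun h => by have := h.2.2.2; omega)]
            exact hc
          have e3 : (chl P σ p a v).ρ p = Function.update (σ.ρ p) a (some v) := e0
          have e4 : level (Function.update (σ.ρ p) a (some v)) - P.q j = k := by
            rw [← e0]; omega
          rw [Vl_none P e2, if_neg (show p ∉ (chl P σ p a v).B from hp), e3, e4]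
      rw [hv, hv, Vl_none P hc, if_neg hp]
      have e5 : level (σ.ρ p) - P.q j = k + 1 := by omega
      rw [e5, ← add_div, pow_succ]
      have h1 := Xf_step Bad k h
      have h2 : ((Xf Bad k (Function.update (σ.ρ p) a (some false)) : ℝ) +
          (Xf Bad k (Function.update (σ.ρ p) a (some true)) : ℝ)) ≤ (Xf Bad (k + 1) (σ.ρ p) : ℝ) := by
        exact_mod_cast h1
      have h3 : 2 * ((Xf Bad (k + 1) (σ.ρ p) : ℝ) / (2 ^ k * 2)) =
          (Xf Bad (k + 1) (σ.ρ p) : ℝ) / 2 ^ k := by field_simp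
      rw [h3]
      gcongr

lemma prod_chl_avg {σ : St V b} {p : V} {a : Fin b} (h : σ.ρ p a = none) {j : ℕ}
    (hj : j ≤ P.J) (hW : WF P σ) (Bad : V → Cube b → Prop) (I : Finset V) :
    ∏ i ∈ I, Vl P (chl P σ p a false) j (Bad i) i + ∏ i ∈ I, Vl P (chl P σ p a true) j (Bad i) i ≤
      2 * ∏ i ∈ I, Vl P σ j (Bad i) i := by
  by_cases hp : p ∈ I
  · rw [← Finset.mul_prod_erase _ _ hp, ← Finset.mul_prod_erase _ _ hp,
      ← Finset.mul_prod_erase _ _ hp]
    have e : ∀ v, ∏ i ∈ I.erase p, Vl P (chl P σ p a v) j (Bad i) i =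
        ∏ i ∈ I.erase p, Vl P σ j (Bad i) i := by
      intro v
      apply Finset.prod_congr rfl
      intro i hi
      exact Vl_chl_ne P v h j (Bad i) (Finset.ne_of_mem_erase hi)
    rw [e, e, ← add_mul, ← mul_assoc]
    exact mul_le_mul_of_nonneg_right (Vl_chl_avg P h hj hW (Bad p)) (prod_Vl_nonneg P σ j Bad _)
  · have e : ∀ v, ∏ i ∈ I, Vl P (chl P σ p a v) j (Bad i) i =
        ∏ i ∈ I, Vl P σ j (Bad i) i := by
      intro v
      apply Finset.prod_congr rfl
      intro i hi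
      exact Vl_chl_ne P v h j (Bad i) (by rintro rfl; exact hp hi)
    rw [e, e]; linarith

lemma FF_chl_avg {σ : St V b} {p : V} {a : Fin b} (h : σ.ρ p a = none) (hW : WF P σ) :
    FF P t (chl P σ p a false) + FF P t (chl P σ p a true) ≤ 2 * FF P t σ := by
  unfold FF
  rw [← Finset.sum_add_distrib, Finset.mul_sum]
  apply Finset.sum_le_sum
  intro j hj
  have hj' : j ≤ P.J := by have := Finset.mem_range.mp hj; omega
  rw [mul_add]
  have h1 : ∑ XY ∈ Fam1 V P j, ∏ i ∈ XY.1,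
        Vl P (chl P σ p a false) j (fun Q => RichAt P t i j Q XY.2) i +
      ∑ XY ∈ Fam1 V P j, ∏ i ∈ XY.1,
        Vl P (chl P σ p a true) j (fun Q => RichAt P t i j Q XY.2) i ≤
      2 * ∑ XY ∈ Fam1 V P j, ∏ i ∈ XY.1, Vl P σ j (fun Q => RichAt P t i j Q XY.2) i := by
    rw [← Finset.sum_add_distrib, Finset.mul_sum]
    apply Finset.sum_le_sum
    intro XY _
    exact prod_chl_avg P h hj' hW (fun i Q => RichAt P t i j Q XY.2) XY.1
  have h2 : ∑ SI ∈ Fam2 V P j, ∏ i ∈ SI.2,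
        Vl P (chl P σ p a false) j (fun Q => PoorAt P t i j Q SI.1) i +
      ∑ SI ∈ Fam2 V P j, ∏ i ∈ SI.2,
        Vl P (chl P σ p a true) j (fun Q => PoorAt P t i j Q SI.1) i ≤
      2 * ∑ SI ∈ Fam2 V P j, ∏ i ∈ SI.2, Vl P σ j (fun Q => PoorAt P t i j Q SI.1) i := by
    rw [← Finset.sum_add_distrib, Finset.mul_sum]
    apply Finset.sum_le_sum
    intro SI _
    exact prod_chl_avg P h hj' hW (fun i Q => PoorAt P t i j Q SI.1) SI.2
  linarith

/-- if all the values at `p` are frozen then `FF` does not change -/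
lemma FF_chl_eq {σ : St V b} {p : V} {a : Fin b} (v : Bool) (h : σ.ρ p a = none)
    (hf : ∀ j ≤ P.J, ∀ Bad : Cube b → Prop,
      Vl P (chl P σ p a v) j Bad p = Vl P σ j Bad p) :
    FF P t (chl P σ p a v) = FF P t σ := by
  have key : ∀ j ≤ P.J, ∀ (Bad : Cube b → Prop) (i : V),
      Vl P (chl P σ p a v) j Bad i = Vl P σ j Bad i := by
    intro j hj Bad i
    by_cases hi : i = p
    · subst hi; exact hf j hj Bad
    · exact Vl_chl_ne P v h j Bad hi
  exact le_antisymm (FF_le P t (fun j hj Bad i => (key j hj Bad i).le))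
    (FF_le P t (fun j hj Bad i => (key j hj Bad i).ge))

/-- the weighted inequality at a query -/
lemma weight_split {N : ℕ} (hP : P.Ok b N) (s : V) {σ : St V b} {p : V} {a : Fin b}
    (h : σ.ρ p a = none) (hW : WF P σ) (G : Finset V) :
    (Ps t s σ.ρ G σ.B : ℝ) * (1 - FF P t σ) ≤
      (Ps t s (chl P σ p a false).ρ G σ.B : ℝ) * (1 - FF P t (chl P σ p a false)) +
      (Ps t s (chl P σ p a true).ρ G σ.B : ℝ) * (1 - FF P t (chl P σ p a true)) := by
  have hsplit : Ps t s σ.ρ G σ.B = Ps t s (chl P σ p a false).ρ G σ.B +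
      Ps t s (chl P σ p a true).ρ G σ.B := by
    unfold Ps
    rw [← add_mul]
    congr 1
    exact gd_card_split t s h G σ.B
  by_cases hcase : p ∉ σ.B ∧ 2 ≤ level (σ.ρ p)
  · have hfair : Ps t s (chl P σ p a false).ρ G σ.B = Ps t s (chl P σ p a true).ρ G σ.B := by
      unfold Ps
      congr 1
      exact gd_fair t s h hcase.1 hcase.2
    rw [hsplit, hfair]
    push_cast
    have h1 := FF_chl_avg P t h hW (a := a)
    have h2 : (0 : ℝ) ≤ (Ps t s (chl P σ p a true).ρ G σ.B : ℝ) := by positivity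
    nlinarith
  · have hf : ∀ v, FF P t (chl P σ p a v) = FF P t σ := by
      intro v
      apply FF_chl_eq P t v h
      intro j hj Bad
      by_cases hp : p ∈ σ.B
      · exact Vl_chl_B P v j Bad hp
      · have hl : level (σ.ρ p) < 2 := by
          by_contra hcon
          exact hcase ⟨hp, by omega⟩
        have h1 := hP.Rq j hj
        have h2 : P.R 0 ≤ P.R j := hP.Rmono.monotone (Nat.zero_le j)
        have h3 := hP.R0
        obtain ⟨Q, hQ⟩ := (hW.iff p hp j hj).mpr (by omega)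
        exact Vl_chl_some P v h j Bad hQ
    rw [hf, hf, hsplit]
    push_cast
    linarith

end Val

end Pool.Agent.Lib.MP_ce949a_lc
end
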