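import Pool.Agent.Lib.MP_ce949a_lc.Support

section

set_option autoImplicit false
set_option linter.unusedSectionVars false

namespace Pool.Agent.Lib.MP_ce949a_lc

open Finset Classical

section Refute

variable {V : Type*} [Fintype V] [DecidableEq V] {b n : ℕ}
variable (t : V → Pt b → V) (s : V) (e : V × Fin b → Fin n)

/-- the literals of the clause saying that block `i` is different from `x`. -/
def neg (i : V) (x : Pt b) : Finset (Fin n × Bool) :=
  univ.image (fun a => (e (i, a), !(x a)))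

/-- the clauses of the formula -/
def IsAx (C : Finset (Fin n × Bool)) : Prop :=
  (∃ x, ¬ IsOdd x ∧ C = neg e s x) ∨
  (∃ i x y, IsOdd x ∧ ¬ IsOdd y ∧ C = neg e i x ∪ neg e (t i x) y) ∨
  (∃ i i' x x', i ≠ i' ∧ IsOdd x ∧ IsOdd x' ∧ t i x = t i' x' ∧ C = neg e i x ∪ neg e i' x')

/-- the formula -/
noncomputable def Frm : Finset (Finset (Fin n × Bool)) := univ.filter (fun C => IsAx t s e C)

lemma card_neg_le (i : V) (x : Pt b) : (neg e i x).card ≤ b :=
  Finset.card_image_le.trans (by simp)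

lemma Frm_width {C : Finset (Fin n × Bool)} (hC : C ∈ Frm t s e) : C.card ≤ 2 * b := by
  simp only [Frm, Finset.mem_filter, Finset.mem_univ, true_and] at hC
  rcases hC with ⟨x, _, rfl⟩ | ⟨i, x, y, _, _, rfl⟩ | ⟨i, i', x, x', _, _, _, _, rfl⟩
  · have := card_neg_le e s x; omega
  · have := card_neg_le e i x
    have := card_neg_le e (t i x) y
    have := Finset.card_union_le (neg e i x) (neg e (t i x) y)
    omega
  · have := card_neg_le e i x
    have := card_neg_le e i' x'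
    have := Finset.card_union_le (neg e i x) (neg e i' x')
    omega

lemma neg_fals (α : Fin n → Bool) (i : V) : ∀ l ∈ neg e i (fun a => α (e (i, a))), α l.1 ≠ l.2 := by
  intro l hl
  simp only [neg, Finset.mem_image, Finset.mem_univ, true_and] at hl
  obtain ⟨a, rfl⟩ := hl
  simp

lemma Frm_unsat (hs : ∀ i x, t i x ≠ s) (α : Fin n → Bool) :
    ∃ C ∈ Frm t s e, ∀ l ∈ C, α l.1 ≠ l.2 := by
  by_contra hcon
  push Not at hcon
  set X : V → Pt b := fun i a => α (e (i, a)) with hX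
  have hfals : ∀ C, IsAx t s e C → ∃ l ∈ C, α l.1 = l.2 := by
    intro C hC
    exact hcon C (by simp [Frm, hC])
  have h0 : IsOdd (X s) := by
    by_contra h
    obtain ⟨l, hl, hl'⟩ := hfals _ (Or.inl ⟨X s, h, rfl⟩)
    exact neg_fals e α s l hl hl'
  have h1 : ∀ i, IsOdd (X i) → IsOdd (X (t i (X i))) := by
    intro i hi
    by_contra h
    obtain ⟨l, hl, hl'⟩ := hfals _ (Or.inr (Or.inl ⟨i, X i, X (t i (X i)), hi, h, rfl⟩))
    rcases Finset.mem_union.mp hl with hl | hl
    · exact neg_fals e α i l hl hl'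
    · exact neg_fals e α (t i (X i)) l hl hl'
  have h2 : ∀ i i', i ≠ i' → IsOdd (X i) → IsOdd (X i') → t i (X i) ≠ t i' (X i') := by
    intro i i' hne hi hi' h
    obtain ⟨l, hl, hl'⟩ := hfals _ (Or.inr (Or.inr ⟨i, i', X i, X i', hne, hi, hi', h, rfl⟩))
    rcases Finset.mem_union.mp hl with hl | hl
    · exact neg_fals e α i l hl hl'
    · exact neg_fals e α i' l hl hl'
  set O : Finset V := univ.filter (fun i => IsOdd (X i)) with hO
  have hmaps : ∀ i ∈ O, t i (X i) ∈ O.erase s := by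
    intro i hi
    simp only [hO, Finset.mem_filter, Finset.mem_univ, true_and] at hi
    rw [Finset.mem_erase]
    exact ⟨hs i _, by simpa [hO] using h1 i hi⟩
  have hinj : Set.InjOn (fun i => t i (X i)) (O : Set V) := by
    intro i hi i' hi' h
    by_contra hne
    simp only [hO, Finset.coe_filter, Finset.mem_univ, true_and, Set.mem_ofPred_eq] at hi hi'
    exact h2 i i' hne hi hi' h
  have hc := Finset.card_le_card_of_injOn (s := O) (t := O.erase s) (fun i => t i (X i))
    (fun i hi => hmaps i hi) hinj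
  have hsO : s ∈ O := by simpa [hO] using h0
  rw [Finset.card_erase_of_mem hsO] at hc
  have : 0 < O.card := Finset.card_pos.mpr ⟨s, hsO⟩
  omega

/-- the partial assignment falsifies all the literals of `C`. -/
def Fals (ρ : Par V b) (C : Finset (Fin n × Bool)) : Prop :=
  ∀ l ∈ C, ∃ i a, e (i, a) = l.1 ∧ ρ i a = some (!l.2)

lemma Fals_neg (he : Function.Injective e) {ρ : Par V b} {i : V} {x : Pt b}
    (h : ∀ l ∈ neg e i x, ∃ i a, e (i, a) = l.1 ∧ ρ i a = some (!l.2)) :
    ∀ a, ρ i a = some (x a) := by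
  intro a
  obtain ⟨i', a', h1, h2⟩ := h (e (i, a), !(x a)) (by
    simp only [neg, Finset.mem_image, Finset.mem_univ, true_and]; exact ⟨a, rfl⟩)
  have := he h1
  simp only [Prod.mk.injEq] at this
  obtain ⟨rfl, rfl⟩ := this
  simpa using h2

lemma full_val {ρ : Par V b} {i : V} {x : Pt b} (h : ∀ a, ρ i a = some (x a))
    {α : Tot V b} (hα : Ext ρ α) : α i = x := by
  funext a
  exact hα i a _ (h a)

lemma full_notMem {r : ℕ} (hr : 0 < r) (τ : ℕ) {ρ : Par V b} {i : V} {x : Pt b}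
    (h : ∀ a, ρ i a = some (x a)) : i ∉ GG t r τ (LL r ρ) := by
  intro hi
  have := (mem_LL r).mp (GG_subset t r τ _ hi)
  have h0 : level (ρ i) = 0 := by
    unfold level
    rw [Finset.card_eq_zero, Finset.filter_eq_empty_iff]
    intro a _
    simp [h a]
  omega

lemma Psi_axiom (he : Function.Injective e) {r : ℕ} (hr : 0 < r) (τ : ℕ) {ρ : Par V b}
    {C : Finset (Fin n × Bool)} (hC : IsAx t s e C) (hF : Fals e ρ C) :
    Psi t r τ s ρ = 0 := by
  have hempty : good t s ρ (GG t r τ (LL r ρ)) = ∅ := by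
    rw [Finset.eq_empty_iff_forall_notMem]
    intro α hα
    simp only [good, Finset.mem_filter, Finset.mem_univ, true_and] at hα
    obtain ⟨hE, hG⟩ := hα
    rcases hC with ⟨x, hx, rfl⟩ | ⟨i, x, y, hx, hy, rfl⟩ | ⟨i, i', x, x', hne, hx, hx', htt, rfl⟩
    · have hv := Fals_neg e he (fun l hl => hF l hl)
      have := good_source t s hG (full_notMem t hr τ hv)
      rw [full_val hv hE] at this
      exact hx this
    · have hv := Fals_neg e he (i := i) (x := x)
        (fun l hl => hF l (Finset.mem_union_left _ hl))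
      have hv' := Fals_neg e he (i := t i x) (x := y)
        (fun l hl => hF l (Finset.mem_union_right _ hl))
      have e1 := full_val hv hE
      have e2 := full_val hv' hE
      have := good_next t s hG (full_notMem t hr τ hv) (by rw [e1]; exact hx)
        (by rw [e1]; exact full_notMem t hr τ hv')
      rw [e1, e2] at this
      exact hy this
    · have hv := Fals_neg e he (i := i) (x := x)
        (fun l hl => hF l (Finset.mem_union_left _ hl))
      have hv' := Fals_neg e he (i := i') (x := x')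
        (fun l hl => hF l (Finset.mem_union_right _ hl))
      have e1 := full_val hv hE
      have e2 := full_val hv' hE
      have := good_inj t s hG (full_notMem t hr τ hv) (full_notMem t hr τ hv')
        (by rw [e1]; exact hx) (by rw [e2]; exact hx') hne
      rw [e1, e2] at this
      exact this htt
  unfold Psi
  rw [hempty]; simp

lemma Fals_setv {ρ : Par V b} {p : V} {a : Fin b} (hp : ρ p a = none)
    {C D : Finset (Fin n × Bool)} {v : Bool}
    (hF : Fals e ρ (C.erase (e (p, a), !v) ∪ D)) : Fals e (setv ρ p a v) C := by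
  intro l hl
  by_cases h : l = (e (p, a), !v)
  · subst h
    exact ⟨p, a, rfl, by simp [setv]⟩
  · obtain ⟨i, c, h1, h2⟩ := hF l (Finset.mem_union_left _ (Finset.mem_erase.mpr ⟨h, hl⟩))
    refine ⟨i, c, h1, ?_⟩
    by_cases hi : i = p
    · subst hi
      by_cases hc : c = a
      · subst hc; rw [hp] at h2; cases h2
      · simpa [setv, hc] using h2
    · simpa [setv, hi] using h2

theorem refutation_bound (he : Function.Injective e) {r τ A B : ℕ} (hr : 0 < r) (hrb : r ≤ b)
    (hτ : τ ≤ 2 ^ (r - 1))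
    (hP2 : ∀ S : Finset V, A ≤ S.card → (Exc t r τ S).card < B)
    (hP1 : ∀ S : Finset V, S.Nonempty → S.card ≤ B →
      ∃ i ∈ S, ∀ Q : Cube b, level Q = r → (opts t i Q S).card < τ)
    (hAB : A + B ≤ Fintype.card V)
    (m : ℕ)
    (hm : ∀ P : Finset (Fin n × Bool) → ℕ → Prop,
      (∀ C ∈ Frm t s e, P C 1) →
      (∀ (C D : Finset (Fin n × Bool)) (x : Fin n) (a b : ℕ),
        P C a → P D b → (x, true) ∈ C → (x, false) ∈ D →
        P (C.erase (x, true) ∪ D.erase (x, false)) (a + b + 1)) →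
      P ∅ m) :
    2 ^ (b * Fintype.card V) ≤
      m * 2 ^ ((2 * r) * Fintype.card V + b * (A + B) + b * B) := by
  set T := (2 * r) * Fintype.card V + b * (A + B) + b * B with hT
  have key := hm (fun C m => (∀ l ∈ C, ∃ i a, e (i, a) = l.1) ∧
    ∀ ρ : Par V b, Fals e ρ C → A + B ≤ (LL r ρ).card → Psi t r τ s ρ ≤ m * 2 ^ T) ?_ ?_
  · have h1 := key.2 (fun _ _ => none) (by intro l hl; simp at hl) (by
      have : LL r (fun (_ : V) (_ : Fin b) => (none : Option Bool)) = univ := by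
        ext i; simp [mem_LL, level, hrb]
      rw [this, Finset.card_univ]; exact hAB)
    exact (Psi_root t r τ s hτ hr hrb).trans h1
  · intro C hC
    simp only [Frm, Finset.mem_filter, Finset.mem_univ, true_and] at hC
    refine ⟨?_, ?_⟩
    · have hneg : ∀ i x, ∀ l ∈ neg e i x, ∃ i a, e (i, a) = l.1 := by
        intro i x l hl
        simp only [neg, Finset.mem_image, Finset.mem_univ, true_and] at hl
        obtain ⟨a, rfl⟩ := hl
        exact ⟨i, a, rfl⟩
      rcases hC with ⟨x, hx, rfl⟩ | ⟨i, x, y, hx, hy, rfl⟩ |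
        ⟨i, i', x, x', hne, hx, hx', htt, rfl⟩
      · exact hneg _ _
      · intro l hl
        rcases Finset.mem_union.mp hl with hl | hl
        · exact hneg _ _ l hl
        · exact hneg _ _ l hl
      · intro l hl
        rcases Finset.mem_union.mp hl with hl | hl
        · exact hneg _ _ l hl
        · exact hneg _ _ l hl
    · intro ρ hF _
      rw [Psi_axiom t s e he hr τ hC hF]
      exact Nat.zero_le _
  · rintro C D x a c ⟨hC1, hC2⟩ ⟨hD1, hD2⟩ hxC hxD
    refine ⟨?_, ?_⟩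
    · intro l hl
      rcases Finset.mem_union.mp hl with hl | hl
      · exact hC1 l (Finset.mem_of_mem_erase hl)
      · exact hD1 l (Finset.mem_of_mem_erase hl)
    · intro ρ hF hL
      obtain ⟨p, j, hpj⟩ := hC1 _ hxC
      simp only at hpj
      subst hpj
      cases hρ : ρ p j with
      | some v =>
        cases v with
        | true =>
          have : Fals e ρ D := by
            intro l hl
            by_cases h : l = (e (p, j), false)
            · subst h; exact ⟨p, j, rfl, by simp [hρ]⟩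
            · exact hF l (Finset.mem_union_right _ (Finset.mem_erase.mpr ⟨h, hl⟩))
          calc Psi t r τ s ρ ≤ c * 2 ^ T := hD2 ρ this hL
            _ ≤ (a + c + 1) * 2 ^ T := Nat.mul_le_mul_right _ (by omega)
        | false =>
          have : Fals e ρ C := by
            intro l hl
            by_cases h : l = (e (p, j), true)
            · subst h; exact ⟨p, j, rfl, by simp [hρ]⟩
            · exact hF l (Finset.mem_union_left _ (Finset.mem_erase.mpr ⟨h, hl⟩))
          calc Psi t r τ s ρ ≤ a * 2 ^ T := hC2 ρ this hL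
            _ ≤ (a + c + 1) * 2 ^ T := Nat.mul_le_mul_right _ (by omega)
      | none =>
        have hFC : Fals e (setv ρ p j false) C := Fals_setv e hρ (v := false) hF
        have hFD : Fals e (setv ρ p j true) D := by
          rw [Finset.union_comm] at hF
          exact Fals_setv e hρ (v := true) hF
        have e1 := LL_setv r false hρ
        have e2 := LL_setv r true hρ
        by_cases hbig : A + B ≤ (LL r (setv ρ p j false)).card
        · have h1 := hC2 _ hFC hbig
          have h2 := hD2 _ hFD (by rw [e2, ← e1]; exact hbig)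
          have h3 := Psi_step t r τ s hP2 hP1 hr hρ hbig
          calc Psi t r τ s ρ ≤ a * 2 ^ T + c * 2 ^ T := by omega
            _ = (a + c) * 2 ^ T := by ring
            _ ≤ (a + c + 1) * 2 ^ T := Nat.mul_le_mul_right _ (by omega)
        · have hcard : (LL r ρ).card = A + B := by
            rw [e1] at hbig
            split_ifs at hbig with hc
            · have := Finset.card_erase_add_one (show p ∈ LL r ρ by rw [mem_LL]; omega)
              omega
            · omega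
          have := Psi_le t r τ s hP2 hcard
          calc Psi t r τ s ρ ≤ 2 ^ T := this
            _ = 1 * 2 ^ T := by ring
            _ ≤ (a + c + 1) * 2 ^ T := Nat.mul_le_mul_right _ (by omega)

end Refute

end Pool.Agent.Lib.MP_ce949a_lc
end

section

set_option autoImplicit false
set_option linter.unusedSectionVars false

namespace Pool.Agent.Lib.MP_ce949a_lc

open Finset Classical

section EvenPts

variable {b : ℕ}

/-- even points of a cube -/
noncomputable def evs (Q : Cube b) : Finset (Pt b) := (pts Q).filter (fun x => ¬ IsOdd x)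

lemma mem_evs {Q : Cube b} {x : Pt b} : x ∈ evs Q ↔ Mem x Q ∧ ¬ IsOdd x := by
  simp [evs, mem_pts]

lemma two_mul_card_evs {Q : Cube b} {x : Pt b} (hx : Mem x Q) (ho : IsOdd x) :
    2 * (evs Q).card ≤ 2 ^ level Q := by
  rcases Nat.eq_zero_or_pos (level Q) with h0 | hpos
  · have hc := card_pts Q
    rw [h0, pow_zero, Finset.card_eq_one] at hc
    obtain ⟨y, hy⟩ := hc
    have hxy : x ∈ pts Q := mem_pts.mpr hx
    rw [hy, Finset.mem_singleton] at hxy
    have : evs Q = ∅ := by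
      rw [Finset.eq_empty_iff_forall_notMem]
      intro z hz
      rw [mem_evs] at hz
      have hz' : z ∈ pts Q := mem_pts.mpr hz.1
      rw [hy, Finset.mem_singleton] at hz'
      rw [hz', ← hxy] at hz
      exact hz.2 ho
    rw [this]; simp
  · obtain ⟨r, hr⟩ : ∃ r, level Q = r + 1 := ⟨level Q - 1, by omega⟩
    have h1 := card_odd_pts Q hr
    have h2 := Finset.card_filter_add_card_filter_not (s := pts Q) (fun x => IsOdd x)
    rw [card_pts, hr, h1] at h2
    have : (evs Q).card = 2 ^ r := by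
      unfold evs
      rw [pow_succ] at h2
      omega
    rw [this, hr, pow_succ]; omega

end EvenPts

section Path

variable {V : Type*} [Fintype V] [DecidableEq V] {b : ℕ}
variable (t : V → Pt b → V) (s : V)

/-- the odd set of `α` is `B`, the path from `s` runs through `B`, covers it, and ends in `G`. -/
def PP (G B : Finset V) (α : Tot V b) : Prop :=
  (∀ i, IsOdd (α i) ↔ i ∈ B) ∧
  ∃ m : ℕ, (∀ j < m, (step t α)^[j] s ∈ B) ∧ (step t α)^[m] s ∈ G ∧
    ∀ i ∈ B, ∃ j < m, (step t α)^[j] s = i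

/-- extensions satisfying `PP`. -/
noncomputable def gd (ρ : Par V b) (G B : Finset V) : Finset (Tot V b) :=
  univ.filter (fun α => Ext ρ α ∧ PP t s G B α)

lemma mem_gd {ρ : Par V b} {G B : Finset V} {α : Tot V b} :
    α ∈ gd t s ρ G B ↔ Ext ρ α ∧ PP t s G B α := by
  simp [gd]

lemma gd_mono {ρ : Par V b} {G G' B : Finset V} (h : G ⊆ G') : gd t s ρ G B ⊆ gd t s ρ G' B := by
  intro α hα
  rw [mem_gd] at hα ⊢
  obtain ⟨h1, h2, m, h3, h4, h5⟩ := hα
  exact ⟨h1, h2, m, h3, h h4, h5⟩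

lemma gd_card_split {ρ : Par V b} {i : V} {a : Fin b} (h : ρ i a = none) (G B : Finset V) :
    (gd t s ρ G B).card =
      (gd t s (setv ρ i a false) G B).card + (gd t s (setv ρ i a true) G B).card := by
  rw [← Finset.card_union_of_disjoint]
  · congr 1
    ext α
    simp only [mem_gd, Finset.mem_union, ext_setv h]
    cases hα : α i a <;> simp
  · rw [Finset.disjoint_left]
    intro α h1 h2
    simp only [mem_gd, ext_setv h] at h1 h2
    have := h1.1.2
    rw [h2.1.2] at this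
    cases this

/-- changing the value of a vertex outside `B`, keeping it even, keeps `PP`. -/
lemma PP_update {G B : Finset V} {α : Tot V b} (h : PP t s G B α) {i : V} (hi : i ∉ B)
    {x : Pt b} (hx : ¬ IsOdd x) : PP t s G B (Function.update α i x) := by
  obtain ⟨h2, m, h3, h4, h5⟩ := h
  set β := Function.update α i x with hβ
  have hfg : ∀ j, j ≠ i → step t β j = step t α j := by
    intro j hj; simp [step, hβ, hj]
  have hav : ∀ j < m, (step t α)^[j] s ≠ i := by
    intro j hj h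
    exact hi (h ▸ h3 j hj)
  have hit := iterate_congr_avoid s hfg hav
  refine ⟨?_, m, ?_, ?_, ?_⟩
  · intro j
    by_cases hj : j = i
    · subst hj
      simp [hβ, hx, hi]
    · simp [hβ, hj, h2 j]
  · intro j hj; rw [hit j hj.le]; exact h3 j hj
  · rw [hit m le_rfl]; exact h4
  · intro j hj
    obtain ⟨l, hl, hl'⟩ := h5 j hj
    exact ⟨l, hl, by rw [hit l hl.le]; exact hl'⟩

/-- fairness -/
lemma gd_fair {ρ : Par V b} {i : V} {a : Fin b} (h : ρ i a = none) {G B : Finset V}
    (hi : i ∉ B) (hlev : 2 ≤ level (ρ i)) :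
    (gd t s (setv ρ i a false) G B).card = (gd t s (setv ρ i a true) G B).card := by
  -- another free coordinate
  have hex : ∃ c, c ≠ a ∧ ρ i c = none := by
    unfold level at hlev
    have : 1 < (univ.filter (fun c => ρ i c = none)).card := by omega
    obtain ⟨x, hx, y, hy, hxy⟩ := Finset.one_lt_card.mp this
    simp only [Finset.mem_filter, Finset.mem_univ, true_and] at hx hy
    by_cases hxa : x = a
    · exact ⟨y, fun h => hxy (hxa.trans h.symm), hy⟩
    · exact ⟨x, hxa, hx⟩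
  obtain ⟨c, hca, hc⟩ := hex
  have key : ∀ (v : Bool) (α : Tot V b), α ∈ gd t s (setv ρ i a v) G B →
      Function.update α i (flip a (flip c (α i))) ∈ gd t s (setv ρ i a (!v)) G B := by
    intro v α hα
    rw [mem_gd, ext_setv h] at hα ⊢
    obtain ⟨⟨hE, hv⟩, hP⟩ := hα
    refine ⟨⟨?_, ?_⟩, ?_⟩
    · intro j
      by_cases hj : j = i
      · subst hj
        simp only [Function.update_self]
        exact mem_flip h (mem_flip hc (hE j))
      · simpa [hj] using hE j
    · simp [flip, hca.symm, hv]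
    · apply PP_update t s hP hi
      rw [isOdd_flip, isOdd_flip, not_not, hP.1 i]
      exact hi
  have flip_comm : ∀ x : Pt b, flip a (flip c (flip a (flip c x))) = x := by
    intro x
    funext d
    by_cases hd : d = a
    · subst hd; simp [flip, hca.symm]
    · by_cases hd' : d = c
      · subst hd'; simp [flip, hca]
      · simp [flip, hd, hd']
  apply Finset.card_bij (fun α _ => Function.update α i (flip a (flip c (α i))))
  · intro α hα
    exact key false α hα
  · intro α _ β _ hαβ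
    have := congrArg (fun γ : Tot V b => Function.update γ i (flip a (flip c (γ i)))) hαβ
    simpa [flip_comm] using this
  · intro β hβ
    refine ⟨Function.update β i (flip a (flip c (β i))), key true β hβ, ?_⟩
    simp [flip_comm]

/-- a falsified clause kills the potential -/
lemma gd_empty {n : ℕ} (e : V × Fin b → Fin n) (he : Function.Injective e) {ρ : Par V b}
    {C : Finset (Fin n × Bool)} (hC : IsAx t s e C) (hF : Fals e ρ C) {G B : Finset V}
    (hGB : Disjoint G B) (hG : ∀ i ∈ G, 0 < level (ρ i)) : gd t s ρ G B = ∅ := by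
  have hfull : ∀ {i : V} {x : Pt b}, (∀ a, ρ i a = some (x a)) → i ∉ G := by
    intro i x h hi
    have := hG i hi
    have h0 : level (ρ i) = 0 := by
      unfold level
      rw [Finset.card_eq_zero, Finset.filter_eq_empty_iff]
      intro a _
      simp [h a]
    omega
  rw [Finset.eq_empty_iff_forall_notMem]
  intro α hα
  rw [mem_gd] at hα
  obtain ⟨hE, hodd, m, h3, h4, h5⟩ := hα
  rcases hC with ⟨x, hx, rfl⟩ | ⟨i, x, y, hx, hy, rfl⟩ | ⟨i, i', x, x', hne, hx, hx', htt, rfl⟩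
  · have hv := Fals_neg e he (fun l hl => hF l hl)
    have hs : s ∉ G := hfull hv
    have hs' : s ∉ B := by
      rw [← hodd, full_val hv hE]; exact hx
    rcases Nat.eq_zero_or_pos m with hm | hm
    · subst hm; exact hs h4
    · exact hs' (h3 0 hm)
  · have hv := Fals_neg e he (i := i) (x := x)
      (fun l hl => hF l (Finset.mem_union_left _ hl))
    have hv' := Fals_neg e he (i := t i x) (x := y)
      (fun l hl => hF l (Finset.mem_union_right _ hl))
    have e1 := full_val hv hE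
    have e2 := full_val hv' hE
    have hiB : i ∈ B := by rw [← hodd, e1]; exact hx
    have hi'B : t i x ∉ B := by rw [← hodd, e2]; exact hy
    have hi'G : t i x ∉ G := hfull hv'
    obtain ⟨j, hj, hji⟩ := h5 i hiB
    have hn : (step t α)^[j+1] s = t i x := by
      rw [Function.iterate_succ_apply', hji]; simp [step, e1]
    rcases Nat.lt_or_ge (j+1) m with h | h
    · exact hi'B (hn ▸ h3 _ h)
    · have : j + 1 = m := by omega
      rw [← this, hn] at h4
      exact hi'G h4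
  · have hv := Fals_neg e he (i := i) (x := x)
      (fun l hl => hF l (Finset.mem_union_left _ hl))
    have hv' := Fals_neg e he (i := i') (x := x')
      (fun l hl => hF l (Finset.mem_union_right _ hl))
    have e1 := full_val hv hE
    have e2 := full_val hv' hE
    have hiB : i ∈ B := by rw [← hodd, e1]; exact hx
    have hi'B : i' ∈ B := by rw [← hodd, e2]; exact hx'
    obtain ⟨j, hj, hji⟩ := h5 i hiB
    obtain ⟨l, hl, hli⟩ := h5 i' hi'B
    have hjl : j ≠ l := by rintro rfl; exact hne (hji.symm.trans hli)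
    have ej : (step t α)^[j+1] s = t i x := by
      rw [Function.iterate_succ_apply', hji]; simp [step, e1]
    have el : (step t α)^[l+1] s = t i' x' := by
      rw [Function.iterate_succ_apply', hli]; simp [step, e2]
    have hnG : ∀ j < m, (step t α)^[j] s ∉ G := fun j hj hG' =>
      (Finset.disjoint_left.mp hGB) hG' (h3 j hj)
    rcases Nat.lt_or_ge j l with h | h
    · exact path_inj s hnG h4 (show j+1 < l+1 by omega) (by omega) (by rw [ej, el, htt])
    · exact path_inj s hnG h4 (show l+1 < j+1 by omega) (by omega) (by rw [ej, el, htt])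

/-- one hop -/
lemma gd_hop {ρ : Par V b} {B : Finset V} {e : V} (heB : e ∉ B) {x : Pt b}
    (hx : Mem x (ρ e)) (hxo : IsOdd x) :
    (gd t s ρ {e} B).card ≤ (evs (ρ e)).card * (gd t s ρ {t e x} (insert e B)).card := by
  apply Finset.card_le_mul_card_image_of_maps_to (f := fun α => Function.update α e x)
  · intro α hα
    rw [mem_gd] at hα ⊢
    obtain ⟨hE, hodd, m, h3, h4, h5⟩ := hα
    rw [Finset.mem_singleton] at h4
    set β := Function.update α e x with hβ
    have hfg : ∀ j, j ≠ e → step t β j = step t α j := by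
      intro j hj; simp [step, hβ, hj]
    have hav : ∀ j < m, (step t α)^[j] s ≠ e := by
      intro j hj h
      exact heB (h ▸ h3 j hj)
    have hit := iterate_congr_avoid s hfg hav
    have hm : (step t β)^[m] s = e := by rw [hit m le_rfl, h4]
    have hm1 : (step t β)^[m+1] s = t e x := by
      rw [Function.iterate_succ_apply', hm]; simp [step, hβ]
    refine ⟨?_, ?_, m+1, ?_, ?_, ?_⟩
    · intro j
      by_cases hj : j = e
      · subst hj; simpa [hβ] using hx
      · simpa [hβ, hj] using hE j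
    · intro j
      by_cases hj : j = e
      · subst hj; simp [hβ, hxo]
      · simp [hβ, hj, hodd j]
    · intro j hj
      rcases Nat.lt_or_ge j m with h | h
      · rw [hit j h.le]; exact Finset.mem_insert_of_mem (h3 j h)
      · have : j = m := by omega
        rw [this, hm]; exact Finset.mem_insert_self _ _
    · rw [hm1]; exact Finset.mem_singleton_self _
    · intro j hj
      rcases Finset.mem_insert.mp hj with rfl | hj
      · exact ⟨m, by omega, hm⟩
      · obtain ⟨l, hl, hl'⟩ := h5 j hj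
        exact ⟨l, by omega, by rw [hit l hl.le]; exact hl'⟩
  · intro β _
    apply Finset.card_le_card_of_injOn (fun α => α e)
    · intro α hα
      simp only [Finset.coe_filter, Set.mem_ofPred_eq, mem_gd] at hα
      rw [Finset.mem_coe, mem_evs]
      exact ⟨hα.1.1 e, by rw [hα.1.2.1 e]; exact heB⟩
    · intro α hα α' hα' hαα
      simp only [Finset.coe_filter, Set.mem_ofPred_eq] at hα hα'
      have e1 := hα.2.trans hα'.2.symm
      funext j
      by_cases hj : j = e
      · subst hj; exact hαα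
      · have := congrFun e1 j
        simpa [hj] using this

/-- normalised potential -/
noncomputable def Ps (ρ : Par V b) (G B : Finset V) : ℕ :=
  (gd t s ρ G B).card * 2 ^ (univ \ B).card

lemma Ps_hop {ρ : Par V b} {B : Finset V} {e : V} (heB : e ∉ B) {x : Pt b}
    (hx : Mem x (ρ e)) (hxo : IsOdd x) :
    Ps t s ρ {e} B ≤ 2 ^ level (ρ e) * Ps t s ρ {t e x} (insert e B) := by
  unfold Ps
  have h1 := gd_hop t s heB hx hxo
  have h2 := two_mul_card_evs hx hxo
  have h3 : (univ \ B).card = (univ \ insert e B).card + 1 := by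
    have : univ \ B = insert e (univ \ insert e B) := by
      ext k
      simp only [Finset.mem_sdiff, Finset.mem_univ, true_and, Finset.mem_insert, not_or]
      by_cases hk : k = e
      · subst hk; simp [heB]
      · simp [hk]
    rw [this, Finset.card_insert_of_notMem (by simp)]
  calc (gd t s ρ {e} B).card * 2 ^ (univ \ B).card
      ≤ ((evs (ρ e)).card * (gd t s ρ {t e x} (insert e B)).card) * 2 ^ (univ \ B).card :=
        Nat.mul_le_mul_right _ h1
    _ = (2 * (evs (ρ e)).card) * ((gd t s ρ {t e x} (insert e B)).card *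
          2 ^ (univ \ insert e B).card) := by
        rw [h3, pow_succ]; ring
    _ ≤ 2 ^ level (ρ e) * ((gd t s ρ {t e x} (insert e B)).card *
          2 ^ (univ \ insert e B).card) := Nat.mul_le_mul_right _ h2

lemma Ps_mono {ρ : Par V b} {G G' B : Finset V} (h : G ⊆ G') : Ps t s ρ G B ≤ Ps t s ρ G' B :=
  Nat.mul_le_mul_right _ (Finset.card_le_card (gd_mono t s h))

/-- A path of hops from `e` to `T`, avoiding the current path set. -/
inductive HopPath (ρ : Par V b) (T : Finset V) : Finset V → V → Finset V → Prop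
  | done (B : Finset V) (e : V) : e ∈ T → e ∉ B → HopPath ρ T B e B
  | hop (B : Finset V) (e : V) (x : Pt b) (B' : Finset V) : e ∉ B → Mem x (ρ e) → IsOdd x →
      HopPath ρ T (insert e B) (t e x) B' → HopPath ρ T B e B'

lemma HopPath.sub {ρ : Par V b} {T B B' : Finset V} {e : V} (h : HopPath t ρ T B e B') :
    B ⊆ B' := by
  induction h with
  | done B e _ _ => exact subset_rfl
  | hop B e x B' _ _ _ _ ih => exact (Finset.subset_insert _ _).trans ih

lemma HopPath.notMem {ρ : Par V b} {T B B' : Finset V} {e : V} (h : HopPath t ρ T B e B') :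
    e ∉ B := by
  cases h with
  | done _ _ _ h => exact h
  | hop _ _ _ _ h _ _ _ => exact h

lemma Ps_path {ρ : Par V b} {T B B' : Finset V} {e : V} (h : HopPath t ρ T B e B') :
    Ps t s ρ {e} B ≤ 2 ^ (∑ i ∈ B' \ B, level (ρ i)) * Ps t s ρ T B' := by
  induction h with
  | done B e h1 h2 =>
    simp only [Finset.sdiff_self, Finset.sum_empty, pow_zero, one_mul]
    exact Ps_mono t s (Finset.singleton_subset_iff.mpr h1)
  | hop B e x B' h1 h2 h3 h4 ih =>
    have hs := h4.sub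
    have he : e ∈ B' := hs (Finset.mem_insert_self _ _)
    have : B' \ B = insert e (B' \ insert e B) := by
      ext k
      simp only [Finset.mem_sdiff, Finset.mem_insert, not_or]
      by_cases hk : k = e
      · subst hk; simp [he, h1]
      · simp [hk]
    rw [this, Finset.sum_insert (by simp), pow_add, mul_assoc]
    exact (Ps_hop t s h1 h2 h3).trans (Nat.mul_le_mul_left _ ih)

lemma gd_biUnion (ρ : Par V b) (G B : Finset V) :
    gd t s ρ G B = G.biUnion (fun e => gd t s ρ {e} B) := by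
  ext α
  simp only [Finset.mem_biUnion, mem_gd]
  constructor
  · rintro ⟨h1, h2, m, h3, h4, h5⟩
    exact ⟨_, h4, h1, h2, m, h3, Finset.mem_singleton_self _, h5⟩
  · rintro ⟨e, he, h1, h2, m, h3, h4, h5⟩
    rw [Finset.mem_singleton] at h4
    exact ⟨h1, h2, m, h3, h4 ▸ he, h5⟩

lemma Ps_le_sum (ρ : Par V b) (G B : Finset V) :
    Ps t s ρ G B ≤ ∑ e ∈ G, Ps t s ρ {e} B := by
  unfold Ps
  rw [gd_biUnion, ← Finset.sum_mul]
  exact Nat.mul_le_mul_right _ Finset.card_biUnion_le

lemma Ps_union_le (ρ : Par V b) (G G' B : Finset V) :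
    Ps t s ρ (G ∪ G') B ≤ Ps t s ρ G B + Ps t s ρ G' B := by
  unfold Ps
  rw [← add_mul]
  apply Nat.mul_le_mul_right
  have : gd t s ρ (G ∪ G') B ⊆ gd t s ρ G B ∪ gd t s ρ G' B := by
    intro α hα
    rw [Finset.mem_union]
    simp only [mem_gd] at hα ⊢
    obtain ⟨h1, h2, m, h3, h4, h5⟩ := hα
    rcases Finset.mem_union.mp h4 with h | h
    · left; exact ⟨h1, h2, m, h3, h, h5⟩
    · right; exact ⟨h1, h2, m, h3, h, h5⟩
  exact (Finset.card_le_card this).trans (Finset.card_union_le _ _)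

/-- trivial bound -/
lemma Ps_le (ρ : Par V b) (G B : Finset V) :
    Ps t s ρ G B ≤ 2 ^ (Fintype.card V + ∑ i, level (ρ i)) := by
  unfold Ps
  have h : gd t s ρ G B ⊆ Fintype.piFinset (fun i => pts (ρ i)) := by
    intro α hα
    rw [mem_gd] at hα
    rw [Fintype.mem_piFinset]
    intro i
    rw [mem_pts]
    exact hα.1 i
  have h1 : (gd t s ρ G B).card ≤ 2 ^ (∑ i, level (ρ i)) := by
    calc (gd t s ρ G B).card ≤ _ := Finset.card_le_card h
      _ = ∏ i, 2 ^ level (ρ i) := by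
        rw [Fintype.card_piFinset]
        exact Finset.prod_congr rfl (fun i _ => card_pts _)
      _ = _ := by rw [Finset.prod_pow_eq_pow_sum]
  have h2 : 2 ^ (univ \ B).card ≤ 2 ^ Fintype.card V :=
    Nat.pow_le_pow_right (by norm_num) (Finset.card_le_univ _)
  rw [add_comm, pow_add]
  exact Nat.mul_le_mul h1 h2

end Path

end Pool.Agent.Lib.MP_ce949a_lc
end

section

section

set_option autoImplicit false
set_option linter.unusedSectionVars false

namespace Pool.Agent.Lib.MP_ce949a_lc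

open Finset Classical

section Lay

variable {V : Type*} [Fintype V] [DecidableEq V] {b : ℕ}
variable (t : V → Pt b → V)

/-- a hop from `u` to `w` along an odd point of the current cube of `u`. -/
def Hop (ρ : Par V b) (u w : V) : Prop := ∃ x, Mem x (ρ u) ∧ IsOdd x ∧ t u x = w

/-- vertices of `A` reaching `T` in at most `k` hops -/
noncomputable def Lay (ρ : Par V b) (A T : Finset V) : ℕ → Finset V
  | 0 => T
  | k + 1 => Lay ρ A T k ∪ A.filter (fun u => ∃ w ∈ Lay ρ A T k, Hop t ρ u w)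

lemma Lay_succ (ρ : Par V b) (A T : Finset V) (k : ℕ) : Lay t ρ A T (k + 1) =
    Lay t ρ A T k ∪ A.filter (fun u => ∃ w ∈ Lay t ρ A T k, Hop t ρ u w) := rfl

lemma Lay_sub_succ (ρ : Par V b) (A T : Finset V) (k : ℕ) :
    Lay t ρ A T k ⊆ Lay t ρ A T (k + 1) := by
  rw [Lay_succ]; exact Finset.subset_union_left

lemma Lay_mono (ρ : Par V b) (A T : Finset V) {k l : ℕ} (h : k ≤ l) :
    Lay t ρ A T k ⊆ Lay t ρ A T l := by
  induction h with
  | refl => exact subset_rfl
  | step _ ih => exact ih.trans (Lay_sub_succ t ρ A T _)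

lemma T_sub_Lay (ρ : Par V b) (A T : Finset V) (k : ℕ) : T ⊆ Lay t ρ A T k :=
  Lay_mono t ρ A T (Nat.zero_le k)

lemma Lay_sub (ρ : Par V b) (A T : Finset V) (k : ℕ) : Lay t ρ A T k ⊆ A ∪ T := by
  induction k with
  | zero => exact Finset.subset_union_right
  | succ k ih =>
    rw [Lay_succ]
    apply Finset.union_subset ih
    exact (Finset.filter_subset _ _).trans Finset.subset_union_left

lemma hopPath_of_lay (ρ : Par V b) (A T : Finset V) :
    ∀ (k : ℕ) (e : V) (B : Finset V), e ∈ Lay t ρ A T k → Disjoint B (Lay t ρ A T k) →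
      ∃ B', HopPath t ρ T B e B' ∧ B' \ B ⊆ A \ T ∧ (B' \ B).card ≤ k := by
  intro k
  induction k with
  | zero =>
    intro e B he hB
    refine ⟨B, HopPath.done B e he ?_, by simp, by simp⟩
    intro h
    exact (Finset.disjoint_left.mp hB) h he
  | succ k ih =>
    intro e B he hB
    have hB' : Disjoint B (Lay t ρ A T k) :=
      Finset.disjoint_of_subset_right (Lay_sub_succ t ρ A T k) hB
    by_cases hek : e ∈ Lay t ρ A T k
    · obtain ⟨B', h1, h2, h3⟩ := ih e B hek hB'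
      exact ⟨B', h1, h2, by omega⟩
    · have heB : e ∉ B := fun h => (Finset.disjoint_left.mp hB) h he
      rw [Lay_succ, Finset.mem_union] at he
      rcases he with he | he
      · exact absurd he hek
      · rw [Finset.mem_filter] at he
        obtain ⟨heA, w, hw, x, hx, hxo, hxw⟩ := he
        have hd : Disjoint (insert e B) (Lay t ρ A T k) := by
          rw [Finset.disjoint_insert_left]
          exact ⟨hek, hB'⟩
        obtain ⟨B', h1, h2, h3⟩ := ih w (insert e B) hw hd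
        have hsub : B' \ B ⊆ insert e (B' \ insert e B) := by
          intro k hk
          rw [Finset.mem_sdiff] at hk
          rw [Finset.mem_insert, Finset.mem_sdiff, Finset.mem_insert, not_or]
          by_cases hke : k = e
          · left; exact hke
          · right; exact ⟨hk.1, hke, hk.2⟩
        refine ⟨B', HopPath.hop B e x B' heB hx hxo (by rw [hxw]; exact h1), ?_, ?_⟩
        · intro k hk
          rcases Finset.mem_insert.mp (hsub hk) with rfl | hk
          · rw [Finset.mem_sdiff]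
            exact ⟨heA, fun h => hek (T_sub_Lay t ρ A T _ h)⟩
          · exact h2 hk
        · calc (B' \ B).card ≤ _ := Finset.card_le_card hsub
            _ ≤ (B' \ insert e B).card + 1 := Finset.card_insert_le _ _
            _ ≤ k + 1 := by omega

lemma Lay_comp (ρ : Par V b) {A T C T' : Finset V} {n : ℕ} (hC : C ⊆ A)
    (hT : T' ⊆ Lay t ρ A T n) (k : ℕ) : Lay t ρ C T' k ⊆ Lay t ρ A T (n + k) := by
  induction k with
  | zero => exact hT
  | succ k ih =>
    rw [Lay_succ, ← add_assoc, Lay_succ]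
    apply Finset.union_subset_union ih
    intro u hu
    rw [Finset.mem_filter] at hu ⊢
    obtain ⟨h1, w, hw, h2⟩ := hu
    exact ⟨hC h1, w, ih hw, h2⟩

/-- reachability in logarithmically many hops -/
lemma reach (ρ : Par V b) (C T : Finset V) (K : ℕ) (hK : Fintype.card V ≤ 2 ^ K)
    (shrink : ∀ X Y : Finset V, X ⊆ Y → Y ⊆ C \ T → X.Nonempty →
      (∀ u ∈ X, ∀ w ∈ (C ∪ T) \ Y, ¬ Hop t ρ u w) → 2 * X.card < Y.card) :
    C ⊆ Lay t ρ C T (K + 1) := by
  set U : ℕ → Finset V := fun k => C \ Lay t ρ C T k with hU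
  have hUsub : ∀ k, U (k + 1) ⊆ U k := fun k =>
    Finset.sdiff_subset_sdiff subset_rfl (Lay_sub_succ t ρ C T k)
  have hshr : ∀ k, (U (k + 1)).Nonempty → 2 * (U (k + 1)).card < (U k).card := by
    intro k hne
    apply shrink (U (k+1)) (U k) (hUsub k) _ hne
    · intro u hu w hw hh
      rw [hU, Finset.mem_sdiff] at hu
      apply hu.2
      rw [Lay_succ, Finset.mem_union, Finset.mem_filter]
      right
      refine ⟨hu.1, w, ?_, hh⟩
      rw [Finset.mem_sdiff, hU] at hw
      by_contra hcon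
      rcases Finset.mem_union.mp hw.1 with h | h
      · exact hw.2 (Finset.mem_sdiff.mpr ⟨h, hcon⟩)
      · exact hcon (T_sub_Lay t ρ C T k h)
    · exact Finset.sdiff_subset_sdiff subset_rfl (T_sub_Lay t ρ C T k)
  have hpow : ∀ k, (U k).Nonempty → 2 ^ k * (U k).card ≤ Fintype.card V := by
    intro k
    induction k with
    | zero => intro _; simp; exact Finset.card_le_univ _
    | succ k ih =>
      intro hne
      have hne' : (U k).Nonempty := hne.mono (hUsub k)
      have h1 := hshr k hne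
      have h2 := ih hne'
      calc 2 ^ (k+1) * (U (k+1)).card = 2 ^ k * (2 * (U (k+1)).card) := by rw [pow_succ]; ring
        _ ≤ 2 ^ k * (U k).card := Nat.mul_le_mul_left _ h1.le
        _ ≤ _ := h2
  have hempty : ¬ (U (K + 1)).Nonempty := by
    intro hne
    have h1 := hpow _ hne
    have h2 : 1 ≤ (U (K+1)).card := Finset.card_pos.mpr hne
    have h3 : 2 ^ (K+1) ≤ 2 ^ K := by
      calc 2 ^ (K+1) = 2 ^ (K+1) * 1 := (mul_one _).symm
        _ ≤ 2 ^ (K+1) * (U (K+1)).card := Nat.mul_le_mul_left _ h2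
        _ ≤ _ := h1.trans hK
    have h4 : 0 < 2 ^ K := by positivity
    rw [pow_succ] at h3
    omega
  rw [Finset.not_nonempty_iff_eq_empty, hU, Finset.sdiff_eq_empty_iff_subset] at hempty
  exact hempty

end Lay

end Pool.Agent.Lib.MP_ce949a_lc
end

section

set_option autoImplicit false
set_option linter.unusedSectionVars false

namespace Pool.Agent.Lib.MP_ce949a_lc

open Finset Classical

section CoreE

variable {V : Type*} [Fintype V] [DecidableEq V]

/-- supporting sets for a bad-set operator -/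
def SuppE (E : Finset V → Finset V) (S : Finset V) : Prop := ∀ i ∈ S, i ∉ E S

/-- largest supporting subset -/
noncomputable def coreE (E : Finset V → Finset V) (L : Finset V) : Finset V :=
  (L.powerset.filter (fun S => SuppE E S)).biUnion id

lemma coreE_subset (E : Finset V → Finset V) (L : Finset V) : coreE E L ⊆ L := by
  intro i hi
  simp only [coreE, Finset.mem_biUnion, Finset.mem_filter, Finset.mem_powerset, id] at hi
  obtain ⟨S, ⟨hS, _⟩, hi⟩ := hi
  exact hS hi

lemma subset_coreE {E : Finset V → Finset V} {L S : Finset V} (hS : S ⊆ L) (h : SuppE E S) :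
    S ⊆ coreE E L := by
  intro i hi
  simp only [coreE, Finset.mem_biUnion, Finset.mem_filter, Finset.mem_powerset, id]
  exact ⟨S, ⟨hS, h⟩, hi⟩

lemma coreE_supp {E : Finset V → Finset V} (hE : ∀ S S', S ⊆ S' → E S' ⊆ E S) (L : Finset V) :
    SuppE E (coreE E L) := by
  intro i hi hbad
  have hi' := hi
  simp only [coreE, Finset.mem_biUnion, Finset.mem_filter, Finset.mem_powerset, id] at hi'
  obtain ⟨S, ⟨hS, hS'⟩, hiS⟩ := hi'
  exact hS' i hiS (hE _ _ (subset_coreE hS hS') hbad)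

lemma coreE_mono {E E' : Finset V → Finset V} (hE' : ∀ S S', S ⊆ S' → E' S' ⊆ E' S)
    (hEE : ∀ S, E S ⊆ E' S) {L L' : Finset V} (h : L' ⊆ L) : coreE E' L' ⊆ coreE E L := by
  apply subset_coreE ((coreE_subset E' L').trans h)
  intro i hi hbad
  exact coreE_supp hE' L' i hi (hEE _ hbad)

lemma mem_E_coreE {E : Finset V → Finset V} (hE : ∀ S S', S ⊆ S' → E S' ⊆ E S) {L : Finset V}
    {i : V} (hi : i ∈ L) (hi' : i ∉ coreE E L) : i ∈ E (coreE E L) := by
  by_contra hcon
  apply hi'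
  have hsub : coreE E L ⊆ insert i (coreE E L) := Finset.subset_insert _ _
  have hsupp : SuppE E (insert i (coreE E L)) := by
    intro j hj hjE
    have hjE' := hE _ _ hsub hjE
    rcases Finset.mem_insert.mp hj with rfl | hj
    · exact hcon hjE'
    · exact coreE_supp hE L j hj hjE'
  exact subset_coreE (Finset.insert_subset hi (coreE_subset E L)) hsupp
    (Finset.mem_insert_self _ _)

lemma coreE_eq {E : Finset V → Finset V} (hE : ∀ S S', S ⊆ S' → E S' ⊆ E S) {L L' : Finset V}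
    (h1 : L' ⊆ L) (h2 : coreE E L ⊆ L') : coreE E L' = coreE E L := by
  apply Finset.Subset.antisymm
  · exact coreE_mono hE (fun _ => subset_rfl) h1
  · exact subset_coreE h2 (coreE_supp hE L)

/-- peeling -/
lemma exists_suppE {E : Finset V → Finset V} (hE : ∀ S S', S ⊆ S' → E S' ⊆ E S)
    {A B : ℕ} {L : Finset V}
    (hP2 : ∀ S : Finset V, S ⊆ L → A ≤ S.card → (L ∩ E S).card < B)
    (hL : A + B ≤ L.card) :
    ∃ T ⊆ L, SuppE E T ∧ (L \ T).card < B := by
  have key : ∀ j ≤ B, (∃ T ⊆ L, SuppE E T ∧ (L \ T).card < j) ∨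
      (∃ T ⊆ L, (L \ T).card = j ∧ L \ T ⊆ E T) := by
    intro j
    induction j with
    | zero =>
      intro _
      right
      exact ⟨L, subset_rfl, by simp, by simp⟩
    | succ j ih =>
      intro hj
      rcases ih (by omega) with ⟨T, h1, h2, h3⟩ | ⟨T, h1, h2, h3⟩
      · left; exact ⟨T, h1, h2, by omega⟩
      · by_cases hT : SuppE E T
        · left; exact ⟨T, h1, hT, by omega⟩
        · right
          unfold SuppE at hT
          push Not at hT
          obtain ⟨i, hi, hiE⟩ := hT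
          have hsd : L \ T.erase i = insert i (L \ T) := by
            ext k
            simp only [Finset.mem_sdiff, Finset.mem_erase, Finset.mem_insert]
            constructor
            · rintro ⟨hk, hk'⟩
              by_cases h : k = i
              · left; exact h
              · right; exact ⟨hk, fun h' => hk' ⟨h, h'⟩⟩
            · rintro (rfl | ⟨hk, hk'⟩)
              · exact ⟨h1 hi, fun h => h.1 rfl⟩
              · exact ⟨hk, fun h => hk' h.2⟩
          refine ⟨T.erase i, (Finset.erase_subset _ _).trans h1, ?_, ?_⟩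
          · rw [hsd, Finset.card_insert_of_notMem (by simp [hi]), h2]
          · rw [hsd]
            apply Finset.insert_subset
            · exact hE _ _ (Finset.erase_subset _ _) hiE
            · exact h3.trans (hE _ _ (Finset.erase_subset _ _))
  rcases key B le_rfl with h | ⟨T, h1, h2, h3⟩
  · exact h
  · exfalso
    have hc := Finset.card_sdiff_add_card_eq_card h1
    have h4 := hP2 T h1 (by omega)
    have h5 := Finset.card_le_card (show L \ T ⊆ L ∩ E T from
      Finset.subset_inter Finset.sdiff_subset h3)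
    omega

lemma coreE_large {E : Finset V → Finset V} (hE : ∀ S S', S ⊆ S' → E S' ⊆ E S)
    {A B : ℕ} {L : Finset V}
    (hP2 : ∀ S : Finset V, S ⊆ L → A ≤ S.card → (L ∩ E S).card < B)
    (hL : A + B ≤ L.card) : (L \ coreE E L).card < B := by
  obtain ⟨T, h1, h2, h3⟩ := exists_suppE hE hP2 hL
  exact lt_of_le_of_lt
    (Finset.card_le_card (Finset.sdiff_subset_sdiff subset_rfl (subset_coreE h1 h2))) h3

/-- dyadic pigeonhole -/
lemma dyadic {X : Finset V} (hX : X.Nonempty) (f : V → ℕ) (J : ℕ) (hf : ∀ u ∈ X, f u ≤ J) :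
    ∃ j ≤ J, X.card < 2 ^ (j + 1) * (X.filter (fun u => f u = j)).card := by
  by_contra hcon
  push Not at hcon
  have h1 : X.card = ∑ j ∈ Finset.range (J + 1), (X.filter (fun u => f u = j)).card := by
    apply Finset.card_eq_sum_card_fiberwise
    intro u hu
    simpa [Nat.lt_succ_iff] using hf u hu
  have h2 : 2 ^ (J + 1) * X.card ≤ (2 ^ (J + 1) - 1) * X.card := by
    calc 2 ^ (J + 1) * X.card
        = ∑ j ∈ Finset.range (J + 1), 2 ^ (J + 1) * (X.filter (fun u => f u = j)).card := by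
          rw [← Finset.mul_sum, ← h1]
      _ ≤ ∑ j ∈ Finset.range (J + 1), 2 ^ (J - j) * X.card := by
          apply Finset.sum_le_sum
          intro j hj
          have hj' : j ≤ J := Nat.lt_succ_iff.mp (Finset.mem_range.mp hj)
          have h3 := hcon j hj'
          have h4 : 2 ^ (J + 1) = 2 ^ (J - j) * 2 ^ (j + 1) := by
            rw [← pow_add]; congr 1; omega
          calc 2 ^ (J + 1) * (X.filter (fun u => f u = j)).card
              = 2 ^ (J - j) * (2 ^ (j + 1) * (X.filter (fun u => f u = j)).card) := by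
                rw [h4]; ring
            _ ≤ 2 ^ (J - j) * X.card := Nat.mul_le_mul_left _ h3
      _ = (∑ j ∈ Finset.range (J + 1), 2 ^ (J - j)) * X.card := by rw [Finset.sum_mul]
      _ = (2 ^ (J + 1) - 1) * X.card := by
          congr 1
          have h5 : ∑ j ∈ Finset.range (J + 1), 2 ^ (J - j) =
              ∑ j ∈ Finset.range (J + 1), 2 ^ j := by
            rw [← Finset.sum_range_reflect]
            apply Finset.sum_congr rfl
            intro j hj
            have := Finset.mem_range.mp hj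
            congr 1; omega
          rw [h5]
          exact Nat.geomSum_eq (le_refl 2) (J + 1) |>.trans (by simp)
  have hc : 0 < X.card := Finset.card_pos.mpr hX
  have h6 : 0 < 2 ^ (J + 1) := by positivity
  have h7 : (2 ^ (J + 1) - 1) * X.card < 2 ^ (J + 1) * X.card :=
    Nat.mul_lt_mul_of_pos_right (by omega) hc
  omega

end CoreE

section Sub

variable {b : ℕ}

/-- `Q'` is a subcube of `Q`. -/
def Sub (Q' Q : Cube b) : Prop := ∀ a v, Q a = some v → Q' a = some v

lemma Sub.refl (Q : Cube b) : Sub Q Q := fun _ _ h => h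

lemma Sub.trans {Q1 Q2 Q3 : Cube b} (h1 : Sub Q1 Q2) (h2 : Sub Q2 Q3) : Sub Q1 Q3 :=
  fun a v h => h1 a v (h2 a v h)

lemma Sub.mem {Q' Q : Cube b} (h : Sub Q' Q) {x : Pt b} (hx : Mem x Q') : Mem x Q :=
  fun a v hv => hx a v (h a v hv)

lemma Sub.level_le {Q' Q : Cube b} (h : Sub Q' Q) : level Q' ≤ level Q := by
  unfold level
  apply Finset.card_le_card
  intro a ha
  simp only [Finset.mem_filter, Finset.mem_univ, true_and] at ha ⊢
  cases hQ : Q a with
  | none => rfl
  | some v => rw [h a v hQ] at ha; cases ha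

lemma exists_sub {Q : Cube b} {r : ℕ} (h : r ≤ level Q) : ∃ Q' : Cube b, level Q' = r ∧ Sub Q' Q := by
  obtain ⟨Z, hZ, hZc⟩ := Finset.exists_subset_card_eq h
  refine ⟨fun a => if a ∈ Z then none else some ((Q a).getD false), ?_, ?_⟩
  · rw [← hZc]
    unfold level
    congr 1
    ext a
    simp
  · intro a v hv
    have hZa : a ∉ Z := by
      intro ha
      have := hZ ha
      simp at this
      rw [this] at hv; cases hv
    simp [hZa, hv]

lemma sub_set {Q : Cube b} {a : Fin b} (v : Bool) (h : Q a = none) :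
    Sub (Function.update Q a (some v)) Q := by
  intro c w hw
  have hc : c ≠ a := by rintro rfl; rw [h] at hw; cases hw
  simp [hc, hw]

lemma level_set {Q : Cube b} {a : Fin b} (v : Bool) (h : Q a = none) :
    level (Function.update Q a (some v)) + 1 = level Q := by
  unfold level
  have : (univ.filter (fun c => Q c = none)) =
      insert a (univ.filter (fun c => Function.update Q a (some v) c = none)) := by
    ext c
    rw [Finset.mem_insert, Finset.mem_filter, Finset.mem_filter]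
    by_cases hc : c = a
    · subst hc; simp [h]
    · simp [hc]
  rw [this, Finset.card_insert_of_notMem (by simp)]

end Sub

/-- parameters -/
structure Prm where
  J : ℕ
  R : ℕ → ℕ
  q : ℕ → ℕ
  τ : ℕ → ℕ
  A : ℕ → ℕ
  Wd : ℕ → ℕ
  Sg : ℕ → ℕ
  Bt : ℕ → ℕ
  Yb : ℕ → ℕ
  K : ℕ
  Wc : ℕ

namespace Prm

/-- total number of poor pigeons of stage at least `g` -/
def Bp (P : Prm) (g : ℕ) : ℕ := ∑ j ∈ Finset.Icc g P.J, P.Bt j
def Lam (P : Prm) : ℕ := (P.K + 1) * (P.J + 1)
def slack (P : Prm) (g : ℕ) : ℕ := P.Bp g + 1 + P.Lam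
def cap (P : Prm) (g : ℕ) : ℕ := ∑ j ∈ Finset.Icc g P.J, (P.q j + 1) * P.Bt j

/-- the inequalities needed -/
structure Ok (P : Prm) (b N : ℕ) : Prop where
  R0 : 2 ≤ P.R 0
  Rmono : StrictMono P.R
  qR : ∀ j, P.q j < P.R (j + 1)
  qmono : Monotone P.q
  stage : ∀ l, P.R 0 ≤ l → l ≤ b → ∃ j ≤ P.J, P.R j ≤ l ∧ l ≤ P.q j
  top : b < P.R (P.J + 1)
  qb : ∀ j ≤ P.J, P.q j ≤ b
  qJ : P.q P.J = b
  Rq : ∀ j ≤ P.J, P.R j ≤ P.q j
  τpos : ∀ j, 0 < P.τ j
  Wd0 : P.Wd 0 = N + 1
  WdS : ∀ g, P.Wd (g + 1) = P.A g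
  Aanti : Antitone P.A
  A0 : P.A 0 ≤ N
  Sganti : Antitone P.Sg
  s1 : ∀ g ≤ P.J, P.Sg g + P.Bp g + 1 ≤ P.A g
  s2 : ∀ g < P.J, P.Sg g + P.slack (g + 1) + P.Bp (g + 1) ≤ P.A g
  s3 : ∀ j ≤ P.J, 2 ^ (j + 2) * (P.Bp j + 1) ≤ P.Yb j
  KN : N ≤ 2 ^ P.K
  WcOk : P.K + b * P.Lam ≤ P.Wc

end Prm

/-- states -/
structure St (V : Type*) (b : ℕ) where
  ρ : Par V b
  cp : V → ℕ → Option (Cube b)
  B : Finset V

section State

variable {V : Type*} [Fintype V] [DecidableEq V] {b : ℕ}
variable (P : Prm) (t : V → Pt b → V)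

def PoorAt (i : V) (j : ℕ) (Q : Cube b) (S : Finset V) : Prop :=
  ∃ Q', level Q' + 1 = P.R j ∧ Sub Q' Q ∧ (opts t i Q' S).card < P.τ j

def RichAt (i : V) (j : ℕ) (Q : Cube b) (Y : Finset V) : Prop :=
  ∃ Q', level Q' + 1 = P.R j ∧ Sub Q' Q ∧ P.τ j ≤ (opts t i Q' Y).card

noncomputable def ExJ (σ : St V b) (j : ℕ) (S : Finset V) : Finset V :=
  univ.filter (fun i => ∃ Q, σ.cp i j = some Q ∧ PoorAt P t i j Q S)

noncomputable def Ex (σ : St V b) (S : Finset V) : Finset V :=
  univ.filter (fun i => ∃ j ≤ P.J, i ∈ ExJ P t σ j S)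

noncomputable def LS (σ : St V b) (g : ℕ) : Finset V :=
  univ.filter (fun i => i ∉ σ.B ∧ P.R g ≤ level (σ.ρ i))

noncomputable def KK (σ : St V b) (g : ℕ) : Finset V := coreE (Ex P t σ) (LS P σ g)

lemma mem_ExJ {σ : St V b} {j : ℕ} {S : Finset V} {i : V} :
    i ∈ ExJ P t σ j S ↔ ∃ Q, σ.cp i j = some Q ∧ PoorAt P t i j Q S := by simp [ExJ]

lemma mem_Ex {σ : St V b} {S : Finset V} {i : V} :
    i ∈ Ex P t σ S ↔ ∃ j ≤ P.J, i ∈ ExJ P t σ j S := by simp [Ex]

lemma mem_LS {σ : St V b} {g : ℕ} {i : V} :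
    i ∈ LS P σ g ↔ i ∉ σ.B ∧ P.R g ≤ level (σ.ρ i) := by simp [LS]

/-- `σ'` is later than `σ`. -/
structure Later (σ σ' : St V b) : Prop where
  ρ : ∀ i, Sub (σ'.ρ i) (σ.ρ i)
  cp : ∀ i j Q, σ.cp i j = some Q → σ'.cp i j = some Q
  B : σ.B ⊆ σ'.B

lemma Later.refl (σ : St V b) : Later σ σ := ⟨fun _ => Sub.refl _, fun _ _ _ h => h, subset_rfl⟩

lemma Later.trans {σ1 σ2 σ3 : St V b} (h1 : Later σ1 σ2) (h2 : Later σ2 σ3) : Later σ1 σ3 :=
  ⟨fun i => (h2.ρ i).trans (h1.ρ i), fun i j Q h => h2.cp i j Q (h1.cp i j Q h),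
    h1.B.trans h2.B⟩

lemma PoorAt.anti {i : V} {j : ℕ} {Q : Cube b} {S S' : Finset V} (h : S ⊆ S')
    (hp : PoorAt P t i j Q S') : PoorAt P t i j Q S := by
  obtain ⟨Q', h1, h2, h3⟩ := hp
  exact ⟨Q', h1, h2, lt_of_le_of_lt (Finset.card_le_card (opts_mono t i (fun x h => h) h)) h3⟩

lemma ExJ_mono {σ σ' : St V b} (h : Later σ σ') (j : ℕ) {S S' : Finset V} (hS : S' ⊆ S) :
    ExJ P t σ j S ⊆ ExJ P t σ' j S' := by
  intro i hi
  rw [mem_ExJ] at hi ⊢
  obtain ⟨Q, h1, h2⟩ := hi
  exact ⟨Q, h.cp i j Q h1, h2.anti P t hS⟩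

lemma Ex_mono {σ σ' : St V b} (h : Later σ σ') {S S' : Finset V} (hS : S' ⊆ S) :
    Ex P t σ S ⊆ Ex P t σ' S' := by
  intro i hi
  rw [mem_Ex] at hi ⊢
  obtain ⟨j, hj, hi⟩ := hi
  exact ⟨j, hj, ExJ_mono P t h j hS hi⟩

lemma Ex_anti (σ : St V b) (S S' : Finset V) (h : S ⊆ S') : Ex P t σ S' ⊆ Ex P t σ S :=
  Ex_mono P t (Later.refl σ) h

lemma LS_mono {σ σ' : St V b} (h : Later σ σ') (g : ℕ) : LS P σ' g ⊆ LS P σ g := by
  intro i hi
  rw [mem_LS] at hi ⊢
  exact ⟨fun hB => hi.1 (h.B hB), hi.2.trans (h.ρ i).level_le⟩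

lemma LS_anti (hR : Monotone P.R) (σ : St V b) {g g' : ℕ} (h : g ≤ g') :
    LS P σ g' ⊆ LS P σ g := by
  intro i hi
  rw [mem_LS] at hi ⊢
  exact ⟨hi.1, (hR h).trans hi.2⟩

lemma KK_sub (σ : St V b) (g : ℕ) : KK P t σ g ⊆ LS P σ g := coreE_subset _ _

lemma KK_supp (σ : St V b) (g : ℕ) : SuppE (Ex P t σ) (KK P t σ g) :=
  coreE_supp (Ex_anti P t σ) _

lemma KK_mono {σ σ' : St V b} (h : Later σ σ') (g : ℕ) : KK P t σ' g ⊆ KK P t σ g :=
  coreE_mono (Ex_anti P t σ') (fun _ => Ex_mono P t h subset_rfl) (LS_mono P h g)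

lemma KK_nested (hR : Monotone P.R) (σ : St V b) {g g' : ℕ} (h : g ≤ g') :
    KK P t σ g' ⊆ KK P t σ g :=
  coreE_mono (Ex_anti P t σ) (fun _ => subset_rfl) (LS_anti P hR σ h)

lemma mem_Ex_KK {σ : St V b} {g : ℕ} {i : V} (hi : i ∈ LS P σ g) (hi' : i ∉ KK P t σ g) :
    i ∈ Ex P t σ (KK P t σ g) := mem_E_coreE (Ex_anti P t σ) hi hi'

/-- well-formedness -/
structure WF (σ : St V b) : Prop where
  sub : ∀ i, i ∉ σ.B → ∀ j Q, σ.cp i j = some Q → Sub (σ.ρ i) Q
  iff : ∀ i, i ∉ σ.B → ∀ j ≤ P.J, (∃ Q, σ.cp i j = some Q) ↔ level (σ.ρ i) ≤ P.q j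

/-- typicality, second kind -/
def Typ2 (σ : St V b) : Prop :=
  ∀ j ≤ P.J, ∀ S : Finset V, P.Sg j ≤ S.card → (ExJ P t σ j S).card < P.Bt j

/-- typicality, first kind -/
def Typ1 (σ : St V b) : Prop :=
  ∀ j ≤ P.J, ∀ X Y : Finset V, X ⊆ Y → X.Nonempty → Y.card ≤ P.Yb j →
    Y.card ≤ 2 ^ (j + 2) * X.card → ∃ i ∈ X, ∀ Q, σ.cp i j = some Q → ¬ RichAt P t i j Q Y

/-- typicality only depends on the checkpoints -/
lemma ExJ_congr {σ σ' : St V b} (h : σ.cp = σ'.cp) (j : ℕ) (S : Finset V) :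
    ExJ P t σ j S = ExJ P t σ' j S := by
  unfold ExJ; rw [h]

lemma Ex_congr {σ σ' : St V b} (h : σ.cp = σ'.cp) : Ex P t σ = Ex P t σ' := by
  funext S; unfold Ex; simp only [ExJ_congr P t h]

lemma Typ2_congr {σ σ' : St V b} (h : σ.cp = σ'.cp) (hT : Typ2 P t σ) : Typ2 P t σ' := by
  intro j hj S hS
  rw [← ExJ_congr P t h]; exact hT j hj S hS

lemma Typ1_congr {σ σ' : St V b} (h : σ.cp = σ'.cp) (hT : Typ1 P t σ) : Typ1 P t σ' := by
  intro j hj X Y h1 h2 h3 h4
  rw [← h]; exact hT j hj X Y h1 h2 h3 h4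

variable {P t}

/-- the poor pigeons of level at least `R g` are few -/
lemma LS_Ex_card {N : ℕ} (hP : P.Ok b N) {σ : St V b} (hW : WF P σ) (hT : Typ2 P t σ) {g : ℕ}
    (hg : g ≤ P.J) {S : Finset V} (hS : P.Sg g ≤ S.card) :
    (LS P σ g ∩ Ex P t σ S).card < P.Bp g := by
  have hsub : LS P σ g ∩ Ex P t σ S ⊆ (Finset.Icc g P.J).biUnion (fun j => ExJ P t σ j S) := by
    intro i hi
    rw [Finset.mem_inter, mem_LS, mem_Ex] at hi
    obtain ⟨⟨h1, h2⟩, j, hj, h3⟩ := hi
    rw [Finset.mem_biUnion]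
    refine ⟨j, ?_, h3⟩
    rw [Finset.mem_Icc]
    refine ⟨?_, hj⟩
    rw [mem_ExJ] at h3
    obtain ⟨Q, hQ, _⟩ := h3
    have h4 := (hW.iff i h1 j hj).mp ⟨Q, hQ⟩
    by_contra hcon
    push Not at hcon
    have h5 : P.R (j + 1) ≤ P.R g := hP.Rmono.monotone hcon
    have h6 := hP.qR j
    omega
  calc (LS P σ g ∩ Ex P t σ S).card ≤ _ := Finset.card_le_card hsub
    _ ≤ ∑ j ∈ Finset.Icc g P.J, (ExJ P t σ j S).card := Finset.card_biUnion_le
    _ < ∑ j ∈ Finset.Icc g P.J, P.Bt j := by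
        apply Finset.sum_lt_sum_of_nonempty
        · exact ⟨g, Finset.mem_Icc.mpr ⟨le_rfl, hg⟩⟩
        · intro j hj
          rw [Finset.mem_Icc] at hj
          exact hT j hj.2 S ((hP.Sganti hj.1).trans hS)

lemma KK_large {N : ℕ} (hP : P.Ok b N) {σ : St V b} (hW : WF P σ) (hT : Typ2 P t σ) {g : ℕ}
    (hg : g ≤ P.J) (hL : P.Sg g + P.Bp g ≤ (LS P σ g).card) :
    (LS P σ g \ KK P t σ g).card < P.Bp g :=
  coreE_large (Ex_anti P t σ) (A := P.Sg g) (fun S _ hS => LS_Ex_card hP hW hT hg hS) hL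

lemma KK_card {N : ℕ} (hP : P.Ok b N) {σ : St V b} (hW : WF P σ) (hT : Typ2 P t σ) {g : ℕ}
    (hg : g ≤ P.J) (hL : P.Sg g + P.Bp g ≤ (LS P σ g).card) :
    (LS P σ g).card ≤ (KK P t σ g).card + P.Bp g := by
  have h1 := KK_large hP hW hT hg hL
  have h2 := Finset.card_sdiff_add_card_eq_card (KK_sub P t σ g)
  omega

/-- supported vertices are rich towards any set catching all their hops -/
lemma rich_of_hops {N : ℕ} (hP : P.Ok b N) {σ : St V b} (hW : WF P σ) {G : Finset V}
    (hG : SuppE (Ex P t σ) G) {u : V} (hu : u ∈ G) (huB : u ∉ σ.B) {j : ℕ} (hj : j ≤ P.J)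
    (h2 : level (σ.ρ u) ≤ P.q j) {ρ' : Par V b} (hsub : Sub (ρ' u) (σ.ρ u))
    (hlev : P.R j ≤ level (ρ' u) + 1) {Y : Finset V}
    (hY : ∀ w ∈ G \ Y, ¬ Hop t ρ' u w) :
    ∃ Q, σ.cp u j = some Q ∧ RichAt P t u j Q Y := by
  obtain ⟨Q, hQ⟩ := (hW.iff u huB j hj).mpr h2
  refine ⟨Q, hQ, ?_⟩
  have hsubQ := hW.sub u huB j Q hQ
  have hR : 2 ≤ P.R j := hP.R0.trans (hP.Rmono.monotone (Nat.zero_le j))
  obtain ⟨Q', hQ'1, hQ'2⟩ := exists_sub (Q := ρ' u) (r := P.R j - 1) (by omega)
  refine ⟨Q', by omega, (hQ'2.trans hsub).trans hsubQ, ?_⟩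
  have hnp : ¬ PoorAt P t u j Q G := by
    intro hp
    exact hG u hu ((mem_Ex P t).mpr ⟨j, hj, (mem_ExJ P t).mpr ⟨Q, hQ, hp⟩⟩)
  have h3 : P.τ j ≤ (opts t u Q' G).card := by
    by_contra hcon
    push Not at hcon
    exact hnp ⟨Q', by omega, (hQ'2.trans hsub).trans hsubQ, hcon⟩
  refine h3.trans (Finset.card_le_card ?_)
  intro x hx
  simp only [opts, Finset.mem_filter, Finset.mem_univ, true_and] at hx ⊢
  refine ⟨hx.1, hx.2.1, ?_⟩
  by_contra hcon
  exact hY (t u x) (Finset.mem_sdiff.mpr ⟨hx.2.2, hcon⟩) ⟨x, hQ'2.mem hx.1, hx.2.1, rfl⟩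

/-- stage of a level -/
lemma stage_spec {N : ℕ} (hP : P.Ok b N) {l : ℕ} (h0 : P.R 0 ≤ l) (hb : l ≤ b) {g : ℕ}
    (hg : P.R g ≤ l) : ∃ j ≤ P.J, g ≤ j ∧ P.R j ≤ l ∧ l ≤ P.q j := by
  obtain ⟨j, h1, h2, h3⟩ := hP.stage l h0 hb
  refine ⟨j, h1, ?_, h2, h3⟩
  by_contra hcon
  push Not at hcon
  have h5 : P.R (j + 1) ≤ P.R g := hP.Rmono.monotone hcon
  have h6 := hP.qR j
  omega

end State

end Pool.Agent.Lib.MP_ce949a_lc
end

section

set_option autoImplicit false
set_option linter.unusedSectionVars false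

namespace Pool.Agent.Lib.MP_ce949a_lc

open Finset Classical

section Update

variable {V : Type*} [Fintype V] [DecidableEq V] {b : ℕ}
variable (P : Prm) (t : V → Pt b → V)

noncomputable def excSum (σ : St V b) (g : ℕ) (S : Finset V) : ℕ :=
  ∑ j ∈ Finset.Icc g P.J, (P.q j + 1) * (ExJ P t σ j S).card

noncomputable def comp (σ : St V b) : ℕ :=
  ∑ g ∈ Finset.range (P.J + 1), (min (excSum P t σ g (KK P t σ g)) (P.cap g) +
    P.R g * (P.Wd g - (LS P σ g).card))

lemma excSum_mono {σ σ' : St V b} (h : Later σ σ') (g : ℕ) {S S' : Finset V} (hS : S' ⊆ S) :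
    excSum P t σ g S ≤ excSum P t σ' g S' := by
  unfold excSum
  apply Finset.sum_le_sum
  intro j _
  exact Nat.mul_le_mul_left _ (Finset.card_le_card (ExJ_mono P t h j hS))

/-- one term of `comp` -/
noncomputable def cterm (σ : St V b) (g : ℕ) : ℕ :=
  min (excSum P t σ g (KK P t σ g)) (P.cap g) + P.R g * (P.Wd g - (LS P σ g).card)

lemma comp_eq (σ : St V b) : comp P t σ = ∑ g ∈ Finset.range (P.J + 1), cterm P t σ g := rfl

lemma cterm_mono {σ σ' : St V b} (h : Later σ σ') (g : ℕ) : cterm P t σ g ≤ cterm P t σ' g := by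
  unfold cterm
  apply add_le_add
  · exact min_le_min_right _ (excSum_mono P t h g (KK_mono P t h g))
  · apply Nat.mul_le_mul_left
    have := Finset.card_le_card (LS_mono P h g)
    omega

lemma comp_mono {σ σ' : St V b} (h : Later σ σ') : comp P t σ ≤ comp P t σ' := by
  rw [comp_eq, comp_eq]
  exact Finset.sum_le_sum (fun g _ => cterm_mono P t h g)

lemma comp_le (σ : St V b) :
    comp P t σ ≤ ∑ g ∈ Finset.range (P.J + 1), (P.cap g + P.R g * P.Wd g) := by
  unfold comp
  apply Finset.sum_le_sum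
  intro g _
  apply add_le_add (min_le_right _ _)
  exact Nat.mul_le_mul_left _ (Nat.sub_le _ _)

/-- a local improvement lifts to `comp` -/
lemma comp_lift {σ σ' : St V b} (h : Later σ σ') {g : ℕ} (hg : g ≤ P.J) {d : ℕ}
    (hd : cterm P t σ g + d ≤ cterm P t σ' g) : comp P t σ + d ≤ comp P t σ' := by
  rw [comp_eq, comp_eq]
  have hm : g ∈ Finset.range (P.J + 1) := Finset.mem_range.mpr (by omega)
  rw [← Finset.add_sum_erase _ _ hm, ← Finset.add_sum_erase _ _ hm]
  have := Finset.sum_le_sum (s := (Finset.range (P.J + 1)).erase g)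
    (fun g' _ => cterm_mono P t h g')
  omega

variable {P t}

/-- shrinking lemma: the common argument of the two kinds of updates. -/
lemma shrink_aux {N : ℕ} (hP : P.Ok b N) {σ σ' : St V b} (hL : Later σ σ') (hW : WF P σ)
    (hT1 : Typ1 P t σ') {G : Finset V} (hG : SuppE (Ex P t σ) G) {g : ℕ}
    (hGL : G ⊆ LS P σ g)
    (hlev : ∀ i, level (σ.ρ i) ≤ level (σ'.ρ i) + 1)
    {X Y : Finset V} (hXY : X ⊆ Y) (hXG : X ⊆ G) (hX : X.Nonempty)
    (hY : ∀ u ∈ X, ∀ w ∈ G \ Y, ¬ Hop t σ'.ρ u w)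
    (hcard : ∀ j ≤ P.J, g ≤ j → (X.filter (fun u => P.R j ≤ level (σ.ρ u) ∧
      level (σ.ρ u) ≤ P.q j)).card ≤ P.Bp j + 1) :
    2 * X.card < Y.card := by
  by_contra hcon
  push Not at hcon
  -- stage function
  have hst : ∀ u ∈ X, ∃ j ≤ P.J, g ≤ j ∧ P.R j ≤ level (σ.ρ u) ∧ level (σ.ρ u) ≤ P.q j := by
    intro u hu
    have h1 := (mem_LS P).mp (hGL (hXG hu))
    exact stage_spec hP ((hP.Rmono.monotone (Nat.zero_le g)).trans h1.2) (level_le _) h1.2
  set f : V → ℕ := fun u => if h : ∃ j ≤ P.J, g ≤ j ∧ P.R j ≤ level (σ.ρ u) ∧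
    level (σ.ρ u) ≤ P.q j then h.choose else 0 with hf
  have hfs : ∀ u ∈ X, f u ≤ P.J ∧ g ≤ f u ∧ P.R (f u) ≤ level (σ.ρ u) ∧
      level (σ.ρ u) ≤ P.q (f u) := by
    intro u hu
    have h := hst u hu
    have : f u = h.choose := by simp only [hf]; rw [dif_pos h]
    rw [this]
    exact ⟨h.choose_spec.1, h.choose_spec.2⟩
  obtain ⟨j, hj, hjc⟩ := dyadic hX f P.J (fun u hu => (hfs u hu).1)
  set Xj := X.filter (fun u => f u = j) with hXj
  have hXjne : Xj.Nonempty := by
    rw [← Finset.card_pos]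
    by_contra h
    have : Xj.card = 0 := by omega
    rw [this, mul_zero] at hjc
    omega
  have hgj : g ≤ j := by
    obtain ⟨u, hu⟩ := hXjne
    rw [hXj, Finset.mem_filter] at hu
    rw [← hu.2]
    exact (hfs u hu.1).2.1
  have hXjsub : Xj ⊆ X.filter (fun u => P.R j ≤ level (σ.ρ u) ∧ level (σ.ρ u) ≤ P.q j) := by
    intro u hu
    rw [hXj, Finset.mem_filter] at hu
    rw [Finset.mem_filter]
    have h := hfs u hu.1
    rw [hu.2] at h
    exact ⟨hu.1, h.2.2⟩
  have hc1 : Xj.card ≤ P.Bp j + 1 := (Finset.card_le_card hXjsub).trans (hcard j hj hgj)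
  have hYc : Y.card ≤ 2 ^ (j + 2) * Xj.card := by
    calc Y.card ≤ 2 * X.card := hcon
      _ ≤ 2 * (2 ^ (j + 1) * Xj.card) := Nat.mul_le_mul_left _ hjc.le
      _ = 2 ^ (j + 2) * Xj.card := by rw [pow_succ 2 (j + 1)]; ring
  have hYb : Y.card ≤ P.Yb j :=
    hYc.trans ((Nat.mul_le_mul_left _ hc1).trans (hP.s3 j hj))
  obtain ⟨i, hi, hnr⟩ := hT1 j hj Xj Y ((Finset.filter_subset _ _).trans hXY) hXjne hYb hYc
  have hiX : i ∈ X := (Finset.mem_filter.mp hi).1
  have h := Finset.mem_filter.mp (hXjsub hi)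
  have hiL := (mem_LS P).mp (hGL (hXG hiX))
  obtain ⟨Q, hQ, hR⟩ := rich_of_hops hP hW hG (hXG hiX) hiL.1 hj h.2.2 (hL.ρ i)
    (h.2.1.trans (hlev i)) (hY i hiX)
  exact hnr Q (hL.cp i j Q hQ) hR

/-- the hypotheses on one query -/
structure Qry (σ σ' : St V b) (p : V) : Prop where
  later : Later σ σ'
  B : σ'.B = σ.B
  ne : ∀ i, i ≠ p → σ'.ρ i = σ.ρ i
  lev : level (σ.ρ p) ≤ level (σ'.ρ p) + 1

lemma Qry.lev' {σ σ' : St V b} {p : V} (hQ : Qry σ σ' p) (i : V) :
    level (σ.ρ i) ≤ level (σ'.ρ i) + 1 := by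
  by_cases hi : i = p
  · rw [hi]; exact hQ.lev
  · rw [hQ.ne i hi]; omega

lemma Qry.mem_LS {σ σ' : St V b} {p : V} (hQ : Qry σ σ' p) {g : ℕ} {i : V} (hi : i ≠ p)
    (h : i ∈ LS P σ g) : i ∈ LS P σ' g := by
  rw [Pool.Agent.Lib.MP_ce949a_lc.mem_LS] at h ⊢
  rw [hQ.B, hQ.ne i hi]; exact h

lemma Qry.card_LS {σ σ' : St V b} {p : V} (hQ : Qry σ σ' p) (g : ℕ) :
    (LS P σ g).card ≤ (LS P σ' g).card + 1 := by
  have h : LS P σ g ⊆ insert p (LS P σ' g) := by
    intro i hi
    rw [Finset.mem_insert]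
    by_cases hip : i = p
    · left; exact hip
    · right; exact hQ.mem_LS hip hi
  exact (Finset.card_le_card h).trans (Finset.card_insert_le _ _)

lemma KK_Sg {N : ℕ} (hP : P.Ok b N) {σ : St V b} (hW : WF P σ) (hT : Typ2 P t σ) {g : ℕ}
    (hg : g ≤ P.J) (hL : P.Sg g + P.Bp g ≤ (LS P σ g).card) :
    P.Sg g ≤ (KK P t σ g).card := by
  have := KK_card hP hW hT hg hL
  omega

lemma exc_cap {N : ℕ} (hP : P.Ok b N) {σ : St V b} (hT : Typ2 P t σ) {g : ℕ}
    {S : Finset V} (hS : P.Sg g ≤ S.card) : excSum P t σ g S ≤ P.cap g := by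
  unfold excSum Prm.cap
  apply Finset.sum_le_sum
  intro j hj
  rw [Finset.mem_Icc] at hj
  exact Nat.mul_le_mul_left _ (hT j hj.2 S ((hP.Sganti hj.1).trans hS)).le

/-- the cost of an ordinary update is paid by `comp` -/
lemma ord_pay {N : ℕ} (hP : P.Ok b N) {σ σ' : St V b} (hL : Later σ σ') (hB : σ'.B = σ.B)
    (hW' : WF P σ')
    (hT2 : Typ2 P t σ') {h : ℕ} (hh : h ≤ P.J) (hwW : (LS P σ h).card ≤ P.Wd h)
    (hbig : P.Sg h + P.Bp h ≤ (LS P σ' h).card) :
    cterm P t σ h + ∑ i ∈ KK P t σ h \ KK P t σ' h, (level (σ'.ρ i) + 1) ≤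
      cterm P t σ' h := by
  set K := KK P t σ h with hK
  set K' := KK P t σ' h with hK'
  set Δ := K \ K' with hΔ
  have hKK : K' ⊆ K := KK_mono P t hL h
  have hS : P.Sg h ≤ K'.card := KK_Sg hP hW' hT2 hh hbig
  have hcap := exc_cap hP hT2 hS
  have hcap2 : excSum P t σ h K ≤ P.cap h := (excSum_mono P t hL h hKK).trans hcap
  -- split
  have hsplit : ∑ i ∈ Δ, (level (σ'.ρ i) + 1) =
      ∑ i ∈ Δ.filter (fun i => i ∈ LS P σ' h), (level (σ'.ρ i) + 1) +
      ∑ i ∈ Δ.filter (fun i => ¬ i ∈ LS P σ' h), (level (σ'.ρ i) + 1) :=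
    (Finset.sum_filter_add_sum_filter_not _ _ _).symm
  -- the dropped ones
  have h1 : ∑ i ∈ Δ.filter (fun i => ¬ i ∈ LS P σ' h), (level (σ'.ρ i) + 1) ≤
      P.R h * ((LS P σ h).card - (LS P σ' h).card) := by
    have hsub : Δ.filter (fun i => ¬ i ∈ LS P σ' h) ⊆ LS P σ h \ LS P σ' h := by
      intro i hi
      rw [Finset.mem_filter, hΔ, Finset.mem_sdiff] at hi
      exact Finset.mem_sdiff.mpr ⟨KK_sub P t σ h hi.1.1, hi.2⟩
    have hc : (LS P σ h \ LS P σ' h).card = (LS P σ h).card - (LS P σ' h).card :=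
      Finset.card_sdiff_of_subset (LS_mono P hL h)
    rw [← hc]
    calc ∑ i ∈ Δ.filter (fun i => ¬ i ∈ LS P σ' h), (level (σ'.ρ i) + 1)
        ≤ ∑ i ∈ Δ.filter (fun i => ¬ i ∈ LS P σ' h), P.R h := by
          apply Finset.sum_le_sum
          intro i hi
          have h2 := Finset.mem_sdiff.mp (hsub hi)
          rw [mem_LS, mem_LS] at h2
          have h3 : i ∉ σ'.B := by rw [hB]; exact h2.1.1
          by_contra hcon
          exact h2.2 ⟨h3, by omega⟩
      _ = P.R h * (Δ.filter (fun i => ¬ i ∈ LS P σ' h)).card := by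
          rw [Finset.sum_const, smul_eq_mul, mul_comm]
      _ ≤ _ := Nat.mul_le_mul_left _ (Finset.card_le_card hsub)
  -- the poor ones
  have h2 : ∑ i ∈ Δ.filter (fun i => i ∈ LS P σ' h), (level (σ'.ρ i) + 1) +
      excSum P t σ h K ≤ excSum P t σ' h K' := by
    have e1 : ∀ j, (ExJ P t σ' j K' \ ExJ P t σ j K).card + (ExJ P t σ j K).card =
        (ExJ P t σ' j K').card := fun j =>
      Finset.card_sdiff_add_card_eq_card (ExJ_mono P t hL j hKK)
    have e2 : excSum P t σ' h K' = ∑ j ∈ Finset.Icc h P.J,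
        (P.q j + 1) * (ExJ P t σ' j K' \ ExJ P t σ j K).card + excSum P t σ h K := by
      unfold excSum
      rw [← Finset.sum_add_distrib]
      apply Finset.sum_congr rfl
      intro j _
      rw [← e1 j, mul_add]
    rw [e2]
    apply Nat.add_le_add_right
    have e3 : ∀ i ∈ Δ.filter (fun i => i ∈ LS P σ' h), level (σ'.ρ i) + 1 ≤
        ∑ j ∈ Finset.Icc h P.J, if i ∈ ExJ P t σ' j K' \ ExJ P t σ j K then P.q j + 1 else 0 := by
      intro i hi
      rw [Finset.mem_filter, hΔ, Finset.mem_sdiff] at hi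
      obtain ⟨⟨hiK, hiK'⟩, hiL⟩ := hi
      have h3 := mem_Ex_KK P t hiL hiK'
      rw [mem_Ex] at h3
      obtain ⟨j, hj, h3⟩ := h3
      have h4 : i ∉ ExJ P t σ j K := by
        intro h5
        exact KK_supp P t σ h i hiK ((mem_Ex P t).mpr ⟨j, hj, h5⟩)
      obtain ⟨Q, hQ, _⟩ := (mem_ExJ P t).mp h3
      have hiL' := (mem_LS P).mp hiL
      have h5 := (hW'.iff i hiL'.1 j hj).mp ⟨Q, hQ⟩
      have hhj : h ≤ j := by
        by_contra hcon
        push Not at hcon
        have h6 : P.R (j + 1) ≤ P.R h := hP.Rmono.monotone hcon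
        have h7 := hP.qR j
        omega
      calc level (σ'.ρ i) + 1 ≤ P.q j + 1 := by omega
        _ = if i ∈ ExJ P t σ' j K' \ ExJ P t σ j K then P.q j + 1 else 0 := by
            rw [if_pos (Finset.mem_sdiff.mpr ⟨h3, h4⟩)]
        _ ≤ _ := Finset.single_le_sum
            (f := fun j => if i ∈ ExJ P t σ' j K' \ ExJ P t σ j K then P.q j + 1 else 0)
            (fun _ _ => Nat.zero_le _) (Finset.mem_Icc.mpr ⟨hhj, hj⟩)
    refine (Finset.sum_le_sum e3).trans ?_
    rw [Finset.sum_comm]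
    apply Finset.sum_le_sum
    intro j _
    rw [← Finset.sum_filter, Finset.sum_const, smul_eq_mul, mul_comm]
    apply Nat.mul_le_mul_left
    apply Finset.card_le_card
    intro i hi
    exact (Finset.mem_filter.mp hi).2
  unfold cterm
  rw [← hK, ← hK', min_eq_left hcap, min_eq_left hcap2, hsplit]
  have hc1 := Finset.card_le_card (LS_mono P hL h)
  have h3 : P.R h * (P.Wd h - (LS P σ h).card) +
      P.R h * ((LS P σ h).card - (LS P σ' h).card) = P.R h * (P.Wd h - (LS P σ' h).card) := by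
    rw [← mul_add]; congr 1; omega
  omega

/-- after a query the lost part of the core reaches the new core quickly -/
lemma ord_lay {N : ℕ} (hP : P.Ok b N) (hN : Fintype.card V ≤ N) {σ σ' : St V b} {p : V}
    (hQ : Qry σ σ' p) (hW : WF P σ) (hW' : WF P σ') (hT1 : Typ1 P t σ') (hT2 : Typ2 P t σ')
    {h : ℕ} (hh : h ≤ P.J) (hbig : P.Sg h + P.Bp h ≤ (LS P σ' h).card) :
    KK P t σ h \ KK P t σ' h ⊆
      Lay t σ'.ρ (KK P t σ h \ KK P t σ' h) (KK P t σ' h) (P.K + 1) := by
  set K := KK P t σ h with hK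
  set K' := KK P t σ' h with hK'
  set Δ := K \ K' with hΔ
  have hKK : K' ⊆ K := KK_mono P t hQ.later h
  have hS : P.Sg h ≤ K'.card := KK_Sg hP hW' hT2 hh hbig
  have hun : Δ ∪ K' = K := by
    rw [hΔ, Finset.sdiff_union_of_subset hKK]
  apply reach t σ'.ρ Δ K' P.K (hN.trans hP.KN)
  intro X Y hXY hY hX hno
  have hYK : Y ⊆ K := hY.trans (Finset.sdiff_subset.trans Finset.sdiff_subset)
  apply shrink_aux hP hQ.later hW hT1 (KK_supp P t σ h) (KK_sub P t σ h) hQ.lev' hXY
    (hXY.trans hYK) hX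
  · intro u hu w hw
    exact hno u hu w (by rw [hun]; exact hw)
  · intro j hj hhj
    have hsub : X.filter (fun u => P.R j ≤ level (σ.ρ u) ∧ level (σ.ρ u) ≤ P.q j) ⊆
        insert p (LS P σ' j ∩ Ex P t σ' K') := by
      intro u hu
      rw [Finset.mem_filter] at hu
      rw [Finset.mem_insert]
      by_cases hup : u = p
      · left; exact hup
      · right
        have huY := hY (hXY hu.1)
        rw [Finset.mem_sdiff, hΔ, Finset.mem_sdiff] at huY
        have huL := KK_sub P t σ h huY.1.1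
        have huL' : u ∈ LS P σ' h := hQ.mem_LS hup huL
        rw [Finset.mem_inter]
        refine ⟨hQ.mem_LS hup ((mem_LS P).mpr ⟨((mem_LS P).mp huL).1, hu.2.1⟩), ?_⟩
        exact mem_Ex_KK P t huL' huY.1.2
    have h1 := Finset.card_le_card hsub
    have h2 := Finset.card_insert_le p (LS P σ' j ∩ Ex P t σ' K')
    have h3 := LS_Ex_card hP hW' hT2 hj ((hP.Sganti hhj).trans hS)
    omega

/-- move the best end to the target -/
lemma best_end (s : V) (ρ : Par V b) {C T B : Finset V} {k : ℕ} (hC : C ⊆ Lay t ρ C T k)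
    (hd : Disjoint B (C ∪ T)) (hne : C.Nonempty) :
    ∃ B', B ⊆ B' ∧ B' \ B ⊆ C \ T ∧ (B' \ B).card ≤ k ∧
      ∑ e ∈ C, Ps t s ρ {e} B ≤ C.card * (2 ^ (∑ i ∈ B' \ B, level (ρ i)) * Ps t s ρ T B') := by
  obtain ⟨e, he, hmax⟩ := Finset.exists_max_image C (fun e => Ps t s ρ {e} B) hne
  have hd' : Disjoint B (Lay t ρ C T k) := Finset.disjoint_of_subset_right (Lay_sub t ρ C T k) hd
  obtain ⟨B', h1, h2, h3⟩ := hopPath_of_lay t ρ C T k e B (hC he) hd'
  refine ⟨B', h1.sub, h2, h3, ?_⟩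
  calc ∑ e ∈ C, Ps t s ρ {e} B ≤ ∑ _e ∈ C, Ps t s ρ {e} B := Finset.sum_le_sum hmax
    _ = C.card * Ps t s ρ {e} B := by rw [Finset.sum_const, smul_eq_mul]
    _ ≤ _ := Nat.mul_le_mul_left _ (Ps_path t s h1)

/-- enlarging the path set outside of the core -/
lemma KK_grow {σ : St V b} {B' : Finset V} (hB : σ.B ⊆ B') {g : ℕ}
    (hd : Disjoint (B' \ σ.B) (KK P t σ g)) :
    KK P t ⟨σ.ρ, σ.cp, B'⟩ g = KK P t σ g := by
  unfold KK
  have e : Ex P t (⟨σ.ρ, σ.cp, B'⟩ : St V b) = Ex P t σ := Ex_congr P t rfl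
  rw [e]
  have hL : Later σ ⟨σ.ρ, σ.cp, B'⟩ := ⟨fun _ => Sub.refl _, fun _ _ _ h => h, hB⟩
  apply coreE_eq (Ex_anti P t σ) (LS_mono P hL g)
  intro i hi
  have hi' : i ∈ KK P t σ g := hi
  have h1 := (mem_LS P).mp (KK_sub P t σ g hi')
  rw [mem_LS]
  refine ⟨?_, h1.2⟩
  intro hiB
  have hiB' : i ∈ B' := hiB
  exact (Finset.disjoint_left.mp hd) (Finset.mem_sdiff.mpr ⟨hiB', h1.1⟩) hi'

lemma two_mul_le_two_pow (n : ℕ) (hn : 0 < n) : 2 * n ≤ 2 ^ n := by
  obtain ⟨m, rfl⟩ : ∃ m, n = m + 1 := ⟨n - 1, by omega⟩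
  have := Nat.lt_two_pow_self (n := m)
  rw [pow_succ]; omega

/-- ordinary update -/
lemma ord_step {N : ℕ} (s : V) (hP : P.Ok b N) (hN : Fintype.card V ≤ N) {σ σ' : St V b} {p : V}
    (hQ : Qry σ σ' p) (hW : WF P σ) (hW' : WF P σ') (hT1 : Typ1 P t σ') (hT2 : Typ2 P t σ')
    {h : ℕ} (hh : h ≤ P.J) (hwA : P.A h ≤ (LS P σ h).card)
    (hwW : (LS P σ h).card < P.Wd h) :
    ∃ B', σ'.B ⊆ B' ∧ B' \ σ'.B ⊆ KK P t σ h \ KK P t σ' h ∧
      Ps t s σ'.ρ (KK P t σ h) σ.B * 2 ^ comp P t σ ≤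
        Ps t s σ'.ρ (KK P t ⟨σ'.ρ, σ'.cp, B'⟩ h) B' * 2 ^ comp P t ⟨σ'.ρ, σ'.cp, B'⟩ ∧
      ∑ i ∈ B' \ σ'.B, level (σ'.ρ i) + comp P t σ ≤ comp P t ⟨σ'.ρ, σ'.cp, B'⟩ := by
  have hbig : P.Sg h + P.Bp h ≤ (LS P σ' h).card := by
    have h1 := hP.s1 h hh
    have h2 := hQ.card_LS (P := P) h
    omega
  set K := KK P t σ h with hK
  set K' := KK P t σ' h with hK'
  set Δ := K \ K' with hΔ
  have hKK : K' ⊆ K := KK_mono P t hQ.later h
  have hun : Δ ∪ K' = K := by
    rw [hΔ, Finset.sdiff_union_of_subset hKK]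
  have hpay := ord_pay hP hQ.later hQ.B hW' hT2 hh hwW.le hbig
  rw [← hK, ← hK', ← hΔ] at hpay
  have hpay2 := comp_lift P t hQ.later hh hpay
  have hlay := ord_lay hP hN hQ hW hW' hT1 hT2 hh hbig
  rw [← hK, ← hK', ← hΔ] at hlay
  -- general facts for a new path set
  have hgrow : ∀ B', σ'.B ⊆ B' → B' \ σ'.B ⊆ Δ →
      KK P t ⟨σ'.ρ, σ'.cp, B'⟩ h = K' ∧ comp P t σ' ≤ comp P t ⟨σ'.ρ, σ'.cp, B'⟩ := by
    intro B' h1 h2
    refine ⟨KK_grow h1 ?_, comp_mono P t ⟨fun _ => Sub.refl _, fun _ _ _ h => h, h1⟩⟩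
    rw [← hK']
    exact Finset.disjoint_of_subset_left h2 Finset.sdiff_disjoint
  have hlevle : ∀ B', B' \ σ'.B ⊆ Δ → ∑ i ∈ B' \ σ'.B, level (σ'.ρ i) ≤
      ∑ i ∈ Δ, level (σ'.ρ i) := fun B' h => Finset.sum_le_sum_of_subset h
  have hΔsum : ∑ i ∈ Δ, (level (σ'.ρ i) + 1) = ∑ i ∈ Δ, level (σ'.ρ i) + Δ.card := by
    rw [Finset.sum_add_distrib]; simp
  have hfin : ∀ B', σ'.B ⊆ B' → B' \ σ'.B ⊆ Δ →
      ∑ i ∈ B' \ σ'.B, level (σ'.ρ i) + comp P t σ ≤ comp P t ⟨σ'.ρ, σ'.cp, B'⟩ := by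
    intro B' h1 h2
    have h3 := (hgrow B' h1 h2).2
    have h4 := hlevle B' h2
    omega
  -- the inequality on Ps
  suffices hsuf : ∃ B', σ'.B ⊆ B' ∧ B' \ σ'.B ⊆ Δ ∧
      Ps t s σ'.ρ K σ.B ≤ 2 ^ (∑ i ∈ Δ, (level (σ'.ρ i) + 1)) * Ps t s σ'.ρ K' B' by
    obtain ⟨B', h1, h2, h3⟩ := hsuf
    refine ⟨B', h1, h2, ?_, hfin B' h1 h2⟩
    obtain ⟨h4, h5⟩ := hgrow B' h1 h2
    rw [h4]
    calc Ps t s σ'.ρ K σ.B * 2 ^ comp P t σ
        ≤ (2 ^ (∑ i ∈ Δ, (level (σ'.ρ i) + 1)) * Ps t s σ'.ρ K' B') * 2 ^ comp P t σ :=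
          Nat.mul_le_mul_right _ h3
      _ = Ps t s σ'.ρ K' B' * 2 ^ (comp P t σ + ∑ i ∈ Δ, (level (σ'.ρ i) + 1)) := by
          rw [pow_add]; ring
      _ ≤ _ := by
          apply Nat.mul_le_mul_left
          apply Nat.pow_le_pow_right (by norm_num)
          omega
  rcases Finset.eq_empty_or_nonempty Δ with hE | hne
  · refine ⟨σ'.B, subset_rfl, by simp, ?_⟩
    have : K = K' := by rw [← hun, hE, Finset.empty_union]
    rw [hE, this, hQ.B]; simp
  · have hdis : Disjoint σ'.B (Δ ∪ K') := by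
      rw [hun, hQ.B, Finset.disjoint_right]
      intro i hi
      exact ((mem_LS P).mp (KK_sub P t σ h hi)).1
    obtain ⟨B', h1, h2, _, h4⟩ := best_end s σ'.ρ hlay hdis hne
    have h2' : B' \ σ'.B ⊆ Δ := h2.trans Finset.sdiff_subset
    have hcpos : 0 < Δ.card := Finset.card_pos.mpr hne
    have hle : Ps t s σ'.ρ K σ.B ≤ Ps t s σ'.ρ K' σ'.B + ∑ e ∈ Δ, Ps t s σ'.ρ {e} σ'.B := by
      rw [← hun, ← hQ.B, add_comm]
      exact (Ps_union_le t s σ'.ρ Δ K' σ'.B).trans
        (Nat.add_le_add_right (Ps_le_sum t s σ'.ρ Δ σ'.B) _)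
    have h2n := two_mul_le_two_pow Δ.card hcpos
    rw [hΔsum, pow_add]
    by_cases hcase : Ps t s σ'.ρ K σ.B ≤ 2 * Ps t s σ'.ρ K' σ'.B
    · refine ⟨σ'.B, subset_rfl, by simp, hcase.trans ?_⟩
      apply Nat.mul_le_mul_right
      have h5 : 1 ≤ 2 ^ (∑ i ∈ Δ, level (σ'.ρ i)) := Nat.one_le_two_pow
      calc 2 = 1 * 2 := by norm_num
        _ ≤ 2 ^ (∑ i ∈ Δ, level (σ'.ρ i)) * 2 ^ Δ.card :=
          Nat.mul_le_mul h5 (by omega)
    · refine ⟨B', h1, h2', ?_⟩
      push Not at hcase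
      calc Ps t s σ'.ρ K σ.B ≤ 2 * ∑ e ∈ Δ, Ps t s σ'.ρ {e} σ'.B := by omega
        _ ≤ 2 * (Δ.card * (2 ^ (∑ i ∈ B' \ σ'.B, level (σ'.ρ i)) * Ps t s σ'.ρ K' B')) :=
          Nat.mul_le_mul_left _ h4
        _ = 2 ^ (∑ i ∈ B' \ σ'.B, level (σ'.ρ i)) * (2 * Δ.card) * Ps t s σ'.ρ K' B' := by ring
        _ ≤ 2 ^ (∑ i ∈ Δ, level (σ'.ρ i)) * 2 ^ Δ.card * Ps t s σ'.ρ K' B' := by
          apply Nat.mul_le_mul_right
          apply Nat.mul_le_mul _ h2n
          exact Nat.pow_le_pow_right (by norm_num) (hlevle B' h2')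

lemma ord_drop {N : ℕ} (hP : P.Ok b N) {σ σ' : St V b} {p : V}
    (hQ : Qry σ σ' p) (hW' : WF P σ') (hT2 : Typ2 P t σ')
    {h : ℕ} (hh : h ≤ P.J) (hwA : P.A h ≤ (LS P σ h).card)
    {B' : Finset V} (hB' : B' \ σ'.B ⊆ KK P t σ h \ KK P t σ' h) {g : ℕ} (hg : g ≤ P.J)
    (hhg : h ≤ g) :
    (LS P σ g).card ≤ (LS P ⟨σ'.ρ, σ'.cp, B'⟩ g).card + (P.Bp g + 1) := by
  have hbig : P.Sg h + P.Bp h ≤ (LS P σ' h).card := by
    have h1 := hP.s1 h hh
    have h2 := hQ.card_LS (P := P) h
    omega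
  have hS : P.Sg h ≤ (KK P t σ' h).card := KK_Sg hP hW' hT2 hh hbig
  have hsub : LS P σ g ⊆ insert p (LS P ⟨σ'.ρ, σ'.cp, B'⟩ g ∪
      (LS P σ' g ∩ Ex P t σ' (KK P t σ' h))) := by
    intro i hi
    rw [Finset.mem_insert, Finset.mem_union]
    by_cases hip : i = p
    · left; exact hip
    · right
      have h1 := hQ.mem_LS hip hi
      by_cases hiB : i ∈ B'
      · right
        have h2 : i ∈ B' \ σ'.B := Finset.mem_sdiff.mpr ⟨hiB, ((mem_LS P).mp h1).1⟩
        have h3 := Finset.mem_sdiff.mp (hB' h2)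
        rw [Finset.mem_inter]
        exact ⟨h1, mem_Ex_KK P t (hQ.mem_LS hip (KK_sub P t σ h h3.1)) h3.2⟩
      · left
        rw [mem_LS]
        exact ⟨hiB, ((mem_LS P).mp h1).2⟩
  have h1 := Finset.card_le_card hsub
  have h2 := Finset.card_insert_le p (LS P ⟨σ'.ρ, σ'.cp, B'⟩ g ∪
      (LS P σ' g ∩ Ex P t σ' (KK P t σ' h)))
  have h3 := Finset.card_union_le (LS P ⟨σ'.ρ, σ'.cp, B'⟩ g)
      (LS P σ' g ∩ Ex P t σ' (KK P t σ' h))
  have h4 := LS_Ex_card hP hW' hT2 hg ((hP.Sganti hhg).trans hS)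
  omega

/-- one link of the chain of cores -/
lemma chain_link {N : ℕ} (hP : P.Ok b N) (hN : Fintype.card V ≤ N) {σ : St V b}
    (hW : WF P σ) (hT1 : Typ1 P t σ) (hT2 : Typ2 P t σ) {g : ℕ} (hg : g < P.J)
    (hS : P.Sg g ≤ (KK P t σ (g + 1)).card) :
    KK P t σ g ⊆ Lay t σ.ρ (KK P t σ g) (KK P t σ (g + 1)) (P.K + 1) := by
  set C := KK P t σ g with hC
  set T := KK P t σ (g + 1) with hT
  have hTC : T ⊆ C := KK_nested P t hP.Rmono.monotone σ (Nat.le_succ g)
  have hun : C ∪ T = C := Finset.union_eq_left.mpr hTC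
  apply reach t σ.ρ C T P.K (hN.trans hP.KN)
  intro X Y hXY hY hX hno
  have hYC : Y ⊆ C := hY.trans Finset.sdiff_subset
  rw [hun] at hno
  apply shrink_aux hP (Later.refl σ) hW hT1 (KK_supp P t σ g) (KK_sub P t σ g)
    (fun i => Nat.le_succ _) hXY (hXY.trans hYC) hX hno
  intro j hj hgj
  rcases Nat.eq_or_lt_of_le hgj with hjg | hjg
  · -- stage g
    subst hjg
    have hsub : X.filter (fun u => P.R g ≤ level (σ.ρ u) ∧ level (σ.ρ u) ≤ P.q g) ⊆
        ExJ P t σ g T := by
      intro u hu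
      rw [Finset.mem_filter] at hu
      have huC : u ∈ C := hYC (hXY hu.1)
      have huL := (mem_LS P).mp (KK_sub P t σ g huC)
      obtain ⟨Q, hQ⟩ := (hW.iff u huL.1 g hj).mpr hu.2.2
      rw [mem_ExJ]
      refine ⟨Q, hQ, ?_⟩
      have hR : 2 ≤ P.R g := hP.R0.trans (hP.Rmono.monotone (Nat.zero_le g))
      obtain ⟨Q', hQ'1, hQ'2⟩ := exists_sub (Q := σ.ρ u) (r := P.R g - 1) (by omega)
      refine ⟨Q', by omega, hQ'2.trans (hW.sub u huL.1 g Q hQ), ?_⟩
      have : opts t u Q' T = ∅ := by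
        rw [Finset.eq_empty_iff_forall_notMem]
        intro x hx
        simp only [opts, Finset.mem_filter, Finset.mem_univ, true_and] at hx
        have hw : t u x ∈ C \ Y := by
          rw [Finset.mem_sdiff]
          refine ⟨hTC hx.2.2, ?_⟩
          intro h
          exact (Finset.mem_sdiff.mp (hY h)).2 hx.2.2
        exact hno u hu.1 _ hw ⟨x, hQ'2.mem hx.1, hx.2.1, rfl⟩
      rw [this, Finset.card_empty]
      exact hP.τpos g
    have h1 := Finset.card_le_card hsub
    have h2 := hT2 g hj T hS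
    have h3 : P.Bt g ≤ P.Bp g := by
      unfold Prm.Bp
      exact Finset.single_le_sum (f := P.Bt) (fun _ _ => Nat.zero_le _)
        (Finset.mem_Icc.mpr ⟨le_rfl, hj⟩)
    omega
  · have hsub : X.filter (fun u => P.R j ≤ level (σ.ρ u) ∧ level (σ.ρ u) ≤ P.q j) ⊆
        LS P σ j ∩ Ex P t σ T := by
      intro u hu
      rw [Finset.mem_filter] at hu
      have huY := Finset.mem_sdiff.mp (hY (hXY hu.1))
      have huL := (mem_LS P).mp (KK_sub P t σ g huY.1)
      have huLj : u ∈ LS P σ j := (mem_LS P).mpr ⟨huL.1, hu.2.1⟩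
      rw [Finset.mem_inter]
      refine ⟨huLj, ?_⟩
      exact mem_Ex_KK P t (LS_anti P hP.Rmono.monotone σ hjg huLj) huY.2
    have h1 := Finset.card_le_card hsub
    have h3 := LS_Ex_card hP hW hT2 hj ((hP.Sganti hgj).trans hS)
    omega

/-- the chain of cores -/
lemma chain {N : ℕ} (hP : P.Ok b N) (hN : Fintype.card V ≤ N) {σ : St V b}
    (hW : WF P σ) (hT1 : Typ1 P t σ) (hT2 : Typ2 P t σ) {h : ℕ} (n : ℕ) (hn : h + n ≤ P.J)
    (hS : ∀ g, h ≤ g → g < h + n → P.Sg g ≤ (KK P t σ (g + 1)).card) :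
    KK P t σ h ⊆ Lay t σ.ρ (KK P t σ h) (KK P t σ (h + n)) ((P.K + 1) * n) := by
  induction n with
  | zero => exact T_sub_Lay t σ.ρ _ _ _
  | succ n ih =>
    have h1 := ih (by omega) (fun g hg1 hg2 => hS g hg1 (by omega))
    have h2 := chain_link hP hN hW hT1 hT2 (g := h + n) (by omega) (hS _ (by omega) (by omega))
    have hsub : KK P t σ (h + n) ⊆ KK P t σ h :=
      KK_nested P t hP.Rmono.monotone σ (Nat.le_add_right _ _)
    have h3 : Lay t σ.ρ (KK P t σ (h + n)) (KK P t σ (h + n + 1)) (P.K + 1) ⊆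
        Lay t σ.ρ (KK P t σ h) (KK P t σ (h + (n + 1))) (P.K + 1) := by
      have := Lay_comp t σ.ρ (A := KK P t σ h) (T := KK P t σ (h + (n + 1)))
        (C := KK P t σ (h + n)) (T' := KK P t σ (h + n + 1)) (n := 0) hsub
        (by exact subset_rfl) (P.K + 1)
      rwa [Nat.zero_add] at this
    have h4 := Lay_comp t σ.ρ (A := KK P t σ h) (T := KK P t σ (h + (n + 1)))
      (C := KK P t σ h) (T' := KK P t σ (h + n)) (n := P.K + 1) subset_rfl
      (h2.trans h3) ((P.K + 1) * n)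
    refine h1.trans (h4.trans ?_)
    apply Lay_mono
    rw [mul_add]; omega

end Update

end Pool.Agent.Lib.MP_ce949a_lc
end
end
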