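import Pool.Agent.Lib.MP_ce949a_lc.Support
import Pool.Agent.Lib.MP_ce949a_lc.Typ
import Pool.Agent.Lib.MP_ce949a_lc.Update

section

set_option autoImplicit false
set_option linter.unusedSectionVars false

namespace Pool.Agent.Lib.MP_ce949a_lc

open Finset Classical

/-- number of functions with prescribed range on a set of arguments -/
lemma cnt_fun {ι κ : Type*} [Fintype ι] [DecidableEq ι] [Fintype κ] [DecidableEq κ] [Nonempty κ]
    (I : Finset ι) (E : Finset κ) (Z : Finset (ι → κ)) (hZ : ∀ f, f ∈ Z ↔ ∀ i ∈ I, f i ∈ E) :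
    (Z.card : ℝ) =
      ((E.card : ℝ) / Fintype.card κ) ^ I.card * (Fintype.card κ : ℝ) ^ Fintype.card ι := by
  have h : Z =
      Fintype.piFinset (fun i => if i ∈ I then E else univ) := by
    ext f
    rw [hZ, Fintype.mem_piFinset]
    constructor
    · intro h i
      split_ifs with hi
      · exact h i hi
      · simp
    · intro h i hi
      have := h i
      rwa [if_pos hi] at this
  rw [h, Fintype.card_piFinset]
  have h2 : ∀ i : ι, (if i ∈ I then E else (univ : Finset κ)).card =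
      if i ∈ I then E.card else Fintype.card κ := by
    intro i; split_ifs <;> simp
  rw [Finset.prod_congr rfl (fun i _ => h2 i), Finset.prod_ite]
  simp only [Finset.prod_const]
  have hI : (univ.filter (fun i => i ∈ I)).card = I.card := by
    congr 1; ext i; simp
  have hI' : (univ.filter (fun i => ¬ i ∈ I)).card + I.card = Fintype.card ι := by
    have := Finset.card_filter_add_card_filter_not (s := (univ : Finset ι)) (fun i => i ∈ I)
    rw [Finset.card_univ] at this
    omega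
  rw [hI]
  have hκ : (Fintype.card κ : ℝ) ≠ 0 := by
    exact_mod_cast Fintype.card_ne_zero
  rw [← hI', pow_add, div_pow]
  push_cast
  field_simp

section

variable {b M : ℕ}

/-- the `k`-element sets of odd points lying in a cube of level `r` -/
noncomputable def TT (b r k : ℕ) : Finset (Finset (Pt b)) :=
  (univ.filter (fun Q : Cube b => level Q = r)).biUnion
    (fun Q => ((pts Q).filter (fun x => IsOdd x)).powersetCard k)

lemma mem_TT {r k : ℕ} {A : Finset (Pt b)} : A ∈ TT b r k ↔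
    ∃ Q : Cube b, level Q = r ∧ A ⊆ (pts Q).filter (fun x => IsOdd x) ∧ A.card = k := by
  simp [TT, Finset.mem_powersetCard]

lemma card_TT (b r k : ℕ) : (TT b (r + 1) k).card ≤ 3 ^ b * (2 ^ r).choose k := by
  unfold TT
  refine Finset.card_biUnion_le.trans ?_
  have h1 : ∑ Q ∈ (univ.filter (fun Q : Cube b => level Q = r + 1)),
        (((pts Q).filter (fun x => IsOdd x)).powersetCard k).card
      = ∑ Q ∈ (univ.filter (fun Q : Cube b => level Q = r + 1)), (2 ^ r).choose k := by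
    apply Finset.sum_congr rfl
    intro Q hQ
    simp only [Finset.mem_filter, Finset.mem_univ, true_and] at hQ
    rw [Finset.card_powersetCard, card_odd_pts Q hQ]
  rw [h1, Finset.sum_const, smul_eq_mul]
  have h3 : (univ.filter (fun Q : Cube b => level Q = r + 1)).card ≤ 3 ^ b := by
    calc _ ≤ (univ : Finset (Cube b)).card := Finset.card_filter_le _ _
      _ = 3 ^ b := by simp [Cube]
  exact Nat.mul_le_mul_right _ h3

/-- one-pigeon event: some member of `TT` is mapped into `R` -/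
noncomputable def EE (b M r k : ℕ) (R : Finset (Fin M)) : Finset (Pt b → Fin M) :=
  univ.filter (fun h => ∃ A ∈ TT b r k, ∀ x ∈ A, h x ∈ R)

lemma card_EE (hM : 0 < M) (r k : ℕ) (R : Finset (Fin M)) :
    ((EE b M (r + 1) k R).card : ℝ) ≤
      (3 ^ b * ((2 ^ r).choose k : ℝ) * ((R.card : ℝ) / M) ^ k) *
        (Fintype.card (Pt b → Fin M) : ℝ) := by
  have : Nonempty (Fin M) := ⟨⟨0, hM⟩⟩
  have h1 : EE b M (r + 1) k R ⊆ (TT b (r + 1) k).biUnion
      (fun A => univ.filter (fun h : Pt b → Fin M => ∀ x ∈ A, h x ∈ R)) := by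
    intro h hh
    simp only [EE, Finset.mem_filter, Finset.mem_univ, true_and] at hh
    obtain ⟨A, hA, hA'⟩ := hh
    rw [Finset.mem_biUnion]
    exact ⟨A, hA, by simpa using hA'⟩
  have h2 : ((EE b M (r + 1) k R).card : ℝ) ≤ ∑ A ∈ TT b (r + 1) k,
      ((univ.filter (fun h : Pt b → Fin M => ∀ x ∈ A, h x ∈ R)).card : ℝ) := by
    exact_mod_cast (Finset.card_le_card h1).trans Finset.card_biUnion_le
  refine h2.trans ?_
  have h3 : ∀ A ∈ TT b (r + 1) k,
      ((univ.filter (fun h : Pt b → Fin M => ∀ x ∈ A, h x ∈ R)).card : ℝ) =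
      ((R.card : ℝ) / M) ^ k * (Fintype.card (Pt b → Fin M) : ℝ) := by
    intro A hA
    obtain ⟨Q, _, _, hc⟩ := mem_TT.mp hA
    rw [cnt_fun A R _ (by intro f; simp), hc]
    simp
  rw [Finset.sum_congr rfl h3, Finset.sum_const, nsmul_eq_mul]
  have h4 : ((TT b (r + 1) k).card : ℝ) ≤ 3 ^ b * ((2 ^ r).choose k : ℝ) := by
    exact_mod_cast card_TT b r k
  rw [← mul_assoc]
  gcongr

/-- the family of maps with source `0` -/
def tmap (g : Fin (M + 1) → Pt b → Fin M) : Fin (M + 1) → Pt b → Fin (M + 1) :=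
  fun i x => (g i x).succ

/-- targets inside `S` -/
noncomputable def inT (S : Finset (Fin (M + 1))) : Finset (Fin M) :=
  univ.filter (fun j => j.succ ∈ S)

noncomputable def outT (S : Finset (Fin (M + 1))) : Finset (Fin M) :=
  univ.filter (fun j => j.succ ∉ S)

lemma card_inT (S : Finset (Fin (M + 1))) : (inT S).card ≤ S.card := by
  apply Finset.card_le_card_of_injOn Fin.succ
  · intro j hj
    simpa [inT] using hj
  · intro i _ j _ h
    exact Fin.succ_injective _ h

lemma card_outT (S : Finset (Fin (M + 1))) : (outT S).card + S.card ≤ M + 1 := by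
  have h : ((outT S).image Fin.succ ∪ S).card ≤ M + 1 := by
    exact (Finset.card_le_univ _).trans (by simp)
  rw [Finset.card_union_of_disjoint, Finset.card_image_of_injective _ (Fin.succ_injective _)] at h
  · exact h
  · rw [Finset.disjoint_left]
    intro x hx hx'
    rw [Finset.mem_image] at hx
    obtain ⟨j, hj, rfl⟩ := hx
    simp only [outT, Finset.mem_filter] at hj
    exact hj.2 hx'

/-- a rich option set gives an event of the first kind -/
lemma rich_mem {r τ : ℕ} {g : Fin (M + 1) → Pt b → Fin M} {S : Finset (Fin (M + 1))}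
    {i : Fin (M + 1)} (h : ∃ Q : Cube b, level Q = r ∧ τ ≤ (opts (tmap g) i Q S).card) :
    g i ∈ EE b M r τ (inT S) := by
  obtain ⟨Q, hQ, hc⟩ := h
  obtain ⟨A, hA, hAc⟩ := Finset.exists_subset_card_eq hc
  simp only [EE, Finset.mem_filter, Finset.mem_univ, true_and]
  refine ⟨A, mem_TT.mpr ⟨Q, hQ, ?_, hAc⟩, ?_⟩
  · intro x hx
    have := hA hx
    simp only [opts, Finset.mem_filter, Finset.mem_univ, true_and] at this
    simp only [Finset.mem_filter, mem_pts]
    exact ⟨this.1, this.2.1⟩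
  · intro x hx
    have := hA hx
    simp only [opts, Finset.mem_filter, Finset.mem_univ, true_and] at this
    simp only [inT, Finset.mem_filter, Finset.mem_univ, true_and]
    exact this.2.2

/-- a poor option set gives an event of the second kind -/
lemma poor_mem {r τ : ℕ} {g : Fin (M + 1) → Pt b → Fin M} {S : Finset (Fin (M + 1))}
    {i : Fin (M + 1)} (h : i ∈ Exc (tmap g) (r + 1) τ S) :
    g i ∈ EE b M (r + 1) (2 ^ r - τ) (outT S) := by
  rw [mem_Exc] at h
  obtain ⟨Q, hQ, hc⟩ := h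
  set Z := ((pts Q).filter (fun x => IsOdd x)) \ opts (tmap g) i Q S with hZ
  have hsub : opts (tmap g) i Q S ⊆ (pts Q).filter (fun x => IsOdd x) := by
    intro x hx
    simp only [opts, Finset.mem_filter, Finset.mem_univ, true_and] at hx
    simp only [Finset.mem_filter, mem_pts]
    exact ⟨hx.1, hx.2.1⟩
  have hZc : 2 ^ r - τ ≤ Z.card := by
    have := Finset.card_sdiff_add_card_eq_card hsub
    rw [card_odd_pts Q hQ, ← hZ] at this
    omega
  obtain ⟨A, hA, hAc⟩ := Finset.exists_subset_card_eq hZc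
  simp only [EE, Finset.mem_filter, Finset.mem_univ, true_and]
  refine ⟨A, mem_TT.mpr ⟨Q, hQ, hA.trans Finset.sdiff_subset, hAc⟩, ?_⟩
  intro x hx
  have hx' := hA hx
  simp only [hZ, opts, Finset.mem_sdiff, Finset.mem_filter, Finset.mem_univ, true_and,
    mem_pts] at hx'
  simp only [outT, Finset.mem_filter, Finset.mem_univ, true_and]
  intro hS
  exact hx'.2 ⟨hx'.1.1, hx'.1.2, hS⟩

/-- existence of the maps -/
theorem exists_maps (hM : 0 < M) (r τ A B : ℕ) (hA : A ≤ M + 1)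
    (p1 : ℕ → ℝ) (p2 : ℝ)
    (hp1 : ∀ y ≤ B, (3 : ℝ) ^ b * ((2 ^ r).choose τ : ℝ) * ((y : ℝ) / M) ^ τ ≤ p1 y)
    (hp2 : (3 : ℝ) ^ b * ((2 ^ r).choose (2 ^ r - τ) : ℝ) *
      (((M : ℝ) + 1 - A) / M) ^ (2 ^ r - τ) ≤ p2)
    (hs1 : ∀ y, 1 ≤ y → y ≤ B → ((M + 1).choose y : ℝ) * p1 y ^ y ≤ (1 / 4) ^ y)
    (hs2 : (4 : ℝ) ^ (M + 1) * p2 ^ B ≤ 1 / 3) :
    ∃ g : Fin (M + 1) → Pt b → Fin M,
      (∀ S : Finset (Fin (M + 1)), A ≤ S.card → (Exc (tmap g) (r + 1) τ S).card < B) ∧
      (∀ S : Finset (Fin (M + 1)), S.Nonempty → S.card ≤ B →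
        ∃ i ∈ S, ∀ Q : Cube b, level Q = r + 1 → (opts (tmap g) i Q S).card < τ) := by
  have : Nonempty (Fin M) := ⟨⟨0, hM⟩⟩
  by_contra hcon
  push Not at hcon
  set K : ℝ := (Fintype.card (Pt b → Fin M) : ℝ) with hK
  have hKpos : 0 < K := by
    rw [hK]; exact_mod_cast Fintype.card_pos
  set Ω : Finset (Fin (M + 1) → Pt b → Fin M) := univ with hΩ
  have hΩc : (Ω.card : ℝ) = K ^ (M + 1) := by
    rw [hΩ, Finset.card_univ, Fintype.card_pi]; simp [hK]
  -- the two bad families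
  set bad1 : Finset (Fin (M + 1)) → Finset (Fin (M + 1) → Pt b → Fin M) := fun S =>
    univ.filter (fun g => ∀ i ∈ S, g i ∈ EE b M (r + 1) τ (inT S)) with hbad1
  set bad2 : Finset (Fin (M + 1)) × Finset (Fin (M + 1)) →
      Finset (Fin (M + 1) → Pt b → Fin M) := fun SI =>
    univ.filter (fun g => ∀ i ∈ SI.2, g i ∈ EE b M (r + 1) (2 ^ r - τ) (outT SI.1)) with hbad2
  set F1 : Finset (Finset (Fin (M + 1))) :=
    univ.filter (fun S => 1 ≤ S.card ∧ S.card ≤ B) with hF1
  set F2 : Finset (Finset (Fin (M + 1)) × Finset (Fin (M + 1))) :=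
    univ.filter (fun SI => A ≤ SI.1.card ∧ SI.2.card = B) with hF2
  have hcover : Ω ⊆ (F1.biUnion bad1) ∪ (F2.biUnion bad2) := by
    intro g _
    rw [Finset.mem_union]
    by_cases h : ∀ S : Finset (Fin (M + 1)), A ≤ S.card → (Exc (tmap g) (r + 1) τ S).card < B
    · left
      obtain ⟨S, hS1, hS2, hS3⟩ := hcon g h
      rw [Finset.mem_biUnion]
      refine ⟨S, ?_, ?_⟩
      · simp only [hF1, Finset.mem_filter, Finset.mem_univ, true_and]
        exact ⟨Finset.card_pos.mpr hS1, hS2⟩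
      · simp only [hbad1, Finset.mem_filter, Finset.mem_univ, true_and]
        intro i hi
        exact rich_mem (hS3 i hi)
    · right
      push Not at h
      obtain ⟨S, hS1, hS2⟩ := h
      obtain ⟨I, hI, hIc⟩ := Finset.exists_subset_card_eq hS2
      rw [Finset.mem_biUnion]
      refine ⟨(S, I), ?_, ?_⟩
      · simp only [hF2, Finset.mem_filter, Finset.mem_univ, true_and]
        exact ⟨hS1, hIc⟩
      · simp only [hbad2, Finset.mem_filter, Finset.mem_univ, true_and]
        intro i hi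
        exact poor_mem (hI hi)
  have hc1 : ∀ S ∈ F1, ((bad1 S).card : ℝ) ≤ p1 S.card ^ S.card * K ^ (M + 1) := by
    intro S hS
    simp only [hF1, Finset.mem_filter, Finset.mem_univ, true_and] at hS
    rw [cnt_fun S (EE b M (r + 1) τ (inT S)) (bad1 S) (by intro f; simp [hbad1])]
    simp only [Fintype.card_fin]
    apply mul_le_mul_of_nonneg_right _ (by positivity)
    apply pow_le_pow_left₀ (by positivity)
    rw [div_le_iff₀ (by rw [← hK]; exact hKpos)]
    refine (card_EE hM r τ (inT S)).trans ?_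
    rw [← hK]
    apply mul_le_mul_of_nonneg_right _ hKpos.le
    refine le_trans ?_ (hp1 S.card hS.2)
    have : ((inT S).card : ℝ) ≤ S.card := by exact_mod_cast card_inT S
    gcongr
  have hc2 : ∀ SI ∈ F2, ((bad2 SI).card : ℝ) ≤ p2 ^ B * K ^ (M + 1) := by
    intro SI hSI
    simp only [hF2, Finset.mem_filter, Finset.mem_univ, true_and] at hSI
    rw [cnt_fun SI.2 (EE b M (r + 1) (2 ^ r - τ) (outT SI.1)) (bad2 SI)
      (by intro f; simp [hbad2]), hSI.2]
    simp only [Fintype.card_fin]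
    apply mul_le_mul_of_nonneg_right _ (by positivity)
    apply pow_le_pow_left₀ (by positivity)
    rw [div_le_iff₀ (by rw [← hK]; exact hKpos)]
    refine (card_EE hM r (2 ^ r - τ) (outT SI.1)).trans ?_
    rw [← hK]
    apply mul_le_mul_of_nonneg_right _ hKpos.le
    refine le_trans ?_ hp2
    have h1 := card_outT SI.1
    have h2 : ((outT SI.1).card : ℝ) + SI.1.card ≤ (M : ℝ) + 1 := by exact_mod_cast h1
    have h3 : (A : ℝ) ≤ SI.1.card := by exact_mod_cast hSI.1
    have h4 : ((outT SI.1).card : ℝ) ≤ (M : ℝ) + 1 - A := by linarith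
    gcongr
  have hp2nn : 0 ≤ p2 := by
    refine le_trans ?_ hp2
    have : (0 : ℝ) ≤ (M : ℝ) + 1 - A := by
      have : (A : ℝ) ≤ (M : ℝ) + 1 := by exact_mod_cast hA
      linarith
    positivity
  -- sum over F1
  have hsum1 : ∑ S ∈ F1, p1 S.card ^ S.card ≤ 1 / 3 := by
    have e1 : ∑ S ∈ F1, p1 S.card ^ S.card =
        ∑ S ∈ (univ : Finset (Fin (M + 1))).powerset,
          (if 1 ≤ S.card ∧ S.card ≤ B then p1 S.card ^ S.card else 0) := by
      rw [← Finset.sum_filter]
      apply Finset.sum_congr _ (fun _ _ => rfl)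
      ext S; simp [hF1]
    rw [e1]
    rw [Finset.sum_powerset_apply_card
      (fun y => if 1 ≤ y ∧ y ≤ B then p1 y ^ y else (0 : ℝ))]
    simp only [Finset.card_univ, Fintype.card_fin]
    have e2 : ∀ y ∈ Finset.range (M + 1 + 1),
        (M + 1).choose y • (if 1 ≤ y ∧ y ≤ B then p1 y ^ y else (0 : ℝ)) ≤
        if 1 ≤ y then (1 / 4 : ℝ) ^ y else 0 := by
      intro y _
      split_ifs with h1 h2 h2
      · rw [nsmul_eq_mul]; exact hs1 y h1.1 h1.2
      · exact absurd h1.1 h2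
      · simp
      · simp
    refine (Finset.sum_le_sum e2).trans ?_
    have e3 : ∀ m : ℕ, ∑ y ∈ Finset.range (m + 1), (if 1 ≤ y then (1 / 4 : ℝ) ^ y else 0) =
        1 / 3 - (1 / 3) * (1 / 4) ^ m := by
      intro m
      induction m with
      | zero => simp
      | succ m ih =>
        rw [Finset.sum_range_succ, ih, if_pos (by omega), pow_succ]
        ring
    rw [e3]
    have : (0 : ℝ) ≤ (1 / 3) * (1 / 4) ^ (M + 1) := by positivity
    linarith
  have hsum2 : ∑ SI ∈ F2, p2 ^ B ≤ 1 / 3 := by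
    rw [Finset.sum_const, nsmul_eq_mul]
    refine le_trans ?_ hs2
    apply mul_le_mul_of_nonneg_right _ (by positivity)
    have : F2.card ≤ 4 ^ (M + 1) := by
      calc F2.card ≤ (univ : Finset (Finset (Fin (M + 1)) × Finset (Fin (M + 1)))).card :=
            Finset.card_filter_le _ _
        _ = 4 ^ (M + 1) := by
            simp only [Fintype.card_prod, Fintype.card_finset, Fintype.card_fin, Finset.card_univ]
            rw [← mul_pow]
            norm_num
    exact_mod_cast this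
  have htot : (Ω.card : ℝ) ≤ (1 / 3 + 1 / 3) * K ^ (M + 1) := by
    calc (Ω.card : ℝ) ≤ (((F1.biUnion bad1) ∪ (F2.biUnion bad2)).card : ℝ) := by
          exact_mod_cast Finset.card_le_card hcover
      _ ≤ ((F1.biUnion bad1).card : ℝ) + ((F2.biUnion bad2).card : ℝ) := by
          exact_mod_cast Finset.card_union_le _ _
      _ ≤ (∑ S ∈ F1, ((bad1 S).card : ℝ)) + (∑ SI ∈ F2, ((bad2 SI).card : ℝ)) := by
          apply add_le_add
          · exact_mod_cast Finset.card_biUnion_le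
          · exact_mod_cast Finset.card_biUnion_le
      _ ≤ (∑ S ∈ F1, p1 S.card ^ S.card * K ^ (M + 1)) + (∑ SI ∈ F2, p2 ^ B * K ^ (M + 1)) :=
          add_le_add (Finset.sum_le_sum hc1) (Finset.sum_le_sum hc2)
      _ = (∑ S ∈ F1, p1 S.card ^ S.card + ∑ SI ∈ F2, p2 ^ B) * K ^ (M + 1) := by
          rw [add_mul, Finset.sum_mul, Finset.sum_mul]
      _ ≤ (1 / 3 + 1 / 3) * K ^ (M + 1) := by
          apply mul_le_mul_of_nonneg_right (add_le_add hsum1 hsum2) (by positivity)
  rw [hΩc] at htot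
  have : (0 : ℝ) < K ^ (M + 1) := by positivity
  linarith

end

end Pool.Agent.Lib.MP_ce949a_lc
end

section

section

set_option autoImplicit false
set_option linter.unusedSectionVars false
set_option linter.unusedVariables false

namespace Pool.Agent.Lib.MP_ce949a_lc

open Finset Classical

section Refute2

variable {V : Type*} [Fintype V] [DecidableEq V] {b n : ℕ}
variable (P : Prm) (t : V → Pt b → V) (s : V) (e : V × Fin b → Fin n)

lemma Psi2_axiom {N : ℕ} (hP : P.Ok b N) (he : Function.Injective e) {σ : St V b} {h c : ℕ}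
    {C : Finset (Fin n × Bool)} (hC : IsAx t s e C) (hF : Fals e σ.ρ C) :
    Psi2 P t s σ h c = 0 := by
  have h1 : gd t s σ.ρ (KK P t σ h) σ.B = ∅ := by
    apply gd_empty t s e he hC hF
    · rw [Finset.disjoint_left]
      intro i hi
      exact ((mem_LS P).mp (KK_sub P t σ h hi)).1
    · intro i hi
      have h2 := ((mem_LS P).mp (KK_sub P t σ h hi)).2
      have h3 : P.R 0 ≤ P.R h := hP.Rmono.monotone (Nat.zero_le h)
      have h4 := hP.R0
      omega
  unfold Psi2 Ps
  rw [h1]; simp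

/-- the child bound -/
lemma child_bound {N : ℕ} (hP : P.Ok b N) (hN : Fintype.card V ≤ N)
    {C : Finset (Fin n × Bool)} {m : ℕ} (hm : 1 ≤ m)
    (hC : ∀ (σ : St V b) (h c : ℕ), Valid P t σ h c → Stable P σ h → Fals e σ.ρ C →
      (Psi2 P t s σ h c : ℝ) * (1 - FF P t σ) ≤ m * 2 ^ TT2 P N)
    {σ : St V b} {h c : ℕ} (hV : Valid P t σ h c) (hSt : Stable P σ h) {p : V} {a : Fin b}
    (hp : σ.ρ p a = none) (v : Bool) (hF : Fals e (setv σ.ρ p a v) C) :
    (Ps t s (chl P σ p a v).ρ (KK P t σ h) σ.B : ℝ) * (1 - FF P t (chl P σ p a v)) *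
      2 ^ (comp P t σ + P.Wc * c) ≤ m * 2 ^ TT2 P N := by
  have hpos : (0 : ℝ) ≤ m * 2 ^ TT2 P N := by positivity
  by_cases hF1 : FF P t (chl P σ p a v) < 1
  · have hQ := chl_qry P v hp
    rcases query_step s hP hN hQ hV hSt (chl_WF P v hp hV.wf) (Typ1_of_FF P t hF1)
      (Typ2_of_FF P t hF1) with h1 | ⟨B', h', c', h1, h2, h3, h4⟩
    · have h2 : (Ps t s (chl P σ p a v).ρ (KK P t σ h) σ.B : ℝ) *
          2 ^ (comp P t σ + P.Wc * c) ≤ 2 ^ TT2 P N := by exact_mod_cast h1
      have hFnn : 0 ≤ FF P t (chl P σ p a v) := by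
        unfold FF
        exact Finset.sum_nonneg (fun j _ => add_nonneg
          (Finset.sum_nonneg (fun SI _ => prod_Vl_nonneg P _ j _ _))
          (Finset.sum_nonneg (fun SI _ => prod_Vl_nonneg P _ j _ _)))
      have h3 : (1 : ℝ) ≤ m := by exact_mod_cast hm
      calc (Ps t s (chl P σ p a v).ρ (KK P t σ h) σ.B : ℝ) * (1 - FF P t (chl P σ p a v)) *
            2 ^ (comp P t σ + P.Wc * c)
          = ((Ps t s (chl P σ p a v).ρ (KK P t σ h) σ.B : ℝ) * 2 ^ (comp P t σ + P.Wc * c)) *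
            (1 - FF P t (chl P σ p a v)) := by ring
        _ ≤ ((Ps t s (chl P σ p a v).ρ (KK P t σ h) σ.B : ℝ) *
            2 ^ (comp P t σ + P.Wc * c)) * 1 := by
            apply mul_le_mul_of_nonneg_left _ (by positivity)
            linarith
        _ ≤ 1 * 2 ^ TT2 P N := by linarith
        _ ≤ m * 2 ^ TT2 P N := mul_le_mul_of_nonneg_right h3 (by positivity)
    · have h5 : σ.B ⊆ B' := h1
      have h6 := hC ⟨(chl P σ p a v).ρ, (chl P σ p a v).cp, B'⟩ h' c' h2 h3 hF
      have h7 : FF P t ⟨(chl P σ p a v).ρ, (chl P σ p a v).cp, B'⟩ ≤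
          FF P t (chl P σ p a v) := FF_grow P t (σ := chl P σ p a v) h5
      have h8 : ((Ps t s (chl P σ p a v).ρ (KK P t σ h) σ.B : ℝ) *
          2 ^ (comp P t σ + P.Wc * c)) ≤
          (Psi2 P t s ⟨(chl P σ p a v).ρ, (chl P σ p a v).cp, B'⟩ h' c' : ℝ) := by
        exact_mod_cast h4
      calc (Ps t s (chl P σ p a v).ρ (KK P t σ h) σ.B : ℝ) * (1 - FF P t (chl P σ p a v)) *
            2 ^ (comp P t σ + P.Wc * c)
          = ((Ps t s (chl P σ p a v).ρ (KK P t σ h) σ.B : ℝ) * 2 ^ (comp P t σ + P.Wc * c)) *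
            (1 - FF P t (chl P σ p a v)) := by ring
        _ ≤ (Psi2 P t s ⟨(chl P σ p a v).ρ, (chl P σ p a v).cp, B'⟩ h' c' : ℝ) *
            (1 - FF P t ⟨(chl P σ p a v).ρ, (chl P σ p a v).cp, B'⟩) := by
            apply mul_le_mul h8 (by linarith) (by linarith) (by positivity)
        _ ≤ _ := h6
  · refine le_trans ?_ hpos
    apply mul_nonpos_of_nonpos_of_nonneg _ (by positivity)
    apply mul_nonpos_of_nonneg_of_nonpos (by positivity)
    push Not at hF1
    linarith

theorem refutation_bound2 {N : ℕ} (hP : P.Ok b N) (hN : Fintype.card V ≤ N)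
    (he : Function.Injective e) (m : ℕ)
    (hm : ∀ P : Finset (Fin n × Bool) → ℕ → Prop,
      (∀ C ∈ Frm t s e, P C 1) →
      (∀ (C D : Finset (Fin n × Bool)) (x : Fin n) (a b : ℕ),
        P C a → P D b → (x, true) ∈ C → (x, false) ∈ D →
        P (C.erase (x, true) ∪ D.erase (x, false)) (a + b + 1)) →
      P ∅ m) {σ0 : St V b} {h0 c0 : ℕ} (hV0 : Valid P t σ0 h0 c0) (hS0 : Stable P σ0 h0) :
    (Psi2 P t s σ0 h0 c0 : ℝ) * (1 - FF P t σ0) ≤ m * 2 ^ TT2 P N := by
  set T := TT2 P N with hT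
  have key := hm (fun C m => 1 ≤ m ∧ (∀ l ∈ C, ∃ i a, e (i, a) = l.1) ∧
    ∀ (σ : St V b) (h c : ℕ), Valid P t σ h c → Stable P σ h → Fals e σ.ρ C →
      (Psi2 P t s σ h c : ℝ) * (1 - FF P t σ) ≤ m * 2 ^ T) ?_ ?_
  · exact key.2.2 σ0 h0 c0 hV0 hS0 (by intro l hl; simp at hl)
  · intro C hC
    simp only [Frm, Finset.mem_filter, Finset.mem_univ, true_and] at hC
    refine ⟨le_rfl, ?_, ?_⟩
    · have hneg : ∀ i x, ∀ l ∈ neg e i x, ∃ i a, e (i, a) = l.1 := by
        intro i x l hl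
        simp only [neg, Finset.mem_image, Finset.mem_univ, true_and] at hl
        obtain ⟨a, rfl⟩ := hl
        exact ⟨i, a, rfl⟩
      rcases hC with ⟨x, hx, rfl⟩ | ⟨i, x, y, hx, hy, rfl⟩ |
        ⟨i, i', x, x', hne, hx, hx', htt, rfl⟩
      · exact hneg _ _
      · intro l hl
        rcases Finset.mem_union.mp hl with hl | hl
        · exact hneg _ _ l hl
        · exact hneg _ _ l hl
      · intro l hl
        rcases Finset.mem_union.mp hl with hl | hl
        · exact hneg _ _ l hl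
        · exact hneg _ _ l hl
    · intro σ h c _ _ hF
      rw [Psi2_axiom P t s e hP he hC hF]
      simp
  · rintro C D x a c ⟨hma, hC1, hC2⟩ ⟨hmc, hD1, hD2⟩ hxC hxD
    refine ⟨by omega, ?_, ?_⟩
    · intro l hl
      rcases Finset.mem_union.mp hl with hl | hl
      · exact hC1 l (Finset.mem_of_mem_erase hl)
      · exact hD1 l (Finset.mem_of_mem_erase hl)
    · intro σ h cc hV hSt hF
      obtain ⟨p, j, hpj⟩ := hC1 _ hxC
      simp only at hpj
      subst hpj
      have hTpos : (0 : ℝ) ≤ 2 ^ T := by positivity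
      cases hρ : σ.ρ p j with
      | some v =>
        cases v with
        | true =>
          have : Fals e σ.ρ D := by
            intro l hl
            by_cases h : l = (e (p, j), false)
            · subst h; exact ⟨p, j, rfl, by simp [hρ]⟩
            · exact hF l (Finset.mem_union_right _ (Finset.mem_erase.mpr ⟨h, hl⟩))
          calc _ ≤ (c : ℝ) * 2 ^ T := hD2 σ h cc hV hSt this
            _ ≤ ((a + c + 1 : ℕ) : ℝ) * 2 ^ T := by
              apply mul_le_mul_of_nonneg_right _ hTpos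
              push_cast
              have : (0 : ℝ) ≤ a := by positivity
              linarith
        | false =>
          have : Fals e σ.ρ C := by
            intro l hl
            by_cases h : l = (e (p, j), true)
            · subst h; exact ⟨p, j, rfl, by simp [hρ]⟩
            · exact hF l (Finset.mem_union_left _ (Finset.mem_erase.mpr ⟨h, hl⟩))
          calc _ ≤ (a : ℝ) * 2 ^ T := hC2 σ h cc hV hSt this
            _ ≤ ((a + c + 1 : ℕ) : ℝ) * 2 ^ T := by
              apply mul_le_mul_of_nonneg_right _ hTpos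
              push_cast
              have : (0 : ℝ) ≤ c := by positivity
              linarith
      | none =>
        have hFC : Fals e (setv σ.ρ p j false) C := Fals_setv e hρ (v := false) hF
        have hFD : Fals e (setv σ.ρ p j true) D := by
          rw [Finset.union_comm] at hF
          exact Fals_setv e hρ (v := true) hF
        have h1 := child_bound P t s e hP hN hma hC2 hV hSt hρ false hFC
        have h2 := child_bound P t s e hP hN hmc hD2 hV hSt hρ true hFD
        have h3 := weight_split P t hP s hρ hV.wf (KK P t σ h)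
        have h4 : (0 : ℝ) ≤ 2 ^ (comp P t σ + P.Wc * cc) := by positivity
        have h5 := mul_le_mul_of_nonneg_right h3 h4
        have h6 : (Psi2 P t s σ h cc : ℝ) * (1 - FF P t σ) =
            (Ps t s σ.ρ (KK P t σ h) σ.B : ℝ) * (1 - FF P t σ) *
            2 ^ (comp P t σ + P.Wc * cc) := by
          unfold Psi2; push_cast; ring
        rw [h6]
        rw [add_mul] at h5
        refine h5.trans ((add_le_add h1 h2).trans ?_)
        rw [← hT]
        push_cast
        nlinarith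

/-- the initial state -/
def root (V : Type*) (P : Prm) (b : ℕ) : St V b where
  ρ := fun _ _ => none
  cp := fun _ j => if b ≤ P.q j then some (fun _ => none) else none
  B := ∅

lemma root_level (i : V) : level ((root V P b).ρ i) = b := by
  simp [root, level]

lemma root_LS {N : ℕ} (hP : P.Ok b N) {g : ℕ} (hg : g ≤ P.J) :
    LS P (root V P b) g = univ := by
  ext i
  rw [mem_LS, root_level]
  have h1 : P.R g ≤ P.R P.J := hP.Rmono.monotone hg
  have h2 := hP.Rq P.J le_rfl
  have h3 := hP.qJ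
  simp only [Finset.mem_univ, iff_true]
  exact ⟨by simp [root], by omega⟩

lemma root_WF {N : ℕ} (hP : P.Ok b N) : WF P (root V P b) := by
  refine ⟨?_, ?_⟩
  · intro i _ j Q hQ
    simp only [root] at hQ ⊢
    split_ifs at hQ with h
    · cases hQ
      exact Sub.refl _
  · intro i _ j hj
    rw [root_level]
    simp only [root]
    split_ifs with h
    · simp [h]
    · simp [h]

lemma root_stable {N : ℕ} (hP : P.Ok b N) (hN : Fintype.card V = N) :
    Stable P (root V P b) 0 := by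
  refine ⟨⟨?_, ?_⟩, ?_⟩
  · rw [root_LS P hP (Nat.zero_le _), Finset.card_univ, hN]; exact hP.A0
  · rw [root_LS P hP (Nat.zero_le _), Finset.card_univ, hN, hP.Wd0]; omega
  · intro g hg hgJ hw
    have h1 := hw.2
    rw [root_LS P hP hgJ, Finset.card_univ, hN] at h1
    obtain ⟨g', rfl⟩ : ∃ g', g = g' + 1 := ⟨g - 1, by omega⟩
    rw [hP.WdS] at h1
    have h2 : P.A g' ≤ P.A 0 := hP.Aanti (Nat.zero_le _)
    have h3 := hP.A0
    omega

lemma root_valid {N : ℕ} (hP : P.Ok b N) (hN : Fintype.card V = N) :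
    Valid P t (root V P b) 0 0 := by
  refine ⟨root_WF P hP, Nat.zero_le _, ?_, Nat.zero_le _, ?_, ?_⟩
  · intro g hg hgJ
    left
    rw [root_LS P hP hgJ, Finset.card_univ, hN]
    obtain ⟨g', rfl⟩ : ∃ g', g = g' + 1 := ⟨g - 1, by omega⟩
    rw [hP.WdS]
    have h2 : P.A g' ≤ P.A 0 := hP.Aanti (Nat.zero_le _)
    have h3 := hP.A0
    omega
  · intro h; exact absurd (root_stable P hP hN) h
  · simp [root]

lemma root_KK {N : ℕ} (hP : P.Ok b N) (hτ : ∀ j ≤ P.J, P.τ j ≤ 2 ^ (P.R j - 2)) :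
    KK P t (root V P b) 0 = univ := by
  apply Finset.Subset.antisymm (Finset.subset_univ _)
  apply subset_coreE
  · rw [root_LS P hP (Nat.zero_le _)]
  · intro i _ hi
    obtain ⟨j, hj, hi⟩ := (mem_Ex P t).mp hi
    obtain ⟨Q, _, Q', h1, _, h3⟩ := (mem_ExJ P t).mp hi
    have hR : 2 ≤ P.R j := hP.R0.trans (hP.Rmono.monotone (Nat.zero_le j))
    have h4 : opts t i Q' univ = (pts Q').filter (fun x => IsOdd x) := by
      ext x; simp [opts, mem_pts]
    obtain ⟨r, hr⟩ : ∃ r, level Q' = r + 1 := ⟨level Q' - 1, by omega⟩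
    rw [h4, card_odd_pts Q' hr] at h3
    have h5 := hτ j hj
    have h6 : P.R j - 2 = r := by omega
    rw [h6] at h5
    omega

lemma root_Psi {N : ℕ} (hP : P.Ok b N) (hN : Fintype.card V = N)
    (hτ : ∀ j ≤ P.J, P.τ j ≤ 2 ^ (P.R j - 2)) :
    2 ^ (b * N) ≤ Psi2 P t s (root V P b) 0 0 := by
  have hb : 2 ≤ b := by
    have h1 := hP.Rq P.J le_rfl
    have h2 := hP.qJ
    have h3 : P.R 0 ≤ P.R P.J := hP.Rmono.monotone (Nat.zero_le _)
    have h4 := hP.R0
    omega
  unfold Psi2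
  rw [root_KK P t hP hτ]
  have hgd : Fintype.piFinset (fun _ : V => (univ : Finset (Pt b)).filter (fun x => ¬ IsOdd x)) ⊆
      gd t s (root V P b).ρ univ (root V P b).B := by
    intro α hα
    rw [Fintype.mem_piFinset] at hα
    rw [mem_gd]
    refine ⟨?_, ?_, 0, by simp, by simp, ?_⟩
    · intro i a v hv
      simp [root] at hv
    · intro i
      have := hα i
      simp only [Finset.mem_filter, Finset.mem_univ, true_and] at this
      simp [root, this]
    · intro i hi
      simp [root] at hi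
  have heven : ((univ : Finset (Pt b)).filter (fun x => ¬ IsOdd x)).card = 2 ^ (b - 1) := by
    have hl : level (fun _ : Fin b => (none : Option Bool)) = (b - 1) + 1 := by
      simp [level]; omega
    have h1 := card_odd_pts (fun _ : Fin b => (none : Option Bool)) hl
    have h2 : pts (fun _ : Fin b => (none : Option Bool)) = univ := by
      ext x; simp [mem_pts, Mem]
    rw [h2] at h1
    have h3 := Finset.card_filter_add_card_filter_not (s := (univ : Finset (Pt b)))
      (fun x => IsOdd x)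
    have h4 : (univ : Finset (Pt b)).card = 2 ^ (b - 1) * 2 := by
      rw [← pow_succ]
      simp only [Finset.card_univ, Pt, Fintype.card_fun, Fintype.card_bool, Fintype.card_fin]
      congr 1; omega
    omega
  have hcard : (2 ^ (b - 1)) ^ N ≤ (gd t s (root V P b).ρ univ (root V P b).B).card := by
    have h1 := Finset.card_le_card hgd
    rw [Fintype.card_piFinset] at h1
    simp only [heven, Finset.prod_const, Finset.card_univ, hN] at h1
    exact h1
  have hB : (univ \ (root V P b).B).card = N := by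
    simp [root, hN]
  unfold Ps
  rw [hB]
  calc 2 ^ (b * N) = (2 ^ (b - 1)) ^ N * 2 ^ N * 1 := by
        rw [mul_one, ← mul_pow, ← pow_succ, ← pow_mul]
        congr 2; omega
    _ ≤ (gd t s (root V P b).ρ univ (root V P b).B).card * 2 ^ N *
        2 ^ (comp P t (root V P b) + P.Wc * 0) := by
        apply Nat.mul_le_mul _ Nat.one_le_two_pow
        exact Nat.mul_le_mul_right _ hcard

/-- value of the game at the root -/
lemma root_Vl {N : ℕ} (hP : P.Ok b N) {j : ℕ} (hj : j ≤ P.J) (Bad : Cube b → Prop) (i : V) :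
    Vl P (root V P b) j Bad i =
      (Xf Bad (b - P.q j) (fun _ => none) : ℝ) / 2 ^ (b - P.q j) := by
  by_cases h : b ≤ P.q j
  · have h1 : (root V P b).cp i j = some (fun _ => none) := by simp [root, h]
    rw [Vl_some P h1]
    have h2 : b - P.q j = 0 := by omega
    rw [h2, Xf_zero]
    split_ifs <;> simp
  · have h1 : (root V P b).cp i j = none := by simp [root, h]
    rw [Vl_none P h1, if_neg (by simp [root]), root_level]
    rfl

/-- the combined statement -/
theorem refutation_bound3 {N : ℕ} (hP : P.Ok b N) (hN : Fintype.card V = N)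
    (hτ : ∀ j ≤ P.J, P.τ j ≤ 2 ^ (P.R j - 2))
    (he : Function.Injective e) (m : ℕ)
    (hm : ∀ P : Finset (Fin n × Bool) → ℕ → Prop,
      (∀ C ∈ Frm t s e, P C 1) →
      (∀ (C D : Finset (Fin n × Bool)) (x : Fin n) (a b : ℕ),
        P C a → P D b → (x, true) ∈ C → (x, false) ∈ D →
        P (C.erase (x, true) ∪ D.erase (x, false)) (a + b + 1)) →
      P ∅ m) (hF : FF P t (root V P b) ≤ 1 / 2) :
    (2 : ℝ) ^ (b * N) ≤ m * 2 ^ (TT2 P N + 1) := by
  have h1 := refutation_bound2 P t s e hP hN.le he m hm (root_valid P t hP hN)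
    (root_stable P hP hN)
  have h2 : ((2 : ℝ) ^ (b * N)) ≤ (Psi2 P t s (root V P b) 0 0 : ℝ) := by
    exact_mod_cast root_Psi P t s hP hN hτ
  have h3 : (0 : ℝ) ≤ (Psi2 P t s (root V P b) 0 0 : ℝ) := by positivity
  rw [pow_succ]
  nlinarith

end Refute2

end Pool.Agent.Lib.MP_ce949a_lc
end

section

set_option autoImplicit false
set_option linter.unusedSectionVars false
set_option linter.unusedVariables false

namespace Pool.Agent.Lib.MP_ce949a_lc

open Finset Classical

section Ev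

variable {ι κ : Type*} [Fintype ι] [DecidableEq ι] [Fintype κ] [DecidableEq κ] [Nonempty κ]

/-- average over all functions -/
noncomputable def Ev (f : (ι → κ) → ℝ) : ℝ := (∑ h, f h) / Fintype.card (ι → κ)

lemma card_pos' : (0 : ℝ) < Fintype.card (ι → κ) := by
  exact_mod_cast Fintype.card_pos

lemma Ev_mono {f g : (ι → κ) → ℝ} (h : ∀ x, f x ≤ g x) : Ev f ≤ Ev g := by
  unfold Ev
  apply div_le_div_of_nonneg_right _ card_pos'.le
  exact Finset.sum_le_sum (fun x _ => h x)

lemma Ev_nonneg {f : (ι → κ) → ℝ} (h : ∀ x, 0 ≤ f x) : 0 ≤ Ev f := by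
  unfold Ev
  apply div_nonneg _ card_pos'.le
  exact Finset.sum_nonneg (fun x _ => h x)

lemma Ev_sum {α : Type*} (s : Finset α) (f : α → (ι → κ) → ℝ) :
    Ev (fun h => ∑ a ∈ s, f a h) = ∑ a ∈ s, Ev (f a) := by
  unfold Ev
  rw [Finset.sum_comm, Finset.sum_div]

lemma Ev_const (c : ℝ) : Ev (fun _ : ι → κ => c) = c := by
  unfold Ev
  rw [Finset.sum_const, nsmul_eq_mul, Finset.card_univ]
  have := card_pos' (ι := ι) (κ := κ)
  field_simp

lemma Ev_smul (c : ℝ) (f : (ι → κ) → ℝ) : Ev (fun h => c * f h) = c * Ev f := by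
  unfold Ev
  rw [← Finset.mul_sum, mul_div_assoc]

lemma Ev_add (f g : (ι → κ) → ℝ) : Ev (fun h => f h + g h) = Ev f + Ev g := by
  unfold Ev
  rw [Finset.sum_add_distrib, add_div]

/-- dependence on the coordinates in `S` only -/
def Loc (S : Finset ι) (f : (ι → κ) → ℝ) : Prop :=
  ∀ h h', (∀ x ∈ S, h x = h' x) → f h = f h'

lemma Loc.mono {S S' : Finset ι} (h : S ⊆ S') {f : (ι → κ) → ℝ} (hf : Loc S f) : Loc S' f :=
  fun x y hxy => hf x y (fun z hz => hxy z (h hz))

def mix (S : Finset ι) (h h' : ι → κ) : ι → κ := fun i => if i ∈ S then h i else h' i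

lemma mix_mix (S : Finset ι) (h h' : ι → κ) : mix S (mix S h h') (mix S h' h) = h := by
  funext i
  unfold mix
  split_ifs <;> rfl

/-- independence -/
lemma Ev_mul {S S' : Finset ι} (hS : Disjoint S S') {f g : (ι → κ) → ℝ} (hf : Loc S f)
    (hg : Loc S' g) : Ev (fun h => f h * g h) = Ev f * Ev g := by
  have key : (∑ h, f h) * (∑ h, g h) = Fintype.card (ι → κ) * ∑ h, f h * g h := by
    rw [Finset.sum_mul_sum, ← Finset.sum_product']
    have hinv : Function.Involutive
        (fun p : (ι → κ) × (ι → κ) => (mix S p.1 p.2, mix S p.2 p.1)) := by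
      intro p
      simp only [mix_mix]
    have h1 : ∑ p ∈ (univ : Finset (ι → κ)) ×ˢ (univ : Finset (ι → κ)), f p.1 * g p.2 =
        ∑ p : (ι → κ) × (ι → κ), (fun q : (ι → κ) × (ι → κ) => f q.1 * g q.1)
          (hinv.toPerm _ p) := by
      rw [Finset.univ_product_univ]
      apply Finset.sum_congr rfl
      intro p _
      simp only [Function.Involutive.coe_toPerm]
      congr 1
      · apply hf
        intro x hx
        simp [mix, hx]
      · apply hg
        intro x hx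
        have : x ∉ S := fun h => (Finset.disjoint_left.mp hS) h hx
        simp [mix, this]
    rw [h1, Equiv.sum_comp (hinv.toPerm _) (fun q : (ι → κ) × (ι → κ) => f q.1 * g q.1),
      ← Finset.univ_product_univ, Finset.sum_product]
    simp only [Finset.sum_const, nsmul_eq_mul, Finset.card_univ]
    rw [Finset.mul_sum]
  have hc := card_pos' (ι := ι) (κ := κ)
  unfold Ev
  rw [div_mul_div_comm, key]
  field_simp

end Ev

section Steer

variable {b : ℕ} {κ : Type*} [Fintype κ] [DecidableEq κ] [Nonempty κ]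

/-- subcubes of dimension `q` -/
noncomputable def subs (q : ℕ) (Q : Cube b) : Finset (Cube b) :=
  univ.filter (fun R => level R = q ∧ Sub R Q)

lemma mem_subs {q : ℕ} {Q R : Cube b} : R ∈ subs q Q ↔ level R = q ∧ Sub R Q := by simp [subs]

lemma card_subs_le (q : ℕ) (Q : Cube b) : (subs q Q).card ≤ 3 ^ level Q := by
  have h1 : subs q Q ⊆ Fintype.piFinset (fun a => match Q a with
      | none => (univ : Finset (Option Bool))
      | some v => {some v}) := by
    intro R hR
    rw [mem_subs] at hR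
    rw [Fintype.mem_piFinset]
    intro a
    cases hQ : Q a with
    | none => simp
    | some v => simp [hR.2 a v hQ]
  refine (Finset.card_le_card h1).trans ?_
  rw [Fintype.card_piFinset]
  have h2 : ∀ a : Fin b, (match Q a with
      | none => (univ : Finset (Option Bool))
      | some v => {some v}).card = if Q a = none then 3 else 1 := by
    intro a
    cases hQ : Q a with
    | none => simp
    | some v => simp
  rw [Finset.prod_congr rfl (fun a _ => h2 a), Finset.prod_ite]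
  simp [level]

lemma disj_pts {R R' : Cube b} {a : Fin b} (h : R a = some false) (h' : R' a = some true) :
    Disjoint (pts R) (pts R') := by
  rw [Finset.disjoint_left]
  intro x hx hx'
  rw [mem_pts] at hx hx'
  have h1 := hx a false h
  have h2 := hx' a true h'
  rw [h1] at h2; cases h2

/-- an optimal decision tree gives a family of disjoint bad subcubes -/
lemma Xf_family (Bad : Cube b → Prop) (q : ℕ) : ∀ (k : ℕ) (Q : Cube b), level Q = q + k →
    ∃ F : Finset (Cube b), F.card = Xf Bad k Q ∧ (∀ R ∈ F, R ∈ subs q Q ∧ Bad R) ∧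
      ∀ R ∈ F, ∀ R' ∈ F, R ≠ R' → Disjoint (pts R) (pts R') := by
  intro k
  induction k with
  | zero =>
    intro Q hQ
    by_cases h : Bad Q
    · refine ⟨{Q}, by simp [Xf_zero, h], ?_, ?_⟩
      · intro R hR
        rw [Finset.mem_singleton] at hR
        subst hR
        exact ⟨mem_subs.mpr ⟨by omega, Sub.refl _⟩, h⟩
      · intro R hR R' hR' hne
        rw [Finset.mem_singleton] at hR hR'
        exact absurd (hR.trans hR'.symm) hne
    · exact ⟨∅, by simp [Xf_zero, h], by simp, by simp⟩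
  | succ k ih =>
    intro Q hQ
    have hne : (univ.filter (fun a => Q a = none)).Nonempty := by
      rw [← Finset.card_pos]
      have : level Q = (univ.filter (fun a => Q a = none)).card := rfl
      omega
    obtain ⟨a, ha, hmax⟩ := Finset.exists_mem_eq_sup _ hne
      (fun a => Xf Bad k (Function.update Q a (some false)) +
        Xf Bad k (Function.update Q a (some true)))
    have ha' : Q a = none := by simpa using ha
    have hl : ∀ v, level (Function.update Q a (some v)) = q + k := by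
      intro v
      have := level_set v ha'
      omega
    obtain ⟨F0, h01, h02, h03⟩ := ih _ (hl false)
    obtain ⟨F1, h11, h12, h13⟩ := ih _ (hl true)
    have hs0 : ∀ R ∈ F0, R a = some false := fun R hR =>
      (mem_subs.mp (h02 R hR).1).2 a false (by simp)
    have hs1 : ∀ R ∈ F1, R a = some true := fun R hR =>
      (mem_subs.mp (h12 R hR).1).2 a true (by simp)
    have hd : Disjoint F0 F1 := by
      rw [Finset.disjoint_left]
      intro R hR hR'
      have h1 := hs0 R hR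
      rw [hs1 R hR'] at h1
      cases h1
    refine ⟨F0 ∪ F1, ?_, ?_, ?_⟩
    · rw [Finset.card_union_of_disjoint hd, h01, h11, Xf_succ, hmax]
    · intro R hR
      rcases Finset.mem_union.mp hR with hR | hR
      · obtain ⟨h1, h2⟩ := h02 R hR
        rw [mem_subs] at h1
        exact ⟨mem_subs.mpr ⟨h1.1, h1.2.trans (sub_set _ ha')⟩, h2⟩
      · obtain ⟨h1, h2⟩ := h12 R hR
        rw [mem_subs] at h1
        exact ⟨mem_subs.mpr ⟨h1.1, h1.2.trans (sub_set _ ha')⟩, h2⟩
    · intro R hR R' hR' hne'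
      rcases Finset.mem_union.mp hR with hR | hR <;> rcases Finset.mem_union.mp hR' with hR' | hR'
      · exact h03 R hR R' hR' hne'
      · exact disj_pts (hs0 R hR) (hs1 R' hR')
      · exact (disj_pts (hs0 R' hR') (hs1 R hR)).symm
      · exact h13 R hR R' hR' hne'

variable (bad : (Pt b → κ) → Cube b → Prop)

/-- locality of the bad event -/
def LocBad : Prop := ∀ (Q : Cube b) (h h' : Pt b → κ), (∀ x ∈ pts Q, h x = h' x) →
  (bad h Q ↔ bad h' Q)

variable {bad}

lemma pts_sub {Q' Q : Cube b} (h : Sub Q' Q) : pts Q' ⊆ pts Q := by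
  intro x hx
  rw [mem_pts] at hx ⊢
  exact h.mem hx

lemma Xf_loc (hL : LocBad bad) : ∀ (k : ℕ) (Q : Cube b) (h h' : Pt b → κ),
    (∀ x ∈ pts Q, h x = h' x) → Xf (bad h) k Q = Xf (bad h') k Q := by
  intro k
  induction k with
  | zero =>
    intro Q h h' hh
    rw [Xf_zero, Xf_zero]
    simp only [hL Q h h' hh]
  | succ k ih =>
    intro Q h h' hh
    rw [Xf_succ, Xf_succ]
    apply Finset.sup_congr rfl
    intro a ha
    have ha' : Q a = none := by simpa using ha
    rw [ih _ h h' (fun x hx => hh x (pts_sub (sub_set _ ha') hx)),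
      ih _ h h' (fun x hx => hh x (pts_sub (sub_set _ ha') hx))]

noncomputable def ind (bad : (Pt b → κ) → Cube b → Prop) (R : Cube b) (h : Pt b → κ) : ℝ :=
  if bad h R then 1 else 0

lemma ind_nonneg (R : Cube b) (h : Pt b → κ) : 0 ≤ ind bad R h := by
  unfold ind; split_ifs <;> norm_num

lemma ind_loc (hL : LocBad bad) (R : Cube b) : Loc (pts R) (ind bad R) := by
  intro h h' hh
  unfold ind
  simp only [hL R h h' hh]

lemma prod_ind (hL : LocBad bad) {q : ℕ} {p : ℝ} (hp : ∀ R, level R = q → Ev (ind bad R) ≤ p)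
    (F : Finset (Cube b)) :
    (∀ R ∈ F, level R = q) → (∀ R ∈ F, ∀ R' ∈ F, R ≠ R' → Disjoint (pts R) (pts R')) →
    Ev (fun h => ∏ R ∈ F, ind bad R h) ≤ p ^ F.card := by
  induction F using Finset.induction_on with
  | empty =>
    intro _ _
    simp [Ev_const]
  | insert R F hR ih =>
    intro h1 h2
    have h3 := ih (fun R' hR' => h1 R' (Finset.mem_insert_of_mem hR'))
      (fun R' hR' R'' hR'' => h2 R' (Finset.mem_insert_of_mem hR') R''
        (Finset.mem_insert_of_mem hR''))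
    have hdis : Disjoint (pts R) (F.biUnion pts) := by
      rw [Finset.disjoint_biUnion_right]
      intro R' hR'
      exact h2 R (Finset.mem_insert_self _ _) R' (Finset.mem_insert_of_mem hR')
        (by rintro rfl; exact hR hR')
    have hloc : Loc (F.biUnion pts) (fun h => ∏ R' ∈ F, ind bad R' h) := by
      intro h h' hh
      apply Finset.prod_congr rfl
      intro R' hR'
      exact ind_loc hL R' h h' (fun x hx => hh x (Finset.mem_biUnion.mpr ⟨R', hR', hx⟩))
    have h4 : (fun h => ∏ R' ∈ insert R F, ind bad R' h) =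
        fun h => ind bad R h * ∏ R' ∈ F, ind bad R' h := by
      funext h; rw [Finset.prod_insert hR]
    rw [h4, Ev_mul hdis (ind_loc hL R) hloc, Finset.card_insert_of_notMem hR, pow_succ, mul_comm]
    have h5 := hp R (h1 R (Finset.mem_insert_self _ _))
    have h6 : 0 ≤ Ev (ind bad R) := Ev_nonneg (ind_nonneg R)
    have h7 : 0 ≤ Ev (fun h => ∏ R' ∈ F, ind bad R' h) :=
      Ev_nonneg (fun h => Finset.prod_nonneg (fun R' _ => ind_nonneg R' h))
    exact mul_le_mul h3 h5 h6 (h7.trans h3)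

/-- first moment -/
lemma Ev_Xf_le {q : ℕ} {p : ℝ} (hp0 : 0 ≤ p) (hp : ∀ R, level R = q → Ev (ind bad R) ≤ p)
    {k : ℕ} {Q : Cube b} (hQ : level Q = q + k) :
    Ev (fun h => (Xf (bad h) k Q : ℝ)) ≤ 3 ^ (q + k) * p := by
  have h1 : ∀ h : Pt b → κ, (Xf (bad h) k Q : ℝ) ≤ ∑ R ∈ subs q Q, ind bad R h := by
    intro h
    obtain ⟨F, h1, h2, _⟩ := Xf_family (bad h) q k Q hQ
    rw [← h1]
    calc (F.card : ℝ) = ∑ R ∈ F, ind bad R h := by
          rw [Finset.sum_congr rfl (fun R hR => show ind bad R h = 1 by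
            unfold ind; rw [if_pos (h2 R hR).2])]
          simp
      _ ≤ _ := Finset.sum_le_sum_of_subset_of_nonneg (fun R hR => (h2 R hR).1)
          (fun R _ _ => ind_nonneg R h)
  refine (Ev_mono h1).trans ?_
  rw [Ev_sum]
  calc ∑ R ∈ subs q Q, Ev (ind bad R) ≤ ∑ R ∈ subs q Q, p := by
        apply Finset.sum_le_sum
        intro R hR
        exact hp R (mem_subs.mp hR).1
    _ = (subs q Q).card * p := by rw [Finset.sum_const, nsmul_eq_mul]
    _ ≤ 3 ^ (q + k) * p := by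
        apply mul_le_mul_of_nonneg_right _ hp0
        rw [← hQ]
        exact_mod_cast card_subs_le q Q

/-- exponential moment, base case -/
lemma Ev_exp_base (hL : LocBad bad) {q : ℕ} {p : ℝ} (hp0 : 0 ≤ p)
    (hp : ∀ R, level R = q → Ev (ind bad R) ≤ p)
    {k : ℕ} {Q : Cube b} (hQ : level Q = q + k) (hpk : p * 3 ^ (q + k) ≤ 1) :
    Ev (fun h => (2 : ℝ) ^ (Xf (bad h) k Q)) ≤ 4 := by
  set DF := (subs q Q).powerset.filter (fun F : Finset (Cube b) =>
    ∀ R ∈ F, ∀ R' ∈ F, R ≠ R' → Disjoint (pts R) (pts R')) with hDF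
  have h1 : ∀ h : Pt b → κ, (2 : ℝ) ^ (Xf (bad h) k Q) ≤
      ∑ F ∈ DF, ∏ R ∈ F, ind bad R h := by
    intro h
    obtain ⟨F, h1, h2, h3⟩ := Xf_family (bad h) q k Q hQ
    have h4 : F.powerset ⊆ DF := by
      intro F' hF'
      rw [Finset.mem_powerset] at hF'
      rw [hDF, Finset.mem_filter, Finset.mem_powerset]
      exact ⟨fun R hR => (h2 R (hF' hR)).1, fun R hR R' hR' => h3 R (hF' hR) R' (hF' hR')⟩
    calc (2 : ℝ) ^ (Xf (bad h) k Q) = ∑ F' ∈ F.powerset, ∏ R ∈ F', ind bad R h := by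
          rw [Finset.sum_congr rfl (fun F' hF' => show ∏ R ∈ F', ind bad R h = 1 by
            apply Finset.prod_eq_one
            intro R hR
            unfold ind
            rw [if_pos (h2 R (Finset.mem_powerset.mp hF' hR)).2])]
          rw [Finset.sum_const, Finset.card_powerset, h1, nsmul_eq_mul, mul_one]
          push_cast; rfl
      _ ≤ _ := Finset.sum_le_sum_of_subset_of_nonneg h4
          (fun F' _ _ => Finset.prod_nonneg (fun R _ => ind_nonneg R h))
  refine (Ev_mono h1).trans ?_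
  rw [Ev_sum]
  have h2 : ∑ F ∈ DF, Ev (fun h => ∏ R ∈ F, ind bad R h) ≤ ∑ F ∈ (subs q Q).powerset,
      p ^ F.card := by
    calc _ ≤ ∑ F ∈ DF, p ^ F.card := by
          apply Finset.sum_le_sum
          intro F hF
          rw [hDF, Finset.mem_filter, Finset.mem_powerset] at hF
          exact prod_ind hL hp F (fun R hR => (mem_subs.mp (hF.1 hR)).1) hF.2
      _ ≤ _ := Finset.sum_le_sum_of_subset_of_nonneg (Finset.filter_subset _ _)
          (fun F _ _ => by positivity)
  refine h2.trans ?_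
  have h3 : ∑ F ∈ (subs q Q).powerset, p ^ F.card = (p + 1) ^ (subs q Q).card := by
    rw [← Finset.sum_pow_mul_eq_add_pow]
    apply Finset.sum_congr rfl
    intro F _
    simp
  rw [h3]
  have h4 : (p + 1) ^ (subs q Q).card ≤ Real.exp p ^ (3 ^ (q + k)) := by
    calc (p + 1) ^ (subs q Q).card ≤ (p + 1) ^ (3 ^ (q + k)) := by
          apply pow_le_pow_right₀ (by linarith)
          rw [← hQ]; exact card_subs_le q Q
      _ ≤ _ := pow_le_pow_left₀ (by linarith) (Real.add_one_le_exp p) _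
  refine h4.trans ?_
  rw [← Real.exp_nat_mul]
  have h5 : ((3 ^ (q + k) : ℕ) : ℝ) * p ≤ 1 := by push_cast; linarith
  calc Real.exp (((3 ^ (q + k) : ℕ) : ℝ) * p) ≤ Real.exp 1 := Real.exp_le_exp.mpr h5
    _ ≤ 4 := by have := Real.exp_one_lt_d9; linarith

/-- exponential moment, recursion -/
lemma Ev_exp_step (hL : LocBad bad) {q k : ℕ} {C : ℝ} (hC : 0 ≤ C)
    (hC' : ∀ Q : Cube b, level Q = q + k → Ev (fun h => (2 : ℝ) ^ (Xf (bad h) k Q)) ≤ C)
    {Q : Cube b} (hQ : level Q = q + (k + 1)) :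
    Ev (fun h => (2 : ℝ) ^ (Xf (bad h) (k + 1) Q)) ≤ (q + k + 1) * C ^ 2 := by
  have hne : (univ.filter (fun a => Q a = none)).Nonempty := by
    rw [← Finset.card_pos]
    have : level Q = (univ.filter (fun a => Q a = none)).card := rfl
    omega
  have h1 : ∀ h : Pt b → κ, (2 : ℝ) ^ (Xf (bad h) (k + 1) Q) ≤
      ∑ a ∈ univ.filter (fun a => Q a = none),
        (2 : ℝ) ^ (Xf (bad h) k (Function.update Q a (some false))) *
        (2 : ℝ) ^ (Xf (bad h) k (Function.update Q a (some true))) := by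
    intro h
    obtain ⟨a, ha, hmax⟩ := Finset.exists_mem_eq_sup _ hne
      (fun a => Xf (bad h) k (Function.update Q a (some false)) +
        Xf (bad h) k (Function.update Q a (some true)))
    rw [Xf_succ, hmax, pow_add]
    exact Finset.single_le_sum (f := fun a =>
        (2 : ℝ) ^ (Xf (bad h) k (Function.update Q a (some false))) *
        (2 : ℝ) ^ (Xf (bad h) k (Function.update Q a (some true))))
      (fun a _ => by positivity) ha
  refine (Ev_mono h1).trans ?_
  rw [Ev_sum]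
  have h2 : ∀ a ∈ univ.filter (fun a => Q a = none),
      Ev (fun h : Pt b → κ => (2 : ℝ) ^ (Xf (bad h) k (Function.update Q a (some false))) *
        (2 : ℝ) ^ (Xf (bad h) k (Function.update Q a (some true)))) ≤ C ^ 2 := by
    intro a ha
    have ha' : Q a = none := by simpa using ha
    have hl : ∀ v, level (Function.update Q a (some v)) = q + k := by
      intro v
      have := level_set v ha'
      omega
    have hloc : ∀ v, Loc (pts (Function.update Q a (some v)))
        (fun h : Pt b → κ => (2 : ℝ) ^ (Xf (bad h) k (Function.update Q a (some v)))) := by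
      intro v h h' hh
      simp only [Xf_loc hL k _ h h' hh]
    rw [Ev_mul (disj_pts (a := a) (by simp) (by simp)) (hloc false) (hloc true), sq]
    exact mul_le_mul (hC' _ (hl false)) (hC' _ (hl true))
      (Ev_nonneg (fun h => by positivity)) hC
  calc _ ≤ ∑ a ∈ univ.filter (fun a => Q a = none), C ^ 2 := Finset.sum_le_sum h2
    _ = (level Q : ℝ) * C ^ 2 := by rw [Finset.sum_const, nsmul_eq_mul]; rfl
    _ = _ := by rw [hQ]; push_cast; ring

/-- exponential moment, all depths -/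
lemma Ev_exp_all (hL : LocBad bad) {q d : ℕ} {p : ℝ} (hp0 : 0 ≤ p)
    (hp : ∀ R, level R = q → Ev (ind bad R) ≤ p) (hpd : p * 3 ^ (q + d) ≤ 1) :
    ∀ (j : ℕ) (Q : Cube b), level Q = q + (d + j) →
      Ev (fun h => (2 : ℝ) ^ (Xf (bad h) (d + j) Q)) ≤
        2 ^ (2 ^ j * (q + d + 4)) / 2 ^ (q + d + j + 2) := by
  intro j
  induction j with
  | zero =>
    intro Q hQ
    refine (Ev_exp_base hL hp0 hp hQ (by simpa using hpd)).trans ?_
    rw [le_div_iff₀ (by positivity)]
    have : (2 : ℝ) ^ (2 ^ 0 * (q + d + 4)) = 4 * 2 ^ (q + d + 0 + 2) := by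
      rw [show 2 ^ 0 * (q + d + 4) = (q + d + 0 + 2) + 2 by ring, pow_add]; ring
    rw [this]
  | succ j ih =>
    intro Q hQ
    have h1 := Ev_exp_step hL (q := q) (k := d + j)
      (C := 2 ^ (2 ^ j * (q + d + 4)) / 2 ^ (q + d + j + 2)) (by positivity) ih
      (Q := Q) (by rw [hQ]; ring)
    refine h1.trans ?_
    rw [div_pow, ← pow_mul, ← pow_mul, mul_div_assoc', div_le_div_iff₀ (by positivity)
      (by positivity)]
    have e1 : (2 : ℝ) ^ (2 ^ j * (q + d + 4) * 2) = 2 ^ (2 ^ (j + 1) * (q + d + 4)) := by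
      congr 1; ring
    have e2 : ((q : ℝ) + ((d + j : ℕ) : ℝ) + 1) ≤ 2 ^ (q + d + j + 1) := by
      have : q + (d + j) + 1 ≤ 2 ^ (q + d + j + 1) := by
        have := Nat.lt_two_pow_self (n := q + d + j + 1)
        omega
      exact_mod_cast this
    rw [e1]
    calc ((q : ℝ) + ((d + j : ℕ) : ℝ) + 1) * 2 ^ (2 ^ (j + 1) * (q + d + 4)) *
          2 ^ (q + d + (j + 1) + 2)
        ≤ 2 ^ (q + d + j + 1) * 2 ^ (2 ^ (j + 1) * (q + d + 4)) *
          2 ^ (q + d + (j + 1) + 2) := by gcongr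
      _ = 2 ^ (2 ^ (j + 1) * (q + d + 4)) * 2 ^ ((q + d + j + 2) * 2) := by
          rw [mul_comm ((2 : ℝ) ^ (q + d + j + 1)), mul_assoc, ← pow_add]
          congr 2; ring

/-- first moment, large depth -/
lemma Ev_Xf_deep (hL : LocBad bad) {q d : ℕ} {p : ℝ} (hp0 : 0 ≤ p)
    (hp : ∀ R, level R = q → Ev (ind bad R) ≤ p) (hpd : p * 3 ^ (q + d) ≤ 1)
    (j : ℕ) {Q : Cube b} (hQ : level Q = q + (d + j)) :
    Ev (fun h => (Xf (bad h) (d + j) Q : ℝ)) ≤ 2 ^ j * (q + d + 5) := by
  set m := 2 ^ j * (q + d + 4) with hm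
  have h1 : ∀ x : ℕ, (x : ℝ) ≤ m + (1 / 2 ^ m) * 2 ^ x := by
    intro x
    rcases le_total x m with h | h
    · have : (x : ℝ) ≤ m := by exact_mod_cast h
      have h2 : (0 : ℝ) ≤ (1 / 2 ^ m) * 2 ^ x := by positivity
      linarith
    · obtain ⟨y, rfl⟩ := Nat.exists_eq_add_of_le h
      have h2 : (y : ℝ) ≤ 2 ^ y := by exact_mod_cast Nat.lt_two_pow_self.le
      have h3 : (1 / (2 : ℝ) ^ m) * 2 ^ (m + y) = 2 ^ y := by
        rw [pow_add]; field_simp
      rw [h3]; push_cast; linarith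
  have h2 := Ev_mono (κ := κ) (fun h : Pt b → κ => h1 (Xf (bad h) (d + j) Q))
  refine h2.trans ?_
  rw [Ev_add, Ev_const, Ev_smul]
  have h3 := Ev_exp_all hL hp0 hp hpd j Q hQ
  have h4 : (1 / (2 : ℝ) ^ m) * Ev (fun h : Pt b → κ => (2 : ℝ) ^ (Xf (bad h) (d + j) Q)) ≤ 1 := by
    calc (1 / (2 : ℝ) ^ m) * Ev (fun h : Pt b → κ => (2 : ℝ) ^ (Xf (bad h) (d + j) Q))
        ≤ (1 / (2 : ℝ) ^ m) * (2 ^ m / 2 ^ (q + d + j + 2)) := by gcongr
      _ = 1 / 2 ^ (q + d + j + 2) := by field_simp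
      _ ≤ 1 := by
          rw [div_le_one (by positivity)]
          exact one_le_pow₀ (by norm_num)
  have h5 : (m : ℝ) = 2 ^ j * (q + d + 4) := by rw [hm]; push_cast; ring
  have h6 : (1 : ℝ) ≤ 2 ^ j := one_le_pow₀ (by norm_num)
  rw [h5]
  linarith

lemma Xf_le (Bad : Cube b → Prop) : ∀ (k : ℕ) (Q : Cube b), Xf Bad k Q ≤ 2 ^ k := by
  intro k
  induction k with
  | zero => intro Q; rw [Xf_zero]; split_ifs <;> simp
  | succ k ih =>
    intro Q
    rw [Xf_succ]
    apply Finset.sup_le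
    intro a _
    have h1 := ih (Function.update Q a (some false))
    have h2 := ih (Function.update Q a (some true))
    rw [pow_succ]; omega

/-- the steering lemma -/
theorem steering (hL : LocBad bad) {q : ℕ} {p : ℝ} (hp0 : 0 ≤ p)
    (hp : ∀ R, level R = q → Ev (ind bad R) ≤ p) {k : ℕ} {Q : Cube b} (hQ : level Q = q + k) :
    (Ev (fun h => (Xf (bad h) k Q : ℝ) / 2 ^ k)) ^ 4 ≤ (q + 5) ^ 4 * 3 ^ (q + 1) * p := by
  have hnn : 0 ≤ Ev (fun h => (Xf (bad h) k Q : ℝ) / 2 ^ k) :=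
    Ev_nonneg (fun h => by positivity)
  have hEv : Ev (fun h : Pt b → κ => (Xf (bad h) k Q : ℝ) / 2 ^ k) =
      Ev (fun h => (Xf (bad h) k Q : ℝ)) / 2 ^ k := by
    have : (fun h : Pt b → κ => (Xf (bad h) k Q : ℝ) / 2 ^ k) =
        fun h => (1 / 2 ^ k) * (Xf (bad h) k Q : ℝ) := by funext h; ring
    rw [this, Ev_smul]; ring
  have h5 : (1 : ℝ) ≤ ((q : ℝ) + 5) ^ 4 := one_le_pow₀ (by linarith [show (0 : ℝ) ≤ q by positivity])
  by_cases hcase1 : p * 3 ^ (q + k) ≤ 1
  · have h1 := Ev_Xf_le hp0 hp hQ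
    rw [hEv]
    set E := Ev (fun h : Pt b → κ => (Xf (bad h) k Q : ℝ)) with hE
    have hE0 : 0 ≤ E := Ev_nonneg (fun h => by positivity)
    set y := p * 3 ^ (q + k) with hy
    have hy0 : 0 ≤ y := by positivity
    have hEy : E ≤ y := by rw [hy]; linarith
    have h2 : (E / 2 ^ k) ^ 4 ≤ y / 16 ^ k := by
      rw [div_pow, ← pow_mul, mul_comm k 4, pow_mul]
      have h3 : E ^ 4 ≤ y := by
        calc E ^ 4 ≤ y ^ 4 := pow_le_pow_left₀ hE0 hEy 4
          _ = y * y ^ 3 := by ring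
          _ ≤ y * 1 := mul_le_mul_of_nonneg_left (pow_le_one₀ hy0 hcase1) hy0
          _ = y := mul_one _
      rw [show (2 : ℝ) ^ 4 = 16 by norm_num]
      gcongr
    refine h2.trans ?_
    have h3 : y / 16 ^ k ≤ 3 ^ (q + 1) * p := by
      rw [div_le_iff₀ (by positivity), hy, pow_add, pow_add]
      have h4 : (3 : ℝ) ^ k ≤ 16 ^ k := pow_le_pow_left₀ (by norm_num) (by norm_num) k
      have h6 : (0 : ℝ) ≤ p * 3 ^ q := by positivity
      have h7 : (0 : ℝ) ≤ (16 : ℝ) ^ k := by positivity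
      nlinarith [mul_le_mul_of_nonneg_left h4 h6, mul_nonneg h6 h7]
    have h4 : (0 : ℝ) ≤ 3 ^ (q + 1) * p := by positivity
    calc y / 16 ^ k ≤ 1 * (3 ^ (q + 1) * p) := by linarith
      _ ≤ (q + 5) ^ 4 * (3 ^ (q + 1) * p) := mul_le_mul_of_nonneg_right h5 h4
      _ = _ := by ring
  · push Not at hcase1
    by_cases hcase2 : p * 3 ^ q ≤ 1
    · -- choose d
      have hex : ∃ e, 1 < p * 3 ^ (q + e) := ⟨k, hcase1⟩
      have hspec := Nat.find_spec hex
      set e := Nat.find hex with he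
      have hek : e ≤ k := Nat.find_min' hex hcase1
      have he0 : e ≠ 0 := by
        intro h
        rw [h] at hspec
        simp only [add_zero] at hspec
        linarith
      obtain ⟨d, hd⟩ : ∃ d, e = d + 1 := ⟨e - 1, by omega⟩
      have hd1 : p * 3 ^ (q + d) ≤ 1 := by
        have := Nat.find_min hex (m := d) (by rw [← he]; omega)
        push Not at this
        exact this
      rw [hd] at hspec
      obtain ⟨j, rfl⟩ : ∃ j, k = d + j := ⟨k - d, by omega⟩
      have h1 := Ev_Xf_deep hL hp0 hp hd1 j hQ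
      have h2 : Ev (fun h : Pt b → κ => (Xf (bad h) (d + j) Q : ℝ) / 2 ^ (d + j)) ≤
          (q + d + 5) / 2 ^ d := by
        rw [hEv, div_le_div_iff₀ (by positivity) (by positivity)]
        calc _ ≤ (2 ^ j * ((q : ℝ) + d + 5)) * 2 ^ d := by gcongr
          _ = _ := by rw [pow_add]; ring
      have h3 : (Ev (fun h : Pt b → κ => (Xf (bad h) (d + j) Q : ℝ) / 2 ^ (d + j))) ^ 4 ≤
          ((q + d + 5) / 2 ^ d) ^ 4 := pow_le_pow_left₀ hnn h2 4
      refine h3.trans ?_
      have h4 : (((q : ℝ) + d + 5) / 2 ^ d) ^ 4 ≤ (q + 5) ^ 4 * (1 / 3) ^ d := by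
        -- (q+d+5) ≤ (q+5)(1+d/5), (1+d/5)^4 ≤ (16/3)^d
        have h6 : ((q : ℝ) + d + 5) ≤ (q + 5) * (1 + d / 5) := by
          have : (0 : ℝ) ≤ q * d := by positivity
          nlinarith
        have h7 : (1 + (d : ℝ) / 5) ^ 4 ≤ (16 / 3) ^ d := by
          have h8 : 1 + (d : ℝ) / 5 ≤ Real.exp (d / 5) := by
            have := Real.add_one_le_exp ((d : ℝ) / 5); linarith
          calc (1 + (d : ℝ) / 5) ^ 4 ≤ Real.exp (d / 5) ^ 4 :=
                pow_le_pow_left₀ (by positivity) h8 4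
            _ = Real.exp ((4 : ℕ) * (d / 5)) := by rw [← Real.exp_nat_mul]
            _ ≤ Real.exp d := by
                apply Real.exp_le_exp.mpr
                push_cast
                have : (0 : ℝ) ≤ d := by positivity
                linarith
            _ = Real.exp 1 ^ d := by rw [← Real.exp_nat_mul]; simp
            _ ≤ (16 / 3) ^ d := by
                apply pow_le_pow_left₀ (by positivity)
                have := Real.exp_one_lt_d9
                linarith
        rw [div_pow, div_le_iff₀ (by positivity)]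
        calc ((q : ℝ) + d + 5) ^ 4 ≤ ((q + 5) * (1 + d / 5)) ^ 4 :=
              pow_le_pow_left₀ (by positivity) h6 4
          _ = (q + 5) ^ 4 * (1 + d / 5) ^ 4 := by rw [mul_pow]
          _ ≤ (q + 5) ^ 4 * (16 / 3) ^ d := by gcongr
          _ = (q + 5) ^ 4 * (1 / 3) ^ d * (2 ^ d) ^ 4 := by
              rw [mul_assoc, ← pow_mul, mul_comm d 4, pow_mul, ← mul_pow]; norm_num
      refine h4.trans ?_
      rw [mul_assoc]
      apply mul_le_mul_of_nonneg_left _ (by positivity)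
      have h8 : (1 / 3 : ℝ) ^ d = 1 / 3 ^ d := by rw [div_pow, one_pow]
      rw [h8, div_le_iff₀ (by positivity)]
      have h9 : p * 3 ^ (q + (d + 1)) = 3 ^ (q + 1) * p * 3 ^ d := by
        rw [show q + (d + 1) = (q + 1) + d by ring, pow_add]; ring
      rw [h9] at hspec
      exact hspec.le
    · push Not at hcase2
      have h1 : Ev (fun h : Pt b → κ => (Xf (bad h) k Q : ℝ) / 2 ^ k) ≤ 1 := by
        have : Ev (fun _ : Pt b → κ => (1 : ℝ)) = 1 := Ev_const 1
        rw [← this]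
        apply Ev_mono
        intro h
        rw [div_le_one (by positivity)]
        exact_mod_cast Xf_le (bad h) k Q
      have h2 : (Ev (fun h : Pt b → κ => (Xf (bad h) k Q : ℝ) / 2 ^ k)) ^ 4 ≤ 1 :=
        pow_le_one₀ hnn h1
      refine h2.trans ?_
      have h3 : (1 : ℝ) ≤ 3 ^ (q + 1) * p := by
        rw [pow_succ]; nlinarith
      calc (1 : ℝ) = 1 * 1 := by ring
        _ ≤ (q + 5) ^ 4 * (3 ^ (q + 1) * p) := mul_le_mul h5 h3 (by norm_num) (by positivity)
        _ = _ := by ring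

end Steer

end Pool.Agent.Lib.MP_ce949a_lc
end

section

set_option autoImplicit false
set_option linter.unusedSectionVars false

namespace Pool.Agent.Lib.MP_ce949a_lc

open Finset Classical

lemma choose_le_three (n k : ℕ) (hk : 1 ≤ k) : (n.choose k : ℝ) ≤ (3 * n / k) ^ k := by
  have h1 : (n.choose k : ℝ) ≤ (n : ℝ) ^ k / (k.factorial : ℝ) := Nat.choose_le_pow_div k n
  have h2 : (k : ℝ) ^ k / (k.factorial : ℝ) ≤ Real.exp k :=
    Real.pow_div_factorial_le_exp (k : ℝ) (by positivity) k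
  have h3 : Real.exp (k : ℝ) ≤ 3 ^ k := by
    have : Real.exp (k : ℝ) = Real.exp 1 ^ k := by
      rw [← Real.exp_nat_mul]; simp
    rw [this]
    apply pow_le_pow_left₀ (by positivity)
    have := Real.exp_one_lt_d9
    linarith
  have hk' : (0 : ℝ) < k := by exact_mod_cast hk
  have hf : (0 : ℝ) < (k.factorial : ℝ) := by positivity
  have h4 : 1 / (k.factorial : ℝ) ≤ 3 ^ k / (k : ℝ) ^ k := by
    have h5 := h2.trans h3
    rw [div_le_iff₀ hf] at h5
    rw [div_le_div_iff₀ hf (by positivity)]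
    linarith
  calc (n.choose k : ℝ) ≤ (n : ℝ) ^ k / (k.factorial : ℝ) := h1
    _ = (n : ℝ) ^ k * (1 / (k.factorial : ℝ)) := by ring
    _ ≤ (n : ℝ) ^ k * (3 ^ k / (k : ℝ) ^ k) := by
        apply mul_le_mul_of_nonneg_left h4 (by positivity)
    _ = (3 * n / k) ^ k := by
        rw [div_pow, mul_pow]; ring

/-- first union bound -/
lemma union1 {b lam w M : ℕ} (hw : w = 2 ^ lam) (hw1 : 1 ≤ w) (hbw : b ≤ w) (hM : 1 ≤ M)
    {y : ℕ} (hy1 : 1 ≤ y) (hy2 : y ≤ (M + 1) / w ^ 3) :
    ((M + 1).choose y : ℝ) *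
      ((3 : ℝ) ^ b * ((2 ^ (5 * lam)).choose (64 * w ^ 2) : ℝ) *
        ((y : ℝ) / M) ^ (64 * w ^ 2)) ^ y ≤ (1 / 4) ^ y := by
  have hMpos : (0 : ℝ) < M := by exact_mod_cast hM
  have hypos : (0 : ℝ) < y := by exact_mod_cast hy1
  have hwpos : (0 : ℝ) < w := by exact_mod_cast hw1
  have hwone : (1 : ℝ) ≤ w := by exact_mod_cast hw1
  set τ := 64 * w ^ 2 with hτ
  have hτ1 : 1 ≤ τ := by
    have : 1 ≤ w ^ 2 := Nat.one_le_pow _ _ hw1
    omega
  have h1 := choose_le_three (M + 1) y hy1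
  have h2 := choose_le_three (2 ^ (5 * lam)) τ hτ1
  have hbase : (3 * ((M + 1 : ℕ) : ℝ) / y) *
      ((3 : ℝ) ^ b * ((2 ^ (5 * lam)).choose τ : ℝ) * ((y : ℝ) / M) ^ τ) ≤ 1 / 4 := by
    have hyM : (y : ℝ) * w ^ 3 ≤ 2 * M := by
      have h3 : y * w ^ 3 ≤ M + 1 := by
        calc y * w ^ 3 ≤ ((M + 1) / w ^ 3) * w ^ 3 := Nat.mul_le_mul_right _ hy2
          _ ≤ M + 1 := Nat.div_mul_le_self _ _
      have h4 : y * w ^ 3 ≤ 2 * M := by omega
      exact_mod_cast h4
    have hq : ((2 ^ (5 * lam) : ℕ) : ℝ) = (w : ℝ) ^ 5 := by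
      rw [hw]; push_cast; rw [← pow_mul]; congr 1; ring
    rw [hq] at h2
    have hτR : (τ : ℝ) = 64 * (w : ℝ) ^ 2 := by rw [hτ]; push_cast; ring
    set z : ℝ := 3 * (w : ℝ) ^ 3 / 64 * ((y : ℝ) / M) with hz
    have hzpos : 0 < z := by rw [hz]; positivity
    have e1 : (3 * (w : ℝ) ^ 5 / τ) ^ τ * ((y : ℝ) / M) ^ τ = z ^ τ := by
      rw [← mul_pow]
      congr 1
      rw [hz, hτR]
      field_simp
    have hz8 : z ≤ 1 / 8 := by
      rw [hz]
      rw [show 3 * (w : ℝ) ^ 3 / 64 * ((y : ℝ) / M) = (3 * ((y : ℝ) * w ^ 3)) / (64 * M) by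
        field_simp]
      rw [div_le_iff₀ (by positivity)]
      linarith
    have e2 : (3 : ℝ) ^ b * ((2 ^ (5 * lam)).choose τ : ℝ) * ((y : ℝ) / M) ^ τ ≤
        3 ^ b * z ^ τ := by
      rw [← e1, ← mul_assoc]
      gcongr
    have e3 : (3 * ((M + 1 : ℕ) : ℝ) / y) ≤ 6 / ((y : ℝ) / M) := by
      rw [div_div_eq_mul_div]
      rw [div_le_div_iff_of_pos_right hypos]
      push_cast
      have : (1 : ℝ) ≤ M := by exact_mod_cast hM
      linarith
    have e4 : 6 / ((y : ℝ) / M) = (9 * (w : ℝ) ^ 3 / 32) / z := by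
      rw [hz]; field_simp; norm_num
    have e5 : (3 * ((M + 1 : ℕ) : ℝ) / y) *
      ((3 : ℝ) ^ b * ((2 ^ (5 * lam)).choose τ : ℝ) * ((y : ℝ) / M) ^ τ) ≤
        (9 * (w : ℝ) ^ 3 / 32) / z * (3 ^ b * z ^ τ) := by
      rw [← e4]
      apply mul_le_mul e3 e2 (by positivity) (by positivity)
    refine e5.trans ?_
    obtain ⟨τ', hτ'⟩ : ∃ τ', τ = τ' + 1 := ⟨τ - 1, by omega⟩
    have e6 : (9 * (w : ℝ) ^ 3 / 32) / z * (3 ^ b * z ^ τ) =
        (9 / 32) * (w : ℝ) ^ 3 * 3 ^ b * z ^ τ' := by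
      rw [hτ', pow_succ z τ']
      have hzne : z ≠ 0 := hzpos.ne'
      calc 9 * (w : ℝ) ^ 3 / 32 / z * (3 ^ b * (z ^ τ' * z))
          = 9 / 32 * (w : ℝ) ^ 3 * 3 ^ b * z ^ τ' * (z / z) := by ring
        _ = 9 / 32 * (w : ℝ) ^ 3 * 3 ^ b * z ^ τ' := by rw [div_self hzne, mul_one]
    rw [e6]
    have e7 : (w : ℝ) ^ 3 ≤ 8 ^ w := by
      have : (w : ℝ) ≤ 2 ^ w := by exact_mod_cast Nat.lt_two_pow_self.le
      calc (w : ℝ) ^ 3 ≤ (2 ^ w) ^ 3 := by gcongr
        _ = 8 ^ w := by rw [← pow_mul, mul_comm, pow_mul]; norm_num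
    have e8 : (3 : ℝ) ^ b ≤ 8 ^ w := by
      calc (3 : ℝ) ^ b ≤ 3 ^ w := pow_le_pow_right₀ (by norm_num) hbw
        _ ≤ 8 ^ w := pow_le_pow_left₀ (by norm_num) (by norm_num) _
    have e9 : z ^ τ' ≤ (1 / 8) ^ τ' := pow_le_pow_left₀ hzpos.le hz8 _
    have e10 : (1 / 8 : ℝ) ^ τ' ≤ (1 / 8) ^ (2 * w + 1) := by
      apply pow_le_pow_of_le_one (by norm_num) (by norm_num)
      have : w ≤ w ^ 2 := by nlinarith
      omega
    calc (9 / 32) * (w : ℝ) ^ 3 * 3 ^ b * z ^ τ'
        ≤ (9 / 32) * (8 ^ w) * 8 ^ w * (1 / 8) ^ (2 * w + 1) := by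
          have := e9.trans e10
          gcongr
      _ = (9 / 256) * ((8 * (1 / 8)) ^ w * (8 * (1 / 8)) ^ w) := by
          rw [mul_pow, pow_succ, two_mul, pow_add]; ring
      _ ≤ 1 / 4 := by norm_num
  calc ((M + 1).choose y : ℝ) *
      ((3 : ℝ) ^ b * ((2 ^ (5 * lam)).choose τ : ℝ) * ((y : ℝ) / M) ^ τ) ^ y
      ≤ (3 * ((M + 1 : ℕ) : ℝ) / y) ^ y *
        ((3 : ℝ) ^ b * ((2 ^ (5 * lam)).choose τ : ℝ) * ((y : ℝ) / M) ^ τ) ^ y := by
        gcongr
    _ = ((3 * ((M + 1 : ℕ) : ℝ) / y) *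
        ((3 : ℝ) ^ b * ((2 ^ (5 * lam)).choose τ : ℝ) * ((y : ℝ) / M) ^ τ)) ^ y :=
        (mul_pow _ _ _).symm
    _ ≤ (1 / 4) ^ y := pow_le_pow_left₀ (by positivity) hbase _

lemma one_sub_pow_le {w : ℕ} (hw : 1 ≤ w) : (1 - 1 / (w : ℝ)) ^ w ≤ 1 / 2 := by
  have hwpos : (0 : ℝ) < w := by exact_mod_cast hw
  have h1 : 1 - 1 / (w : ℝ) ≤ Real.exp (-(1 / (w : ℝ))) := by
    have := Real.add_one_le_exp (-(1 / (w : ℝ)))
    linarith
  have h0 : 0 ≤ 1 - 1 / (w : ℝ) := by
    have : 1 / (w : ℝ) ≤ 1 := by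
      rw [div_le_one hwpos]; exact_mod_cast hw
    linarith
  calc (1 - 1 / (w : ℝ)) ^ w ≤ Real.exp (-(1 / (w : ℝ))) ^ w := pow_le_pow_left₀ h0 h1 _
    _ = Real.exp (-1) := by
      rw [← Real.exp_nat_mul]; congr 1; field_simp
    _ ≤ 1 / 2 := by
      have := Real.exp_neg_one_lt_d9
      linarith

/-- second union bound, one pigeon -/
lemma union2a {b lam w M : ℕ} (hw : w = 2 ^ lam) (hw1 : 2048 ≤ w) (hbw : b ≤ w) (hM : 1 ≤ M) 
    (hA : (M + 1) / w + 2 ≤ M + 1) :
    (3 : ℝ) ^ b * ((2 ^ (5 * lam)).choose (2 ^ (5 * lam) - 64 * w ^ 2) : ℝ) *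
      (((M : ℝ) + 1 - (((M + 1) / w + 2 : ℕ) : ℝ)) / M) ^ (2 ^ (5 * lam) - 64 * w ^ 2) ≤
      (1 / 2) ^ (8 * w ^ 3) := by
  have hMpos : (0 : ℝ) < M := by exact_mod_cast hM
  have hwpos : (0 : ℝ) < w := by
    have : 0 < w := by omega
    exact_mod_cast this
  have hq : 2 ^ (5 * lam) = w ^ 5 := by
    rw [hw, ← pow_mul]; congr 1; ring
  rw [hq]
  have hlw : lam ≤ w := by rw [hw]; exact Nat.lt_two_pow_self.le
  have hτq : 64 * w ^ 2 ≤ w ^ 5 := by
    have : 64 ≤ w ^ 3 := by
      calc 64 ≤ w := by omega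
        _ = w ^ 1 := (pow_one w).symm
        _ ≤ w ^ 3 := Nat.pow_le_pow_right (by omega) (by norm_num)
    calc 64 * w ^ 2 ≤ w ^ 3 * w ^ 2 := Nat.mul_le_mul_right _ this
      _ = w ^ 5 := by ring
  -- exponent decomposition
  have hexp : w ^ 5 - 64 * w ^ 2 = w * (w ^ 4 - 64 * w) := by
    rw [Nat.mul_sub]; congr 1 <;> ring
  have hbase1 : ((M : ℝ) + 1 - (((M + 1) / w + 2 : ℕ) : ℝ)) / M ≤ 1 - 1 / (w : ℝ) := by
    rw [div_le_iff₀ hMpos]
    have h1 : (M + 1) < ((M + 1) / w + 1) * w := by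
      have h := Nat.div_add_mod (M + 1) w
      have h' := Nat.mod_lt (M + 1) (show w > 0 by omega)
      nlinarith
    have h2 : ((M : ℝ) + 1) < (((M + 1) / w : ℕ) + 1 : ℝ) * w := by exact_mod_cast h1
    push_cast
    have h3 : (M : ℝ) / w ≤ (((M + 1) / w : ℕ) : ℝ) + 1 := by
      rw [div_le_iff₀ hwpos]; linarith
    have h4 : (1 - 1 / (w : ℝ)) * M = M - M / w := by ring
    rw [h4]
    linarith
  have hbase0 : 0 ≤ ((M : ℝ) + 1 - (((M + 1) / w + 2 : ℕ) : ℝ)) / M := by
    apply div_nonneg _ hMpos.le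
    have : (((M + 1) / w + 2 : ℕ) : ℝ) ≤ (M : ℝ) + 1 := by exact_mod_cast hA
    linarith
  have hpow : (((M : ℝ) + 1 - (((M + 1) / w + 2 : ℕ) : ℝ)) / M) ^ (w ^ 5 - 64 * w ^ 2) ≤
      (1 / 2) ^ (w ^ 4 - 64 * w) := by
    calc _ ≤ (1 - 1 / (w : ℝ)) ^ (w ^ 5 - 64 * w ^ 2) := pow_le_pow_left₀ hbase0 hbase1 _
      _ = ((1 - 1 / (w : ℝ)) ^ w) ^ (w ^ 4 - 64 * w) := by rw [hexp, pow_mul]
      _ ≤ (1 / 2) ^ (w ^ 4 - 64 * w) := by
          apply pow_le_pow_left₀ _ (one_sub_pow_le (by omega))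
          apply pow_nonneg
          exact hbase0.trans hbase1
  have hch : ((w ^ 5).choose (w ^ 5 - 64 * w ^ 2) : ℝ) ≤ 2 ^ (320 * lam * w ^ 2) := by
    rw [Nat.choose_symm hτq]
    have h1 : (w ^ 5).choose (64 * w ^ 2) ≤ (w ^ 5) ^ (64 * w ^ 2) := Nat.choose_le_pow _ _
    have h2 : (w ^ 5) ^ (64 * w ^ 2) = 2 ^ (320 * lam * w ^ 2) := by
      rw [← hq, ← pow_mul]; congr 1; ring
    rw [h2] at h1
    exact_mod_cast h1
  have h3b : (3 : ℝ) ^ b ≤ 2 ^ (2 * w) := by
    calc (3 : ℝ) ^ b ≤ 3 ^ w := pow_le_pow_right₀ (by norm_num) hbw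
      _ ≤ 4 ^ w := pow_le_pow_left₀ (by norm_num) (by norm_num) _
      _ = 2 ^ (2 * w) := by rw [pow_mul]; norm_num
  have hE : 2 * w + 320 * lam * w ^ 2 + 8 * w ^ 3 ≤ w ^ 4 - 64 * w := by
    have h1 : 320 * lam * w ^ 2 ≤ 320 * w ^ 3 := by
      calc 320 * lam * w ^ 2 ≤ 320 * w * w ^ 2 := by gcongr
        _ = 320 * w ^ 3 := by ring
    have h2 : 2048 * w ^ 3 ≤ w ^ 4 := by
      calc 2048 * w ^ 3 ≤ w * w ^ 3 := Nat.mul_le_mul_right _ hw1
        _ = w ^ 4 := by ring
    have h3 : w ≤ w ^ 3 := by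
      calc w = w ^ 1 := (pow_one w).symm
        _ ≤ w ^ 3 := Nat.pow_le_pow_right (by omega) (by norm_num)
    omega
  calc (3 : ℝ) ^ b * ((w ^ 5).choose (w ^ 5 - 64 * w ^ 2) : ℝ) *
      (((M : ℝ) + 1 - (((M + 1) / w + 2 : ℕ) : ℝ)) / M) ^ (w ^ 5 - 64 * w ^ 2)
      ≤ 2 ^ (2 * w) * 2 ^ (320 * lam * w ^ 2) * (1 / 2) ^ (w ^ 4 - 64 * w) := by
        gcongr
    _ ≤ 2 ^ (2 * w) * 2 ^ (320 * lam * w ^ 2) *
        (1 / 2) ^ (2 * w + 320 * lam * w ^ 2 + 8 * w ^ 3) := by
        apply mul_le_mul_of_nonneg_left _ (by positivity)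
        exact pow_le_pow_of_le_one (by norm_num) (by norm_num) hE
    _ = (2 * (1 / 2)) ^ (2 * w) * (2 * (1 / 2)) ^ (320 * lam * w ^ 2) *
        (1 / 2) ^ (8 * w ^ 3) := by
        rw [mul_pow, mul_pow, pow_add, pow_add]; ring
    _ = (1 / 2) ^ (8 * w ^ 3) := by norm_num

lemma union2b {w M : ℕ} (hw1 : 1 ≤ w) (hM : 2 * w ^ 3 ≤ M) :
    (4 : ℝ) ^ (M + 1) * ((1 / 2) ^ (8 * w ^ 3)) ^ ((M + 1) / w ^ 3) ≤ 1 / 3 := by
  have h1 : 2 * (M + 1) + 2 ≤ 8 * w ^ 3 * ((M + 1) / w ^ 3) := by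
    have h := Nat.div_add_mod (M + 1) (w ^ 3)
    have h' := Nat.mod_lt (M + 1) (show w ^ 3 > 0 by positivity)
    have h2 : 1 ≤ w ^ 3 := Nat.one_le_pow _ _ hw1
    have h3 : 8 * w ^ 3 * ((M + 1) / w ^ 3) = 8 * (w ^ 3 * ((M + 1) / w ^ 3)) := by ring
    rw [h3]
    omega
  rw [← pow_mul]
  calc (4 : ℝ) ^ (M + 1) * (1 / 2) ^ (8 * w ^ 3 * ((M + 1) / w ^ 3))
      ≤ (4 : ℝ) ^ (M + 1) * (1 / 2) ^ (2 * (M + 1) + 2) := by
        apply mul_le_mul_of_nonneg_left _ (by positivity)
        exact pow_le_pow_of_le_one (by norm_num) (by norm_num) h1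
    _ = (4 * (1 / 4)) ^ (M + 1) * (1 / 4) := by
        rw [pow_add (1 / 2 : ℝ), pow_mul (1 / 2 : ℝ), mul_pow]; norm_num; ring
    _ ≤ 1 / 3 := by norm_num

/-- the block embedding -/
def emb {M b n : ℕ} (h : (M + 1) * b ≤ n) : Fin (M + 1) × Fin b → Fin n :=
  fun p => Fin.castLE h (finProdFinEquiv p)

lemma emb_injective {M b n : ℕ} (h : (M + 1) * b ≤ n) : Function.Injective (emb h) := by
  intro p q hpq
  exact finProdFinEquiv.injective (Fin.castLE_injective h hpq)

/-- the lower bound for a block length `b` and `M + 1` blocks. -/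
theorem lower_bound {b lam w M n : ℕ} (hw : w = 2 ^ lam) (hw1 : 2048 ≤ w) (hbw : b ≤ w)
    (hwb : w ≤ 2 * b) (hM : 4 * w ^ 3 ≤ M) (hn : (M + 1) * b ≤ n) :
    ∃ F : Finset (Finset (Fin n × Bool)),
        (∀ C ∈ F, C.card ≤ 2 * b) ∧
        (∀ α : Fin n → Bool, ∃ C ∈ F, ∀ l ∈ C, α l.1 ≠ l.2) ∧
        ∀ s : ℕ,
          (∀ P : Finset (Fin n × Bool) → ℕ → Prop,
            (∀ C ∈ F, P C 1) →
            (∀ (C D : Finset (Fin n × Bool)) (x : Fin n) (a b : ℕ),
              P C a → P D b → (x, true) ∈ C → (x, false) ∈ D →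
              P (C.erase (x, true) ∪ D.erase (x, false)) (a + b + 1)) →
            P ∅ s) →
          2 ^ (b * (M + 1)) ≤ s * 2 ^ ((10 * lam + 5) * (M + 1)) := by
  have hwpos : 0 < w := by omega
  have hw3 : w ≤ w ^ 3 := by
    calc w = w ^ 1 := (pow_one w).symm
      _ ≤ w ^ 3 := Nat.pow_le_pow_right (by omega) (by norm_num)
  have hM1 : 1 ≤ M := by omega
  have hdiv : (M + 1) / w * 2048 ≤ M + 1 := by
    calc (M + 1) / w * 2048 ≤ (M + 1) / w * w := Nat.mul_le_mul_left _ hw1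
      _ ≤ M + 1 := Nat.div_mul_le_self _ _
  have hdiv3 : (M + 1) / w ^ 3 * 2048 ≤ M + 1 := by
    calc (M + 1) / w ^ 3 * 2048 ≤ (M + 1) / w ^ 3 * w ^ 3 :=
          Nat.mul_le_mul_left _ (hw1.trans hw3)
      _ ≤ M + 1 := Nat.div_mul_le_self _ _
  have hA : (M + 1) / w + 2 ≤ M + 1 := by omega
  obtain ⟨g, hg2, hg1⟩ := exists_maps (b := b) (M := M) (by omega) (5 * lam) (64 * w ^ 2)
    ((M + 1) / w + 2) ((M + 1) / w ^ 3) hA
    (fun y => (3 : ℝ) ^ b * ((2 ^ (5 * lam)).choose (64 * w ^ 2) : ℝ) *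
        ((y : ℝ) / M) ^ (64 * w ^ 2)) ((1 / 2) ^ (8 * w ^ 3))
    (fun y _ => le_rfl) (union2a hw hw1 hbw hM1 hA)
    (fun y hy1 hy2 => union1 hw (by omega) hbw hM1 hy1 hy2)
    (union2b (by omega) (by omega))
  refine ⟨Frm (tmap g) 0 (emb hn), fun C hC => Frm_width _ _ _ hC,
    Frm_unsat _ _ _ (fun i x => Fin.succ_ne_zero _), ?_⟩
  intro s hs
  have hlam : 11 ≤ lam := by
    by_contra h
    have : w ≤ 2 ^ 10 := by rw [hw]; exact Nat.pow_le_pow_right (by norm_num) (by omega)
    omega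
  have hrb : 5 * lam + 1 ≤ b := by
    have h1 : ∀ j : ℕ, 2 * (5 * (11 + j) + 1) ≤ 2 ^ (11 + j) := by
      intro j
      induction j with
      | zero => norm_num
      | succ j ih =>
        rw [show 11 + (j + 1) = (11 + j) + 1 by ring, pow_succ]
        omega
    have h2 := h1 (lam - 11)
    rw [show 11 + (lam - 11) = lam by omega, ← hw] at h2
    omega
  have hτ : 64 * w ^ 2 ≤ 2 ^ (5 * lam + 1 - 1) := by
    have hq : 2 ^ (5 * lam) = w ^ 5 := by
      rw [hw, ← pow_mul]; congr 1; ring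
    rw [Nat.add_sub_cancel, hq]
    calc 64 * w ^ 2 ≤ w ^ 3 * w ^ 2 := Nat.mul_le_mul_right _ (by omega)
      _ = w ^ 5 := by ring
  have hAB : ((M + 1) / w + 2) + (M + 1) / w ^ 3 ≤ Fintype.card (Fin (M + 1)) := by
    rw [Fintype.card_fin]; omega
  have h := refutation_bound (tmap g) 0 (emb hn) (emb_injective hn) (r := 5 * lam + 1)
    (τ := 64 * w ^ 2) (A := (M + 1) / w + 2) (B := (M + 1) / w ^ 3) (by omega) hrb hτ
    hg2 hg1 hAB s hs
  rw [Fintype.card_fin] at h
  refine h.trans ?_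
  apply Nat.mul_le_mul_left
  apply Nat.pow_le_pow_right (by norm_num)
  have h1 : b * ((M + 1) / w + 2 + (M + 1) / w ^ 3) + b * ((M + 1) / w ^ 3) ≤ 3 * (M + 1) := by
    have e1 : b * ((M + 1) / w) ≤ M + 1 :=
      (Nat.mul_le_mul_right _ hbw).trans (Nat.mul_div_le _ _)
    have e2 : b * ((M + 1) / w ^ 3) ≤ (M + 1) / 2048 := by
      rw [Nat.le_div_iff_mul_le (by norm_num)]
      calc b * ((M + 1) / w ^ 3) * 2048 ≤ w * ((M + 1) / w ^ 3) * w := by gcongr
        _ = w ^ 2 * ((M + 1) / w ^ 3) := by ring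
        _ ≤ w ^ 3 * ((M + 1) / w ^ 3) := by
            apply Nat.mul_le_mul_right
            exact Nat.pow_le_pow_right (by omega) (by norm_num)
        _ ≤ M + 1 := Nat.mul_div_le _ _
    have e3 : (M + 1) / 2048 * 2048 ≤ M + 1 := Nat.div_mul_le_self _ _
    rw [mul_add, mul_add]
    omega
  have h2 : (10 * lam + 5) * (M + 1) = 2 * (5 * lam + 1) * (M + 1) + 3 * (M + 1) := by ring
  omega

end Pool.Agent.Lib.MP_ce949a_lc
end
end
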