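import Mathlib

section

set_option autoImplicit false
set_option linter.unusedSectionVars false

namespace Pool.Agent.Lib.MP_ce949a_lc

open Finset Classical

/-- Points of the block cube. -/
abbrev Pt (b : ℕ) := Fin b → Bool

/-- Partial assignments of one block. -/
abbrev Cube (b : ℕ) := Fin b → Option Bool

/-- odd number of ones -/
def IsOdd {b : ℕ} (x : Pt b) : Prop := Odd (univ.filter (fun a => x a = true)).card

/-- the point `x` agrees with the partial assignment `Q`. -/
def Mem {b : ℕ} (x : Pt b) (Q : Cube b) : Prop := ∀ a v, Q a = some v → x a = v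

/-- number of unset coordinates -/
noncomputable def level {b : ℕ} (Q : Cube b) : ℕ := (univ.filter (fun a => Q a = none)).card

/-- the points of a cube -/
noncomputable def pts {b : ℕ} (Q : Cube b) : Finset (Pt b) := univ.filter (fun x => Mem x Q)

lemma mem_pts {b : ℕ} {Q : Cube b} {x : Pt b} : x ∈ pts Q ↔ Mem x Q := by
  simp [pts]

lemma pts_eq_pi {b : ℕ} (Q : Cube b) :
    pts Q = Fintype.piFinset (fun a => match Q a with
      | none => (univ : Finset Bool)
      | some v => {v}) := by
  ext x
  simp only [mem_pts, Mem, Fintype.mem_piFinset]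
  constructor
  · intro h a
    have := h a
    cases hQ : Q a with
    | none => simp
    | some v => simp [this v hQ]
  · intro h a v hv
    have := h a
    rw [hv] at this
    simpa using this

lemma card_pts {b : ℕ} (Q : Cube b) : (pts Q).card = 2 ^ level Q := by
  rw [pts_eq_pi, Fintype.card_piFinset]
  have : ∀ a : Fin b, (match Q a with
      | none => (univ : Finset Bool)
      | some v => {v}).card = if Q a = none then 2 else 1 := by
    intro a
    cases hQ : Q a with
    | none => simp
    | some v => simp
  rw [Finset.prod_congr rfl (fun a _ => this a)]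
  rw [Finset.prod_ite]
  simp [level]

/-- flip coordinate `a`. -/
def flip {b : ℕ} (a : Fin b) (x : Pt b) : Pt b := Function.update x a (!(x a))

lemma flip_flip {b : ℕ} (a : Fin b) (x : Pt b) : flip a (flip a x) = x := by
  funext c
  by_cases h : c = a
  · subst h; simp [flip]
  · simp [flip, h]

lemma isOdd_flip {b : ℕ} (a : Fin b) (x : Pt b) : IsOdd (flip a x) ↔ ¬ IsOdd x := by
  unfold IsOdd
  cases hx : x a with
  | false =>
    have : (univ.filter (fun c => flip a x c = true)) =
        insert a (univ.filter (fun c => x c = true)) := by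
      ext c
      rw [Finset.mem_insert, Finset.mem_filter, Finset.mem_filter]
      by_cases h : c = a
      · subst h; simp [flip, hx]
      · simp [flip, h]
    rw [this, Finset.card_insert_of_notMem (by simp [hx])]
    rw [Nat.odd_add_one]
  | true =>
    have : (univ.filter (fun c => x c = true)) =
        insert a (univ.filter (fun c => flip a x c = true)) := by
      ext c
      rw [Finset.mem_insert, Finset.mem_filter, Finset.mem_filter]
      by_cases h : c = a
      · subst h; simp [hx]
      · simp [flip, h]
    rw [this, Finset.card_insert_of_notMem (by simp [flip, hx])]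
    rw [Nat.odd_add_one, not_not]

lemma mem_flip {b : ℕ} {a : Fin b} {x : Pt b} {Q : Cube b} (hQ : Q a = none) (hx : Mem x Q) :
    Mem (flip a x) Q := by
  intro c v hv
  have hc : c ≠ a := by
    rintro rfl; rw [hQ] at hv; cases hv
  simp [flip, hc, hx c v hv]

lemma card_odd_pts {b : ℕ} (Q : Cube b) {r : ℕ} (hr : level Q = r + 1) :
    ((pts Q).filter (fun x => IsOdd x)).card = 2 ^ r := by
  have hpos : 0 < level Q := by omega
  obtain ⟨a, ha⟩ := Finset.card_pos.mp hpos
  have ha' : Q a = none := by simpa using ha
  have h1 : ((pts Q).filter (fun x => IsOdd x)).card =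
      ((pts Q).filter (fun x => ¬ IsOdd x)).card := by
    apply Finset.card_bij (fun x _ => flip a x)
    · intro x hx
      simp only [Finset.mem_filter, mem_pts] at hx ⊢
      exact ⟨mem_flip ha' hx.1, by rw [isOdd_flip]; exact fun h => h hx.2⟩
    · intro x _ y _ hxy
      have := congrArg (flip a) hxy
      simpa [flip_flip] using this
    · intro y hy
      simp only [Finset.mem_filter, mem_pts] at hy
      refine ⟨flip a y, ?_, flip_flip a y⟩
      simp only [Finset.mem_filter, mem_pts]
      exact ⟨mem_flip ha' hy.1, by rw [isOdd_flip]; exact hy.2⟩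
  have h2 := Finset.card_filter_add_card_filter_not (s := pts Q) (fun x => IsOdd x)
  rw [card_pts, hr, pow_succ] at h2
  omega

lemma exists_even {b : ℕ} (Q : Cube b) (h : 0 < level Q) : ∃ x, Mem x Q ∧ ¬ IsOdd x := by
  obtain ⟨a, ha⟩ := Finset.card_pos.mp h
  have ha' : Q a = none := by simpa using ha
  have hne : (pts Q).Nonempty := by
    rw [← Finset.card_pos, card_pts]; positivity
  obtain ⟨x, hx⟩ := hne
  rw [mem_pts] at hx
  by_cases hx2 : IsOdd x
  · exact ⟨flip a x, mem_flip ha' hx, by rw [isOdd_flip]; exact fun h => h hx2⟩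
  · exact ⟨x, hx, hx2⟩

section Potential

variable {V : Type*} [Fintype V] [DecidableEq V] {b : ℕ}

/-- total block assignments -/
abbrev Tot (V : Type*) (b : ℕ) := V → Pt b
/-- partial assignments -/
abbrev Par (V : Type*) (b : ℕ) := V → Cube b

variable (t : V → Pt b → V) (s : V)

/-- the successor map -/
def step (α : Tot V b) : V → V := fun i => t i (α i)

/-- `α` is good with respect to `G`. -/
def GoodP (G : Finset V) (α : Tot V b) : Prop :=
  ∃ m : ℕ, (∀ j < m, (step t α)^[j] s ∉ G ∧ IsOdd (α ((step t α)^[j] s))) ∧
    (step t α)^[m] s ∈ G ∧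
    ∀ i, i ∉ G → (∀ j < m, (step t α)^[j] s ≠ i) → ¬ IsOdd (α i)

/-- total assignments extending `ρ`. -/
def Ext (ρ : Par V b) (α : Tot V b) : Prop := ∀ i, Mem (α i) (ρ i)

/-- good extensions -/
noncomputable def good (ρ : Par V b) (G : Finset V) : Finset (Tot V b) :=
  univ.filter (fun α => Ext ρ α ∧ GoodP t s G α)

/-- set a variable -/
def setv (ρ : Par V b) (i : V) (a : Fin b) (v : Bool) : Par V b :=
  Function.update ρ i (Function.update (ρ i) a (some v))

lemma ext_setv {ρ : Par V b} {i : V} {a : Fin b} {v : Bool} {α : Tot V b} (h : ρ i a = none) :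
    Ext (setv ρ i a v) α ↔ Ext ρ α ∧ α i a = v := by
  constructor
  · intro hE
    refine ⟨?_, ?_⟩
    · intro j c w hw
      by_cases hj : j = i
      · subst hj
        by_cases hc : c = a
        · subst hc; rw [h] at hw; cases hw
        · have := hE j c w (by simp [setv, hc, hw])
          exact this
      · exact hE j c w (by simp [setv, hj, hw])
    · exact hE i a v (by simp [setv])
  · rintro ⟨hE, ha⟩ j c w hw
    by_cases hj : j = i
    · subst hj
      by_cases hc : c = a
      · subst hc
        simp [setv] at hw
        rw [ha, hw]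
      · simp [setv, hc] at hw
        exact hE j c w hw
    · simp [setv, hj] at hw
      exact hE j c w hw

lemma good_card_split {ρ : Par V b} {i : V} {a : Fin b} (h : ρ i a = none) (G : Finset V) :
    (good t s ρ G).card =
      (good t s (setv ρ i a false) G).card + (good t s (setv ρ i a true) G).card := by
  rw [← Finset.card_union_of_disjoint]
  · congr 1
    ext α
    simp only [good, Finset.mem_filter, Finset.mem_univ, true_and, Finset.mem_union, ext_setv h]
    cases hα : α i a <;> simp
  · rw [Finset.disjoint_left]
    intro α h1 h2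
    simp only [good, Finset.mem_filter, Finset.mem_univ, true_and, ext_setv h] at h1 h2
    have := h1.1.2
    rw [h2.1.2] at this
    cases this

/-- path vertices are pairwise distinct -/
lemma path_inj {G : Finset V} {f : V → V} {m : ℕ}
    (h1 : ∀ j < m, f^[j] s ∉ G) (h2 : f^[m] s ∈ G) {j l : ℕ} (hj : j < l) (hl : l ≤ m) :
    f^[j] s ≠ f^[l] s := by
  intro h
  have e1 : f^[m] s = f^[m - l] (f^[l] s) := by
    rw [← Function.iterate_add_apply]; congr 1; omega
  rw [← h, ← Function.iterate_add_apply] at e1
  have := h1 (m - l + j) (by omega)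
  rw [← e1] at this
  exact this h2

/-- A good assignment violates none of the clauses outside `G`. -/
lemma good_source {G : Finset V} {α : Tot V b} (hα : GoodP t s G α) (hs : s ∉ G) :
    IsOdd (α s) := by
  obtain ⟨m, h1, h2, h3⟩ := hα
  have hm : 0 < m := by
    rcases Nat.eq_zero_or_pos m with h | h
    · subst h; simp at h2; exact absurd h2 hs
    · exact h
  simpa using (h1 0 hm).2

lemma good_next {G : Finset V} {α : Tot V b} (hα : GoodP t s G α) {i : V} (hi : i ∉ G)
    (hodd : IsOdd (α i)) (hn : t i (α i) ∉ G) : IsOdd (α (t i (α i))) := by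
  obtain ⟨m, h1, h2, h3⟩ := hα
  have : ∃ j < m, (step t α)^[j] s = i := by
    by_contra hcon
    push Not at hcon
    exact h3 i hi hcon hodd
  obtain ⟨j, hj, rfl⟩ := this
  have e : t ((step t α)^[j] s) (α ((step t α)^[j] s)) = (step t α)^[j+1] s := by
    rw [Function.iterate_succ_apply']; rfl
  rw [e] at hn ⊢
  rcases Nat.lt_or_ge (j+1) m with h | h
  · exact (h1 _ h).2
  · have : j + 1 = m := by omega
    rw [this] at hn
    exact absurd h2 hn

lemma good_inj {G : Finset V} {α : Tot V b} (hα : GoodP t s G α) {i i' : V} (hi : i ∉ G)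
    (hi' : i' ∉ G) (hodd : IsOdd (α i)) (hodd' : IsOdd (α i')) (hne : i ≠ i') :
    t i (α i) ≠ t i' (α i') := by
  obtain ⟨m, h1, h2, h3⟩ := hα
  have key : ∀ k, k ∉ G → IsOdd (α k) → ∃ j < m, (step t α)^[j] s = k := by
    intro k hk hko
    by_contra hcon
    push Not at hcon
    exact h3 k hk hcon hko
  obtain ⟨j, hj, ej⟩ := key i hi hodd
  obtain ⟨l, hl, el⟩ := key i' hi' hodd'
  have hjl : j ≠ l := by
    rintro rfl; exact hne (ej.symm.trans el)
  have e : t i (α i) = (step t α)^[j+1] s := by
    rw [Function.iterate_succ_apply', ej]; rfl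
  have e' : t i' (α i') = (step t α)^[l+1] s := by
    rw [Function.iterate_succ_apply', el]; rfl
  rw [e, e']
  rcases Nat.lt_or_ge j l with h | h
  · exact path_inj s (fun j hj => (h1 j hj).1) h2 (by omega) (by omega)
  · exact (path_inj s (fun j hj => (h1 j hj).1) h2 (show l+1 < j+1 by omega) (by omega)).symm

/-- iterates agree as long as the path avoids the changed vertex -/
lemma iterate_congr_avoid {f g : V → V} {i : V} (hfg : ∀ j, j ≠ i → g j = f j) {m : ℕ}
    (h : ∀ j < m, f^[j] s ≠ i) : ∀ j ≤ m, g^[j] s = f^[j] s := by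
  intro j
  induction j with
  | zero => intro _; rfl
  | succ j ih =>
    intro hj
    rw [Function.iterate_succ_apply', Function.iterate_succ_apply', ih (by omega)]
    exact hfg _ (h j (by omega))

/-- removal of one vertex from `G`. -/
lemma removal {ρ : Par V b} {G : Finset V} {i : V} (hi : i ∈ G) {xe xo : Pt b}
    (hxe : Mem xe (ρ i)) (hxe' : ¬ IsOdd xe) (hxo : Mem xo (ρ i)) (hxo' : IsOdd xo)
    (ht : t i xo ∈ G) (hti : t i xo ≠ i) :
    (good t s ρ G).card ≤ 2 ^ level (ρ i) * (good t s ρ (G.erase i)).card := by
  set endI : Tot V b → Prop := fun α =>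
    ∃ m : ℕ, (∀ j < m, (step t α)^[j] s ∉ G) ∧ (step t α)^[m] s = i with hend
  set Φ : Tot V b → Tot V b := fun α =>
    if endI α then Function.update α i xo else Function.update α i xe with hΦ
  apply Finset.card_le_mul_card_image_of_maps_to (f := Φ)
  · intro α hα
    simp only [good, Finset.mem_filter, Finset.mem_univ, true_and] at hα ⊢
    obtain ⟨hE, m, h1, h2, h3⟩ := hα
    have havoid : ∀ j < m, (step t α)^[j] s ≠ i := by
      intro j hj h
      exact (h1 j hj).1 (h ▸ hi)
    by_cases hc : endI α
    · have hΦα : Φ α = Function.update α i xo := by simp [hΦ, hc]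
      rw [hΦα]
      -- the end of the path is i
      have hmi : (step t α)^[m] s = i := by
        obtain ⟨m', h1', h2'⟩ := hc
        rcases lt_trichotomy m m' with h | h | h
        · exact absurd h2 (h1' m h)
        · rw [h]; exact h2'
        · exact absurd (h2' ▸ hi) (h1 m' h).1
      set β := Function.update α i xo with hβ
      have hfg : ∀ j, j ≠ i → step t β j = step t α j := by
        intro j hj; simp [step, hβ, hj]
      have hit := iterate_congr_avoid s hfg havoid
      have hm' : (step t β)^[m] s = i := by rw [hit m le_rfl, hmi]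
      have hm1 : (step t β)^[m+1] s = t i xo := by
        rw [Function.iterate_succ_apply', hm']; simp [step, hβ]
      refine ⟨?_, m+1, ?_, ?_, ?_⟩
      · intro j
        by_cases hj : j = i
        · subst hj; simpa [hβ] using hxo
        · simpa [hβ, hj] using hE j
      · intro j hj
        rcases Nat.lt_or_ge j m with h | h
        · rw [hit j h.le]
          refine ⟨fun hmem => (h1 j h).1 (Finset.mem_of_mem_erase hmem), ?_⟩
          have := havoid j h
          simpa [hβ, this] using (h1 j h).2
        · have : j = m := by omega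
          subst this
          rw [hm']
          exact ⟨by simp, by simpa [hβ] using hxo'⟩
      · rw [hm1]
        exact Finset.mem_erase.mpr ⟨hti, ht⟩
      · intro k hk hk'
        have hki : k ≠ i := by
          intro h
          exact hk' m (by omega) (by rw [hm', h])
        have hkG : k ∉ G := fun h => hk (Finset.mem_erase.mpr ⟨hki, h⟩)
        have := h3 k hkG (fun j hj => by
          have := hk' j (by omega)
          rwa [hit j hj.le] at this)
        simpa [hβ, hki] using this
    · have hΦα : Φ α = Function.update α i xe := by simp [hΦ, hc]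
      rw [hΦα]
      have hmi : (step t α)^[m] s ≠ i := by
        intro h
        exact hc ⟨m, fun j hj => (h1 j hj).1, h⟩
      set β := Function.update α i xe with hβ
      have hfg : ∀ j, j ≠ i → step t β j = step t α j := by
        intro j hj; simp [step, hβ, hj]
      have hit := iterate_congr_avoid s hfg havoid
      refine ⟨?_, m, ?_, ?_, ?_⟩
      · intro j
        by_cases hj : j = i
        · subst hj; simpa [hβ] using hxe
        · simpa [hβ, hj] using hE j
      · intro j hj
        rw [hit j hj.le]
        refine ⟨fun hmem => (h1 j hj).1 (Finset.mem_of_mem_erase hmem), ?_⟩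
        have := havoid j hj
        simpa [hβ, this] using (h1 j hj).2
      · rw [hit m le_rfl]
        exact Finset.mem_erase.mpr ⟨hmi, h2⟩
      · intro k hk hk'
        by_cases hki : k = i
        · subst hki; simpa [hβ] using hxe'
        · have hkG : k ∉ G := fun h => hk (Finset.mem_erase.mpr ⟨hki, h⟩)
          have := h3 k hkG (fun j hj => by
            have := hk' j hj
            rwa [hit j hj.le] at this)
          simpa [hβ, hki] using this
  · intro β _
    rw [← card_pts]
    apply Finset.card_le_card_of_injOn (fun α => α i)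
    · intro α hα
      simp only [Finset.coe_filter, Set.mem_ofPred_eq, good, Finset.mem_filter, Finset.mem_univ,
        true_and] at hα
      simp only [Finset.mem_coe, mem_pts]
      exact hα.1.1 i
    · intro α hα α' hα' hαα
      simp only [Finset.coe_filter, Set.mem_ofPred_eq] at hα hα'
      have e := hα.2.trans hα'.2.symm
      funext j
      by_cases hj : j = i
      · subst hj; exact hαα
      · have := congrFun e j
        simp only [hΦ] at this
        split_ifs at this <;> simpa [hj] using this

end Potential

end Pool.Agent.Lib.MP_ce949a_lc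
end

section

set_option autoImplicit false
set_option linter.unusedSectionVars false

namespace Pool.Agent.Lib.MP_ce949a_lc

open Finset Classical

section Support

variable {V : Type*} [Fintype V] [DecidableEq V] {b : ℕ}
variable (t : V → Pt b → V) (r τ : ℕ)

/-- odd points of the cube `Q` whose target lies in `S` -/
noncomputable def opts (i : V) (Q : Cube b) (S : Finset V) : Finset (Pt b) :=
  univ.filter (fun x => Mem x Q ∧ IsOdd x ∧ t i x ∈ S)

lemma opts_mono (i : V) {Q Q' : Cube b} (hQ : ∀ x, Mem x Q → Mem x Q') {S S' : Finset V}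
    (hS : S ⊆ S') : opts t i Q S ⊆ opts t i Q' S' := by
  intro x hx
  simp only [opts, Finset.mem_filter, Finset.mem_univ, true_and] at hx ⊢
  exact ⟨hQ x hx.1, hx.2.1, hS hx.2.2⟩

/-- pigeons with a poor `r`-cube towards `S` -/
noncomputable def Exc (S : Finset V) : Finset V :=
  univ.filter (fun i => ∃ Q : Cube b, level Q = r ∧ (opts t i Q S).card < τ)

lemma mem_Exc {S : Finset V} {i : V} :
    i ∈ Exc t r τ S ↔ ∃ Q : Cube b, level Q = r ∧ (opts t i Q S).card < τ := by
  simp [Exc]

lemma Exc_anti {S S' : Finset V} (h : S ⊆ S') : Exc t r τ S' ⊆ Exc t r τ S := by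
  intro i hi
  rw [mem_Exc] at hi ⊢
  obtain ⟨Q, hQ, hc⟩ := hi
  exact ⟨Q, hQ, lt_of_le_of_lt (Finset.card_le_card (opts_mono t i (fun x h => h) h)) hc⟩

/-- supporting sets -/
def Supp (S : Finset V) : Prop := ∀ i ∈ S, i ∉ Exc t r τ S

/-- largest supporting subset -/
noncomputable def GG (L : Finset V) : Finset V :=
  (L.powerset.filter (fun S => Supp t r τ S)).biUnion id

lemma GG_subset (L : Finset V) : GG t r τ L ⊆ L := by
  intro i hi
  simp only [GG, Finset.mem_biUnion, Finset.mem_filter, Finset.mem_powerset, id] at hi
  obtain ⟨S, ⟨hS, _⟩, hi⟩ := hi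
  exact hS hi

lemma subset_GG {L S : Finset V} (hS : S ⊆ L) (h : Supp t r τ S) : S ⊆ GG t r τ L := by
  intro i hi
  simp only [GG, Finset.mem_biUnion, Finset.mem_filter, Finset.mem_powerset, id]
  exact ⟨S, ⟨hS, h⟩, hi⟩

lemma GG_supp (L : Finset V) : Supp t r τ (GG t r τ L) := by
  intro i hi hE
  have hi' := hi
  simp only [GG, Finset.mem_biUnion, Finset.mem_filter, Finset.mem_powerset, id] at hi'
  obtain ⟨S, ⟨hS, hS'⟩, hiS⟩ := hi'
  exact hS' i hiS (Exc_anti t r τ (subset_GG t r τ hS hS') hE)

lemma GG_mono {L L' : Finset V} (h : L ⊆ L') : GG t r τ L ⊆ GG t r τ L' :=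
  subset_GG t r τ ((GG_subset t r τ L).trans h) (GG_supp t r τ L)

lemma mem_Exc_GG {L : Finset V} {i : V} (hi : i ∈ L) (hi' : i ∉ GG t r τ L) :
    i ∈ Exc t r τ (GG t r τ L) := by
  by_contra hE
  apply hi'
  have hsub : GG t r τ L ⊆ insert i (GG t r τ L) := Finset.subset_insert _ _
  have hsupp : Supp t r τ (insert i (GG t r τ L)) := by
    intro j hj hjE
    have hjE' := Exc_anti t r τ hsub hjE
    rcases Finset.mem_insert.mp hj with rfl | hj
    · exact hE hjE'
    · exact GG_supp t r τ L j hj hjE'
  exact subset_GG t r τ (Finset.insert_subset hi (GG_subset t r τ L)) hsupp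
    (Finset.mem_insert_self _ _)

/-- peeling: if all sets of size at least `A` have fewer than `B` poor pigeons, then a set
of size at least `A + B` loses fewer than `B` elements. -/
lemma exists_supp {A B : ℕ} (hP2 : ∀ S : Finset V, A ≤ S.card → (Exc t r τ S).card < B)
    {L : Finset V} (hL : A + B ≤ L.card) :
    ∃ T ⊆ L, Supp t r τ T ∧ (L \ T).card < B := by
  have key : ∀ j ≤ B, (∃ T ⊆ L, Supp t r τ T ∧ (L \ T).card < j) ∨
      (∃ T ⊆ L, (L \ T).card = j ∧ L \ T ⊆ Exc t r τ T) := by
    intro j
    induction j with
    | zero =>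
      intro _
      right
      exact ⟨L, subset_rfl, by simp, by simp⟩
    | succ j ih =>
      intro hj
      rcases ih (by omega) with ⟨T, h1, h2, h3⟩ | ⟨T, h1, h2, h3⟩
      · left; exact ⟨T, h1, h2, by omega⟩
      · by_cases hT : Supp t r τ T
        · left; exact ⟨T, h1, hT, by omega⟩
        · right
          unfold Supp at hT
          push Not at hT
          obtain ⟨i, hi, hiE⟩ := hT
          have hsd : L \ T.erase i = insert i (L \ T) := by
            ext k
            simp only [Finset.mem_sdiff, Finset.mem_erase, Finset.mem_insert]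
            constructor
            · rintro ⟨hk, hk'⟩
              by_cases h : k = i
              · left; exact h
              · right; exact ⟨hk, fun h' => hk' ⟨h, h'⟩⟩
            · rintro (rfl | ⟨hk, hk'⟩)
              · exact ⟨h1 hi, fun h => h.1 rfl⟩
              · exact ⟨hk, fun h => hk' h.2⟩
          refine ⟨T.erase i, (Finset.erase_subset _ _).trans h1, ?_, ?_⟩
          · rw [hsd, Finset.card_insert_of_notMem (by simp [hi]), h2]
          · rw [hsd]
            apply Finset.insert_subset
            · exact Exc_anti t r τ (Finset.erase_subset _ _) hiE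
            · exact h3.trans (Exc_anti t r τ (Finset.erase_subset _ _))
  rcases key B le_rfl with h | ⟨T, h1, h2, h3⟩
  · exact h
  · exfalso
    have hc : T.card + (L \ T).card = L.card := by
      have := Finset.card_sdiff_add_card_eq_card h1
      omega
    have := hP2 T (by omega)
    have := Finset.card_le_card h3
    omega

lemma GG_large {A B : ℕ} (hP2 : ∀ S : Finset V, A ≤ S.card → (Exc t r τ S).card < B)
    {L : Finset V} (hL : A + B ≤ L.card) :
    (L \ GG t r τ L).card < B ∧ (Exc t r τ (GG t r τ L)).card < B := by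
  obtain ⟨T, h1, h2, h3⟩ := exists_supp t r τ hP2 hL
  have hT := subset_GG t r τ h1 h2
  have hd : (L \ GG t r τ L).card < B :=
    lt_of_le_of_lt (Finset.card_le_card (Finset.sdiff_subset_sdiff subset_rfl hT)) h3
  refine ⟨hd, hP2 _ ?_⟩
  have := Finset.card_sdiff_add_card_eq_card (GG_subset t r τ L)
  omega

variable (s : V)

/-- every cube of level at least `r` contains a cube of level exactly `r`. -/
lemma exists_subcube {Q : Cube b} {r : ℕ} (h : r ≤ level Q) :
    ∃ Q' : Cube b, level Q' = r ∧ ∀ x, Mem x Q' → Mem x Q := by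
  obtain ⟨Z, hZ, hZc⟩ := Finset.exists_subset_card_eq h
  refine ⟨fun a => if a ∈ Z then none else some ((Q a).getD false), ?_, ?_⟩
  · rw [← hZc]
    unfold level
    congr 1
    ext a
    simp
  · intro x hx a v hv
    have hZa : a ∉ Z := by
      intro ha
      have := hZ ha
      simp at this
      rw [this] at hv; cases hv
    apply hx a v
    simp [hZa, hv]

/-- removal of a set by reverse peeling -/
lemma removal_set {B : ℕ}
    (hP1 : ∀ S : Finset V, S.Nonempty → S.card ≤ B →
      ∃ i ∈ S, ∀ Q : Cube b, level Q = r → (opts t i Q S).card < τ)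
    (ρ : Par V b) {G : Finset V} (hG : Supp t r τ G) (hr : 0 < r)
    (hlev : ∀ i ∈ G, r ≤ level (ρ i)) :
    ∀ n : ℕ, ∀ S : Finset V, S.card = n → S ⊆ G → S.card ≤ B →
      (good t s ρ G).card ≤ 2 ^ (∑ i ∈ S, level (ρ i)) * (good t s ρ (G \ S)).card := by
  intro n
  induction n with
  | zero =>
    intro S hS _ _
    rw [Finset.card_eq_zero] at hS
    subst hS
    simp
  | succ n ih =>
    intro S hS hSG hSB
    have hne : S.Nonempty := by rw [← Finset.card_pos]; omega
    obtain ⟨i, hi, hiS⟩ := hP1 S hne hSB
    have hcard : (S.erase i).card = n := by rw [Finset.card_erase_of_mem hi]; omega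
    have h1 := ih (S.erase i) hcard ((Finset.erase_subset _ _).trans hSG) (by omega)
    have hiG : i ∈ G := hSG hi
    obtain ⟨Q', hQ', hsub⟩ := exists_subcube (hlev i hiG)
    have hmany : ¬ (opts t i Q' G).card < τ := by
      intro h
      exact hG i hiG ((mem_Exc t r τ).mpr ⟨Q', hQ', h⟩)
    have hfew := hiS Q' hQ'
    have : ∃ x ∈ opts t i Q' G, x ∉ opts t i Q' S := by
      by_contra hcon
      push Not at hcon
      have := Finset.card_le_card (show opts t i Q' G ⊆ opts t i Q' S from hcon)
      omega
    obtain ⟨xo, hx1, hx2⟩ := this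
    simp only [opts, Finset.mem_filter, Finset.mem_univ, true_and] at hx1 hx2
    have hxS : t i xo ∉ S := fun h => hx2 ⟨hx1.1, hx1.2.1, h⟩
    obtain ⟨xe, hxe, hxe'⟩ := exists_even (ρ i) (lt_of_lt_of_le hr (hlev i hiG))
    have hmem : i ∈ G \ S.erase i := by simp [hiG]
    have h2 := removal t s (ρ := ρ) hmem hxe hxe' (hsub _ hx1.1) hx1.2.1
      (by rw [Finset.mem_sdiff]; exact ⟨hx1.2.2, fun h => hxS (Finset.mem_of_mem_erase h)⟩)
      (by rintro h; rw [h] at hxS; exact hxS hi)
    have he : (G \ S.erase i).erase i = G \ S := by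
      ext k
      simp only [Finset.mem_erase, Finset.mem_sdiff]
      constructor
      · rintro ⟨h1, h2, h3⟩
        exact ⟨h2, fun h => h3 ⟨h1, h⟩⟩
      · rintro ⟨h1, h2⟩
        exact ⟨fun h => h2 (h ▸ hi), h1, fun h => h2 h.2⟩
    rw [he] at h2
    calc (good t s ρ G).card
        ≤ 2 ^ (∑ i ∈ S.erase i, level (ρ i)) * (good t s ρ (G \ S.erase i)).card := h1
      _ ≤ 2 ^ (∑ i ∈ S.erase i, level (ρ i)) *
          (2 ^ level (ρ i) * (good t s ρ (G \ S)).card) := Nat.mul_le_mul_left _ h2
      _ = 2 ^ (∑ i ∈ S, level (ρ i)) * (good t s ρ (G \ S)).card := by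
          rw [← Finset.sum_erase_add S _ hi, pow_add, mul_assoc]

/-- pigeons with at least `r` unset variables -/
noncomputable def LL (ρ : Par V b) : Finset V := univ.filter (fun i => r ≤ level (ρ i))

lemma mem_LL {ρ : Par V b} {i : V} : i ∈ LL r ρ ↔ r ≤ level (ρ i) := by simp [LL]

lemma level_setv_self {ρ : Par V b} {i : V} {a : Fin b} (v : Bool) (h : ρ i a = none) :
    level (setv ρ i a v i) + 1 = level (ρ i) := by
  unfold level setv
  simp only [Function.update_self]
  have : (univ.filter (fun c => ρ i c = none)) =
      insert a (univ.filter (fun c => Function.update (ρ i) a (some v) c = none)) := by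
    ext c
    rw [Finset.mem_insert, Finset.mem_filter, Finset.mem_filter]
    by_cases hc : c = a
    · subst hc; simp [h]
    · simp [hc]
  rw [this, Finset.card_insert_of_notMem (by simp)]

lemma level_setv_ne {ρ : Par V b} {i j : V} {a : Fin b} (v : Bool) (h : j ≠ i) :
    level (setv ρ i a v j) = level (ρ j) := by
  simp [setv, h]

lemma LL_setv {ρ : Par V b} {i : V} {a : Fin b} (v : Bool) (h : ρ i a = none) :
    LL r (setv ρ i a v) = if level (ρ i) = r then (LL r ρ).erase i else LL r ρ := by
  ext j
  by_cases hj : j = i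
  · subst hj
    have := level_setv_self v h
    split_ifs with hc
    · simp only [mem_LL, Finset.mem_erase, ne_eq, not_true_eq_false, false_and, iff_false]
      omega
    · simp only [mem_LL]
      omega
  · split_ifs with hc
    · simp [mem_LL, Finset.mem_erase, hj, level_setv_ne v hj]
    · simp [mem_LL, level_setv_ne v hj]

/-- the potential -/
noncomputable def Psi (ρ : Par V b) : ℕ :=
  (good t s ρ (GG t r τ (LL r ρ))).card *
    2 ^ (r * (univ \ LL r ρ).card + b * (Exc t r τ (GG t r τ (LL r ρ))).card)

lemma level_le (Q : Cube b) : level Q ≤ b := by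
  unfold level
  exact (Finset.card_le_univ _).trans (by simp)

lemma Psi_step {A B : ℕ}
    (hP2 : ∀ S : Finset V, A ≤ S.card → (Exc t r τ S).card < B)
    (hP1 : ∀ S : Finset V, S.Nonempty → S.card ≤ B →
      ∃ i ∈ S, ∀ Q : Cube b, level Q = r → (opts t i Q S).card < τ)
    (hr : 0 < r) {ρ : Par V b} {p : V} {a : Fin b} (hp : ρ p a = none)
    (hL : A + B ≤ (LL r (setv ρ p a false)).card) :
    Psi t r τ s ρ ≤ Psi t r τ s (setv ρ p a false) + Psi t r τ s (setv ρ p a true) := by
  have hLft : LL r (setv ρ p a true) = LL r (setv ρ p a false) := by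
    rw [LL_setv r true hp, LL_setv r false hp]
  unfold Psi
  rw [hLft, ← add_mul, ← good_card_split t s hp]
  set L' := LL r (setv ρ p a false) with hL'
  by_cases hc : level (ρ p) = r
  · have e : L' = (LL r ρ).erase p := by rw [hL', LL_setv r false hp, if_pos hc]
    have hpL : p ∈ LL r ρ := by rw [mem_LL]; omega
    have hsubL : L' ⊆ LL r ρ := by rw [e]; exact Finset.erase_subset _ _
    set G := GG t r τ (LL r ρ) with hGdef
    set G' := GG t r τ L' with hG'def
    have hGG : G' ⊆ G := GG_mono t r τ hsubL
    set D := G \ G' with hD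
    have hDsub : D ⊆ insert p (L' \ G') := by
      intro i hi
      rw [hD, Finset.mem_sdiff] at hi
      rw [Finset.mem_insert, Finset.mem_sdiff]
      by_cases hip : i = p
      · left; exact hip
      · right
        refine ⟨?_, hi.2⟩
        rw [e]
        exact Finset.mem_erase.mpr ⟨hip, GG_subset t r τ _ hi.1⟩
    have hDcard : D.card ≤ B := by
      have h1 := Finset.card_le_card hDsub
      have h2 := Finset.card_insert_le p (L' \ G')
      have h3 : (L' \ G').card < B := (GG_large t r τ hP2 hL).1
      omega
    have hrem := removal_set t r τ s hP1 ρ (GG_supp t r τ (LL r ρ)) hr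
      (fun i hi => (mem_LL r).mp (GG_subset t r τ _ hi)) D.card D rfl
      Finset.sdiff_subset hDcard
    have hsd : G \ D = G' := by
      rw [hD]; exact Finset.sdiff_sdiff_eq_self hGG
    rw [← hGdef, hsd] at hrem
    -- bound the exponent
    have hExc : Exc t r τ G ⊆ Exc t r τ G' := Exc_anti t r τ hGG
    have hDexc : D.erase p ⊆ Exc t r τ G' \ Exc t r τ G := by
      intro i hi
      rw [Finset.mem_erase] at hi
      have hiD := hDsub hi.2
      rw [Finset.mem_insert] at hiD
      rcases hiD with h | h
      · exact absurd h hi.1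
      · rw [Finset.mem_sdiff] at h
        rw [Finset.mem_sdiff]
        refine ⟨mem_Exc_GG t r τ h.1 h.2, ?_⟩
        have : i ∈ G := by
          have := hi.2
          rw [hD, Finset.mem_sdiff] at this
          exact this.1
        exact GG_supp t r τ (LL r ρ) i this
    have hsum : ∑ i ∈ D, level (ρ i) ≤ r + b * (D.erase p).card := by
      by_cases hpD : p ∈ D
      · rw [← Finset.sum_erase_add D _ hpD, hc, add_comm]
        gcongr
        calc ∑ i ∈ D.erase p, level (ρ i) ≤ ∑ i ∈ D.erase p, b :=
              Finset.sum_le_sum (fun i _ => level_le _)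
          _ = b * (D.erase p).card := by rw [Finset.sum_const, smul_eq_mul, mul_comm]
      · rw [Finset.erase_eq_of_notMem hpD]
        calc ∑ i ∈ D, level (ρ i) ≤ ∑ i ∈ D, b :=
              Finset.sum_le_sum (fun i _ => level_le _)
          _ = b * D.card := by rw [Finset.sum_const, smul_eq_mul, mul_comm]
          _ ≤ r + b * D.card := Nat.le_add_left _ _
    have hcardE : (D.erase p).card + (Exc t r τ G).card ≤ (Exc t r τ G').card := by
      have h1 := Finset.card_le_card hDexc
      have h2 := Finset.card_sdiff_add_card_eq_card hExc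
      omega
    have hcompl : (univ \ L').card = (univ \ LL r ρ).card + 1 := by
      rw [e]
      have : (univ \ (LL r ρ).erase p) = insert p (univ \ LL r ρ) := by
        ext k
        simp only [Finset.mem_sdiff, Finset.mem_univ, true_and, Finset.mem_erase,
          Finset.mem_insert]
        tauto
      rw [this, Finset.card_insert_of_notMem (by simp [hpL])]
    calc (good t s ρ G).card * 2 ^ (r * (univ \ LL r ρ).card + b * (Exc t r τ G).card)
        ≤ (2 ^ (∑ i ∈ D, level (ρ i)) * (good t s ρ G').card) *
          2 ^ (r * (univ \ LL r ρ).card + b * (Exc t r τ G).card) :=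
          Nat.mul_le_mul_right _ hrem
      _ = (good t s ρ G').card * 2 ^ ((∑ i ∈ D, level (ρ i)) +
            (r * (univ \ LL r ρ).card + b * (Exc t r τ G).card)) := by
          rw [pow_add]; ring
      _ ≤ (good t s ρ G').card * 2 ^ (r * (univ \ L').card + b * (Exc t r τ G').card) := by
          apply Nat.mul_le_mul_left
          apply Nat.pow_le_pow_right (by norm_num)
          rw [hcompl]
          have := Nat.mul_le_mul_left b hcardE
          rw [mul_add] at this
          rw [mul_add, mul_one]
          omega
  · have e : L' = LL r ρ := by rw [hL', LL_setv r false hp, if_neg hc]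
    rw [e]

/-- trivial bound -/
lemma good_card_le (ρ : Par V b) (G : Finset V) :
    (good t s ρ G).card ≤ 2 ^ (∑ i, level (ρ i)) := by
  have h : good t s ρ G ⊆ Fintype.piFinset (fun i => pts (ρ i)) := by
    intro α hα
    simp only [good, Finset.mem_filter, Finset.mem_univ, true_and] at hα
    rw [Fintype.mem_piFinset]
    intro i
    rw [mem_pts]
    exact hα.1 i
  calc (good t s ρ G).card ≤ _ := Finset.card_le_card h
    _ = ∏ i, 2 ^ level (ρ i) := by
      rw [Fintype.card_piFinset]
      exact Finset.prod_congr rfl (fun i _ => card_pts _)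
    _ = _ := by rw [Finset.prod_pow_eq_pow_sum]

lemma Psi_le {A B : ℕ}
    (hP2 : ∀ S : Finset V, A ≤ S.card → (Exc t r τ S).card < B)
    {ρ : Par V b} (hL : (LL r ρ).card = A + B) :
    Psi t r τ s ρ ≤ 2 ^ ((2 * r) * Fintype.card V + b * (A + B) + b * B) := by
  unfold Psi
  have h1 := good_card_le t s ρ (GG t r τ (LL r ρ))
  have h2 : ∑ i, level (ρ i) ≤ b * (A + B) + r * Fintype.card V := by
    rw [← Finset.sum_filter_add_sum_filter_not univ (fun i => i ∈ LL r ρ)]
    have e1 : ∑ i ∈ univ.filter (fun i => i ∈ LL r ρ), level (ρ i) ≤ b * (A + B) := by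
      calc ∑ i ∈ univ.filter (fun i => i ∈ LL r ρ), level (ρ i)
          ≤ ∑ i ∈ univ.filter (fun i => i ∈ LL r ρ), b :=
            Finset.sum_le_sum (fun i _ => level_le _)
        _ = b * (A + B) := by
            rw [Finset.sum_const, smul_eq_mul, mul_comm]
            congr 1
            rw [← hL]
            congr 1
            ext i; simp
    have e2 : ∑ i ∈ univ.filter (fun i => ¬ i ∈ LL r ρ), level (ρ i) ≤ r * Fintype.card V := by
      calc ∑ i ∈ univ.filter (fun i => ¬ i ∈ LL r ρ), level (ρ i)
          ≤ ∑ i ∈ univ.filter (fun i => ¬ i ∈ LL r ρ), r := by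
            apply Finset.sum_le_sum
            intro i hi
            simp only [Finset.mem_filter, Finset.mem_univ, true_and, mem_LL] at hi
            omega
        _ ≤ r * Fintype.card V := by
            rw [Finset.sum_const, smul_eq_mul, mul_comm]
            exact Nat.mul_le_mul_left _ (Finset.card_le_univ _)
    omega
  have h3 : (univ \ LL r ρ).card ≤ Fintype.card V := Finset.card_le_univ _
  have h4 := (GG_large t r τ hP2 (L := LL r ρ) hL.ge).2
  calc _ ≤ 2 ^ (∑ i, level (ρ i)) *
        2 ^ (r * (univ \ LL r ρ).card + b * (Exc t r τ (GG t r τ (LL r ρ))).card) :=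
        Nat.mul_le_mul_right _ h1
    _ = 2 ^ (∑ i, level (ρ i) +
        (r * (univ \ LL r ρ).card + b * (Exc t r τ (GG t r τ (LL r ρ))).card)) := by
        rw [← pow_add]
    _ ≤ _ := by
        apply Nat.pow_le_pow_right (by norm_num)
        have e3 := Nat.mul_le_mul_left r h3
        have e4 := Nat.mul_le_mul_left b h4.le
        have e5 : 2 * r * Fintype.card V = r * Fintype.card V + r * Fintype.card V := by ring
        omega

/-- the value at the root -/
lemma Psi_root (hb : τ ≤ 2 ^ (r - 1)) (hr : 0 < r) (hrb : r ≤ b) :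
    2 ^ (b * Fintype.card V) ≤ Psi t r τ s (fun _ _ => none) := by
  set ρ : Par V b := fun _ _ => none with hρ
  have hlev : ∀ i, level (ρ i) = b := by
    intro i; simp [level, hρ]
  have hLL : LL r ρ = univ := by
    ext i; simp [mem_LL, hlev, hrb]
  have hExc : Exc t r τ univ = ∅ := by
    rw [Finset.eq_empty_iff_forall_notMem]
    intro i hi
    rw [mem_Exc] at hi
    obtain ⟨Q, hQ, hc⟩ := hi
    have h1 : opts t i Q univ = (pts Q).filter (fun x => IsOdd x) := by
      ext x; simp [opts, mem_pts]
    obtain ⟨r', rfl⟩ : ∃ r', r = r' + 1 := ⟨r - 1, by omega⟩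
    rw [h1, card_odd_pts Q hQ] at hc
    simp at hb
    omega
  have hGG : GG t r τ (LL r ρ) = univ := by
    rw [hLL]
    apply Finset.Subset.antisymm (Finset.subset_univ _)
    apply subset_GG t r τ subset_rfl
    intro i _
    rw [hExc]; simp
  unfold Psi
  have hgood : good t s ρ univ = univ := by
    ext α
    simp only [good, Finset.mem_filter, Finset.mem_univ, true_and, iff_true]
    refine ⟨?_, 0, by simp, by simp, by simp⟩
    intro i a v hv
    simp [hρ] at hv
  rw [hGG, hgood]
  calc 2 ^ (b * Fintype.card V) = (univ : Finset (Tot V b)).card := by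
        simp [Tot, Pt, pow_mul]
    _ ≤ _ := Nat.le_mul_of_pos_right _ (by positivity)

end Support

end Pool.Agent.Lib.MP_ce949a_lc
end
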